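import Mathlib

set_option autoImplicit false

namespace Pool.Agent.Work.MP_77d073_nt

open Filter Topology Module

section flow

variable {X : Type*} [NormedAddCommGroup X] [NormedSpace ℝ X] [FiniteDimensional ℝ X]

/-- Recurrence of a linear flow modulo a cobounded subgroup. -/
theorem recur (Γ : AddSubgroup X) (T : Submodule ℝ X) {R : ℝ}
    (hcob : ∀ y ∈ T, ∃ γ ∈ Γ, ‖y - γ‖ ≤ R) {x : X} (hx : x ∈ T) {ε : ℝ} (hε : 0 < ε) (N : ℝ) :
    ∃ s : ℝ, N ≤ s ∧ ∃ γ ∈ Γ, ‖s • x - γ‖ < ε := by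
  set s0 : ℝ := max N 1 with hs0
  have hs0pos : 0 < s0 := lt_of_lt_of_le one_pos (le_max_right _ _)
  have h1 : ∀ k : ℕ, ∃ γ ∈ Γ, ‖((k : ℝ) * s0) • x - γ‖ ≤ R := fun k => hcob _ (T.smul_mem _ hx)
  choose γ hγ hγR using h1
  have hmem : ∀ k : ℕ, ((k : ℝ) * s0) • x - γ k ∈ Metric.closedBall (0 : X) R := by
    intro k; simpa using hγR k
  obtain ⟨a, -, φ, hφ, hlim⟩ := (isCompact_closedBall (0 : X) R).tendsto_subseq hmem
  have hc := hlim.cauchySeq
  rw [Metric.cauchySeq_iff'] at hc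
  obtain ⟨M, hM⟩ := hc ε hε
  have h2 := hM (M + 1) (by omega)
  have h3 : φ M < φ (M + 1) := hφ (by omega)
  refine ⟨((φ (M + 1) : ℝ) - φ M) * s0, ?_, γ (φ (M+1)) - γ (φ M), Γ.sub_mem (hγ _) (hγ _), ?_⟩
  · have h4 : (1 : ℝ) ≤ (φ (M + 1) : ℝ) - φ M := by
      have : (φ M : ℝ) + 1 ≤ φ (M + 1) := by exact_mod_cast h3
      linarith
    calc N ≤ s0 := le_max_left _ _
      _ = 1 * s0 := (one_mul _).symm
      _ ≤ _ := by gcongr
  · rw [dist_eq_norm] at h2
    simp only [Function.comp] at h2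
    have h5 : (((φ (M + 1) : ℝ) - φ M) * s0) • x - (γ (φ (M+1)) - γ (φ M)) =
        ((φ (M + 1) : ℝ) * s0) • x - γ (φ (M + 1)) - (((φ M : ℝ) * s0) • x - γ (φ M)) := by
      rw [sub_mul, sub_smul]
      abel
    rw [h5]
    exact h2

/-- The closure of `Γ + ℝ x`. -/
noncomputable def cl (Γ : AddSubgroup X) (x : X) : AddSubgroup X :=
  (Γ ⊔ (Submodule.span ℝ {x}).toAddSubgroup).topologicalClosure

/-- The largest linear subspace of the closure of `Γ + ℝ x`. -/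
noncomputable def lin (Γ : AddSubgroup X) (x : X) : Submodule ℝ X where
  carrier := {v | ∀ t : ℝ, t • v ∈ cl Γ x}
  add_mem' := by
    intro a b ha hb t
    rw [smul_add]
    exact (cl Γ x).add_mem (ha t) (hb t)
  zero_mem' := by
    intro t
    rw [smul_zero]
    exact (cl Γ x).zero_mem
  smul_mem' := by
    intro c v hv t
    rw [smul_smul]
    exact hv _

theorem mem_lin_self (Γ : AddSubgroup X) (x : X) : x ∈ lin Γ x := by
  intro t
  apply AddSubgroup.le_topologicalClosure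
  apply AddSubgroup.mem_sup_right
  exact Submodule.smul_mem _ _ (Submodule.mem_span_singleton_self x)

theorem lin_sub_cl {Γ : AddSubgroup X} {x v : X} (hv : v ∈ lin Γ x) : v ∈ cl Γ x := by
  have := hv 1
  rwa [one_smul] at this

theorem sub_cl {Γ : AddSubgroup X} {x v : X} (hv : v ∈ Γ) : v ∈ cl Γ x := by
  apply AddSubgroup.le_topologicalClosure
  exact AddSubgroup.mem_sup_left hv

theorem cl_closed (Γ : AddSubgroup X) (x : X) : IsClosed (cl Γ x : Set X) :=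
  AddSubgroup.isClosed_topologicalClosure _

theorem cl_le {Γ : AddSubgroup X} {T : Submodule ℝ X} (hΓ : ∀ γ ∈ Γ, γ ∈ T) {x : X} (hx : x ∈ T)
    {v : X} (hv : v ∈ cl Γ x) : v ∈ T := by
  have h1 : Γ ⊔ (Submodule.span ℝ {x}).toAddSubgroup ≤ T.toAddSubgroup := by
    apply sup_le
    · intro γ hγ; exact hΓ γ hγ
    · have : Submodule.span ℝ {x} ≤ T := by
        rw [Submodule.span_singleton_le_iff_mem]; exact hx
      exact this
  have h2 : cl Γ x ≤ T.toAddSubgroup :=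
    AddSubgroup.topologicalClosure_minimal _ h1 T.closed_of_finiteDimensional
  exact h2 hv

/-- elements of the closure are approximated by `γ - s x` with `s` large. -/
theorem cl_approx (Γ : AddSubgroup X) (T : Submodule ℝ X) {R : ℝ}
    (hcob : ∀ y ∈ T, ∃ γ ∈ Γ, ‖y - γ‖ ≤ R) {x : X} (hx : x ∈ T) {v : X} (hv : v ∈ cl Γ x)
    {ε : ℝ} (hε : 0 < ε) (N : ℝ) :
    ∃ s : ℝ, N ≤ s ∧ ∃ γ ∈ Γ, ‖γ - s • x - v‖ < ε := by
  have h1 : v ∈ closure ((Γ ⊔ (Submodule.span ℝ {x}).toAddSubgroup : AddSubgroup X) : Set X) := hv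
  rw [Metric.mem_closure_iff] at h1
  obtain ⟨w, hw, hvw⟩ := h1 (ε / 2) (by linarith)
  rw [SetLike.mem_coe, AddSubgroup.mem_sup] at hw
  obtain ⟨γ, hγ, z, hz, rfl⟩ := hw
  obtain ⟨t, rfl⟩ := Submodule.mem_span_singleton.mp hz
  obtain ⟨s, hs, γ', hγ', hsγ⟩ := recur Γ T hcob hx (half_pos hε) (|t| + |N|)
  refine ⟨s - t, ?_, γ + γ', Γ.add_mem hγ hγ', ?_⟩
  · have h2 := le_abs_self t
    have h3 := le_abs_self N
    linarith
  · rw [dist_eq_norm] at hvw
    have h2 : γ + γ' - (s - t) • x - v = -(v - (γ + t • x)) + -(s • x - γ') := by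
      rw [sub_smul]; abel
    rw [h2]
    calc ‖-(v - (γ + t • x)) + -(s • x - γ')‖ ≤ ‖-(v - (γ + t • x))‖ + ‖-(s • x - γ')‖ := norm_add_le _ _
      _ < ε / 2 + ε / 2 := by rw [norm_neg, norm_neg]; exact add_lt_add hvw hsγ
      _ = ε := by ring

/-- The largest subspace of the closure is spanned by its elements of `Γ`. -/
theorem lin_le_span (Γ : AddSubgroup X) (T : Submodule ℝ X) (hΓ : ∀ γ ∈ Γ, γ ∈ T) {R : ℝ}
    (hcob : ∀ y ∈ T, ∃ γ ∈ Γ, ‖y - γ‖ ≤ R) {x : X} (hx : x ∈ T) :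
    lin Γ x ≤ Submodule.span ℝ {γ | γ ∈ Γ ∧ γ ∈ lin Γ x} := by
  obtain ⟨W, hW⟩ := Submodule.exists_isCompl (lin Γ x)
  set P0 : X →ₗ[ℝ] X := W.projection (lin Γ x) hW.symm with hP0
  set P : X →L[ℝ] X := LinearMap.toContinuousLinearMap P0 with hP
  have hPW : ∀ z, P z ∈ W := fun z => Submodule.projection_apply_mem hW.symm z
  have hker : ∀ z, P z = 0 ↔ z ∈ lin Γ x := fun z => Submodule.projection_apply_eq_zero_iff hW.symm
  have hsub : ∀ z, z - P z ∈ lin Γ x := fun z => Submodule.sub_projection_mem hW.symm z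
  have hPC : ∀ z ∈ cl Γ x, P z ∈ cl Γ x := by
    intro z hz
    have h1 := (cl Γ x).sub_mem hz (lin_sub_cl (hsub z))
    simpa using h1
  -- uniform discreteness of the projection
  have hdisc : ∃ δ > 0, ∀ c ∈ cl Γ x, P c ≠ 0 → δ ≤ ‖P c‖ := by
    by_contra hcon
    push Not at hcon
    have h1 : ∀ k : ℕ, ∃ c ∈ cl Γ x, P c ≠ 0 ∧ ‖P c‖ < 1 / ((k : ℝ) + 1) :=
      fun k => hcon _ (by positivity)
    choose c hc hc0 hck using h1
    have hpos : ∀ k, 0 < ‖P (c k)‖ := fun k => norm_pos_iff.mpr (hc0 k)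
    have hlim0 : Tendsto (fun k => ‖P (c k)‖) atTop (𝓝 0) :=
      squeeze_zero (fun k => norm_nonneg _) (fun k => (hck k).le) tendsto_one_div_add_atTop_nhds_zero_nat
    have hmem : ∀ k, (‖P (c k)‖⁻¹) • P (c k) ∈ Metric.sphere (0 : X) 1 := by
      intro k
      rw [mem_sphere_zero_iff_norm, norm_smul, norm_inv, norm_norm, inv_mul_cancel₀ (hpos k).ne']
    obtain ⟨u, hu, φ, hφ, hlim⟩ := (isCompact_sphere (0 : X) 1).tendsto_subseq hmem
    have huW : u ∈ W := by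
      refine W.closed_of_finiteDimensional.mem_of_tendsto hlim (Eventually.of_forall fun k => ?_)
      exact W.smul_mem _ (hPW _)
    have huV : u ∈ lin Γ x := by
      intro t
      -- approximate
      have h2 : Tendsto (fun k => (⌊t / ‖P (c (φ k))‖⌋ : ℝ) • P (c (φ k))) atTop (𝓝 (t • u)) := by
        have h3 : Tendsto (fun k => t • ((‖P (c (φ k))‖⁻¹) • P (c (φ k)))) atTop (𝓝 (t • u)) :=
          hlim.const_smul t
        have h4 : Tendsto (fun k => (⌊t / ‖P (c (φ k))‖⌋ : ℝ) • P (c (φ k)) -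
            t • ((‖P (c (φ k))‖⁻¹) • P (c (φ k)))) atTop (𝓝 0) := by
          rw [tendsto_zero_iff_norm_tendsto_zero]
          refine squeeze_zero (fun k => norm_nonneg _) ?_ (hlim0.comp hφ.tendsto_atTop)
          intro k
          rw [smul_smul, ← sub_smul, norm_smul]
          have h5 : ‖(⌊t / ‖P (c (φ k))‖⌋ : ℝ) - t * ‖P (c (φ k))‖⁻¹‖ ≤ 1 := by
            rw [← div_eq_mul_inv, Real.norm_eq_abs, abs_sub_comm, abs_of_nonneg (by linarith [Int.floor_le (t / ‖P (c (φ k))‖)])]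
            linarith [Int.lt_floor_add_one (t / ‖P (c (φ k))‖)]
          calc _ ≤ 1 * ‖P (c (φ k))‖ := by gcongr
            _ = _ := one_mul _
        have h6 := h4.add h3
        simpa using h6
      refine (cl_closed Γ x).mem_of_tendsto h2 (Eventually.of_forall fun k => ?_)
      have h7 : (⌊t / ‖P (c (φ k))‖⌋ : ℝ) • P (c (φ k)) = ⌊t / ‖P (c (φ k))‖⌋ • P (c (φ k)) := by
        rw [Int.cast_smul_eq_zsmul]
      rw [h7]
      exact (cl Γ x).zsmul_mem (hPC _ (hc _)) _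
    have h8 : u ∈ lin Γ x ⊓ W := ⟨huV, huW⟩
    rw [hW.inf_eq_bot, Submodule.mem_bot] at h8
    rw [mem_sphere_zero_iff_norm, h8, norm_zero] at hu
    exact zero_ne_one hu
  obtain ⟨δ, hδ, hdisc⟩ := hdisc
  intro v hv
  set V' := Submodule.span ℝ {γ | γ ∈ Γ ∧ γ ∈ lin Γ x} with hV'
  have hclosed : IsClosed (V' : Set X) := V'.closed_of_finiteDimensional
  rw [← SetLike.mem_coe, ← hclosed.closure_eq, Metric.mem_closure_iff]
  intro ε hε
  have hvT : v ∈ T := cl_le hΓ hx (lin_sub_cl hv)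
  have h1 : ∀ k : ℕ, ∃ γ ∈ Γ, ‖(k : ℝ) • v - γ‖ ≤ R := fun k => hcob _ (T.smul_mem _ hvT)
  choose γ hγ hγR using h1
  have hPγ : ∀ k, P (γ k) ∈ Metric.closedBall (0 : X) (‖P‖ * R) := by
    intro k
    rw [mem_closedBall_zero_iff]
    have h2 : P (γ k) = - P ((k : ℝ) • v - γ k) := by
      rw [map_sub, (hker _).mpr ((lin Γ x).smul_mem _ hv)]
      simp
    rw [h2, norm_neg]
    refine (P.le_opNorm _).trans ?_
    gcongr
    exact hγR k
  obtain ⟨a, -, φ, hφ, hlim⟩ := (isCompact_closedBall (0 : X) (‖P‖ * R)).tendsto_subseq hPγ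
  have hc := hlim.cauchySeq
  rw [Metric.cauchySeq_iff'] at hc
  obtain ⟨M, hM⟩ := hc δ hδ
  obtain ⟨m, hm⟩ := exists_nat_gt (2 * R / ε)
  set j := M + m + 1 with hj
  have hjM : M + m + 1 ≤ j := le_rfl
  have h2 := hM j (by omega)
  have h3 : P (γ (φ j) - γ (φ M)) = 0 := by
    by_contra hne
    have h4 := hdisc _ ((cl Γ x).sub_mem (sub_cl (hγ (φ j))) (sub_cl (hγ (φ M)))) hne
    rw [dist_eq_norm] at h2
    simp only [Function.comp] at h2
    rw [map_sub] at h4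
    linarith
  have h4 : γ (φ j) - γ (φ M) ∈ lin Γ x := (hker _).mp h3
  have h5 : φ M + m + 1 ≤ φ j := by
    have h6 : ∀ i, φ M + i ≤ φ (M + i) := by
      intro i
      induction i with
      | zero => simp
      | succ i ih =>
        have := hφ (show M + i < M + (i + 1) by omega)
        omega
    have := h6 (m + 1)
    rw [hj]
    have h7 : M + (m + 1) = M + m + 1 := by omega
    rw [h7] at this
    omega
  set q : ℝ := (φ j : ℝ) - φ M with hq
  have hqm : (m : ℝ) + 1 ≤ q := by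
    have : (φ M : ℝ) + m + 1 ≤ φ j := by exact_mod_cast h5
    rw [hq]; linarith
  have hm0 : (0 : ℝ) ≤ m := Nat.cast_nonneg m
  have hqpos : 0 < q := by linarith
  refine ⟨q⁻¹ • (γ (φ j) - γ (φ M)), ?_, ?_⟩
  · apply V'.smul_mem
    exact Submodule.subset_span ⟨Γ.sub_mem (hγ _) (hγ _), h4⟩
  · rw [dist_eq_norm]
    have h6 : v - q⁻¹ • (γ (φ j) - γ (φ M)) =
        q⁻¹ • (((φ j : ℝ) • v - γ (φ j)) - ((φ M : ℝ) • v - γ (φ M))) := by
      have h7 : ((φ j : ℝ) • v - γ (φ j)) - ((φ M : ℝ) • v - γ (φ M)) =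
          q • v - (γ (φ j) - γ (φ M)) := by
        rw [hq, sub_smul]; abel
      rw [h7, smul_sub q⁻¹ (q • v), smul_smul, inv_mul_cancel₀ hqpos.ne', one_smul]
    rw [h6, norm_smul, norm_inv, Real.norm_eq_abs, abs_of_pos hqpos]
    have h8 : ‖((φ j : ℝ) • v - γ (φ j)) - ((φ M : ℝ) • v - γ (φ M))‖ ≤ 2 * R := by
      refine (norm_sub_le _ _).trans ?_
      have := hγR (φ j)
      have := hγR (φ M)
      linarith
    rw [inv_mul_lt_iff₀ hqpos]
    have h9 : 2 * R < m * ε := by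
      rwa [div_lt_iff₀ hε] at hm
    have h10 : (m : ℝ) * ε < q * ε := by
      apply mul_lt_mul_of_pos_right _ hε
      linarith
    linarith

end flow

end Pool.Agent.Work.MP_77d073_nt
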