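import Mathlib

set_option autoImplicit false

namespace Pool.Agent.Work.MP_77d073_nt

open NumberField NumberField.Units NumberField.Units.dirichletUnitTheorem Module

section units

variable (K : Type*) [Field K] [NumberField K]

/-- Units approximate any trace-zero real vector at the infinite places. -/
theorem exists_unit_log_close :
    ∃ R : ℝ, 0 ≤ R ∧ ∀ y : InfinitePlace K → ℝ, ∑ w, (w.mult : ℝ) * y w = 0 →
      ∃ u : (𝓞 K)ˣ, ∀ w : InfinitePlace K, |Real.log (w (u : K)) - y w| ≤ R := by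
  classical
  set b := (basisUnitLattice K).ofZLatticeBasis ℝ (unitLattice K) with hb
  set R0 : ℝ := ∑ i, ‖b i‖ with hR0
  have hR0' : 0 ≤ R0 := Finset.sum_nonneg fun i _ => norm_nonneg _
  refine ⟨(Fintype.card (InfinitePlace K) + 1) * R0, by positivity, ?_⟩
  intro y hy
  set z : logSpace K := fun w => (w.1.mult : ℝ) * y w.1 with hz
  have hfl : ((ZSpan.floor b z : Submodule.span ℤ (Set.range b)) : logSpace K) ∈ unitLattice K := by
    have h1 := (ZSpan.floor b z).2
    have h2 := (basisUnitLattice K).ofZLatticeBasis_span ℝ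
    exact (le_of_eq h2) h1
  obtain ⟨u', -, hu⟩ := Submodule.mem_map.mp hfl
  replace hu : logEmbedding K u' = ZSpan.floor b z := hu
  have hclose : ‖z - logEmbedding K u'‖ ≤ R0 := by
    rw [hu]
    have := ZSpan.norm_fract_le (K := ℝ) b z
    simpa [ZSpan.fract] using this
  set u : (𝓞 K)ˣ := u'.toMul with hu'
  have hcomp : ∀ w : {w : InfinitePlace K // w ≠ w₀},
      |(w.1.mult : ℝ) * y w.1 - w.1.mult * Real.log (w.1 (u : K))| ≤ R0 := by
    intro w
    have h1 := norm_le_pi_norm (z - logEmbedding K u') w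
    have h2 : (z - logEmbedding K u') w =
      (w.1.mult : ℝ) * y w.1 - w.1.mult * Real.log (w.1 (u : K)) := by
      simp [hz, hu', logEmbedding]
    rw [h2, Real.norm_eq_abs] at h1
    exact h1.trans hclose
  have hw0 : |((w₀ : InfinitePlace K).mult : ℝ) * y w₀ - (w₀ : InfinitePlace K).mult * Real.log ((w₀ : InfinitePlace K) (u : K))|
      ≤ Fintype.card (InfinitePlace K) * R0 := by
    have h1 := sum_mult_mul_log u
    rw [Fintype.sum_eq_add_sum_subtype_ne _ w₀] at h1 hy
    have h2 : ((w₀ : InfinitePlace K).mult : ℝ) * y w₀ - (w₀ : InfinitePlace K).mult * Real.log ((w₀ : InfinitePlace K) (u : K))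
      = - ∑ w : {w : InfinitePlace K // w ≠ w₀},
          ((w.1.mult : ℝ) * y w.1 - w.1.mult * Real.log (w.1 (u : K))) := by
      rw [Finset.sum_sub_distrib]
      linarith
    rw [h2, abs_neg]
    calc |∑ w : {w : InfinitePlace K // w ≠ w₀},
          ((w.1.mult : ℝ) * y w.1 - w.1.mult * Real.log (w.1 (u : K)))|
        ≤ ∑ w : {w : InfinitePlace K // w ≠ w₀}, |(w.1.mult : ℝ) * y w.1 - w.1.mult * Real.log (w.1 (u : K))| :=
          Finset.abs_sum_le_sum_abs _ _
      _ ≤ ∑ w : {w : InfinitePlace K // w ≠ w₀}, R0 := Finset.sum_le_sum fun w _ => hcomp w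
      _ = Fintype.card {w : InfinitePlace K // w ≠ w₀} * R0 := by simp
      _ ≤ Fintype.card (InfinitePlace K) * R0 := by
          gcongr
          exact Fintype.card_subtype_le _
  refine ⟨u, fun w => ?_⟩
  have hmult : (1 : ℝ) ≤ w.mult := by
    exact_mod_cast InfinitePlace.mult_pos
  have hmain : |(w.mult : ℝ) * y w - w.mult * Real.log (w (u : K))| ≤
      (Fintype.card (InfinitePlace K) + 1) * R0 := by
    by_cases h : w = w₀
    · subst h
      exact hw0.trans (by nlinarith)
    · refine (hcomp ⟨w, h⟩).trans ?_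
      have : (0 : ℝ) ≤ Fintype.card (InfinitePlace K) := by positivity
      nlinarith
  rw [← mul_sub, abs_mul, abs_of_pos (by linarith : (0 : ℝ) < w.mult)] at hmain
  rw [abs_sub_comm]
  have : |y w - Real.log (w (u : K))| ≤ w.mult * |y w - Real.log (w (u : K))| := by
    have := abs_nonneg (y w - Real.log (w (u : K)))
    nlinarith
  exact this.trans hmain


/-- Conjugation-symmetric vectors of trace zero. -/
noncomputable def TZ : Submodule ℝ ((K →+* ℂ) → ℂ) where
  carrier := {x | (∀ σ, x (ComplexEmbedding.conjugate σ) = (starRingEnd ℂ) (x σ)) ∧ ∑ σ, x σ = 0}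
  add_mem' := by
    rintro a b ⟨ha, ha'⟩ ⟨hb, hb'⟩
    refine ⟨fun σ => by simp [ha, hb], ?_⟩
    simp [Finset.sum_add_distrib, ha', hb']
  zero_mem' := by simp
  smul_mem' := by
    rintro c x ⟨hx, hx'⟩
    refine ⟨fun σ => by simp [hx], ?_⟩
    simp [← Finset.mul_sum, hx']

/-- Logarithms of units: vectors `x` with `exp (x σ) = σ u` for a unit `u`. -/
noncomputable def Gam : AddSubgroup ((K →+* ℂ) → ℂ) where
  carrier := {x | x ∈ TZ K ∧ ∃ u : (𝓞 K)ˣ, ∀ σ : K →+* ℂ, Complex.exp (x σ) = σ (u : K)}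
  add_mem' := by
    rintro a b ⟨ha, u, hu⟩ ⟨hb, v, hv⟩
    refine ⟨(TZ K).add_mem ha hb, u * v, fun σ => ?_⟩
    simp [Complex.exp_add, hu, hv]
  zero_mem' := ⟨(TZ K).zero_mem, 1, fun σ => by simp⟩
  neg_mem' := by
    rintro a ⟨ha, u, hu⟩
    refine ⟨(TZ K).neg_mem ha, u⁻¹, fun σ => ?_⟩
    rw [Pi.neg_apply, Complex.exp_neg, hu]
    have h1 : ((u⁻¹ : (𝓞 K)ˣ) : K) = (u : K)⁻¹ := by
      have := coe_zpow u (-1)
      simpa using this
    rw [h1, map_inv₀]

variable {K}

theorem Gam_le_TZ {x : (K →+* ℂ) → ℂ} (hx : x ∈ Gam K) : x ∈ TZ K := hx.1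

variable (K)

theorem TZ_re_sum {x : (K →+* ℂ) → ℂ} (hx : x ∈ TZ K) :
    ∑ w : InfinitePlace K, (w.mult : ℝ) * (x w.embedding).re = 0 := by
  classical
  have h1 : ∀ σ : K →+* ℂ, (x (InfinitePlace.mk σ).embedding).re = (x σ).re := by
    intro σ
    rcases InfinitePlace.embedding_mk_eq σ with h | h
    · rw [h]
    · rw [h, hx.1 σ]; simp
  have h2 : ∑ σ : K →+* ℂ, (x σ).re = 0 := by
    have := congrArg Complex.re hx.2
    simpa using this
  rw [← h2, ← Finset.univ.sum_fiberwise (fun σ : K →+* ℂ => InfinitePlace.mk σ)]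
  refine Finset.sum_congr rfl fun w _ => ?_
  have h3 : ∀ σ ∈ (Finset.univ.filter fun σ : K →+* ℂ => InfinitePlace.mk σ = w),
      (x σ).re = (x w.embedding).re := by
    intro σ hσ
    rw [← h1 σ, (Finset.mem_filter.mp hσ).2]
  rw [Finset.sum_congr rfl h3, Finset.sum_const, InfinitePlace.card_filter_mk_eq, nsmul_eq_mul]

/-- twice the argument, zero on the branch cut -/
noncomputable def targ (z : ℂ) : ℝ := if z.arg = Real.pi then 0 else 2 * z.arg

theorem targ_conj (z : ℂ) : targ ((starRingEnd ℂ) z) = - targ z := by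
  unfold targ
  rw [Complex.arg_conj]
  by_cases h : z.arg = Real.pi
  · simp [h]
  · have h1 : -z.arg ≠ Real.pi := by
      have := Complex.neg_pi_lt_arg z
      intro h2
      linarith
    simp [h, h1]

theorem exp_targ {z : ℂ} (hz : z ≠ 0) :
    Complex.exp ((2 * Real.log ‖z‖ : ℝ) + (targ z : ℝ) * Complex.I) = z ^ 2 := by
  have h0 : (‖z‖ : ℂ) ≠ 0 := by simpa using hz
  have h1 : Complex.exp ((2 * Real.log ‖z‖ : ℝ)) = (‖z‖ : ℂ) ^ 2 := by
    rw [← Complex.ofReal_exp, ← Complex.ofReal_pow]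
    congr 1
    rw [two_mul, Real.exp_add, Real.exp_log (by simpa using hz)]
    ring
  have h2 : Complex.exp ((targ z : ℝ) * Complex.I) = Complex.exp (z.arg * Complex.I) ^ 2 := by
    rw [← Complex.exp_nat_mul]
    unfold targ
    by_cases h : z.arg = Real.pi
    · rw [if_pos h, h]
      push_cast
      rw [zero_mul, Complex.exp_zero, ← mul_assoc, Complex.exp_two_pi_mul_I]
    · rw [if_neg h]
      push_cast
      congr 1
      ring
  rw [Complex.exp_add, h1, h2, ← mul_pow, Complex.norm_mul_exp_arg_mul_I]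

/-- rounding toward zero -/
noncomputable def trunc (x : ℝ) : ℤ := if 0 ≤ x then ⌊x⌋ else -⌊-x⌋

theorem trunc_neg (x : ℝ) : trunc (-x) = - trunc x := by
  unfold trunc
  rcases lt_trichotomy x 0 with h | h | h
  · have h1 : 0 ≤ -x := by linarith
    rw [if_pos h1, if_neg (not_le.mpr h)]; simp
  · subst h; simp
  · have h1 : ¬ (0 ≤ -x) := by linarith
    rw [if_neg h1, if_pos h.le]; simp

theorem abs_sub_trunc_le (x : ℝ) : |x - trunc x| ≤ 1 := by
  unfold trunc
  split_ifs with h
  · rw [abs_of_nonneg (by linarith [Int.floor_le x])]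
    linarith [Int.lt_floor_add_one x]
  · push_cast
    rw [abs_of_nonpos (by linarith [Int.floor_le (-x)])]
    linarith [Int.lt_floor_add_one (-x)]

/-- The exponential lattice of units is cobounded in the trace zero space. -/
theorem Gam_cobounded : ∃ R : ℝ, 0 ≤ R ∧ ∀ y ∈ TZ K, ∃ γ ∈ Gam K, ‖y - γ‖ ≤ R := by
  classical
  obtain ⟨R0, hR0, H⟩ := exists_unit_log_close K
  refine ⟨2 * R0 + 2 * Real.pi, by positivity, ?_⟩
  intro y hy
  obtain ⟨v, hv⟩ := H (fun w => (y w.embedding).re / 2) (by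
    have := TZ_re_sum K hy
    simp only [mul_div_assoc']
    rw [← Finset.sum_div, this, zero_div])
  set k : (K →+* ℂ) → ℤ := fun σ => trunc (((y σ).im - targ (σ v)) / (2 * Real.pi)) with hk
  set γ : (K →+* ℂ) → ℂ := fun σ =>
    (2 * Real.log ‖σ v‖ : ℝ) + (targ (σ v) : ℝ) * Complex.I + (k σ) * (2 * Real.pi * Complex.I) with hγ
  have hre : ∀ σ, (γ σ).re = 2 * Real.log ‖σ v‖ := by
    intro σ
    simp [hγ]
  have him : ∀ σ, (γ σ).im = targ (σ v) + k σ * (2 * Real.pi) := by
    intro σ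
    simp [hγ]
  have hkc : ∀ σ, k (ComplexEmbedding.conjugate σ) = - k σ := by
    intro σ
    simp only [hk]
    rw [ComplexEmbedding.conjugate_coe_eq, targ_conj, hy.1 σ, Complex.conj_im, ← trunc_neg]
    congr 1
    ring
  have hconj : ∀ σ, γ (ComplexEmbedding.conjugate σ) = (starRingEnd ℂ) (γ σ) := by
    intro σ
    apply Complex.ext
    · rw [hre, Complex.conj_re, hre, ComplexEmbedding.conjugate_coe_eq, Complex.norm_conj]
    · rw [him, Complex.conj_im, him, hkc, ComplexEmbedding.conjugate_coe_eq, targ_conj]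
      push_cast
      ring
  have hsumre : ∑ σ : K →+* ℂ, (γ σ).re = 0 := by
    have h1 := sum_mult_mul_log v
    have h2 : ∑ σ : K →+* ℂ, Real.log ‖σ v‖ = 0 := by
      rw [← h1, ← Finset.univ.sum_fiberwise (fun σ : K →+* ℂ => InfinitePlace.mk σ)]
      refine Finset.sum_congr rfl fun w _ => ?_
      have h3 : ∀ σ ∈ (Finset.univ.filter fun σ : K →+* ℂ => InfinitePlace.mk σ = w),
          Real.log ‖σ v‖ = Real.log (w v) := by
        intro σ hσ
        rw [← (Finset.mem_filter.mp hσ).2]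
        simp
      rw [Finset.sum_congr rfl h3, Finset.sum_const, InfinitePlace.card_filter_mk_eq, nsmul_eq_mul]
    simp_rw [hre]
    rw [← Finset.mul_sum, h2, mul_zero]
  have hsumim : ∑ σ : K →+* ℂ, (γ σ).im = 0 := by
    have h1 : ∑ σ : K →+* ℂ, (γ σ).im = ∑ σ : K →+* ℂ, (γ (ComplexEmbedding.conjugate σ)).im := by
      refine Finset.sum_equiv (Function.Involutive.toPerm _ (ComplexEmbedding.involutive_conjugate K)) (by simp) ?_
      intro σ _
      simp [Function.Involutive.coe_toPerm]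
    have h2 : ∑ σ : K →+* ℂ, (γ (ComplexEmbedding.conjugate σ)).im = - ∑ σ : K →+* ℂ, (γ σ).im := by
      rw [← Finset.sum_neg_distrib]
      refine Finset.sum_congr rfl fun σ _ => ?_
      rw [hconj σ, Complex.conj_im]
    linarith
  refine ⟨γ, ⟨⟨hconj, ?_⟩, v ^ 2, ?_⟩, ?_⟩
  · apply Complex.ext
    · simpa using hsumre
    · simpa using hsumim
  · intro σ
    have hne : σ (v : K) ≠ 0 := by
      rw [map_ne_zero]; exact coe_ne_zero v
    simp only [hγ]
    rw [Complex.exp_add, exp_targ hne, Complex.exp_int_mul_two_pi_mul_I]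
    simp
  · rw [pi_norm_le_iff_of_nonneg (by positivity)]
    intro σ
    rw [Pi.sub_apply]
    refine (Complex.norm_le_abs_re_add_abs_im _).trans ?_
    have h1 : |(y σ - γ σ).re| ≤ 2 * R0 := by
      have h2 := hv (InfinitePlace.mk σ)
      have h3 : (y (InfinitePlace.mk σ).embedding).re = (y σ).re := by
        rcases InfinitePlace.embedding_mk_eq σ with h | h
        · rw [h]
        · rw [h, hy.1 σ]; simp
      rw [h3, InfinitePlace.apply] at h2
      rw [Complex.sub_re, hre, abs_sub_comm]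
      have h4 : 2 * Real.log ‖σ v‖ - (y σ).re = 2 * (Real.log ‖σ v‖ - (y σ).re / 2) := by ring
      rw [h4, abs_mul, abs_two]
      linarith
    have h2 : |(y σ - γ σ).im| ≤ 2 * Real.pi := by
      rw [Complex.sub_im, him]
      have h3 := abs_sub_trunc_le (((y σ).im - targ (σ v)) / (2 * Real.pi))
      have hpi : 0 < 2 * Real.pi := by positivity
      have h4 : (y σ).im - (targ (σ v) + k σ * (2 * Real.pi)) =
        (((y σ).im - targ (σ v)) / (2 * Real.pi) - k σ) * (2 * Real.pi) := by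
        field_simp
        ring
      rw [h4, abs_mul, abs_of_pos hpi]
      have h5 : |((y σ).im - targ (σ v)) / (2 * Real.pi) - k σ| ≤ 1 := h3
      nlinarith
    linarith

end units

end Pool.Agent.Work.MP_77d073_nt
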