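import Mathlib
import Pool.Agent.Work.MP_77d073_nt.Units
import Pool.Agent.Work.MP_77d073_nt.Flow

set_option autoImplicit false

namespace Pool.Agent.Work.MP_77d073_nt

open NumberField NumberField.Units Module Filter Topology

section limit

variable {K : Type*} [Field K] [NumberField K] {ι : Type*} [Fintype ι]

theorem limit_lemma (h : ι → (K →+* ℂ) → ℂ) {c : ℝ}
    (hc : ∀ ξ : 𝓞 K, ξ ≠ 0 → c ≤ ∏ i, ‖∑ σ, h i σ * σ (ξ : K)‖)
    (x : (K →+* ℂ) → ℝ) (hxT : (fun σ => (x σ : ℂ)) ∈ TZ K) (a : ι → ℝ) (ha : ∑ i, a i = 0)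
    (hle : ∀ i σ, h i σ ≠ 0 → x σ ≤ a i)
    {v : (K →+* ℂ) → ℂ} (hv : v ∈ lin (Gam K) (fun σ => (x σ : ℂ))) (ξ : 𝓞 K) (hξ : ξ ≠ 0) :
    c ≤ ∏ i, ‖∑ σ, (if x σ = a i then h i σ else 0) * Complex.exp (v σ) * σ (ξ : K)‖ := by
  classical
  obtain ⟨R, hR, hcob⟩ := Gam_cobounded K
  have h1 : ∀ k : ℕ, ∃ s : ℝ, (k : ℝ) ≤ s ∧ ∃ γ ∈ Gam K,
      ‖γ - s • (fun σ => (x σ : ℂ)) - v‖ < 1 / ((k : ℝ) + 1) :=
    fun k => cl_approx (Gam K) (TZ K) hcob hxT (lin_sub_cl hv) (by positivity) k
  choose s hs γ hγ hγv using h1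
  have hunit : ∀ k, ∃ u : (𝓞 K)ˣ, ∀ σ : K →+* ℂ, Complex.exp (γ k σ) = σ (u : K) :=
    fun k => (hγ k).2
  choose u hu using hunit
  set w : ℕ → (K →+* ℂ) → ℂ := fun k => γ k - s k • (fun σ => (x σ : ℂ)) - v with hw
  have hwlim : ∀ σ, Tendsto (fun k => w k σ) atTop (𝓝 0) := by
    intro σ
    rw [tendsto_zero_iff_norm_tendsto_zero]
    refine squeeze_zero (fun k => norm_nonneg _) (fun k => ?_) tendsto_one_div_add_atTop_nhds_zero_nat
    exact (norm_le_pi_norm (w k) σ).trans (hγv k).le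
  have hslim : Tendsto s atTop atTop := tendsto_atTop_mono hs tendsto_natCast_atTop_atTop
  have hkey : ∀ k, c ≤ ∏ i, ‖∑ σ, h i σ * Complex.exp (v σ + w k σ + ((s k * (x σ - a i) : ℝ) : ℂ)) * σ (ξ : K)‖ := by
    intro k
    have h2 := hc (u k * ξ) (mul_ne_zero (Units.ne_zero _) hξ)
    refine h2.trans (le_of_eq ?_)
    have h3 : ∀ i, ‖∑ σ, h i σ * Complex.exp (v σ + w k σ + ((s k * (x σ - a i) : ℝ) : ℂ)) * σ (ξ : K)‖
        = Real.exp (-(a i * s k)) * ‖∑ σ, h i σ * σ (((u k : 𝓞 K) * ξ : 𝓞 K) : K)‖ := by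
      intro i
      have h4 : ∑ σ, h i σ * Complex.exp (v σ + w k σ + ((s k * (x σ - a i) : ℝ) : ℂ)) * σ (ξ : K)
          = Complex.exp (((-(a i * s k)) : ℝ) : ℂ) * ∑ σ, h i σ * σ (((u k : 𝓞 K) * ξ : 𝓞 K) : K) := by
        rw [Finset.mul_sum]
        refine Finset.sum_congr rfl fun σ _ => ?_
        have h5 : v σ + w k σ + ((s k * (x σ - a i) : ℝ) : ℂ) = ((-(a i * s k) : ℝ) : ℂ) + γ k σ := by
          simp only [hw, Pi.sub_apply, Pi.smul_apply, Complex.real_smul]
          push_cast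
          ring
        rw [h5, Complex.exp_add, hu k σ]
        simp only [map_mul]
        ring
      rw [h4, norm_mul, Complex.norm_exp, Complex.ofReal_re]
    simp_rw [h3]
    rw [Finset.prod_mul_distrib, ← Real.exp_sum]
    have h6 : ∑ i, -(a i * s k) = 0 := by
      rw [Finset.sum_neg_distrib, ← Finset.sum_mul, ha]; simp
    rw [h6, Real.exp_zero, one_mul]
  have hlim : Tendsto (fun k => ∏ i, ‖∑ σ, h i σ * Complex.exp (v σ + w k σ + ((s k * (x σ - a i) : ℝ) : ℂ)) * σ (ξ : K)‖)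
      atTop (𝓝 (∏ i, ‖∑ σ, (if x σ = a i then h i σ else 0) * Complex.exp (v σ) * σ (ξ : K)‖)) := by
    refine tendsto_finsetProd _ fun i _ => ?_
    refine Tendsto.norm ?_
    refine tendsto_finsetSum _ fun σ _ => ?_
    refine Tendsto.mul_const _ ?_
    by_cases hh : h i σ = 0
    · simp [hh]
    · by_cases hx : x σ = a i
      · rw [if_pos hx]
        refine Tendsto.const_mul _ ?_
        have h7 : (fun k => Complex.exp (v σ + w k σ + ((s k * (x σ - a i) : ℝ) : ℂ))) =
            fun k => Complex.exp (v σ + w k σ) := by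
          funext k
          rw [hx]; simp
        rw [h7]
        have h8 : Tendsto (fun k => v σ + w k σ) atTop (𝓝 (v σ)) := by
          simpa using (tendsto_const_nhds (x := v σ)).add (hwlim σ)
        exact (Complex.continuous_exp.tendsto _).comp h8
      · rw [if_neg hx, zero_mul]
        have hlt : x σ - a i < 0 := by
          have := lt_of_le_of_ne (hle i σ hh) hx
          linarith
        rw [tendsto_zero_iff_norm_tendsto_zero]
        have h8 : (fun k => ‖h i σ * Complex.exp (v σ + w k σ + ((s k * (x σ - a i) : ℝ) : ℂ))‖) =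
            fun k => ‖h i σ‖ * (Real.exp ((v σ + w k σ).re) * Real.exp (s k * (x σ - a i))) := by
          funext k
          rw [norm_mul, Complex.norm_exp, Complex.add_re, Complex.ofReal_re, Real.exp_add]
        rw [h8]
        have h9 : Tendsto (fun k => Real.exp ((v σ + w k σ).re)) atTop (𝓝 (Real.exp (v σ).re)) := by
          have h10 : Tendsto (fun k => v σ + w k σ) atTop (𝓝 (v σ)) := by
            simpa using (tendsto_const_nhds (x := v σ)).add (hwlim σ)
          exact (Real.continuous_exp.tendsto _).comp ((Complex.continuous_re.tendsto _).comp h10)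
        have h11 : Tendsto (fun k => Real.exp (s k * (x σ - a i))) atTop (𝓝 0) := by
          refine Real.tendsto_exp_atBot.comp ?_
          exact hslim.atTop_mul_const_of_neg hlt
        have h12 := (h9.mul h11).const_mul ‖h i σ‖
        simpa using h12
  exact ge_of_tendsto' hlim hkey

end limit

end Pool.Agent.Work.MP_77d073_nt
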