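import Mathlib
import Pool.Agent.Work.MP_77d073_nt.Units
import Pool.Agent.Work.MP_77d073_nt.Flow
import Pool.Agent.Work.MP_77d073_nt.Limit

set_option autoImplicit false

namespace Pool.Agent.Work.MP_77d073_nt

open NumberField NumberField.Units Module Filter Topology

section osc

/-- Two rational linear functionals of constant relative sign are proportional. -/
theorem proportional_of_mul_pos {K : Type*} [Field K] [CharZero K] (F G : K →ₗ[ℚ] ℝ)
    (hpos : ∀ ξ : K, ξ ≠ 0 → 0 < F ξ * G ξ) : ∃ κ : ℝ, ∀ ξ, G ξ = κ * F ξ := by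
  have h1 := hpos 1 one_ne_zero
  have hF1 : F 1 ≠ 0 := left_ne_zero_of_mul h1.ne'
  have hG1 : G 1 ≠ 0 := right_ne_zero_of_mul h1.ne'
  refine ⟨G 1 / F 1, fun ξ => ?_⟩
  by_contra hne
  have hroots : -F ξ / F 1 ≠ -G ξ / G 1 := by
    intro h
    apply hne
    field_simp at h ⊢
    linarith
  have key : ∃ q : ℚ, ((q : ℝ) - -F ξ / F 1) * ((q : ℝ) - -G ξ / G 1) < 0 := by
    rcases lt_or_gt_of_ne hroots with h | h
    · obtain ⟨q, hq1, hq2⟩ := exists_rat_btwn h
      exact ⟨q, mul_neg_of_pos_of_neg (by linarith) (by linarith)⟩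
    · obtain ⟨q, hq1, hq2⟩ := exists_rat_btwn h
      exact ⟨q, mul_neg_of_neg_of_pos (by linarith) (by linarith)⟩
  obtain ⟨q, hq⟩ := key
  have hF : F (q • (1 : K) + ξ) = F 1 * ((q : ℝ) - -F ξ / F 1) := by
    rw [map_add, map_smul, Rat.smul_def]
    field_simp
    ring
  have hG : G (q • (1 : K) + ξ) = G 1 * ((q : ℝ) - -G ξ / G 1) := by
    rw [map_add, map_smul, Rat.smul_def]
    field_simp
    ring
  have hneg : F (q • (1 : K) + ξ) * G (q • (1 : K) + ξ) < 0 := by
    rw [hF, hG]
    have : F 1 * ((q : ℝ) - -F ξ / F 1) * (G 1 * ((q : ℝ) - -G ξ / G 1)) =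
      (F 1 * G 1) * (((q : ℝ) - -F ξ / F 1) * ((q : ℝ) - -G ξ / G 1)) := by ring
    rw [this]
    exact mul_neg_of_pos_of_neg h1 hq
  by_cases h0 : q • (1 : K) + ξ = 0
  · rw [h0] at hneg; simp at hneg
  · exact absurd (hpos _ h0) (not_lt.mpr hneg.le)

variable {K : Type*} [Field K] [NumberField K]

theorem coeff_eq_zero_of_sum {d : (K →+* ℂ) → ℂ} (hd : ∀ ξ : K, ∑ σ, d σ * σ ξ = 0) : ∀ σ, d σ = 0 := by
  have h1 : LinearIndependent ℂ (fun σ : K →* ℂ => (σ : K → ℂ)) := linearIndependent_monoidHom K ℂ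
  have h2 : LinearIndependent ℂ (fun σ : K →+* ℂ => (σ : K → ℂ)) := by
    have h3 : Function.Injective (fun σ : K →+* ℂ => (σ : K →* ℂ)) := by
      intro σ τ h
      ext x
      exact DFunLike.congr_fun h x
    exact h1.comp _ h3
  rw [Fintype.linearIndependent_iff] at h2
  apply h2 d
  funext ξ
  simpa using hd ξ

theorem sum_real {g v : (K →+* ℂ) → ℂ}
    (hg : ∀ σ, g (ComplexEmbedding.conjugate σ) = (starRingEnd ℂ) (g σ))
    (hv : ∀ σ, v (ComplexEmbedding.conjugate σ) = (starRingEnd ℂ) (v σ)) (ξ : K) :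
    (∑ σ, g σ * Complex.exp (v σ) * σ ξ).im = 0 := by
  rw [← Complex.conj_eq_iff_im, map_sum]
  refine Finset.sum_equiv (Function.Involutive.toPerm _ (ComplexEmbedding.involutive_conjugate K)) (by simp) ?_
  intro σ _
  rw [Function.Involutive.coe_toPerm, hg, hv, ComplexEmbedding.conjugate_coe_eq, map_mul, map_mul,
    Complex.exp_conj]

theorem osc (V : Submodule ℝ ((K →+* ℂ) → ℂ)) (hVT : V ≤ TZ K) (g : (K →+* ℂ) → ℂ)
    (hg : ∀ σ, g (ComplexEmbedding.conjugate σ) = (starRingEnd ℂ) (g σ))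
    (hne : ∀ v ∈ V, ∀ ξ : 𝓞 K, ξ ≠ 0 → ∑ σ, g σ * Complex.exp (v σ) * σ (ξ : K) ≠ 0) :
    ∀ v ∈ V, ∀ σ τ, g σ ≠ 0 → g τ ≠ 0 → v σ = v τ := by
  -- the key step: equality of exponentials
  have hexp : ∀ v ∈ V, ∀ σ τ, g σ ≠ 0 → g τ ≠ 0 → Complex.exp (v σ) = Complex.exp (v τ) := by
    intro v hv
    let S : ((K →+* ℂ) → ℂ) → (K →ₗ[ℚ] ℝ) := fun v =>
      { toFun := fun ξ => (∑ σ, g σ * Complex.exp (v σ) * σ ξ).re
        map_add' := by
          intro x y
          rw [← Complex.add_re, ← Finset.sum_add_distrib]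
          simp only [map_add, mul_add]
        map_smul' := by
          intro q x
          simp only [eq_ratCast, Rat.cast_eq_id, id]
          rw [Rat.smul_def (a := q) (x := (∑ σ, g σ * Complex.exp (v σ) * σ x).re), ← Complex.re_ofReal_mul, Finset.mul_sum]
          congr 1
          refine Finset.sum_congr rfl fun σ _ => ?_
          rw [Rat.smul_def, map_mul, map_ratCast]
          push_cast
          ring }
    have hS : ∀ v ∈ V, ∀ ξ : K, ((S v ξ : ℝ) : ℂ) = ∑ σ, g σ * Complex.exp (v σ) * σ ξ := by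
      intro v hv ξ
      apply Complex.ext
      · simp [S]
      · rw [sum_real hg (hVT hv).1 ξ]; simp
    have hpos : ∀ ξ : K, ξ ≠ 0 → 0 < (S 0 ξ) * (S v ξ) := by
      -- first for integers
      have hint : ∀ ξ : 𝓞 K, ξ ≠ 0 → 0 < (S 0 ξ) * (S v ξ) := by
        intro ξ hξ
        have hcont : Continuous fun t : ℝ => S (t • v) (ξ : K) := by
          change Continuous fun t : ℝ => (∑ σ, g σ * Complex.exp ((t • v) σ) * σ (ξ : K)).re
          refine Complex.continuous_re.comp (continuous_finsetSum _ fun σ _ => ?_)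
          refine (continuous_const.mul (Complex.continuous_exp.comp ?_)).mul continuous_const
          simp only [Pi.smul_apply, Complex.real_smul]
          exact Complex.continuous_ofReal.mul continuous_const
        have hnz : ∀ t : ℝ, S (t • v) (ξ : K) ≠ 0 := by
          intro t h0
          apply hne (t • v) (V.smul_mem t hv) ξ hξ
          rw [← hS (t • v) (V.smul_mem t hv), h0, Complex.ofReal_zero]
        have h0 : S 0 (ξ : K) = S ((0 : ℝ) • v) (ξ : K) := by rw [zero_smul]
        have h1 : S v (ξ : K) = S ((1 : ℝ) • v) (ξ : K) := by rw [one_smul]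
        by_contra hcon
        rw [not_lt] at hcon
        have hrange : (0 : ℝ) ∈ Set.range fun t : ℝ => S (t • v) (ξ : K) := by
          rcases mul_nonpos_iff.mp hcon with ⟨ha, hb⟩ | ⟨ha, hb⟩
          · refine mem_range_of_exists_le_of_exists_ge hcont ⟨1, ?_⟩ ⟨0, ?_⟩
            · rw [← h1]; exact hb
            · rw [← h0]; exact ha
          · refine mem_range_of_exists_le_of_exists_ge hcont ⟨0, ?_⟩ ⟨1, ?_⟩
            · rw [← h0]; exact ha
            · rw [← h1]; exact hb
        obtain ⟨t, ht⟩ := hrange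
        exact hnz t ht
      intro ξ hξ
      obtain ⟨d, hd, hdξ⟩ := IsAlgebraic.exists_integral_multiple (R := ℤ)
        ((IsFractionRing.isAlgebraic_iff ℤ ℚ K).mpr (Algebra.IsAlgebraic.isAlgebraic (R := ℚ) ξ))
      have hd' : (d : K) ≠ 0 := by exact_mod_cast hd
      set η : 𝓞 K := ⟨d • ξ, hdξ⟩ with hη
      have hηK : (η : K) = d • ξ := rfl
      have hη0 : η ≠ 0 := by
        intro h
        have : (η : K) = 0 := by rw [h]; simp
        rw [hηK, zsmul_eq_mul, mul_eq_zero] at this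
        rcases this with h | h
        · exact hd' h
        · exact hξ h
      have h1 := hint η hη0
      rw [hηK, map_zsmul, map_zsmul] at h1
      simp only [zsmul_eq_mul] at h1
      have h2 : (d : ℝ) * S 0 ξ * ((d : ℝ) * S v ξ) = (d : ℝ) ^ 2 * (S 0 ξ * S v ξ) := by ring
      rw [h2] at h1
      exact pos_of_mul_pos_right h1 (sq_nonneg _)
    obtain ⟨κ, hκ⟩ := proportional_of_mul_pos (S 0) (S v) hpos
    have hcoef : ∀ σ, g σ * Complex.exp (v σ) - κ * g σ = 0 := by
      apply coeff_eq_zero_of_sum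
      intro ξ
      have h1 := hS v hv ξ
      have h2 := hS 0 V.zero_mem ξ
      rw [hκ ξ] at h1
      push_cast at h1
      rw [h2] at h1
      simp only [sub_mul, Finset.sum_sub_distrib]
      rw [← h1, Finset.mul_sum, sub_eq_zero]
      refine Finset.sum_congr rfl fun σ _ => ?_
      simp
      ring
    intro σ τ hσ hτ
    have h1 : Complex.exp (v σ) = κ := by
      have := hcoef σ
      have h2 : g σ * (Complex.exp (v σ) - κ) = 0 := by rw [← this]; ring
      exact sub_eq_zero.mp ((mul_eq_zero.mp h2).resolve_left hσ)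
    have h2 : Complex.exp (v τ) = κ := by
      have := hcoef τ
      have h2 : g τ * (Complex.exp (v τ) - κ) = 0 := by rw [← this]; ring
      exact sub_eq_zero.mp ((mul_eq_zero.mp h2).resolve_left hτ)
    rw [h1, h2]
  intro v hv σ τ hσ hτ
  have h1 : ∀ t : ℝ, Complex.exp ((t : ℂ) * (v σ - v τ)) = 1 := by
    intro t
    have := hexp (t • v) (V.smul_mem t hv) σ τ hσ hτ
    rw [mul_sub, Complex.exp_sub]
    simp only [Pi.smul_apply, Complex.real_smul] at this
    rw [this, div_self (Complex.exp_ne_zero _)]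
  have h2 : HasDerivAt (fun t : ℝ => Complex.exp ((t : ℂ) * (v σ - v τ))) (v σ - v τ) 0 := by
    have h3 : HasDerivAt (fun t : ℝ => (t : ℂ) * (v σ - v τ)) (1 * (v σ - v τ)) 0 :=
      (Complex.ofRealCLM.hasDerivAt (x := (0 : ℝ))).mul_const _
    have h4 := h3.cexp
    simpa using h4
  have h3 : HasDerivAt (fun t : ℝ => Complex.exp ((t : ℂ) * (v σ - v τ))) 0 0 := by
    have : (fun t : ℝ => Complex.exp ((t : ℂ) * (v σ - v τ))) = fun _ => 1 := funext h1
    rw [this]
    exact hasDerivAt_const _ _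
  exact sub_eq_zero.mp (h2.unique h3)

end osc

end Pool.Agent.Work.MP_77d073_nt
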