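import Mathlib
import Pool.Agent.Work.MP_77d073_nt.Osc

set_option autoImplicit false

namespace Pool.Agent.Work.MP_77d073_nt

open NumberField NumberField.Units Module Filter Topology

section fiber

variable {K : Type*} [Field K] [NumberField K]

theorem fiber_const (x : (K →+* ℂ) → ℝ) (hxT : (fun σ => (x σ : ℂ)) ∈ TZ K) (σ τ : K →+* ℂ)
    (h : ∀ v ∈ lin (Gam K) (fun σ => (x σ : ℂ)), v σ = v τ) (ρ ρ' : K →+* ℂ)
    (hρ : ∀ z : K, σ z = τ z → ρ z = ρ' z) : x ρ = x ρ' := by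
  obtain ⟨R, hR, hcob⟩ := Gam_cobounded K
  have hspan := lin_le_span (Gam K) (TZ K) (fun γ hγ => Gam_le_TZ hγ) hcob hxT
  have hx := hspan (mem_lin_self (Gam K) (fun σ => (x σ : ℂ)))
  let f : ((K →+* ℂ) → ℂ) →ₗ[ℝ] ℝ :=
    { toFun := fun v => (v ρ).re - (v ρ').re
      map_add' := by intro a b; simp; ring
      map_smul' := by intro c a; simp; ring }
  have hle : Submodule.span ℝ {γ | γ ∈ Gam K ∧ γ ∈ lin (Gam K) (fun σ => (x σ : ℂ))} ≤ LinearMap.ker f := by
    rw [Submodule.span_le]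
    rintro γ ⟨⟨-, u, hu⟩, hγ2⟩
    have h1 : σ (u : K) = τ (u : K) := by
      rw [← hu σ, ← hu τ, h γ hγ2]
    have h2 := hρ _ h1
    rw [← hu ρ, ← hu ρ'] at h2
    have h3 := congrArg norm h2
    rw [Complex.norm_exp, Complex.norm_exp] at h3
    have h4 := Real.exp_injective h3
    change (γ ρ).re - (γ ρ').re = 0
    rw [h4, sub_self]
  have h5 : (x ρ : ℂ).re - (x ρ' : ℂ).re = 0 := hle hx
  simpa [sub_eq_zero] using h5

theorem exists_partner {σ τ : K →+* ℂ} (hne : σ ≠ τ) (ρ : K →+* ℂ) :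
    ∃ ρ' : K →+* ℂ, ρ' ≠ ρ ∧ ∀ z : K, σ z = τ z → ρ z = ρ' z := by
  classical
  set F : Subfield K := σ.eqLocusField τ with hF
  letI : Algebra F ℂ := (ρ.comp F.subtype).toAlgebra
  haveI : FiniteDimensional F K := Module.Finite.of_restrictScalars_finite ℚ F K
  have hcard := AlgHom.card F K ℂ
  have hfin : 1 < finrank F K := by
    by_contra hle
    have h1 : finrank F K = 1 := by
      have : 0 < finrank F K := finrank_pos
      omega
    apply hne
    ext z
    have h2 : (⊤ : Subalgebra F K) = ⊥ := Subalgebra.bot_eq_top_of_finrank_eq_one h1 |>.symm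
    have h3 : z ∈ (⊥ : Subalgebra F K) := h2 ▸ Algebra.mem_top
    obtain ⟨w, rfl⟩ := Algebra.mem_bot.mp h3
    exact w.2
  rw [← hcard] at hfin
  let ρ0 : K →ₐ[F] ℂ := { ρ with commutes' := fun r => rfl }
  obtain ⟨ρ1, hρ1⟩ := Fintype.exists_ne_of_one_lt_card hfin ρ0
  refine ⟨ρ1.toRingHom, ?_, ?_⟩
  · intro h
    apply hρ1
    ext z
    have := DFunLike.congr_fun h z
    exact this
  · intro z hz
    have h1 := ρ1.commutes ⟨z, hz⟩
    exact h1.symm

end fiber

end Pool.Agent.Work.MP_77d073_nt
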