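import Mathlib
import Pool.Agent.Work.MP_77d073_nt.Fiber

set_option autoImplicit false

namespace Pool.Agent.Work.MP_77d073_nt

open NumberField NumberField.Units Module Filter Topology

section core

variable {K : Type*} [Field K] [NumberField K] {ι : Type*} [Fintype ι] [DecidableEq ι]

theorem ne_zero_of_prod {c : ℝ} (hc : 0 < c) {f : ι → ℂ} (h : c ≤ ∏ i, ‖f i‖) (i : ι) : f i ≠ 0 := by
  intro h0
  have : ∏ i, ‖f i‖ = 0 := Finset.prod_eq_zero (Finset.mem_univ i) (by simp [h0])
  linarith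

theorem core1 (hcard : Fintype.card ι = Fintype.card (K →+* ℂ)) (hn : 3 ≤ Fintype.card ι)
    (h : ι → (K →+* ℂ) → ℂ)
    (hconj : ∀ i σ, h i (ComplexEmbedding.conjugate σ) = (starRingEnd ℂ) (h i σ))
    (hli : LinearIndependent ℂ h) {c : ℝ} (hc0 : 0 < c)
    (hc : ∀ ξ : 𝓞 K, ξ ≠ 0 → c ≤ ∏ i, ‖∑ σ, h i σ * σ (ξ : K)‖)
    (I : Finset ι) (J : Finset (K →+* ℂ)) (hIJ : J.card = I.card) (hI : I.Nonempty) (hI' : I ≠ Finset.univ)
    (hJ : ∀ σ, σ ∈ J ↔ ∃ i ∈ I, h i σ ≠ 0)
    (hfib : ∀ σ τ : K →+* ℂ, σ ≠ τ → ∃ ρ ∈ J, ∃ ρ' ∉ J, ∀ z : K, σ z = τ z → ρ z = ρ' z) :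
    ∃ s : ι → (K →+* ℂ), Function.Bijective s ∧ (∀ i, ComplexEmbedding.conjugate (s i) = s i) ∧
      ∀ i σ, σ ≠ s i → h i σ = 0 := by
  classical
  set n : ℕ := Fintype.card ι with hnn
  set k : ℕ := I.card with hk
  have hkn : k < n := by
    rw [hk, hnn, ← Finset.card_univ]
    exact Finset.card_lt_card (lt_of_le_of_ne (Finset.subset_univ _) hI')
  have hk0 : 0 < k := Finset.card_pos.mpr hI
  have hknR : (k : ℝ) < n := by exact_mod_cast hkn
  have hk0R : (0 : ℝ) < k := by exact_mod_cast hk0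
  have hJconj : ∀ σ, ComplexEmbedding.conjugate σ ∈ J ↔ σ ∈ J := by
    intro σ
    rw [hJ, hJ]
    simp only [hconj, ne_eq, map_eq_zero]
  -- Part A
  set x : (K →+* ℂ) → ℝ := fun σ => if σ ∈ J then -((n : ℝ) - k) else k with hx
  set a : ι → ℝ := fun i => if i ∈ I then -((n : ℝ) - k) else k with ha
  have hxJ : ∀ σ, x σ = -((n : ℝ) - k) ↔ σ ∈ J := by
    intro σ
    simp only [hx]
    split_ifs with h1
    · simp [h1]
    · simp only [h1, iff_false]; intro h2; linarith
  have hxJ' : ∀ σ, x σ = k ↔ σ ∉ J := by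
    intro σ
    simp only [hx]
    split_ifs with h1
    · simp only [h1, not_true, iff_false]; intro h2; linarith
    · simp [h1]
  have hxT : (fun σ => (x σ : ℂ)) ∈ TZ K := by
    refine ⟨fun σ => ?_, ?_⟩
    · rw [Complex.conj_ofReal]
      simp only [hx, hJconj]
    · rw [← Complex.ofReal_sum]
      have : ∑ σ, x σ = 0 := by
        simp only [hx]
        rw [Finset.sum_ite, Finset.sum_const, Finset.sum_const]
        have h1 : (Finset.univ.filter fun σ => σ ∈ J).card = k := by
          rw [Finset.filter_mem_eq_inter, Finset.univ_inter, hIJ]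
        have h2 : (Finset.univ.filter fun σ => σ ∉ J).card = n - k := by
          have h3 := Finset.card_filter_add_card_filter_not (s := (Finset.univ : Finset (K →+* ℂ))) (fun σ => σ ∈ J)
          rw [h1, Finset.card_univ, ← hcard] at h3
          omega
        rw [h1, h2, nsmul_eq_mul, nsmul_eq_mul, Nat.cast_sub hkn.le]
        ring
      rw [this, Complex.ofReal_zero]
  have ha0 : ∑ i, a i = 0 := by
    simp only [ha]
    rw [Finset.sum_ite, Finset.sum_const, Finset.sum_const]
    have h1 : (Finset.univ.filter fun i => i ∈ I).card = k := by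
      rw [Finset.filter_mem_eq_inter, Finset.univ_inter]
    have h2 : (Finset.univ.filter fun i => i ∉ I).card = n - k := by
      have h3 := Finset.card_filter_add_card_filter_not (s := (Finset.univ : Finset ι)) (fun i => i ∈ I)
      rw [h1, Finset.card_univ] at h3
      omega
    rw [h1, h2, nsmul_eq_mul, nsmul_eq_mul, Nat.cast_sub hkn.le]
    ring
  have hle : ∀ i σ, h i σ ≠ 0 → x σ ≤ a i := by
    intro i σ hh
    by_cases hi : i ∈ I
    · have : σ ∈ J := (hJ σ).mpr ⟨i, hi, hh⟩
      simp [hx, ha, hi, this]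
    · simp only [hx, ha, hi, if_false]
      split_ifs
      · linarith
      · exact le_rfl
  have hlimA := fun (v : (K →+* ℂ) → ℂ) (hv : v ∈ lin (Gam K) (fun σ => (x σ : ℂ))) ξ hξ =>
    limit_lemma h hc x hxT a ha0 hle hv ξ hξ
  have hVT : lin (Gam K) (fun σ => (x σ : ℂ)) ≤ TZ K := by
    intro v hv
    exact cl_le (fun γ hγ => Gam_le_TZ hγ) hxT (lin_sub_cl hv)
  set g : ι → (K →+* ℂ) → ℂ := fun i σ => if x σ = a i then h i σ else 0 with hg
  have hxconj : ∀ σ, x (ComplexEmbedding.conjugate σ) = x σ := by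
    intro σ; simp only [hx, hJconj]
  have hgconj : ∀ i σ, g i (ComplexEmbedding.conjugate σ) = (starRingEnd ℂ) (g i σ) := by
    intro i σ
    simp only [hg, hxconj]
    split_ifs
    · exact hconj i σ
    · simp
  have hgne : ∀ i, ∀ v ∈ lin (Gam K) (fun σ => (x σ : ℂ)), ∀ ξ : 𝓞 K, ξ ≠ 0 →
      ∑ σ, g i σ * Complex.exp (v σ) * σ (ξ : K) ≠ 0 :=
    fun i v hv ξ hξ => ne_zero_of_prod hc0 (hlimA v hv ξ hξ) i
  have hosc := fun i => osc _ hVT (g i) (hgconj i) (hgne i)
  have huniq : ∀ i σ τ, g i σ ≠ 0 → g i τ ≠ 0 → σ = τ := by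
    intro i σ τ hσ hτ
    by_contra hne
    obtain ⟨ρ, hρ, ρ', hρ', hz⟩ := hfib σ τ hne
    have h1 := fiber_const x hxT σ τ (fun v hv => hosc i v hv σ τ hσ hτ) ρ ρ' hz
    rw [(hxJ ρ).mpr hρ, (hxJ' ρ').mpr hρ'] at h1
    linarith
  have hex : ∀ i, ∃ σ, g i σ ≠ 0 := by
    intro i
    by_contra hcon
    push Not at hcon
    apply hgne i 0 (Submodule.zero_mem _) 1 one_ne_zero
    exact Finset.sum_eq_zero fun σ _ => by rw [hcon σ]; simp
  choose s hs using hex
  have hgs : ∀ i σ, g i σ ≠ 0 → σ = s i := fun i σ hσ => huniq i σ (s i) hσ (hs i)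
  have hsconj : ∀ i, ComplexEmbedding.conjugate (s i) = s i := by
    intro i
    apply hgs
    rw [hgconj]
    simpa using hs i
  have hs1 : ∀ i, h i (s i) ≠ 0 := by
    intro i h0
    apply hs i
    simp [hg, h0]
  have hsx : ∀ i, x (s i) = a i := by
    intro i
    by_contra hne
    apply hs i
    simp [hg, hne]
  have hsI : ∀ i, s i ∈ J ↔ i ∈ I := by
    intro i
    rw [← hxJ, hsx]
    simp only [ha]
    split_ifs with h1
    · simp [h1]
    · simp only [h1, iff_false]; intro h2; linarith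
  have hrowI : ∀ i ∈ I, ∀ σ, σ ≠ s i → h i σ = 0 := by
    intro i hi σ hσ
    by_contra h0
    apply hσ
    apply hgs
    have h1 : σ ∈ J := (hJ σ).mpr ⟨i, hi, h0⟩
    simp [hg, ha, hi, hx, h1, h0]
  have hrowI' : ∀ i ∉ I, ∀ σ ∉ J, σ ≠ s i → h i σ = 0 := by
    intro i hi σ hσJ hσ
    by_contra h0
    apply hσ
    apply hgs
    simp [hg, ha, hi, hx, hσJ, h0]
  have hinjI : ∀ i ∈ I, ∀ i' ∈ I, s i = s i' → i = i' := by
    intro i hi i' hi' hss
    by_contra hne
    have h1 : h i' (s i) • h i = h i (s i) • h i' := by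
      funext σ
      simp only [Pi.smul_apply, smul_eq_mul]
      by_cases hσ : σ = s i
      · subst hσ; ring
      · rw [hrowI i hi σ hσ, hrowI i' hi' σ (by rw [← hss]; exact hσ)]; simp
    have h2 := (linearIndependent_iff'.mp hli) {i, i'} (fun j => if j = i then h i' (s i) else - h i (s i)) (by
      rw [Finset.sum_pair hne]
      simp [Ne.symm hne, h1]) i (by simp)
    simp only [if_true] at h2
    rw [hss] at h2
    exact hs1 i' h2
  -- rows in I span the J-supported vectors
  have himg : I.image s = J := by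
    apply Finset.eq_of_subset_of_card_le
    · intro σ hσ
      obtain ⟨i, hi, rfl⟩ := Finset.mem_image.mp hσ
      exact (hsI i).mpr hi
    · rw [Finset.card_image_of_injOn (fun i hi i' hi' => hinjI i hi i' hi'), hIJ]
  have hinj : Function.Injective s := by
    intro i i' hss
    by_cases hi : i ∈ I
    · have hi' : i' ∈ I := by rw [← hsI, ← hss, hsI]; exact hi
      exact hinjI i hi i' hi' hss
    · have hi' : i' ∉ I := by rw [← hsI, ← hss, hsI]; exact hi
      by_contra hne
      set r : (K →+* ℂ) → ℂ := h i' (s i) • h i - h i (s i) • h i' with hr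
      have hrJ : ∀ σ ∉ J, r σ = 0 := by
        intro σ hσJ
        by_cases hσ : σ = s i
        · subst hσ; simp [hr]; ring
        · simp [hr, hrowI' i hi σ hσJ hσ, hrowI' i' hi' σ hσJ (by rw [← hss]; exact hσ)]
      have hrspan : r = ∑ j ∈ I, (r (s j) / h j (s j)) • h j := by
        funext σ
        rw [Finset.sum_apply]
        by_cases hσJ : σ ∈ J
        · rw [← himg] at hσJ
          obtain ⟨j, hj, rfl⟩ := Finset.mem_image.mp hσJ
          rw [Finset.sum_eq_single j]
          · simp only [Pi.smul_apply, smul_eq_mul]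
            rw [div_mul_cancel₀ _ (hs1 j)]
          · intro j' hj' hjj'
            simp only [Pi.smul_apply, smul_eq_mul]
            rw [hrowI j' hj' (s j) (fun h => hjj' (hinjI j' hj' j hj h.symm)), mul_zero]
          · intro h; exact absurd hj h
        · rw [hrJ σ hσJ]
          symm
          apply Finset.sum_eq_zero
          intro j hj
          simp only [Pi.smul_apply, smul_eq_mul]
          rw [hrowI j hj σ (fun h => hσJ (by rw [h]; exact (hsI j).mpr hj)), mul_zero]
      have h2 := (Fintype.linearIndependent_iff.mp hli)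
        (fun j => if j = i then h i' (s i) else if j = i' then - h i (s i) else
          if j ∈ I then -(r (s j) / h j (s j)) else 0) (by
        have h3 : ∀ j, (if j = i then h i' (s i) else if j = i' then - h i (s i) else
          if j ∈ I then -(r (s j) / h j (s j)) else 0) • h j =
            (if j = i then h i' (s i) • h i else 0) + (if j = i' then - h i (s i) • h i' else 0) +
            (if j ∈ I then -(r (s j) / h j (s j)) • h j else 0) := by
          intro j
          by_cases h4 : j = i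
          · subst h4; simp [hi, hne]
          · by_cases h5 : j = i'
            · subst h5; simp [h4, hi']
            · simp [h4, h5]
        simp_rw [h3]
        rw [Finset.sum_add_distrib, Finset.sum_add_distrib, Finset.sum_ite_eq' Finset.univ i,
          Finset.sum_ite_eq' Finset.univ i']
        simp only [Finset.mem_univ, if_true]
        rw [← Finset.sum_filter, Finset.filter_mem_eq_inter, Finset.univ_inter]
        simp only [neg_smul]
        rw [Finset.sum_neg_distrib, ← hrspan, hr]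
        abel) i
      simp only [if_true] at h2
      rw [hss] at h2
      exact hs1 i' h2
  have hbij : Function.Bijective s :=
    (Fintype.bijective_iff_injective_and_card s).mpr ⟨hinj, hcard⟩
  refine ⟨s, hbij, hsconj, ?_⟩
  -- Part B
  intro i0 σ1 hσ1
  by_contra h01
  have hi0 : i0 ∉ I := fun hi => h01 (hrowI i0 hi σ1 hσ1)
  have hσ1J : σ1 ∈ J := by
    by_contra hσJ
    exact h01 (hrowI' i0 hi0 σ1 hσJ hσ1)
  set σ0 := s i0 with hσ0
  have hσ0J : σ0 ∉ J := fun h => hi0 ((hsI i0).mp h)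
  set e := Fintype.equivFin (K →+* ℂ) with he
  set x1 : (K →+* ℂ) → ℝ := fun σ => if σ = σ0 ∨ σ = σ1 then 0 else
    if σ ∈ J then -(1 + (e σ : ℕ) : ℝ) else (1 + (e σ : ℕ) : ℝ) with hx1
  set m : ℝ := (∑ σ, x1 σ) / n with hm
  set x2 : (K →+* ℂ) → ℝ := fun σ => x1 σ - m with hx2
  have hreal : ∀ σ : K →+* ℂ, ComplexEmbedding.conjugate σ = σ := by
    intro σ
    obtain ⟨i, rfl⟩ := hbij.2 σ
    exact hsconj i
  have hn0 : (n : ℝ) ≠ 0 := by
    have : 0 < n := by omega
    exact_mod_cast this.ne'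
  have hsum2 : ∑ σ, x2 σ = 0 := by
    simp only [hx2]
    rw [Finset.sum_sub_distrib, Finset.sum_const, Finset.card_univ, ← hcard, nsmul_eq_mul, hm]
    field_simp
    ring
  have hx2T : (fun σ => (x2 σ : ℂ)) ∈ TZ K := by
    refine ⟨fun σ => ?_, ?_⟩
    · rw [Complex.conj_ofReal, hreal]
    · rw [← Complex.ofReal_sum, hsum2, Complex.ofReal_zero]
  have ha2 : ∑ i, x2 (s i) = 0 := by
    rw [← hsum2]
    exact hbij.sum_comp x2
  have hJneg : ∀ σ ∈ J, x1 σ ≤ 0 := by
    intro σ hσ
    simp only [hx1]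
    split_ifs
    · exact le_rfl
    · have : (0 : ℝ) ≤ (e σ : ℕ) := Nat.cast_nonneg _
      linarith
  have hJpos : ∀ σ ∉ J, 0 ≤ x1 σ := by
    intro σ hσ
    simp only [hx1]
    rw [if_neg hσ]
    split_ifs
    · exact le_rfl
    · positivity
  have hle2 : ∀ i σ, h i σ ≠ 0 → x2 σ ≤ x2 (s i) := by
    intro i σ hh
    simp only [hx2]
    by_cases hσ : σ = s i
    · rw [hσ]
    · have hi : i ∉ I := fun hi => hh (hrowI i hi σ hσ)
      have hσJ : σ ∈ J := by
        by_contra hσJ
        exact hh (hrowI' i hi σ hσJ hσ)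
      have h1 := hJneg σ hσJ
      have h2 := hJpos (s i) (fun h => hi ((hsI i).mp h))
      linarith
  have hVT2 : lin (Gam K) (fun σ => (x2 σ : ℂ)) ≤ TZ K := by
    intro v hv
    exact cl_le (fun γ hγ => Gam_le_TZ hγ) hx2T (lin_sub_cl hv)
  have hlimB := fun (v : (K →+* ℂ) → ℂ) (hv : v ∈ lin (Gam K) (fun σ => (x2 σ : ℂ))) ξ hξ =>
    limit_lemma h hc x2 hx2T (fun i => x2 (s i)) ha2 hle2 hv ξ hξ
  have hosc2 := osc _ hVT2 (fun σ => if x2 σ = x2 (s i0) then h i0 σ else 0) (by
    intro σ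
    simp only [hreal σ]
    split_ifs
    · have := hconj i0 σ
      rw [hreal σ] at this
      exact this
    · simp) (fun v hv ξ hξ => ne_zero_of_prod hc0 (hlimB v hv ξ hξ) i0)
  have hx10 : x1 σ0 = 0 := by simp [hx1]
  have hx11 : x1 σ1 = 0 := by simp [hx1]
  have heq01 : ∀ v ∈ lin (Gam K) (fun σ => (x2 σ : ℂ)), v σ0 = v σ1 := by
    intro v hv
    apply hosc2 v hv σ0 σ1
    · simpa [← hσ0] using hs1 i0
    · simp only [hx2, ← hσ0, hx10, hx11, if_true]
      exact h01
  have hfc := fiber_const x2 hx2T σ0 σ1 heq01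
  -- choose a third embedding
  obtain ⟨ρ, hρ⟩ : ∃ ρ : K →+* ℂ, ρ ∉ ({σ0, σ1} : Finset (K →+* ℂ)) := by
    by_contra hcon
    push Not at hcon
    have h1 : Fintype.card (K →+* ℂ) ≤ 2 := by
      rw [← Finset.card_univ]
      calc _ ≤ ({σ0, σ1} : Finset (K →+* ℂ)).card := Finset.card_le_card fun σ _ => hcon σ
        _ ≤ 2 := Finset.card_le_two
    omega
  have hρ0 : ρ ≠ σ0 := by rintro rfl; simp at hρ
  have hρ1 : ρ ≠ σ1 := by rintro rfl; simp at hρ
  obtain ⟨ρ', hρ', hzz⟩ := exists_partner (Ne.symm hσ1) ρ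
  have hxx : x1 ρ = x1 ρ' := by
    have := hfc ρ ρ' hzz
    simp only [hx2] at this
    linarith
  have he1 : (0 : ℝ) ≤ (e ρ : ℕ) := Nat.cast_nonneg _
  have he2 : (0 : ℝ) ≤ (e ρ' : ℕ) := Nat.cast_nonneg _
  have hninj : ((e ρ : ℕ) : ℝ) ≠ ((e ρ' : ℕ) : ℝ) := by
    intro h
    apply hρ'
    have h1 : (e ρ : ℕ) = (e ρ' : ℕ) := by exact_mod_cast h
    exact (e.injective (Fin.ext h1)).symm
  simp only [hx1, hρ0, hρ1, false_or, if_false] at hxx
  split_ifs at hxx
  · linarith
  · apply hninj; linarith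
  · linarith
  · linarith
  · linarith
  · apply hninj; linarith

end core

end Pool.Agent.Work.MP_77d073_nt
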