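import Mathlib
import Pool.Agent.Work.MP_77d073_nt.Core

set_option autoImplicit false

namespace Pool.Agent.Work.MP_77d073_nt

open NumberField NumberField.Units Module Filter Topology

section isol

variable {K : Type*} [Field K] [NumberField K] {ι : Type*} [Fintype ι] [DecidableEq ι]

theorem isolation (hcard : Fintype.card ι = Fintype.card (K →+* ℂ)) (hn : 3 ≤ Fintype.card ι)
    (g : ℕ → ι → (K →+* ℂ) → ℂ) (h : ι → (K →+* ℂ) → ℂ)
    (hlim : ∀ i σ, Tendsto (fun k => g k i σ) atTop (𝓝 (h i σ)))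
    (hconj : ∀ k i σ, g k i (ComplexEmbedding.conjugate σ) = (starRingEnd ℂ) (g k i σ))
    {c : ℝ} (hc0 : 0 < c)
    (hc : ∀ k, ∀ ξ : 𝓞 K, ξ ≠ 0 → c ≤ ∏ i, ‖∑ σ, g k i σ * σ (ξ : K)‖)
    (s : ι → (K →+* ℂ)) (hbij : Function.Bijective s)
    (hsreal : ∀ i, ComplexEmbedding.conjugate (s i) = s i)
    (hs : ∀ i σ, σ ≠ s i → h i σ = 0) (hs1 : ∀ i, h i (s i) ≠ 0) :
    ∃ k, ∀ i σ, σ ≠ s i → g k i σ = 0 := by
  classical
  by_contra hcon
  push Not at hcon
  have hreal : ∀ σ : K →+* ℂ, ComplexEmbedding.conjugate σ = σ := by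
    intro σ
    obtain ⟨i, rfl⟩ := hbij.2 σ
    exact hsreal i
  -- choose the largest off-diagonal entry
  have hmax : ∀ k, ∃ p : ι × (K →+* ℂ), p.2 ≠ s p.1 ∧ g k p.1 p.2 ≠ 0 ∧
      ∀ i σ, σ ≠ s i → ‖g k i σ‖ ≤ ‖g k p.1 p.2‖ := by
    intro k
    obtain ⟨i, σ, hσ, hg⟩ := hcon k
    obtain ⟨p, hp, hpmax⟩ := Finset.exists_max_image
      (Finset.univ.filter fun p : ι × (K →+* ℂ) => p.2 ≠ s p.1) (fun p => ‖g k p.1 p.2‖)
      ⟨(i, σ), by simp [hσ]⟩
    refine ⟨p, (Finset.mem_filter.mp hp).2, ?_, fun i' σ' h' => hpmax (i', σ') (by simp [h'])⟩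
    have h1 := hpmax (i, σ) (by simp [hσ])
    have h2 : 0 < ‖g k i σ‖ := norm_pos_iff.mpr hg
    exact norm_pos_iff.mp (lt_of_lt_of_le h2 h1)
  choose p hp hp0 hpmax using hmax
  obtain ⟨q, hq⟩ := Finite.exists_infinite_fiber p
  set i0 := q.1 with hi0
  set σ1 := q.2 with hσ1
  -- subsequence on which p is constant
  have hfreq : ∃ᶠ k in atTop, p k = q := by
    rw [Nat.frequently_atTop_iff_infinite]
    rw [Set.infinite_coe_iff] at hq
    exact hq
  obtain ⟨φ, hφ, hφp⟩ := extraction_of_frequently_atTop hfreq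
  set σ0 := s i0 with hσ0
  have h10 : σ1 ≠ σ0 := by
    have := hp (φ 0)
    rw [hφp 0] at this
    exact this
  set δ : ℕ → ℝ := fun k => ‖g (φ k) i0 σ1‖ with hδ
  have hδpos : ∀ k, 0 < δ k := by
    intro k
    have := hp0 (φ k)
    rw [hφp k] at this
    exact norm_pos_iff.mpr this
  have hδmax : ∀ k i σ, σ ≠ s i → ‖g (φ k) i σ‖ ≤ δ k := by
    intro k i σ hσ
    have := hpmax (φ k) i σ hσ
    rw [hφp k] at this
    exact this
  have hδlim : Tendsto δ atTop (𝓝 0) := by
    have h1 := (hlim i0 σ1).comp hφ.tendsto_atTop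
    rw [hs i0 σ1 h10] at h1
    simpa using h1.norm
  set T : ℕ → ℝ := fun k => - Real.log (δ k) with hT
  have hTexp : ∀ k, Real.exp (T k) = (δ k)⁻¹ := by
    intro k
    rw [hT, Real.exp_neg, Real.exp_log (hδpos k)]
  have hTlim : Tendsto T atTop atTop := by
    have h1 : Tendsto (fun k => Real.log (δ k)) atTop atBot := by
      refine Real.tendsto_log_nhdsGT_zero.comp ?_
      rw [tendsto_nhdsWithin_iff]
      exact ⟨hδlim, Eventually.of_forall fun k => hδpos k⟩
    exact tendsto_neg_atBot_atTop.comp h1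
  -- direction
  set x : (K →+* ℂ) → ℝ := fun σ => if σ = σ1 then 1 / 2 else if σ = σ0 then - (1 / 2) else 0 with hx
  have hx1 : x σ1 = 1 / 2 := by simp [hx]
  have hx0 : x σ0 = - (1 / 2) := by simp [hx, Ne.symm h10]
  have hxsum : ∑ σ, x σ = 0 := by
    have h1 : ∀ σ, x σ = (if σ = σ1 then (1 / 2 : ℝ) else 0) + (if σ = σ0 then -(1 / 2 : ℝ) else 0) := by
      intro σ
      simp only [hx]
      by_cases h : σ = σ1
      · subst h; simp [h10]
      · simp [h]
    simp_rw [h1]
    rw [Finset.sum_add_distrib, Finset.sum_ite_eq' Finset.univ σ1, Finset.sum_ite_eq' Finset.univ σ0]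
    simp
  have hxT : (fun σ => (x σ : ℂ)) ∈ TZ K := by
    refine ⟨fun σ => ?_, ?_⟩
    · rw [Complex.conj_ofReal, hreal]
    · rw [← Complex.ofReal_sum, hxsum, Complex.ofReal_zero]
  have hxdiff : ∀ i σ, ¬ (i = i0 ∧ σ = σ1) → x σ - x (s i) ≤ 1 / 2 := by
    intro i σ hne
    have hb1 : ∀ σ, x σ ≤ 1 / 2 := by
      intro σ; simp only [hx]; split_ifs <;> norm_num
    have hb2 : ∀ σ, σ ≠ σ1 → x σ ≤ 0 := by
      intro σ h; simp only [hx, h, if_false]; split_ifs <;> norm_num
    have hb3 : ∀ σ, σ ≠ σ0 → 0 ≤ x σ := by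
      intro σ h; simp only [hx, h, if_false]; split_ifs <;> norm_num
    have hb4 : ∀ σ, - (1 / 2) ≤ x σ := by
      intro σ; simp only [hx]; split_ifs <;> norm_num
    by_cases hi : i = i0
    · have hσ : σ ≠ σ1 := fun h => hne ⟨hi, h⟩
      have := hb2 σ hσ
      have := hb4 (s i)
      linarith
    · have h2 : s i ≠ σ0 := fun h => hi (hbij.1 h)
      have := hb3 (s i) h2
      have := hb1 σ
      linarith
  obtain ⟨R, hR, hcob⟩ := Gam_cobounded K
  have hex : ∀ k, ∃ γ ∈ Gam K, ‖(T k) • (fun σ => (x σ : ℂ)) - γ‖ ≤ R :=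
    fun k => hcob _ ((TZ K).smul_mem _ hxT)
  choose γ hγ hγR using hex
  have hunit : ∀ k, ∃ u : (𝓞 K)ˣ, ∀ σ : K →+* ℂ, Complex.exp (γ k σ) = σ (u : K) :=
    fun k => (hγ k).2
  choose u hu using hunit
  set y : ℕ → (K →+* ℂ) → ℂ := fun k => γ k - (T k) • (fun σ => (x σ : ℂ)) with hy
  have hyR : ∀ k, y k ∈ Metric.closedBall (0 : (K →+* ℂ) → ℂ) R := by
    intro k
    rw [mem_closedBall_zero_iff, ← norm_neg]
    convert! hγR k using 2
    simp [hy]
  have hyT : ∀ k, y k ∈ TZ K := fun k => (TZ K).sub_mem (Gam_le_TZ (hγ k)) ((TZ K).smul_mem _ hxT)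
  set ph : ℕ → ℂ := fun k => ((δ k)⁻¹ : ℝ) * g (φ k) i0 σ1 with hph
  have hphn : ∀ k, ph k ∈ Metric.sphere (0 : ℂ) 1 := by
    intro k
    rw [mem_sphere_zero_iff_norm, hph, norm_mul, Complex.norm_real, Real.norm_eq_abs,
      abs_of_pos (inv_pos.mpr (hδpos k))]
    exact inv_mul_cancel₀ (hδpos k).ne'
  obtain ⟨⟨y', ω⟩, hyω, ψ, hψ, hlim2⟩ := ((isCompact_closedBall (0 : (K →+* ℂ) → ℂ) R).prod
    (isCompact_sphere (0 : ℂ) 1)).tendsto_subseq (x := fun k => (y k, ph k)) (fun k => ⟨hyR k, hphn k⟩)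
  have hlimy : Tendsto (fun k => y (ψ k)) atTop (𝓝 y') :=
    (continuous_fst.tendsto _).comp hlim2
  have hlimω : Tendsto (fun k => ph (ψ k)) atTop (𝓝 ω) :=
    (continuous_snd.tendsto _).comp hlim2
  have hω : ω ≠ 0 := by
    have h1 : ‖ω‖ = 1 := by simpa using hyω.2
    intro h; rw [h] at h1; simp at h1
  have hlimy' : ∀ σ, Tendsto (fun k => y (ψ k) σ) atTop (𝓝 (y' σ)) := by
    intro σ
    exact ((continuous_apply σ).tendsto _).comp hlimy
  have hy'T : y' ∈ TZ K :=
    (TZ K).closed_of_finiteDimensional.mem_of_tendsto hlimy (Eventually.of_forall fun k => hyT _)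
  -- the limit system
  set G : ι → (K →+* ℂ) → ℂ := fun i σ =>
    if σ = s i then h i (s i) * Complex.exp (y' σ) else
      if i = i0 ∧ σ = σ1 then ω * Complex.exp (y' σ) else 0 with hG
  have hterm : ∀ i σ, Tendsto (fun k => g (φ (ψ k)) i σ *
      Complex.exp (((T (ψ k) * (x σ - x (s i)) : ℝ) : ℂ) + y (ψ k) σ)) atTop (𝓝 (G i σ)) := by
    intro i σ
    have hey : Tendsto (fun k => Complex.exp (y (ψ k) σ)) atTop (𝓝 (Complex.exp (y' σ))) :=
      (Complex.continuous_exp.tendsto _).comp (hlimy' σ)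
    have hgl : Tendsto (fun k => g (φ (ψ k)) i σ) atTop (𝓝 (h i σ)) :=
      (hlim i σ).comp (hφ.tendsto_atTop.comp hψ.tendsto_atTop)
    by_cases hσ : σ = s i
    · simp only [hG, hσ, if_true, sub_self, mul_zero, Complex.ofReal_zero, zero_add]
      rw [hσ] at hgl hey
      exact hgl.mul hey
    · by_cases hi : i = i0 ∧ σ = σ1
      · obtain ⟨rfl, rfl⟩ := hi
        have h1 : G i0 σ1 = ω * Complex.exp (y' σ1) := by
          simp [hG, show σ1 ≠ s i0 from h10]
        rw [h1]
        have h2 := hlimω.mul hey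
        refine h2.congr fun k => ?_
        rw [Complex.exp_add, ← Complex.ofReal_exp, ← hσ0, hx1, hx0]
        have h3 : T (ψ k) * (1 / 2 - -(1 / 2)) = T (ψ k) := by ring
        rw [h3, hTexp, hph]
        ring
      · have h1 : G i σ = 0 := by
          simp only [hG, hσ, hi, if_false]
        rw [h1, tendsto_zero_iff_norm_tendsto_zero]
        have hbound : ∀ k, ‖g (φ (ψ k)) i σ * Complex.exp (((T (ψ k) * (x σ - x (s i)) : ℝ) : ℂ) + y (ψ k) σ)‖
            ≤ Real.exp (T (ψ k) * (-(1 / 2)) + |T (ψ k)| - T (ψ k)) * Real.exp R := by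
          intro k
          have h2 : ‖g (φ (ψ k)) i σ‖ ≤ Real.exp (- T (ψ k)) := by
            refine (hδmax (ψ k) i σ hσ).trans (le_of_eq ?_)
            rw [Real.exp_neg, hTexp, inv_inv]
          have h3 : T (ψ k) * (x σ - x (s i)) ≤ T (ψ k) * (1 / 2) + |T (ψ k)| - T (ψ k) := by
            have h4 := hxdiff i σ hi
            have h5 : -1 ≤ x σ - x (s i) := by
              have hb1 : ∀ σ, x σ ≤ 1 / 2 := by
                intro σ; simp only [hx]; split_ifs <;> norm_num
              have hb4 : ∀ σ, - (1 / 2) ≤ x σ := by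
                intro σ; simp only [hx]; split_ifs <;> norm_num
              have := hb1 (s i)
              have := hb4 σ
              linarith
            rcases le_or_gt 0 (T (ψ k)) with hT0 | hT0
            · rw [abs_of_nonneg hT0]
              nlinarith
            · rw [abs_of_neg hT0]
              nlinarith
          have h6 : (y (ψ k) σ).re ≤ R := by
            have h7 := (norm_le_pi_norm (y (ψ k)) σ)
            have h8 : ‖y (ψ k)‖ ≤ R := by simpa using hyR (ψ k)
            exact (Complex.re_le_norm _).trans (h7.trans h8)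
          rw [norm_mul, Complex.norm_exp, Complex.add_re, Complex.ofReal_re, Real.exp_add]
          calc ‖g (φ (ψ k)) i σ‖ * (Real.exp (T (ψ k) * (x σ - x (s i))) * Real.exp (y (ψ k) σ).re)
              ≤ Real.exp (- T (ψ k)) * (Real.exp (T (ψ k) * (1 / 2) + |T (ψ k)| - T (ψ k)) * Real.exp R) := by
                gcongr
            _ = _ := by
                rw [← mul_assoc, ← Real.exp_add]
                congr 2
                ring
        refine squeeze_zero (fun k => norm_nonneg _) hbound ?_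
        have hTψ : Tendsto (fun k => T (ψ k)) atTop atTop := hTlim.comp hψ.tendsto_atTop
        have h2 : Tendsto (fun k => Real.exp (T (ψ k) * (-(1 / 2)) + |T (ψ k)| - T (ψ k))) atTop (𝓝 0) := by
          refine Real.tendsto_exp_atBot.comp ?_
          have h3 : Tendsto (fun k => T (ψ k) * (-(1 / 2))) atTop atBot :=
            hTψ.atTop_mul_const_of_neg (by norm_num)
          refine h3.congr' ?_
          filter_upwards [hTψ.eventually_ge_atTop 0] with k hk
          rw [abs_of_nonneg hk]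
          ring
        have h3 := h2.mul_const (Real.exp R)
        simpa using h3
  have hGc : ∀ ξ : 𝓞 K, ξ ≠ 0 → c ≤ ∏ i, ‖∑ σ, G i σ * σ (ξ : K)‖ := by
    intro ξ hξ
    have hl : Tendsto (fun k => ∏ i, ‖∑ σ, (g (φ (ψ k)) i σ *
      Complex.exp (((T (ψ k) * (x σ - x (s i)) : ℝ) : ℂ) + y (ψ k) σ)) * σ (ξ : K)‖) atTop
        (𝓝 (∏ i, ‖∑ σ, G i σ * σ (ξ : K)‖)) := by
      refine tendsto_finsetProd _ fun i _ => Tendsto.norm ?_
      refine tendsto_finsetSum _ fun σ _ => ?_
      exact (hterm i σ).mul_const _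
    refine ge_of_tendsto' hl fun k => ?_
    have h2 := hc (φ (ψ k)) (u (ψ k) * ξ) (mul_ne_zero (Units.ne_zero _) hξ)
    refine h2.trans (le_of_eq ?_)
    have h3 : ∀ i, ‖∑ σ, (g (φ (ψ k)) i σ *
      Complex.exp (((T (ψ k) * (x σ - x (s i)) : ℝ) : ℂ) + y (ψ k) σ)) * σ (ξ : K)‖
        = Real.exp (-(T (ψ k) * x (s i))) * ‖∑ σ, g (φ (ψ k)) i σ * σ (((u (ψ k) : 𝓞 K) * ξ : 𝓞 K) : K)‖ := by
      intro i
      have h4 : ∑ σ, (g (φ (ψ k)) i σ *
          Complex.exp (((T (ψ k) * (x σ - x (s i)) : ℝ) : ℂ) + y (ψ k) σ)) * σ (ξ : K)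
          = Complex.exp ((-(T (ψ k) * x (s i)) : ℝ) : ℂ) * ∑ σ, g (φ (ψ k)) i σ * σ (((u (ψ k) : 𝓞 K) * ξ : 𝓞 K) : K) := by
        rw [Finset.mul_sum]
        refine Finset.sum_congr rfl fun σ _ => ?_
        have h5 : ((T (ψ k) * (x σ - x (s i)) : ℝ) : ℂ) + y (ψ k) σ = ((-(T (ψ k) * x (s i)) : ℝ) : ℂ) + γ (ψ k) σ := by
          simp only [hy, Pi.sub_apply, Pi.smul_apply, Complex.real_smul]
          push_cast
          ring
        rw [h5, Complex.exp_add, hu (ψ k) σ]
        simp only [map_mul]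
        ring
      rw [h4, norm_mul, Complex.norm_exp, Complex.ofReal_re]
    simp_rw [h3]
    rw [Finset.prod_mul_distrib, ← Real.exp_sum]
    have h6 : ∑ i, -(T (ψ k) * x (s i)) = 0 := by
      rw [Finset.sum_neg_distrib, ← Finset.mul_sum, hbij.sum_comp x, hxsum]; simp
    rw [h6, Real.exp_zero, one_mul]
  have hGconj : ∀ i σ, G i (ComplexEmbedding.conjugate σ) = (starRingEnd ℂ) (G i σ) := by
    intro i σ
    rw [hreal σ]
    have h1 := hterm i σ
    have h2 := (Complex.continuous_conj.tendsto _).comp h1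
    refine tendsto_nhds_unique h1 (h2.congr fun k => ?_)
    simp only [Function.comp]
    have h3 := hconj (φ (ψ k)) i σ
    have h4 := (hyT (ψ k)).1 σ
    rw [hreal σ] at h3 h4
    rw [map_mul, ← h3, ← Complex.exp_conj, map_add, Complex.conj_ofReal, ← h4]
  have hGd : ∀ i, G i (s i) ≠ 0 := by
    intro i
    simp only [hG, if_true]
    exact mul_ne_zero (hs1 i) (Complex.exp_ne_zero _)
  have hG0 : ∀ i σ, σ ≠ s i → ¬ (i = i0 ∧ σ = σ1) → G i σ = 0 := by
    intro i σ hσ hi
    simp only [hG, hσ, hi, if_false]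
  have hG01 : G i0 σ1 ≠ 0 := by
    have h1 : G i0 σ1 = ω * Complex.exp (y' σ1) := by
      simp [hG, show σ1 ≠ s i0 from h10]
    rw [h1]
    exact mul_ne_zero hω (Complex.exp_ne_zero _)
  have hGli : LinearIndependent ℂ G := by
    rw [Fintype.linearIndependent_iff]
    intro d hd
    have h1 : ∀ j, s j ≠ σ1 → d j = 0 := by
      intro j hj
      have h2 := congrFun hd (s j)
      rw [Finset.sum_apply, Finset.sum_eq_single j] at h2
      · simp only [Pi.smul_apply, smul_eq_mul, Pi.zero_apply, mul_eq_zero] at h2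
        exact h2.resolve_right (hGd j)
      · intro j' _ hj'
        simp only [Pi.smul_apply, smul_eq_mul]
        rw [hG0 j' (s j) (fun h => hj' (hbij.1 h.symm)) (fun h => hj h.2), mul_zero]
      · simp
    have h0 : d i0 = 0 := h1 i0 (Ne.symm h10)
    intro j
    by_cases hj : s j = σ1
    · have h2 := congrFun hd (s j)
      rw [Finset.sum_apply, Finset.sum_eq_single j] at h2
      · simp only [Pi.smul_apply, smul_eq_mul, Pi.zero_apply, mul_eq_zero] at h2
        exact h2.resolve_right (hGd j)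
      · intro j' _ hj'
        simp only [Pi.smul_apply, smul_eq_mul]
        by_cases hji : j' = i0
        · rw [hji, h0, zero_mul]
        · rw [hG0 j' (s j) (fun h => hj' (hbij.1 h.symm)) (fun h => hji h.1), mul_zero]
      · simp
    · exact h1 j hj
  -- choose a row different from i0
  obtain ⟨i', hi'⟩ : ∃ i' : ι, i' ≠ i0 := Fintype.exists_ne_of_one_lt_card (by omega) i0
  obtain ⟨s', -, -, hs'⟩ := core1 hcard hn G hGconj hGli hc0 hGc {i'} {s i'} (by simp) (by simp)
    (by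
      intro h
      have := congrArg Finset.card h
      rw [Finset.card_singleton, Finset.card_univ] at this
      omega)
    (by
      intro σ
      simp only [Finset.mem_singleton, exists_eq_left]
      constructor
      · rintro rfl; exact hGd i'
      · intro h0
        by_contra hσ
        exact h0 (hG0 i' σ hσ (fun h => hi' h.1)))
    (by
      intro σ τ hστ
      obtain ⟨ρ', hρ', hz⟩ := exists_partner hστ (s i')
      exact ⟨s i', by simp, ρ', by simpa using hρ', hz⟩)
  have h1 : s i0 = s' i0 := by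
    by_contra hne
    exact hGd i0 (hs' i0 _ hne)
  have h2 : σ1 = s' i0 := by
    by_contra hne
    exact hG01 (hs' i0 _ hne)
  exact h10 (h2.trans h1.symm)

end isol

end Pool.Agent.Work.MP_77d073_nt
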