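import Mathlib
import Pool.Agent.Work.MP_77d073_nt.Isol

set_option autoImplicit false

namespace Pool.Agent.Work.MP_77d073_nt

open NumberField NumberField.Units Module Filter Topology

section trans

variable {K : Type*} [Field K] [NumberField K] {n : ℕ}

/-- Coefficients of the real linear forms with respect to the complex embeddings. -/
noncomputable def coef (b : Basis (Fin n) ℚ K) (L : Fin n → Fin n → ℝ) (i : Fin n)
    (σ : K →+* ℂ) : ℂ :=
  ∑ j, (L i j : ℂ) * σ (b.traceDual j)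

theorem trace_sum (x : K) : ∑ σ : K →+* ℂ, σ x = ((Algebra.trace ℚ K x : ℚ) : ℂ) := by
  have h1 := trace_eq_sum_embeddings (K := ℚ) (L := K) ℂ (x := x)
  rw [eq_ratCast] at h1
  rw [h1]
  exact Fintype.sum_equiv (RingHom.equivRatAlgHom K ℂ) (fun f => f x)
      (fun φ => φ x) fun _ => by simp [RingHom.equivRatAlgHom_apply]

theorem coef_conj (b : Basis (Fin n) ℚ K) (L : Fin n → Fin n → ℝ) (i : Fin n) (σ : K →+* ℂ) :
    coef b L i (ComplexEmbedding.conjugate σ) = (starRingEnd ℂ) (coef b L i σ) := by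
  unfold coef
  rw [map_sum]
  refine Finset.sum_congr rfl fun j _ => ?_
  rw [map_mul, Complex.conj_ofReal, ComplexEmbedding.conjugate_coe_eq]

theorem coef_sum (b : Basis (Fin n) ℚ K) (L : Fin n → Fin n → ℝ) (i : Fin n) (ξ : K) :
    ∑ σ : K →+* ℂ, coef b L i σ * σ ξ = ∑ j, (L i j : ℂ) * ((b.repr ξ j : ℚ) : ℂ) := by
  unfold coef
  simp_rw [Finset.sum_mul]
  rw [Finset.sum_comm]
  refine Finset.sum_congr rfl fun j _ => ?_
  simp_rw [mul_assoc]
  rw [← Finset.mul_sum]
  congr 1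
  simp_rw [← map_mul]
  rw [trace_sum]
  congr 1
  conv_lhs => rw [← b.sum_repr ξ]
  rw [Finset.mul_sum, map_sum, Finset.sum_eq_single j]
  · rw [mul_smul_comm, map_smul, Module.Basis.trace_traceDual_mul]
    simp
  · intro k _ hk
    rw [mul_smul_comm, map_smul, Module.Basis.trace_traceDual_mul]
    simp [hk]
  · simp

theorem coef_li (b : Basis (Fin n) ℚ K) {L : Fin n → Fin n → ℝ} (hL : LinearIndependent ℝ L) :
    LinearIndependent ℂ (coef b L) := by
  rw [Fintype.linearIndependent_iff]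
  intro d hd
  have h1 : ∀ k, ∑ i, d i * (L i k : ℂ) = 0 := by
    intro k
    have h2 : ∑ σ : K →+* ℂ, (∑ i, d i • coef b L i) σ * σ (b k) = 0 := by
      rw [hd]; simp
    simp only [Finset.sum_apply, Pi.smul_apply, smul_eq_mul, Finset.sum_mul] at h2
    rw [Finset.sum_comm] at h2
    simp_rw [mul_assoc] at h2
    simp_rw [← Finset.mul_sum] at h2
    simp_rw [coef_sum] at h2
    rw [← h2]
    refine Finset.sum_congr rfl fun i _ => ?_
    congr 1
    rw [Finset.sum_eq_single k]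
    · simp
    · intro j _ hj
      rw [b.repr_self, Finsupp.single_apply, if_neg (Ne.symm hj)]
      simp
    · simp
  rw [Fintype.linearIndependent_iff] at hL
  have hre := hL (fun i => (d i).re) (by
    funext k
    have := congrArg Complex.re (h1 k)
    simpa using this)
  have him := hL (fun i => (d i).im) (by
    funext k
    have := congrArg Complex.im (h1 k)
    simpa using this)
  intro i
  exact Complex.ext (hre i) (him i)

theorem exists_den (f : K →ₗ[ℚ] ℚ) : ∃ D : ℕ, 0 < D ∧ ∀ a : 𝓞 K, ∃ z : ℤ, (D : ℚ) * f (a : K) = z := by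
  obtain ⟨S, hS⟩ := (inferInstance : Module.Finite ℤ (𝓞 K)).fg_top
  refine ⟨∏ s ∈ S, (f (s : K)).den, Finset.prod_pos fun s _ => (f (s : K)).den_pos, ?_⟩
  intro a
  have ha : a ∈ Submodule.span ℤ (S : Set (𝓞 K)) := by rw [hS]; trivial
  induction ha using Submodule.span_induction with
  | mem x hx =>
    obtain ⟨q, hq⟩ := Finset.dvd_prod_of_mem (fun s : 𝓞 K => (f (s : K)).den) hx
    refine ⟨q * (f (x : K)).num, ?_⟩
    rw [hq]
    push_cast
    have : ((f (x : K)).den : ℚ) * f (x : K) = (f (x : K)).num := by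
      rw [mul_comm]; exact Rat.mul_den_eq_num _
    rw [mul_comm ((f (x : K)).den : ℚ), mul_assoc, this]
  | zero => exact ⟨0, by simp⟩
  | add x y _ _ hx hy =>
    obtain ⟨z, hz⟩ := hx
    obtain ⟨w, hw⟩ := hy
    refine ⟨z + w, ?_⟩
    have h1 : ((x + y : 𝓞 K) : K) = (x : K) + (y : K) := by simp
    rw [h1, map_add, mul_add, hz, hw]
    push_cast; ring
  | smul m x _ hx =>
    obtain ⟨z, hz⟩ := hx
    refine ⟨m * z, ?_⟩
    rw [zsmul_eq_mul]
    have h1 : (((m : 𝓞 K) * x : 𝓞 K) : K) = (m : ℤ) • (x : K) := by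
      rw [zsmul_eq_mul]; simp
    rw [h1, map_zsmul, zsmul_eq_mul, Int.cast_mul, ← hz]
    ring

theorem exists_den_family {κ : Type*} [Fintype κ] (f : κ → (K →ₗ[ℚ] ℚ)) :
    ∃ D : ℕ, 0 < D ∧ ∀ a : 𝓞 K, ∀ i, ∃ z : ℤ, (D : ℚ) * f i (a : K) = z := by
  classical
  choose D hD hDz using fun i => exists_den (f i)
  refine ⟨∏ i, D i, Finset.prod_pos fun i _ => hD i, ?_⟩
  intro a i
  obtain ⟨z, hz⟩ := hDz i a
  obtain ⟨q, hq⟩ := Finset.dvd_prod_of_mem D (Finset.mem_univ i)
  refine ⟨q * z, ?_⟩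
  rw [hq]
  push_cast
  rw [← hz]; ring

/-- A positive lower bound on integer points gives a positive lower bound on the ring of
integers. -/
theorem lower_bound (b : Basis (Fin n) ℚ K) :
    ∃ D : ℕ, 0 < D ∧ ∀ (L : Fin n → Fin n → ℝ) (c : ℝ),
      (∀ p : Fin n → ℤ, p ≠ 0 → c ≤ |∏ i, ∑ j, L i j * (p j : ℝ)|) →
      ∀ ξ : 𝓞 K, ξ ≠ 0 → c / (D : ℝ) ^ n ≤ ∏ i, ‖∑ σ, coef b L i σ * σ (ξ : K)‖ := by
  obtain ⟨D, hD, hDz⟩ := exists_den_family (fun j : Fin n => (b.coord j : K →ₗ[ℚ] ℚ))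
  refine ⟨D, hD, ?_⟩
  intro L c hc ξ hξ
  choose z hz using hDz ξ
  have hDR : (0 : ℝ) < D := by exact_mod_cast hD
  have hz0 : z ≠ 0 := by
    intro h
    apply hξ
    have h1 : ∀ j, b.repr (ξ : K) j = 0 := by
      intro j
      have := hz j
      rw [h] at this
      simp only [Basis.coord_apply, Pi.zero_apply, Int.cast_zero, mul_eq_zero, Nat.cast_eq_zero] at this
      exact this.resolve_left hD.ne'
    have h2 : (ξ : K) = 0 := by
      apply b.repr.injective
      ext j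
      simp [h1 j]
    exact_mod_cast h2
  have h1 := hc z hz0
  have h2 : ∀ i, ∑ j, L i j * (z j : ℝ) = (D : ℝ) * ∑ j, L i j * ((b.repr (ξ : K) j : ℚ) : ℝ) := by
    intro i
    rw [Finset.mul_sum]
    refine Finset.sum_congr rfl fun j _ => ?_
    have h3 : (z j : ℝ) = (D : ℝ) * ((b.repr (ξ : K) j : ℚ) : ℝ) := by
      have := hz j
      simp only [Basis.coord_apply] at this
      exact_mod_cast this.symm
    rw [h3]; ring
  simp_rw [h2] at h1
  rw [Finset.prod_mul_distrib, Finset.prod_const, Finset.card_univ, Fintype.card_fin, abs_mul,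
    abs_of_pos (pow_pos hDR n), Finset.abs_prod] at h1
  rw [div_le_iff₀ (pow_pos hDR n), mul_comm]
  refine h1.trans (le_of_eq ?_)
  congr 1
  refine Finset.prod_congr rfl fun i _ => ?_
  rw [coef_sum, ← Real.norm_eq_abs, ← Complex.norm_real]
  congr 1
  push_cast
  rfl

end trans

end Pool.Agent.Work.MP_77d073_nt
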