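import Mathlib
import Pool.Agent.Work.MP_77d073_nt.Trans

set_option autoImplicit false

namespace Pool.Agent.Work.MP_77d073_nt

open NumberField NumberField.Units Module Filter Topology

section final

variable {K : Type*} [Field K] [NumberField K] {n : ℕ}

/-- In a totally real field there is a unit with pairwise distinct conjugates and norm one. -/
theorem exists_unit_distinct (hreal : ∀ σ : K →+* ℂ, ComplexEmbedding.conjugate σ = σ) :
    ∃ u : (𝓞 K)ˣ, (∀ m : ℕ, 0 < m → Function.Injective fun σ : K →+* ℂ => σ ((u : K) ^ m)) ∧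
      ∏ σ : K →+* ℂ, σ (u : K) = 1 := by
  classical
  obtain ⟨R, hR, hcob⟩ := Gam_cobounded K
  set N := Fintype.card (K →+* ℂ) with hN
  have hNpos : (0 : ℝ) < N := by
    have : 0 < N := Fintype.card_pos
    exact_mod_cast this
  set e := Fintype.equivFin (K →+* ℂ) with he
  set y1 : (K →+* ℂ) → ℝ := fun σ => (2 * R + 1) * (e σ : ℕ) with hy1
  set m : ℝ := (∑ σ, y1 σ) / N with hm
  set y : (K →+* ℂ) → ℝ := fun σ => y1 σ - m with hy
  have hysum : ∑ σ, y σ = 0 := by
    simp only [hy]
    rw [Finset.sum_sub_distrib, Finset.sum_const, Finset.card_univ, nsmul_eq_mul, hm, ← hN]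
    field_simp
    ring
  have hyT : (fun σ => (y σ : ℂ)) ∈ TZ K := by
    refine ⟨fun σ => ?_, ?_⟩
    · rw [Complex.conj_ofReal, hreal]
    · rw [← Complex.ofReal_sum, hysum, Complex.ofReal_zero]
  obtain ⟨γ, ⟨hγT, u, hu⟩, hγR⟩ := hcob _ hyT
  have hclose : ∀ σ, |y σ - (γ σ).re| ≤ R := by
    intro σ
    have h1 := (norm_le_pi_norm ((fun σ => (y σ : ℂ)) - γ) σ).trans hγR
    have h2 := (Complex.abs_re_le_norm _).trans h1
    simpa using h2
  have hne : ∀ σ τ : K →+* ℂ, σ ≠ τ → (γ σ).re ≠ (γ τ).re := by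
    intro σ τ hστ h
    have h1 := hclose σ
    have h2 := hclose τ
    rw [abs_le] at h1 h2
    have h3 : y σ - y τ = (2 * R + 1) * (((e σ : ℕ) : ℝ) - (e τ : ℕ)) := by
      simp only [hy, hy1]; ring
    have h4 : (e σ : ℕ) ≠ (e τ : ℕ) := fun h => hστ (e.injective (Fin.ext h))
    rcases lt_or_gt_of_ne h4 with h5 | h5
    · have h6 : ((e σ : ℕ) : ℝ) + 1 ≤ (e τ : ℕ) := by exact_mod_cast h5
      nlinarith
    · have h6 : ((e τ : ℕ) : ℝ) + 1 ≤ (e σ : ℕ) := by exact_mod_cast h5
      nlinarith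
  refine ⟨u, ?_, ?_⟩
  · intro k hk σ τ hστ
    by_contra hcon
    apply hne σ τ hcon
    simp only [map_pow] at hστ
    rw [← hu σ, ← hu τ] at hστ
    have h1 := congrArg norm hστ
    rw [norm_pow, norm_pow, Complex.norm_exp, Complex.norm_exp] at h1
    have h2 := (pow_left_inj₀ (Real.exp_pos _).le (Real.exp_pos _).le hk.ne').mp h1
    exact Real.exp_injective h2
  · simp_rw [← hu]
    rw [← Complex.exp_sum, hγT.2, Complex.exp_zero]

theorem exists_pow_congr (u : (𝓞 K)ˣ) {D : ℕ} (hD : 0 < D) :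
    ∃ m : ℕ, 0 < m ∧ ∃ a : 𝓞 K, ((u : K)) ^ m = 1 + (D : K) * (a : K) := by
  set I : Ideal (𝓞 K) := Ideal.span {(D : 𝓞 K)} with hI
  have hI0 : I ≠ ⊥ := by
    rw [hI, Ne, Ideal.span_singleton_eq_bot]
    exact_mod_cast hD.ne'
  haveI : Finite (𝓞 K ⧸ I) := Ideal.finiteQuotientOfFreeOfNeBot I hI0
  obtain ⟨m, hm, hpow⟩ := (isOfFinOrder_of_finite (Units.map (Ideal.Quotient.mk I).toMonoidHom u)).exists_pow_eq_one
  refine ⟨m, hm, ?_⟩
  have h1 : Ideal.Quotient.mk I ((u : 𝓞 K) ^ m) = 1 := by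
    have := congrArg Units.val hpow
    simpa using this
  rw [← map_one (Ideal.Quotient.mk I), Ideal.Quotient.eq, hI, Ideal.mem_span_singleton] at h1
  obtain ⟨a, ha⟩ := h1
  refine ⟨a, ?_⟩
  have h2 : (u : 𝓞 K) ^ m = 1 + (D : 𝓞 K) * a := by rw [← ha]; ring
  have h3 := congrArg (algebraMap (𝓞 K) K) h2
  simpa using h3

theorem final_matrix (b : Basis (Fin n) ℚ K) (L : Fin n → Fin n → ℝ)
    (s : Fin n → (K →+* ℂ)) (hbij : Function.Bijective s)
    (hsreal : ∀ i, ComplexEmbedding.conjugate (s i) = s i)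
    (hs : ∀ i σ, σ ≠ s i → coef b L i σ = 0) :
    ∃ A : Matrix (Fin n) (Fin n) ℤ,
        A.det = 1 ∧
        Irreducible (A.charpoly.map (Int.castRingHom ℚ)) ∧
        (∀ z : ℂ, Polynomial.aeval z A.charpoly = 0 → z.im = 0) ∧
        ∀ i : Fin n, ∃ μ : ℝ, ∀ x : Fin n → ℝ,
          ∑ j, L i j * ((A.map (Int.cast : ℤ → ℝ)).mulVec x) j = μ * ∑ j, L i j * x j := by
  classical
  have hreal : ∀ σ : K →+* ℂ, ComplexEmbedding.conjugate σ = σ := by
    intro σ
    obtain ⟨i, rfl⟩ := hbij.2 σ
    exact hsreal i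
  obtain ⟨u, huinj, huprod⟩ := exists_unit_distinct hreal
  obtain ⟨D, hD, hDz⟩ := exists_den_family (fun p : Fin n × Fin n =>
    ((b.coord p.1 : K →ₗ[ℚ] ℚ) ∘ₗ (LinearMap.mulRight ℚ (b p.2))))
  obtain ⟨m, hm, a, ha⟩ := exists_pow_congr u hD
  choose z hz using hDz a
  set v : K := (u : K) ^ m with hv
  set A : Matrix (Fin n) (Fin n) ℤ := fun j k => (if j = k then 1 else 0) + z (j, k) with hA
  have hAv : ∀ j k, (A j k : ℚ) = b.repr (v * b k) j := by
    intro j k
    rw [ha, add_mul, one_mul, map_add, Finsupp.add_apply]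
    have h1 := hz (j, k)
    simp only [LinearMap.comp_apply, LinearMap.mulRight_apply, Basis.coord_apply] at h1
    have h2 : (D : K) * (a : K) * b k = (D : ℚ) • ((a : K) * b k) := by
      rw [Rat.smul_def, mul_assoc]; simp
    rw [h2, map_smul, Finsupp.smul_apply, smul_eq_mul, h1, b.repr_self, Finsupp.single_apply]
    simp only [hA]
    push_cast
    by_cases hjk : j = k
    · simp [hjk]
    · simp [hjk, Ne.symm hjk]
  have hAmap : A.map (Int.castRingHom ℚ) = Algebra.leftMulMatrix b v := by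
    ext j k
    rw [Algebra.leftMulMatrix_eq_repr_mul, ← hAv]
    simp
  -- determinant
  have hdet : A.det = 1 := by
    have h1 : ((A.det : ℤ) : ℚ) = Algebra.norm ℚ v := by
      rw [Algebra.norm_eq_matrix_det b v, ← hAmap]
      exact RingHom.map_det (Int.castRingHom ℚ) A
    have h2 : ((Algebra.norm ℚ v : ℚ) : ℂ) = 1 := by
      have h3 := Algebra.norm_eq_prod_embeddings ℚ ℂ v
      rw [eq_ratCast] at h3
      rw [h3]
      have h4 : ∏ σ : K →ₐ[ℚ] ℂ, σ v = ∏ σ : K →+* ℂ, σ v :=
        (Fintype.prod_equiv (RingHom.equivRatAlgHom K ℂ) (fun f => f v)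
          (fun φ => φ v) fun φ => by simp [RingHom.equivRatAlgHom_apply]).symm
      rw [h4, hv]
      simp_rw [map_pow]
      rw [Finset.prod_pow, huprod, one_pow]
    have h5 : ((A.det : ℤ) : ℂ) = 1 := by
      rw [← h2, ← h1]; push_cast; rfl
    exact_mod_cast h5
  -- characteristic polynomial
  have hcharmap : A.charpoly.map (Int.castRingHom ℚ) = (Algebra.leftMulMatrix b v).charpoly := by
    rw [← hAmap, Matrix.charpoly_map]
  have hcard : Fintype.card (K →+* ℂ) = n := by
    rw [← Fintype.card_fin n]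
    exact (Fintype.card_of_bijective hbij).symm
  have hinj : Function.Injective fun σ : K →+* ℂ => σ v := huinj m hm
  have hint : IsIntegral ℚ v := Algebra.IsIntegral.isIntegral v
  have hminpoly : (Algebra.leftMulMatrix b v).charpoly = minpoly ℚ v := by
    have h1 : minpoly ℚ v ∣ (Algebra.leftMulMatrix b v).charpoly := by
      apply minpoly.dvd
      apply Algebra.leftMulMatrix_injective b
      rw [← Polynomial.aeval_algHom_apply, Matrix.aeval_self_charpoly, map_zero]
    have h2 : (Algebra.leftMulMatrix b v).charpoly.natDegree ≤ (minpoly ℚ v).natDegree := by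
      rw [Matrix.charpoly_natDegree_eq_dim, Fintype.card_fin, ← hcard]
      have h3 : Fintype.card (K →+* ℂ) ≤ ((minpoly ℚ v).rootSet ℂ).toFinset.card := by
        rw [← Finset.card_univ, ← Finset.card_image_of_injective _ hinj]
        apply Finset.card_le_card
        intro w hw
        obtain ⟨σ, -, rfl⟩ := Finset.mem_image.mp hw
        rw [Set.mem_toFinset, ← NumberField.Embeddings.range_eval_eq_rootSet_minpoly]
        exact ⟨σ, rfl⟩
      refine h3.trans ?_
      rw [← Set.ncard_eq_toFinset_card']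
      exact Polynomial.ncard_rootSet_le _ _
    exact (Polynomial.eq_of_monic_of_dvd_of_natDegree_le (minpoly.monic hint)
      (Matrix.charpoly_monic _) h1 h2)
  refine ⟨A, hdet, ?_, ?_, ?_⟩
  · rw [hcharmap, hminpoly]
    exact minpoly.irreducible hint
  · intro w hw
    have h1 : Polynomial.aeval w (minpoly ℚ v) = 0 := by
      rw [← hminpoly, ← hcharmap]
      have h2 := Polynomial.aeval_map_algebraMap ℚ w A.charpoly
      rw [← h2] at hw
      exact hw
    have h2 : w ∈ (minpoly ℚ v).rootSet ℂ := by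
      rw [Polynomial.mem_rootSet]
      exact ⟨minpoly.ne_zero hint, h1⟩
    rw [← NumberField.Embeddings.range_eval_eq_rootSet_minpoly] at h2
    obtain ⟨σ, rfl⟩ := h2
    rw [← Complex.conj_eq_iff_im]
    have := hreal σ
    rw [← ComplexEmbedding.conjugate_coe_eq, this]
  · intro i
    have him : ((s i) v).im = 0 := by
      rw [← Complex.conj_eq_iff_im, ← ComplexEmbedding.conjugate_coe_eq, hsreal]
    refine ⟨((s i) v).re, ?_⟩
    have hre : (((s i) v).re : ℂ) = (s i) v := by
      apply Complex.ext <;> simp [him]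
    have hsingle : ∀ ξ : K, ∑ j, (L i j : ℂ) * ((b.repr ξ j : ℚ) : ℂ) = coef b L i (s i) * (s i) ξ := by
      intro ξ
      rw [← coef_sum, Finset.sum_eq_single (s i)]
      · intro σ _ hσ
        rw [hs i σ hσ, zero_mul]
      · simp
    have hcol : ∀ k, ∑ j, L i j * (A j k : ℝ) = ((s i) v).re * L i k := by
      intro k
      have h1 := hsingle (v * b k)
      have h2 := hsingle (b k)
      have h3 : ∑ j, (L i j : ℂ) * ((b.repr (b k) j : ℚ) : ℂ) = L i k := by
        rw [Finset.sum_eq_single k]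
        · simp
        · intro j _ hj
          rw [b.repr_self, Finsupp.single_apply, if_neg (Ne.symm hj)]
          simp
        · simp
      rw [map_mul (s i), mul_left_comm, ← h2, h3, ← hre] at h1
      have h4 : ((∑ j, L i j * (A j k : ℝ) : ℝ) : ℂ) = ((((s i) v).re * L i k : ℝ) : ℂ) := by
        rw [Complex.ofReal_mul, ← h1]
        push_cast
        refine Finset.sum_congr rfl fun j _ => ?_
        rw [← hAv]
        push_cast
        rfl
      exact_mod_cast h4
    intro x
    simp only [Matrix.mulVec, dotProduct, Matrix.map_apply]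
    simp_rw [Finset.mul_sum]
    rw [Finset.sum_comm]
    refine Finset.sum_congr rfl fun k _ => ?_
    rw [← mul_assoc, ← hcol k, Finset.sum_mul]
    refine Finset.sum_congr rfl fun j _ => ?_
    ring

end final

end Pool.Agent.Work.MP_77d073_nt
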