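import Mathlib
import Pool.Agent.Work.MP_77d073_nt.Final

set_option autoImplicit false

namespace Pool.Agent.Work.MP_77d073_nt

open NumberField NumberField.Units Module Filter Topology

section field

variable {n : ℕ}

/-- The number field attached to a rational matrix with irreducible characteristic polynomial. -/
theorem field_of_matrix (B : Matrix (Fin n) (Fin n) ℚ) (hB : Irreducible B.charpoly) :
    ∃ (K : Type) (_ : Field K) (_ : NumberField K) (b : Basis (Fin n) ℚ K) (θ : K),
      (∀ k, ∑ j, (B j k : K) * b j = θ * b k) ∧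
      (∀ z : K, ∃ f : Polynomial ℚ, Polynomial.aeval θ f = z) := by
  classical
  haveI : Fact (Irreducible B.charpoly) := ⟨hB⟩
  let K := AdjoinRoot B.charpoly
  have hne : B.charpoly ≠ 0 := hB.ne_zero
  have hfin : FiniteDimensional ℚ K := (AdjoinRoot.powerBasis hne).finite
  have hchar : CharZero K := algebraRat.charZero K
  have hnf : NumberField K := { to_charZero := hchar, to_finiteDimensional := hfin }
  let θ : K := AdjoinRoot.root B.charpoly
  have hgen : ∀ z : K, ∃ f : Polynomial ℚ, Polynomial.aeval θ f = z := by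
    intro z
    obtain ⟨f, rfl⟩ := AdjoinRoot.mk_surjective z
    exact ⟨f, AdjoinRoot.aeval_eq f⟩
  have hfr : finrank ℚ K = n := by
    have h1 : finrank ℚ K = B.charpoly.natDegree := by
      rw [(AdjoinRoot.powerBasis hne).finrank, AdjoinRoot.powerBasis_dim]
    rw [h1, Matrix.charpoly_natDegree_eq_dim, Fintype.card_fin]
  -- eigenvector
  have hdet : (Matrix.scalar (Fin n) θ - B.map (algebraMap ℚ K)).det = 0 := by
    rw [← Matrix.eval_charpoly, Matrix.charpoly_map]
    have := AdjoinRoot.isRoot_root B.charpoly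
    exact this
  obtain ⟨v, hv0, hv⟩ := Matrix.exists_vecMul_eq_zero_iff.mpr hdet
  have hvB : ∀ k, ∑ j, (B j k : K) * v j = θ * v k := by
    intro k
    have h1 := congrFun hv k
    rw [Matrix.vecMul_sub] at h1
    simp only [Pi.sub_apply, Pi.zero_apply, sub_eq_zero] at h1
    have h2 : Matrix.vecMul v (Matrix.scalar (Fin n) θ) k = θ * v k := by
      simp [Matrix.scalar_apply, Matrix.vecMul_diagonal, mul_comm]
    rw [h2] at h1
    rw [h1]
    simp only [Matrix.vecMul, dotProduct, Matrix.map_apply, eq_ratCast]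
    refine Finset.sum_congr rfl fun j _ => mul_comm _ _
  -- span is everything
  have hspan : ⊤ ≤ Submodule.span ℚ (Set.range v) := by
    set S := Submodule.span ℚ (Set.range v) with hS
    have hθ : ∀ w ∈ S, θ * w ∈ S := by
      intro w hw
      induction hw using Submodule.span_induction with
      | mem x hx =>
        obtain ⟨k, rfl⟩ := hx
        rw [← hvB k]
        refine S.sum_mem fun j _ => ?_
        rw [← Rat.smul_def]
        exact S.smul_mem _ (Submodule.subset_span ⟨j, rfl⟩)
      | zero => simp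
      | add x y _ _ hx hy => rw [mul_add]; exact S.add_mem hx hy
      | smul a x _ hx => rw [mul_smul_comm]; exact S.smul_mem _ hx
    have hpow : ∀ m : ℕ, ∀ w ∈ S, θ ^ m * w ∈ S := by
      intro m
      induction m with
      | zero => intro w hw; simpa using hw
      | succ m ih => intro w hw; rw [pow_succ', mul_assoc]; exact hθ _ (ih w hw)
    have haeval : ∀ f : Polynomial ℚ, ∀ w ∈ S, Polynomial.aeval θ f * w ∈ S := by
      intro f w hw
      rw [Polynomial.aeval_eq_sum_range, Finset.sum_mul]
      refine S.sum_mem fun i _ => ?_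
      rw [smul_mul_assoc]
      exact S.smul_mem _ (hpow i w hw)
    obtain ⟨k0, hk0⟩ : ∃ k, v k ≠ 0 := by
      by_contra hcon
      push Not at hcon
      exact hv0 (funext hcon)
    intro z _
    obtain ⟨f, hf⟩ := hgen (z / v k0)
    have h1 := haeval f (v k0) (Submodule.subset_span ⟨k0, rfl⟩)
    rw [hf, div_mul_cancel₀ _ hk0] at h1
    exact h1
  let b : Basis (Fin n) ℚ K := basisOfTopLeSpanOfCardEqFinrank v hspan (by rw [Fintype.card_fin, hfr])
  have hb : ∀ j, b j = v j := fun j => by simp [b]
  exact ⟨K, inferInstance, hnf, b, θ, fun k => by simpa [hb] using hvB k, hgen⟩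

variable {K : Type*} [Field K] [NumberField K]

/-- Embeddings of a field generated by `θ` are separated by their value at `θ`. -/
theorem embedding_ext {θ : K} (hgen : ∀ z : K, ∃ f : Polynomial ℚ, Polynomial.aeval θ f = z)
    {σ τ : K →+* ℂ} (h : σ θ = τ θ) : σ = τ := by
  ext z
  obtain ⟨f, rfl⟩ := hgen z
  have h1 : ∀ ρ : K →+* ℂ, ρ (Polynomial.aeval θ f) = Polynomial.aeval (ρ θ) f := by
    intro ρ
    rw [Polynomial.aeval_def, Polynomial.aeval_def, Polynomial.hom_eval₂]
    congr 1
    exact RingHom.ext_rat _ _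
  rw [h1, h1, h]

/-- Action of the matrix in coordinates. -/
theorem repr_mul {b : Basis (Fin n) ℚ K} {θ : K} {B : Matrix (Fin n) (Fin n) ℚ}
    (hb : ∀ k, ∑ j, (B j k : K) * b j = θ * b k) (ξ : K) (j : Fin n) :
    b.repr (θ * ξ) j = ∑ k, B j k * b.repr ξ k := by
  have h1 : θ * ξ = ∑ j, (∑ k, B j k * b.repr ξ k) • b j := by
    conv_lhs => rw [← b.sum_repr ξ]
    rw [Finset.mul_sum]
    simp_rw [mul_smul_comm, ← hb, Finset.smul_sum]
    rw [Finset.sum_comm]
    refine Finset.sum_congr rfl fun j _ => ?_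
    rw [Finset.sum_smul]
    refine Finset.sum_congr rfl fun k _ => ?_
    rw [← Rat.smul_def, smul_smul, mul_comm]
  rw [h1, map_sum, Finset.sum_apply']
  simp [Finsupp.single_apply]

/-- The coefficient vector of `ℓ ∘ B` is `σ(θ)` times that of `ℓ`. -/
theorem coef_mul {b : Basis (Fin n) ℚ K} {θ : K} {B : Matrix (Fin n) (Fin n) ℚ}
    (hb : ∀ k, ∑ j, (B j k : K) * b j = θ * b k) (L : Fin n → Fin n → ℝ) (i : Fin n) (σ : K →+* ℂ) :
    coef b (fun i k => ∑ j, L i j * (B j k : ℝ)) i σ = σ θ * coef b L i σ := by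
  have h1 : ∀ σ : K →+* ℂ, coef b (fun i k => ∑ j, L i j * (B j k : ℝ)) i σ - σ θ * coef b L i σ = 0 := by
    apply coeff_eq_zero_of_sum
    intro ξ
    simp only [sub_mul, Finset.sum_sub_distrib]
    rw [coef_sum]
    have h2 : ∑ σ : K →+* ℂ, σ θ * coef b L i σ * σ ξ = ∑ σ : K →+* ℂ, coef b L i σ * σ (θ * ξ) := by
      refine Finset.sum_congr rfl fun σ _ => ?_
      rw [map_mul]; ring
    rw [h2, coef_sum, sub_eq_zero]
    simp_rw [repr_mul hb]
    push_cast
    simp_rw [Finset.mul_sum, Finset.sum_mul]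
    rw [Finset.sum_comm]
    refine Finset.sum_congr rfl fun j _ => Finset.sum_congr rfl fun k _ => ?_
    ring
  exact sub_eq_zero.mp (h1 σ)

end field

end Pool.Agent.Work.MP_77d073_nt
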