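import Mathlib
import Pool.Agent.Work.MP_77d073_nt.Field

set_option autoImplicit false

namespace Pool.Agent.Work.MP_77d073_nt

open NumberField NumberField.Units Module Filter Topology

section rigid

variable {n : ℕ}

/-- The transformed system `t_i L_i ∘ M`. -/
noncomputable def tr (L : Fin n → Fin n → ℝ) (M : Matrix (Fin n) (Fin n) ℤ) (t : Fin n → ℝ) :
    Fin n → Fin n → ℝ :=
  fun i j => t i * ∑ l, L i l * (M l j : ℝ)

theorem tr_sum (L : Fin n → Fin n → ℝ) (M : Matrix (Fin n) (Fin n) ℤ) (t : Fin n → ℝ) (i : Fin n)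
    (x : Fin n → ℝ) :
    ∑ j, tr L M t i j * x j = t i * ∑ l, L i l * (∑ j, (M l j : ℝ) * x j) := by
  unfold tr
  simp_rw [mul_assoc, Finset.sum_mul, Finset.mul_sum]
  rw [Finset.sum_comm]
  refine Finset.sum_congr rfl fun l _ => ?_
  refine Finset.sum_congr rfl fun j _ => ?_
  ring

theorem tr_lower {L : Fin n → Fin n → ℝ} {c : ℝ}
    (hc : ∀ p : Fin n → ℤ, p ≠ 0 → c ≤ |∏ i, ∑ j, L i j * (p j : ℝ)|)
    {M : Matrix (Fin n) (Fin n) ℤ} (hM : M.det ≠ 0) {t : Fin n → ℝ} (ht : ∏ i, t i = 1)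
    (p : Fin n → ℤ) (hp : p ≠ 0) : c ≤ |∏ i, ∑ j, tr L M t i j * (p j : ℝ)| := by
  have hq : M.mulVec p ≠ 0 := by
    intro h
    exact hp (Matrix.eq_zero_of_mulVec_eq_zero hM h)
  have h1 := hc _ hq
  refine h1.trans (le_of_eq ?_)
  congr 1
  have h2 : ∀ i, ∑ j, tr L M t i j * (p j : ℝ) = t i * ∑ l, L i l * ((M.mulVec p l : ℤ) : ℝ) := by
    intro i
    rw [tr_sum]
    congr 1
    refine Finset.sum_congr rfl fun l _ => ?_
    congr 1
    simp [Matrix.mulVec, dotProduct]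
  simp_rw [h2]
  rw [Finset.prod_mul_distrib, ht, one_mul]

theorem li_iff_det (L : Fin n → Fin n → ℝ) : LinearIndependent ℝ L ↔ (Matrix.of L).det ≠ 0 := by
  rw [← isUnit_iff_ne_zero, ← Matrix.isUnit_iff_isUnit_det, ← Matrix.linearIndependent_rows_iff_isUnit]
  rfl

theorem tr_det (L : Fin n → Fin n → ℝ) (M : Matrix (Fin n) (Fin n) ℤ) (t : Fin n → ℝ) :
    (Matrix.of (tr L M t)).det = (∏ i, t i) * ((Matrix.of L).det * (M.det : ℝ)) := by
  have h1 : Matrix.of (tr L M t) = Matrix.diagonal t * (Matrix.of L * M.map (Int.castRingHom ℝ)) := by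
    ext i j
    rw [Matrix.diagonal_mul, Matrix.mul_apply]
    simp [tr]
  rw [h1, Matrix.det_mul, Matrix.det_mul, Matrix.det_diagonal, ← RingHom.mapMatrix_apply, ← RingHom.map_det]
  simp

theorem lim_li {L : Fin n → Fin n → ℝ} (hL : LinearIndependent ℝ L)
    {M : ℕ → Matrix (Fin n) (Fin n) ℤ} (hM : ∀ k, (M k).det ≠ 0) {t : ℕ → Fin n → ℝ}
    (ht : ∀ k, ∏ i, t k i = 1) {L' : Fin n → Fin n → ℝ}
    (hlim : ∀ i j, Tendsto (fun k => tr L (M k) (t k) i j) atTop (𝓝 (L' i j))) :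
    LinearIndependent ℝ L' := by
  rw [li_iff_det] at hL ⊢
  have h1 : Tendsto (fun k => |(Matrix.of (tr L (M k) (t k))).det|) atTop (𝓝 |(Matrix.of L').det|) := by
    have h2 : Tendsto (fun k => Matrix.of (tr L (M k) (t k))) atTop (𝓝 (Matrix.of L')) := by
      exact tendsto_pi_nhds.mpr fun i => tendsto_pi_nhds.mpr fun j => hlim i j
    exact ((continuous_id.matrix_det.tendsto _).comp h2).abs
  have h2 : |(Matrix.of L).det| ≤ |(Matrix.of L').det| := by
    refine ge_of_tendsto' h1 fun k => ?_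
    rw [tr_det, ht, one_mul, abs_mul]
    have h3 : (1 : ℝ) ≤ |((M k).det : ℝ)| := by
      exact_mod_cast Int.one_le_abs (hM k)
    have := abs_nonneg (Matrix.of L).det
    nlinarith
  have h3 : 0 < |(Matrix.of L).det| := abs_pos.mpr hL
  exact abs_pos.mp (lt_of_lt_of_le h3 h2)

theorem lim_lower {L : Fin n → Fin n → ℝ} {c : ℝ}
    (hc : ∀ p : Fin n → ℤ, p ≠ 0 → c ≤ |∏ i, ∑ j, L i j * (p j : ℝ)|)
    {M : ℕ → Matrix (Fin n) (Fin n) ℤ} (hM : ∀ k, (M k).det ≠ 0) {t : ℕ → Fin n → ℝ}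
    (ht : ∀ k, ∏ i, t k i = 1) {L' : Fin n → Fin n → ℝ}
    (hlim : ∀ i j, Tendsto (fun k => tr L (M k) (t k) i j) atTop (𝓝 (L' i j)))
    (p : Fin n → ℤ) (hp : p ≠ 0) : c ≤ |∏ i, ∑ j, L' i j * (p j : ℝ)| := by
  have h1 : Tendsto (fun k => |∏ i, ∑ j, tr L (M k) (t k) i j * (p j : ℝ)|) atTop
      (𝓝 |∏ i, ∑ j, L' i j * (p j : ℝ)|) := by
    refine Tendsto.abs ?_
    refine tendsto_finsetProd _ fun i _ => ?_
    refine tendsto_finsetSum _ fun j _ => ?_
    exact (hlim i j).mul_const _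
  exact ge_of_tendsto' h1 fun k => tr_lower hc (hM k) (ht k) p hp

variable {K : Type*} [Field K] [NumberField K]

theorem exists_basis_change (b : Basis (Fin n) ℚ K) {M : Matrix (Fin n) (Fin n) ℤ} (hM : M.det ≠ 0) :
    ∃ b' : Basis (Fin n) ℚ K, ∀ ξ : K, ∀ l, b'.repr ξ l = ∑ j, (M l j : ℚ) * b.repr ξ j := by
  set MQ : Matrix (Fin n) (Fin n) ℚ := M.map (Int.castRingHom ℚ) with hMQ
  have hdet : IsUnit MQ.det := by
    rw [isUnit_iff_ne_zero, hMQ, ← RingHom.mapMatrix_apply, ← RingHom.map_det]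
    simpa using hM
  have hdet' : IsUnit MQ⁻¹.det := by
    rw [Matrix.det_nonsing_inv]
    exact hdet.ringInverse
  let b' : Basis (Fin n) ℚ K := b.map (Matrix.toLinearEquiv b MQ⁻¹ hdet')
  have hb' : ∀ l, b' l = ∑ j, MQ⁻¹ j l • b j := by
    intro l
    simp [b', Matrix.toLin_self]
  refine ⟨b', fun ξ l => ?_⟩
  have h1 : ∀ j, b j = ∑ l, (M l j : ℚ) • b' l := by
    intro j
    simp_rw [hb', Finset.smul_sum, smul_smul]
    rw [Finset.sum_comm]
    simp_rw [← Finset.sum_smul]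
    have h2 : ∀ i, ∑ l, (M l j : ℚ) * MQ⁻¹ i l = (MQ⁻¹ * MQ) i j := by
      intro i
      rw [Matrix.mul_apply]
      refine Finset.sum_congr rfl fun l _ => ?_
      simp [hMQ, mul_comm]
    simp_rw [h2]
    rw [Matrix.nonsing_inv_mul _ hdet]
    simp [Matrix.one_apply]
  conv_lhs => rw [← b.sum_repr ξ]
  simp_rw [h1, Finset.smul_sum, smul_smul]
  rw [Finset.sum_comm]
  simp_rw [← Finset.sum_smul]
  rw [map_sum, Finset.sum_apply']
  simp only [map_smul, Basis.repr_self, Finsupp.smul_apply, Finsupp.single_apply, smul_eq_mul]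
  simp [mul_comm]

theorem coef_change {b b' : Basis (Fin n) ℚ K} {M : Matrix (Fin n) (Fin n) ℤ}
    (hb : ∀ ξ : K, ∀ l, b'.repr ξ l = ∑ j, (M l j : ℚ) * b.repr ξ j)
    (L : Fin n → Fin n → ℝ) (t : Fin n → ℝ) (i : Fin n) (σ : K →+* ℂ) :
    coef b (tr L M t) i σ = t i * coef b' L i σ := by
  have h1 : ∀ σ : K →+* ℂ, coef b (tr L M t) i σ - t i * coef b' L i σ = 0 := by
    apply coeff_eq_zero_of_sum
    intro ξ
    simp only [sub_mul, Finset.sum_sub_distrib]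
    rw [coef_sum]
    simp_rw [mul_assoc]
    rw [← Finset.mul_sum, coef_sum, sub_eq_zero]
    simp_rw [hb]
    unfold tr
    push_cast
    simp_rw [Finset.mul_sum, Finset.sum_mul]
    rw [Finset.sum_comm]
    refine Finset.sum_congr rfl fun j _ => Finset.sum_congr rfl fun k _ => ?_
    ring
  exact sub_eq_zero.mp (h1 σ)

theorem coef_tendsto (b : Basis (Fin n) ℚ K) {F : ℕ → Fin n → Fin n → ℝ} {L' : Fin n → Fin n → ℝ}
    (hlim : ∀ i j, Tendsto (fun k => F k i j) atTop (𝓝 (L' i j))) (i : Fin n) (σ : K →+* ℂ) :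
    Tendsto (fun k => coef b (F k) i σ) atTop (𝓝 (coef b L' i σ)) := by
  unfold coef
  refine tendsto_finsetSum _ fun j _ => ?_
  refine Tendsto.mul_const _ ?_
  exact (Complex.continuous_ofReal.tendsto _).comp (hlim i j)

/-- The core rigidity theorem. -/
theorem rigid_core (hn : 3 ≤ n) (b : Basis (Fin n) ℚ K) {L : Fin n → Fin n → ℝ}
    (hL : LinearIndependent ℝ L) {c : ℝ} (hc0 : 0 < c)
    (hc : ∀ p : Fin n → ℤ, p ≠ 0 → c ≤ |∏ i, ∑ j, L i j * (p j : ℝ)|)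
    {M : ℕ → Matrix (Fin n) (Fin n) ℤ} (hM : ∀ k, (M k).det ≠ 0) {t : ℕ → Fin n → ℝ}
    (ht : ∀ k, ∏ i, t k i = 1) {L' : Fin n → Fin n → ℝ}
    (hlim : ∀ i j, Tendsto (fun k => tr L (M k) (t k) i j) atTop (𝓝 (L' i j)))
    (I : Finset (Fin n)) (J : Finset (K →+* ℂ)) (hIJ : J.card = I.card) (hI : I.Nonempty)
    (hI' : I ≠ Finset.univ)
    (hJ : ∀ σ, σ ∈ J ↔ ∃ i ∈ I, coef b L' i σ ≠ 0)
    (hfib : ∀ σ τ : K →+* ℂ, σ ≠ τ → ∃ ρ ∈ J, ∃ ρ' ∉ J, ∀ z : K, σ z = τ z → ρ z = ρ' z) :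
    ∃ A : Matrix (Fin n) (Fin n) ℤ,
        A.det = 1 ∧
        Irreducible (A.charpoly.map (Int.castRingHom ℚ)) ∧
        (∀ z : ℂ, Polynomial.aeval z A.charpoly = 0 → z.im = 0) ∧
        ∀ i : Fin n, ∃ μ : ℝ, ∀ x : Fin n → ℝ,
          ∑ j, L i j * ((A.map (Int.cast : ℤ → ℝ)).mulVec x) j = μ * ∑ j, L i j * x j := by
  obtain ⟨D, hD, hlow⟩ := lower_bound b
  have hDR : (0 : ℝ) < (D : ℝ) ^ n := by
    have : (0 : ℝ) < D := by exact_mod_cast hD
    positivity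
  have hcard : Fintype.card (Fin n) = Fintype.card (K →+* ℂ) := by
    rw [NumberField.Embeddings.card, ← Module.finrank_eq_card_basis b]
  have hn' : 3 ≤ Fintype.card (Fin n) := by rwa [Fintype.card_fin]
  have hL' := lim_li hL hM ht hlim
  have hc' := lim_lower hc hM ht hlim
  obtain ⟨s, hbij, hsreal, hs⟩ := core1 hcard hn' (coef b L') (coef_conj b L') (coef_li b hL')
    (div_pos hc0 hDR) (hlow L' c hc') I J hIJ hI hI' hJ hfib
  have hs1 : ∀ i, coef b L' i (s i) ≠ 0 := by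
    intro i h0
    have h1 : coef b L' i = 0 := by
      funext σ
      by_cases hσ : σ = s i
      · rw [hσ, h0]; rfl
      · rw [hs i σ hσ]; rfl
    exact (coef_li b hL').ne_zero i h1
  obtain ⟨k, hk⟩ := isolation hcard hn' (fun k => coef b (tr L (M k) (t k))) (coef b L')
    (fun i σ => coef_tendsto b hlim i σ) (fun k i σ => coef_conj b _ i σ) (div_pos hc0 hDR)
    (fun k => hlow _ c (fun p hp => tr_lower hc (hM k) (ht k) p hp)) s hbij hsreal hs hs1
  obtain ⟨b', hb'⟩ := exists_basis_change b (hM k)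
  refine final_matrix b' L s hbij hsreal ?_
  intro i σ hσ
  have h1 := hk i σ hσ
  simp only [coef_change hb' L (t k) i σ] at h1
  have ht0 : t k i ≠ 0 := by
    intro h0
    have := ht k
    rw [Finset.prod_eq_zero (Finset.mem_univ i) h0] at this
    exact zero_ne_one this
  exact (mul_eq_zero.mp h1).resolve_left (by exact_mod_cast ht0)

end rigid

end Pool.Agent.Work.MP_77d073_nt
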