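import Mathlib
import Pool.Agent.Work.MP_77d073_nt.Rigid

set_option autoImplicit false

/-!
Definitions for the complexity gap theorem.
-/

namespace Pool.Agent.Work.MP_77d073_nt.Gap

open Pool.Agent.Work.MP_77d073_nt

/-- A row vector times an integer matrix. -/
noncomputable def rowMul {n : ℕ} (l : Fin n → ℝ) (Y : Matrix (Fin n) (Fin n) ℤ) (j : Fin n) : ℝ :=
  ∑ i, l i * (Y i j : ℝ)

/-- A badly approximable linear form, with constants controlled by `T`. -/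
def BA {n : ℕ} (T : ℝ) (l : Fin n → ℝ) : Prop :=
  (∀ j, |l j| ≤ T) ∧
  ∀ (q : Fin n → ℤ) (X : ℝ), q ≠ 0 → 1 ≤ X → (∀ i, |(q i : ℝ)| ≤ X) →
    1 ≤ T * X ^ (n - 1) * |∑ i, l i * (q i : ℝ)|

/-- Integer matrices of height at most `T ^ a` for which the row vector `l` is an eigenvector up
to an error `T ^ (-b)`. -/
def NE {n : ℕ} (T : ℝ) (a b : ℕ) (l : Fin n → ℝ) (Y : Matrix (Fin n) (Fin n) ℤ) : Prop :=
  (∀ i j, |(Y i j : ℝ)| ≤ T ^ a) ∧ ∃ lam : ℝ, ∀ j, |rowMul l Y j - lam * l j| * T ^ b ≤ 1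

/-- `M` is unimodular and reduces `L` at the diagonal position `t`. -/
def Red {n : ℕ} (L : Fin n → Fin n → ℝ) (K : ℝ) (t : Fin n → ℝ)
    (M : Matrix (Fin n) (Fin n) ℤ) : Prop :=
  IsUnit M.det ∧ ∀ i j, |tr L M t i j| ≤ K

/-- Diagonal positions: positive with product one. -/
def Pos {n : ℕ} (t : Fin n → ℝ) : Prop := (∀ i, 0 < t i) ∧ ∏ i, t i = 1

/-- The system `L` has absolute determinant `D` and its product is at least `c` on nonzero integer
points. -/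
def Sys {n : ℕ} (c D : ℝ) (L : Fin n → Fin n → ℝ) : Prop :=
  |(Matrix.of L).det| = D ∧ ∀ p : Fin n → ℤ, p ≠ 0 → c ≤ |∏ i, ∑ j, L i j * (p j : ℝ)|

/-- The positions `(T^((n-1)k), T^(-k), ..., T^(-k))`, the exceptional coordinate being `i₀`. -/
noncomputable def ray {n : ℕ} (i₀ : Fin n) (T : ℝ) (k : ℕ) (i : Fin n) : ℝ :=
  if i = i₀ then T ^ ((n - 1) * k) else (T ^ k)⁻¹

/-- Two positions are within a factor `R` of each other in every coordinate. -/
def Near {n : ℕ} (R : ℝ) (s t : Fin n → ℝ) : Prop :=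
  (∀ i, s i ≤ R * t i) ∧ ∀ i, t i ≤ R * s i

/-- Rational version of an integer matrix. -/
def toQ {n : ℕ} (Y : Matrix (Fin n) (Fin n) ℤ) : Matrix (Fin n) (Fin n) ℚ :=
  Y.map (Int.cast : ℤ → ℚ)

end Pool.Agent.Work.MP_77d073_nt.Gap
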