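import Mathlib
import Pool.Agent.Work.MP_77d073_nt.Rigid

set_option autoImplicit false

namespace Pool.Agent.Work.MP_77d073_nt

open Module Filter Topology MeasureTheory

section reduce

variable {n : ℕ}

/-- Minkowski's linear forms theorem. -/
theorem minkowski_forms {L : Fin n → Fin n → ℝ} (hL : (Matrix.of L).det ≠ 0) {a : Fin n → ℝ}
    (ha : ∀ i, 0 < a i) (hprod : |(Matrix.of L).det| < ∏ i, a i) :
    ∃ p : Fin n → ℤ, p ≠ 0 ∧ ∀ i, |∑ j, L i j * (p j : ℝ)| < a i := by
  classical
  set f : (Fin n → ℝ) →ₗ[ℝ] (Fin n → ℝ) := Matrix.toLin' (Matrix.of L) with hf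
  have hfdet : LinearMap.det f = (Matrix.of L).det := by rw [hf, LinearMap.det_toLin']
  set box : Set (Fin n → ℝ) := Set.pi Set.univ fun i => Set.Ioo (-(a i)) (a i) with hbox
  set s : Set (Fin n → ℝ) := f ⁻¹' box with hs
  have hfx : ∀ x i, f x i = ∑ j, L i j * x j := by
    intro x i
    simp [hf, Matrix.mulVec, dotProduct]
  have hsymm : ∀ x ∈ s, -x ∈ s := by
    intro x hx
    rw [hs, Set.mem_preimage, map_neg]
    rw [hs, Set.mem_preimage] at hx
    intro i hi
    have := hx i hi
    rw [Pi.neg_apply]
    constructor <;> linarith [this.1, this.2]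
  have hconv : Convex ℝ s := by
    apply Convex.linear_preimage
    exact convex_pi fun i _ => convex_Ioo _ _
  have hvolbox : volume box = ENNReal.ofReal (∏ i, (2 * a i)) := by
    rw [hbox, volume_pi, Measure.pi_pi]
    simp only [Real.volume_Ioo]
    rw [← ENNReal.ofReal_prod_of_nonneg]
    · congr 1
      refine Finset.prod_congr rfl fun i _ => ?_
      ring
    · intro i _
      linarith [ha i]
  have hvol : volume s = ENNReal.ofReal |((Matrix.of L).det)⁻¹| * ENNReal.ofReal (∏ i, (2 * a i)) := by
    rw [hs, Measure.addHaar_preimage_linearMap volume (by rw [hfdet]; exact hL), hfdet, hvolbox]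
  have hfund := ZSpan.isAddFundamentalDomain (Pi.basisFun ℝ (Fin n)) volume
  have hF : volume (ZSpan.fundamentalDomain (Pi.basisFun ℝ (Fin n))) = 1 := by
    rw [ZSpan.fundamentalDomain_pi_basisFun, volume_pi, Measure.pi_pi]
    simp
  have hcount : Countable
      ↥(Submodule.span ℤ (Set.range (Pi.basisFun ℝ (Fin n)))).toAddSubgroup :=
    inferInstanceAs (Countable ↥(Submodule.span ℤ (Set.range (Pi.basisFun ℝ (Fin n)))))
  obtain ⟨x, hx0, hxs⟩ := exists_ne_zero_mem_lattice_of_measure_mul_two_pow_lt_measure
    (L := (Submodule.span ℤ (Set.range (Pi.basisFun ℝ (Fin n)))).toAddSubgroup)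
    (μ := volume) (s := s) hfund hsymm hconv (by
      rw [hF, one_mul, hvol, Module.finrank_fintype_fun_eq_card, Fintype.card_fin,
        ← ENNReal.ofReal_mul (abs_nonneg _)]
      have h1 : (2 : ENNReal) ^ n = ENNReal.ofReal ((2 : ℝ) ^ n) := by
        rw [ENNReal.ofReal_pow (by norm_num)]; simp
      rw [h1, Finset.prod_mul_distrib, Finset.prod_const, Finset.card_univ, Fintype.card_fin, abs_inv]
      have hd : 0 < |(Matrix.of L).det| := abs_pos.mpr hL
      rw [ENNReal.ofReal_lt_ofReal_iff (by
        have : 0 < ∏ i, a i := Finset.prod_pos fun i _ => ha i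
        positivity)]
      have h2 : (1 : ℝ) < |(Matrix.of L).det|⁻¹ * ∏ i, a i := by
        rw [lt_inv_mul_iff₀ hd, mul_one]; exact hprod
      have h3 : (0 : ℝ) < 2 ^ n := by positivity
      calc (2 : ℝ) ^ n = 2 ^ n * 1 := (mul_one _).symm
        _ < 2 ^ n * (|(Matrix.of L).det|⁻¹ * ∏ i, a i) := by
            apply mul_lt_mul_of_pos_left h2 h3
        _ = _ := by ring)
  have hxint : ∀ i, ∃ z : ℤ, (z : ℝ) = (x : Fin n → ℝ) i := by
    have h1 : (x : Fin n → ℝ) ∈ Submodule.span ℤ (Set.range (Pi.basisFun ℝ (Fin n))) := x.2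
    rw [Basis.mem_span_iff_repr_mem] at h1
    intro i
    obtain ⟨z, hz⟩ := h1 i
    exact ⟨z, by simpa using hz⟩
  choose p hp using hxint
  refine ⟨p, ?_, ?_⟩
  · intro h
    apply hx0
    ext i
    rw [← hp i, h]; simp
  · intro i
    have h1 := hxs i (Set.mem_univ i)
    rw [hfx] at h1
    have h2 : ∑ j, L i j * (p j : ℝ) = ∑ j, L i j * (x : Fin n → ℝ) j := by
      refine Finset.sum_congr rfl fun j _ => ?_
      rw [hp j]
    rw [h2, abs_lt]
    exact h1

/-- Descent from independent vectors to a unimodular matrix. -/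
theorem descent (L : Fin n → Fin n → ℝ) : ∀ (N : ℕ) (P : Matrix (Fin n) (Fin n) ℤ) (β : ℝ),
    P.det ≠ 0 → P.det.natAbs ≤ N → 0 ≤ β →
    (∀ i j, |∑ l, L i l * (P l j : ℝ)| ≤ β) →
    ∃ M : Matrix (Fin n) (Fin n) ℤ, (M.det = 1 ∨ M.det = -1) ∧
      ∀ i j, |∑ l, L i l * (M l j : ℝ)| ≤ ((n : ℝ) + 1) ^ N * β := by
  classical
  intro N
  induction N with
  | zero =>
    intro P β hP hN _ _
    exfalso
    apply hP
    have : P.det.natAbs = 0 := by omega
    exact Int.natAbs_eq_zero.mp this
  | succ N ih =>
    intro P β hP hN hβ hb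
    have hn1 : (1 : ℝ) ≤ (n : ℝ) + 1 := by
      have : (0 : ℝ) ≤ n := Nat.cast_nonneg n
      linarith
    by_cases hone : P.det.natAbs = 1
    · refine ⟨P, Int.natAbs_eq_iff.mp hone |>.imp (by simp) (by simp), fun i j => (hb i j).trans ?_⟩
      have : (1 : ℝ) ≤ ((n : ℝ) + 1) ^ (N + 1) := one_le_pow₀ hn1
      nlinarith
    · -- find an integer vector outside the lattice of columns
      set PQ : Matrix (Fin n) (Fin n) ℚ := P.map (Int.castRingHom ℚ) with hPQ
      have hPQdet : PQ.det = (P.det : ℚ) := by
        rw [hPQ, ← RingHom.mapMatrix_apply, ← RingHom.map_det]; simp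
      have hPQunit : IsUnit PQ.det := by
        rw [isUnit_iff_ne_zero, hPQdet]; exact_mod_cast hP
      obtain ⟨q, hq⟩ : ∃ q : Fin n → ℤ, ¬ ∃ z : Fin n → ℤ, P.mulVec z = q := by
        by_contra hcon
        push Not at hcon
        choose Z hZ using fun k : Fin n => hcon (Pi.single k 1)
        have h1 : P * (Matrix.of Z).transpose = 1 := by
          ext i k
          rw [Matrix.mul_apply]
          have h2 := congrFun (hZ k) i
          simp only [Matrix.mulVec, dotProduct] at h2
          simp only [Matrix.transpose_apply, Matrix.of_apply]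
          rw [h2, Matrix.one_apply, Pi.single_apply]
        have h3 := congrArg Matrix.det h1
        rw [Matrix.det_mul, Matrix.det_one] at h3
        apply hone
        exact Int.isUnit_iff_natAbs_eq.mp (IsUnit.of_mul_eq_one _ h3)
      set w : Fin n → ℚ := PQ⁻¹.mulVec (fun j => (q j : ℚ)) with hw
      have hPw : PQ.mulVec w = fun j => (q j : ℚ) := by
        rw [hw, Matrix.mulVec_mulVec, Matrix.mul_nonsing_inv _ hPQunit, Matrix.one_mulVec]
      obtain ⟨k, hk⟩ : ∃ k, Int.fract (w k) ≠ 0 := by
        by_contra hcon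
        push Not at hcon
        apply hq
        refine ⟨fun k => ⌊w k⌋, ?_⟩
        funext i
        have h1 := congrFun hPw i
        have h2 : ∀ j, w j = (⌊w j⌋ : ℚ) := by
          intro j
          have := hcon j
          rw [Int.fract] at this
          linarith
        simp only [Matrix.mulVec, dotProduct, hPQ, Matrix.map_apply, eq_intCast] at h1
        have h3 : ((P.mulVec (fun k => ⌊w k⌋) i : ℤ) : ℚ) = (q i : ℚ) := by
          rw [← h1]
          simp only [Matrix.mulVec, dotProduct]
          push_cast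
          refine Finset.sum_congr rfl fun j _ => ?_
          rw [← h2 j]
        exact_mod_cast h3
      set v : Fin n → ℤ := q - P.mulVec (fun k => ⌊w k⌋) with hv
      have hvfr : ∀ i, (v i : ℚ) = ∑ j, (P i j : ℚ) * Int.fract (w j) := by
        intro i
        have h1 := congrFun hPw i
        simp only [Matrix.mulVec, dotProduct, hPQ, Matrix.map_apply, eq_intCast] at h1
        simp only [hv, Pi.sub_apply, Matrix.mulVec, dotProduct]
        push_cast
        rw [← h1, ← Finset.sum_sub_distrib]
        refine Finset.sum_congr rfl fun j _ => ?_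
        rw [Int.fract]; ring
      set P' : Matrix (Fin n) (Fin n) ℤ := P.updateCol k v with hP'
      have hdet' : (P'.det : ℚ) = Int.fract (w k) * P.det := by
        have h1 : (P'.det : ℚ) = (PQ.updateCol k (fun i => (v i : ℚ))).det := by
          have h2 : P'.map (Int.castRingHom ℚ) = PQ.updateCol k (fun i => (v i : ℚ)) := by
            ext i j
            simp only [hP', hPQ, Matrix.map_apply, Matrix.updateCol_apply]
            split_ifs <;> simp
          rw [← h2, ← RingHom.mapMatrix_apply, ← RingHom.map_det]; simp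
        have h3 : (fun i => (v i : ℚ)) = fun i => ∑ j, Int.fract (w j) • PQ i j := by
          funext i
          rw [hvfr i]
          refine Finset.sum_congr rfl fun j _ => ?_
          simp [hPQ, mul_comm]
        rw [h1, h3, Matrix.det_updateCol_sum, hPQdet]
        simp
      have hfr1 : Int.fract (w k) < 1 := Int.fract_lt_one _
      have hfr0 : 0 < Int.fract (w k) := lt_of_le_of_ne (Int.fract_nonneg _) (Ne.symm hk)
      have hP'0 : P'.det ≠ 0 := by
        intro h0
        rw [h0] at hdet'
        have : Int.fract (w k) * (P.det : ℚ) ≠ 0 := mul_ne_zero hk (by exact_mod_cast hP)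
        exact this (by rw [← hdet']; simp)
      have hlt : P'.det.natAbs < P.det.natAbs := by
        have h1 : |(P'.det : ℚ)| < |(P.det : ℚ)| := by
          rw [hdet', abs_mul, abs_of_pos hfr0]
          have : 0 < |(P.det : ℚ)| := abs_pos.mpr (by exact_mod_cast hP)
          nlinarith
        have h2 : |P'.det| < |P.det| := by exact_mod_cast h1
        rw [Int.abs_eq_natAbs, Int.abs_eq_natAbs] at h2
        exact_mod_cast h2
      obtain ⟨M, hM, hMb⟩ := ih P' (((n : ℝ) + 1) * β) hP'0 (by omega) (by positivity) (by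
        intro i j
        by_cases hj : j = k
        · subst hj
          have h1 : ∀ l, (P' l j : ℝ) = ∑ m, (P l m : ℝ) * ((Int.fract (w m) : ℚ) : ℝ) := by
            intro l
            simp only [hP', Matrix.updateCol_self]
            have := hvfr l
            exact_mod_cast this
          simp_rw [h1]
          have h2 : ∑ l, L i l * ∑ m, (P l m : ℝ) * ((Int.fract (w m) : ℚ) : ℝ) =
              ∑ m, ((Int.fract (w m) : ℚ) : ℝ) * ∑ l, L i l * (P l m : ℝ) := by
            simp_rw [Finset.mul_sum]
            rw [Finset.sum_comm]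
            refine Finset.sum_congr rfl fun m _ => Finset.sum_congr rfl fun l _ => ?_
            ring
          rw [h2]
          calc |∑ m, ((Int.fract (w m) : ℚ) : ℝ) * ∑ l, L i l * (P l m : ℝ)|
              ≤ ∑ m, |((Int.fract (w m) : ℚ) : ℝ) * ∑ l, L i l * (P l m : ℝ)| :=
                Finset.abs_sum_le_sum_abs _ _
            _ ≤ ∑ m : Fin n, β := by
                refine Finset.sum_le_sum fun m _ => ?_
                rw [abs_mul]
                have h3 : |((Int.fract (w m) : ℚ) : ℝ)| ≤ 1 := by
                  have h4 : (0 : ℝ) ≤ ((Int.fract (w m) : ℚ) : ℝ) := by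
                    exact_mod_cast Int.fract_nonneg (w m)
                  rw [abs_of_nonneg h4]
                  exact_mod_cast (Int.fract_lt_one (w m)).le
                have h5 := hb i m
                have h6 := abs_nonneg (∑ l, L i l * (P l m : ℝ))
                have h7 := abs_nonneg ((Int.fract (w m) : ℚ) : ℝ)
                nlinarith
            _ = n * β := by simp
            _ ≤ ((n : ℝ) + 1) * β := by nlinarith
        · have h1 : ∀ l, P' l j = P l j := by
            intro l
            simp only [hP']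
            rw [Matrix.updateCol_ne hj]
          simp_rw [h1]
          refine (hb i j).trans ?_
          nlinarith)
      refine ⟨M, hM, fun i j => (hMb i j).trans (le_of_eq ?_)⟩
      ring

/-- Reduction theory: systems with product bounded below lie in one bounded set modulo
unimodular substitutions. -/
theorem reduction (hn : 1 ≤ n) {c D : ℝ} (hc : 0 < c) (hD : 0 < D) :
    ∃ β : ℝ, 0 < β ∧ ∀ L : Fin n → Fin n → ℝ, |(Matrix.of L).det| = D →
      (∀ p : Fin n → ℤ, p ≠ 0 → c ≤ |∏ i, ∑ j, L i j * (p j : ℝ)|) →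
      ∃ M : Matrix (Fin n) (Fin n) ℤ, (M.det = 1 ∨ M.det = -1) ∧
        ∀ i j, |∑ l, L i l * (M l j : ℝ)| ≤ β := by
  classical
  have hnR : (1 : ℝ) ≤ n := by exact_mod_cast hn
  obtain ⟨ε, hε0, hε1, hεc⟩ : ∃ ε : ℝ, 0 < ε ∧ ε ≤ 1 ∧ n * ε < c := by
    refine ⟨min 1 (c / (2 * n)), by positivity, min_le_left _ _, ?_⟩
    have h1 : min 1 (c / (2 * n)) ≤ c / (2 * n) := min_le_right _ _
    have h2 : n * (c / (2 * n)) = c / 2 := by field_simp
    calc n * min 1 (c / (2 * n)) ≤ n * (c / (2 * n)) := by gcongr
      _ = c / 2 := h2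
      _ < c := by linarith
  set A : ℝ := (D + 1) / ε ^ (n - 1) with hA
  have hA0 : 0 < A := by positivity
  set B : ℝ := A + 1 with hB
  have hB0 : 0 < B := by positivity
  set N : ℕ := ⌊(n.factorial : ℝ) * B ^ n / D⌋₊ with hN
  refine ⟨((n : ℝ) + 1) ^ N * B, by positivity, fun L hdet hlow => ?_⟩
  have hLdet : (Matrix.of L).det ≠ 0 := by
    intro h0; rw [h0, abs_zero] at hdet; exact hD.ne hdet
  have hex : ∀ j : Fin n, ∃ p : Fin n → ℤ, p ≠ 0 ∧
      ∀ i, |∑ l, L i l * (p l : ℝ)| < if i = j then A else ε := by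
    intro j
    refine minkowski_forms hLdet (fun i => by split_ifs <;> assumption) ?_
    rw [hdet, Finset.prod_ite, Finset.prod_const, Finset.prod_const]
    have h1 : (Finset.univ.filter fun i => i = j).card = 1 := by
      rw [Finset.filter_eq' Finset.univ j]; simp
    have h2 : (Finset.univ.filter fun i => ¬ i = j).card = n - 1 := by
      have h3 := Finset.card_filter_add_card_filter_not (s := (Finset.univ : Finset (Fin n))) (fun i => i = j)
      rw [h1, Finset.card_univ, Fintype.card_fin] at h3
      omega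
    rw [h1, h2, hA, pow_one, div_mul_cancel₀ _ (by positivity)]
    linarith
  choose p hp0 hp using hex
  set P : Matrix (Fin n) (Fin n) ℤ := fun l j => p j l with hP
  have hbig : ∀ j, n * ε < |∑ l, L j l * (p j l : ℝ)| := by
    intro j
    refine lt_of_lt_of_le hεc ((hlow (p j) (hp0 j)).trans ?_)
    rw [Finset.abs_prod, ← Finset.mul_prod_erase _ _ (Finset.mem_univ j)]
    have h1 : ∏ i ∈ Finset.univ.erase j, |∑ l, L i l * (p j l : ℝ)| ≤ 1 := by
      refine Finset.prod_le_one (fun i _ => abs_nonneg _) fun i hi => ?_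
      have h2 := hp j i
      rw [if_neg (Finset.ne_of_mem_erase hi)] at h2
      exact h2.le.trans hε1
    exact mul_le_of_le_one_right (abs_nonneg _) h1
  set Q : Matrix (Fin n) (Fin n) ℝ := fun i j => ∑ l, L i l * (P l j : ℝ) with hQ
  have hQdet : Q.det ≠ 0 := by
    apply det_ne_zero_of_sum_col_lt_diag
    intro k
    have h1 : ∑ i ∈ Finset.univ.erase k, ‖Q i k‖ ≤ ∑ i ∈ Finset.univ.erase k, ε := by
      refine Finset.sum_le_sum fun i hi => ?_
      have h2 := hp k i
      rw [if_neg (Finset.ne_of_mem_erase hi)] at h2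
      exact h2.le
    refine lt_of_le_of_lt (h1.trans ?_) (hbig k)
    rw [Finset.sum_const, nsmul_eq_mul]
    have h3 : (Finset.univ.erase k).card ≤ n := by
      refine (Finset.card_le_univ _).trans ?_
      rw [Fintype.card_fin]
    have h4 : ((Finset.univ.erase k).card : ℝ) ≤ n := by exact_mod_cast h3
    gcongr
  have hQdet2 : Q.det = (Matrix.of L).det * (P.det : ℝ) := by
    have h1 : Q = Matrix.of L * P.map (Int.castRingHom ℝ) := by
      ext i j
      rw [Matrix.mul_apply]
      simp [hQ]
    rw [h1, Matrix.det_mul, ← RingHom.mapMatrix_apply, ← RingHom.map_det]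
    simp
  have hPdet : P.det ≠ 0 := by
    intro h0
    apply hQdet
    rw [hQdet2, h0]; simp
  have hQb : ∀ i j, |Q i j| ≤ B := by
    intro i j
    have h1 := (hp j i).le
    refine h1.trans ?_
    split_ifs
    · linarith
    · linarith
  have hPN : P.det.natAbs ≤ N := by
    rw [hN]
    apply Nat.le_floor
    rw [le_div_iff₀ hD]
    have h1 := Matrix.det_le (A := Q) (abv := AbsoluteValue.abs) (x := B) (fun i j => hQb i j)
    rw [Fintype.card_fin, nsmul_eq_mul] at h1
    have h2 : |Q.det| = D * |(P.det : ℝ)| := by rw [hQdet2, abs_mul, hdet]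
    have h3 : ((P.det.natAbs : ℕ) : ℝ) = |(P.det : ℝ)| := by
      rw [Nat.cast_natAbs]; push_cast; rfl
    rw [h3, mul_comm, ← h2]
    exact h1
  exact descent L N P B hPdet hPN hB0.le (fun i j => hQb i j)

end reduce

end Pool.Agent.Work.MP_77d073_nt
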