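import Mathlib
import Pool.Agent.Work.MP_77d073_nt.GapDefs
import Pool.Agent.Work.MP_77d073_nt.Reduce

set_option autoImplicit false

namespace Pool.Agent.Work.MP_77d073_nt.Gap

open Pool.Agent.Work.MP_77d073_nt Polynomial

/-- The rank of the subalgebra generated by a matrix is the degree of its minimal polynomial. -/
theorem gb_finrank_range_aeval {n : ℕ} (Y : Matrix (Fin n) (Fin n) ℚ) :
    Module.finrank ℚ (LinearMap.range (aeval Y : ℚ[X] →ₐ[ℚ] Matrix (Fin n) (Fin n) ℚ).toLinearMap)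
      = (minpoly ℚ Y).natDegree := by
  have hne : minpoly ℚ Y ≠ 0 := minpoly.ne_zero (Algebra.IsIntegral.isIntegral Y)
  rw [← finrank_quotient_span_eq_natDegree (f := minpoly ℚ Y)]
  have hk : LinearMap.ker (aeval Y : ℚ[X] →ₐ[ℚ] Matrix (Fin n) (Fin n) ℚ).toLinearMap =
      (Ideal.span {minpoly ℚ Y}).restrictScalars ℚ := by
    ext p
    rw [LinearMap.mem_ker, AlgHom.toLinearMap_apply, Submodule.restrictScalars_mem,
      Ideal.mem_span_singleton, minpoly.dvd_iff]
  have e1 := (aeval Y : ℚ[X] →ₐ[ℚ] Matrix (Fin n) (Fin n) ℚ).toLinearMap.quotKerEquivRange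
  rw [← e1.finrank_eq]
  exact (Submodule.quotEquivOfEq _ _ hk).finrank_eq

theorem gb_root_minpoly {n : ℕ} {Y : Matrix (Fin n) (Fin n) ℚ} {L : Type} [Field L] [Algebra ℚ L]
    {α : L} (h : aeval α Y.charpoly = 0) : aeval α (minpoly ℚ Y) = 0 := by
  set Z : Matrix (Fin n) (Fin n) L := Y.map (algebraMap ℚ L) with hZ
  have h1 : Z.charpoly.IsRoot α := by
    rw [hZ, Matrix.charpoly_map, IsRoot.def, eval_map_algebraMap]
    exact h
  have h2 : Module.End.HasEigenvalue (Matrix.toLin' Z) α := by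
    rw [Module.End.hasEigenvalue_iff_isRoot_charpoly]
    rw [Matrix.charpoly_toLin']
    exact h1
  obtain ⟨v, hv⟩ := h2.exists_hasEigenvector
  have h3 : aeval (Matrix.toLin' Z) ((minpoly ℚ Y).map (algebraMap ℚ L)) = 0 := by
    rw [Polynomial.aeval_map_algebraMap]
    have h4 : aeval Z (minpoly ℚ Y) = 0 := by
      have h5 : Z = (Algebra.ofId ℚ L).mapMatrix Y := rfl
      rw [h5, aeval_algHom_apply, minpoly.aeval, map_zero]
    have h6 : Matrix.toLin' Z = (Matrix.toLinAlgEquiv' (R := L)).toAlgHom.restrictScalars ℚ Z := rfl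
    rw [h6, aeval_algHom_apply, h4, map_zero]
  have h7 := Module.End.aeval_apply_of_hasEigenvector (p := (minpoly ℚ Y).map (algebraMap ℚ L)) hv
  rw [h3, LinearMap.zero_apply] at h7
  have h8 : eval α ((minpoly ℚ Y).map (algebraMap ℚ L)) = 0 := by
    rcases smul_eq_zero.1 h7.symm with h | h
    · exact h
    · exact absurd h hv.2
  rwa [eval_map_algebraMap] at h8

theorem gb_natDegree_dvd_aux {m : ℚ[X]} (hm : Irreducible m) : ∀ (k : ℕ) (P : ℚ[X]), P ≠ 0 →
    P.natDegree ≤ k → (∀ q : ℚ[X], Irreducible q → q ∣ P → q ∣ m) → m.natDegree ∣ P.natDegree := by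
  intro k
  induction k with
  | zero =>
    intro P _ hk _
    rw [Nat.le_zero.1 hk]
    exact dvd_zero _
  | succ k ih =>
    intro P hP hk hq
    by_cases hu : IsUnit P
    · rw [natDegree_eq_zero_of_isUnit hu]
      exact dvd_zero _
    · obtain ⟨q, hqi, hqP⟩ := WfDvdMonoid.exists_irreducible_factor hu hP
      have hqm := hq q hqi hqP
      have hass : Associated q m := (hqi.dvd_irreducible_iff_associated hm).1 hqm
      obtain ⟨P', hP'⟩ := hass.symm.dvd.trans hqP
      have hP'0 : P' ≠ 0 := by rintro rfl; exact hP (by rw [hP', mul_zero])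
      have hd : P.natDegree = m.natDegree + P'.natDegree := by
        rw [hP', natDegree_mul hm.ne_zero hP'0]
      have hpos : 0 < m.natDegree := Irreducible.natDegree_pos hm
      rw [hd]
      refine (Nat.dvd_add_right (dvd_refl _)).2 (ih P' hP'0 (by omega) ?_)
      intro r hr hrP
      exact hq r hr (hrP.trans ⟨m, by rw [hP', mul_comm]⟩)

theorem deg_dvd {n : ℕ} (hn : 1 ≤ n) {Y : Matrix (Fin n) (Fin n) ℚ}
    (hY : Irreducible (minpoly ℚ Y)) :
    (minpoly ℚ Y).natDegree ∣ n ∧ ((minpoly ℚ Y).natDegree = n → Irreducible Y.charpoly) := by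
  have hdeg : Y.charpoly.natDegree = n := by rw [Matrix.charpoly_natDegree_eq_dim, Fintype.card_fin]
  constructor
  · have h := gb_natDegree_dvd_aux hY n Y.charpoly (Matrix.charpoly_monic Y).ne_zero hdeg.le ?_
    · rwa [hdeg] at h
    · intro q hq hqP
      obtain ⟨α, hα⟩ := IsAlgClosed.exists_aeval_eq_zero (AlgebraicClosure ℚ) q
        (degree_pos_of_irreducible hq).ne'
      have h1 : aeval α Y.charpoly = 0 := by
        obtain ⟨r, hr⟩ := hqP
        rw [hr, map_mul, hα, zero_mul]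
      have h2 := gb_root_minpoly h1
      have h3 : minpoly ℚ α ∣ minpoly ℚ Y := minpoly.dvd ℚ α h2
      have h4 : minpoly ℚ α ∣ q := minpoly.dvd ℚ α hα
      have h5 : Irreducible (minpoly ℚ α) := minpoly.irreducible (IsAlgebraic.isIntegral ⟨q, hq.ne_zero, hα⟩)
      exact ((h5.dvd_irreducible_iff_associated hq).1 h4).symm.dvd.trans h3
  · intro h
    have h1 : Y.charpoly = minpoly ℚ Y :=
      eq_of_monic_of_dvd_of_natDegree_le (minpoly.monic (Algebra.IsIntegral.isIntegral Y))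
        (Matrix.charpoly_monic Y) (Matrix.minpoly_dvd_charpoly Y) (by rw [hdeg, h])
    rwa [h1]

theorem deg_lt {n : ℕ} (hn : 1 ≤ n) {Y Y' U : Matrix (Fin n) (Fin n) ℚ}
    (h : ∃ p : ℚ[X], Y = aeval Y' p) (hU : ∃ p : ℚ[X], U = aeval Y' p)
    (hnot : ¬ ∃ p : ℚ[X], U = aeval Y p) :
    (minpoly ℚ Y).natDegree < (minpoly ℚ Y').natDegree := by
  obtain ⟨p, hp⟩ := h
  obtain ⟨q, hq⟩ := hU
  rw [← gb_finrank_range_aeval, ← gb_finrank_range_aeval]
  apply Submodule.finrank_lt_finrank_of_lt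
  refine lt_of_le_of_ne ?_ ?_
  · rintro _ ⟨r, rfl⟩
    refine ⟨r.comp p, ?_⟩
    simp only [AlgHom.toLinearMap_apply]
    rw [aeval_comp, ← hp]
  · intro heq
    have hmem : U ∈ LinearMap.range (aeval Y' : ℚ[X] →ₐ[ℚ] Matrix (Fin n) (Fin n) ℚ).toLinearMap :=
      ⟨q, hq.symm⟩
    rw [← heq] at hmem
    obtain ⟨r, hr⟩ := hmem
    exact hnot ⟨r, hr.symm⟩

end Pool.Agent.Work.MP_77d073_nt.Gap
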