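import Mathlib
import Pool.Agent.Work.MP_77d073_nt.GapDefs
import Pool.Agent.Work.MP_77d073_nt.Reduce

set_option autoImplicit false

namespace Pool.Agent.Work.MP_77d073_nt.Gap

open Pool.Agent.Work.MP_77d073_nt Polynomial

theorem grid (n : ℕ) (hn : 2 ≤ n) (C : ℝ) (hC : 1 ≤ C) : ∃ c' : ℝ, 0 < c' ∧ ∃ T0 : ℝ, 1 ≤ T0 ∧
    ∀ T : ℝ, T0 ≤ T → ∀ (i₀ : Fin n) (t0 : Fin n → ℝ), Pos t0 →
    ∃ G : Finset (Fin n → ℝ),
      (∀ t ∈ G, Pos t ∧ Near (T ^ n) t t0 ∧
        ∀ i, i ≠ i₀ → |Real.log (t i) - Real.log (t0 i)| ≤ Real.log T) ∧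
      (∀ s ∈ G, ∀ t ∈ G, Near C s t → s = t) ∧
      c' * (Real.log T) ^ (n - 1) ≤ (G.card : ℝ) := by
  classical
  set s0 : ℝ := Real.log C + 1 with hs0
  have hlogC : 0 ≤ Real.log C := Real.log_nonneg hC
  have hs0pos : 0 < s0 := by linarith
  refine ⟨(s0⁻¹) ^ (n - 1), by positivity, 1, le_refl _, ?_⟩
  intro T hT i₀ t0 ht0
  have hTpos : 0 < T := by linarith
  have hlogT : 0 ≤ Real.log T := Real.log_nonneg hT
  set m : ℕ := ⌊Real.log T / s0⌋₊ with hm
  have hm1 : (m : ℝ) * s0 ≤ Real.log T := by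
    have h := Nat.floor_le (a := Real.log T / s0) (by positivity)
    rw [← hm] at h
    calc (m : ℝ) * s0 ≤ (Real.log T / s0) * s0 := mul_le_mul_of_nonneg_right h hs0pos.le
      _ = Real.log T := by field_simp
  have hm2 : Real.log T / s0 ≤ (2 * m + 1 : ℕ) := by
    have h := (Nat.lt_floor_add_one (Real.log T / s0)).le
    rw [← hm] at h
    push_cast
    have : (0 : ℝ) ≤ m := Nat.cast_nonneg m
    linarith
  set Z : Finset (Fin n → ℤ) :=
    Fintype.piFinset (fun i => if i = i₀ then ({0} : Finset ℤ) else Finset.Icc (-(m : ℤ)) m) with hZ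
  set e : (Fin n → ℤ) → Fin n → ℝ := fun z i => if i = i₀ then -∑ j, (z j : ℝ) else (z i : ℝ) with he
  set φ : (Fin n → ℤ) → Fin n → ℝ := fun z i => t0 i * Real.exp (s0 * e z i) with hφ
  have hZ0 : ∀ z ∈ Z, z i₀ = 0 := by
    intro z hz
    have := (Fintype.mem_piFinset.mp hz) i₀
    simpa using this
  have hZb : ∀ z ∈ Z, ∀ i, |(z i : ℝ)| ≤ m := by
    intro z hz i
    have h := (Fintype.mem_piFinset.mp hz) i
    by_cases hi : i = i₀
    · rw [hi, hZ0 z hz]; simp
    · rw [if_neg hi, Finset.mem_Icc] at h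
      rw [abs_le]
      constructor
      · have := h.1
        have h2 : ((-(m : ℤ) : ℤ) : ℝ) ≤ (z i : ℝ) := by exact_mod_cast this
        push_cast at h2
        exact h2
      · exact_mod_cast h.2
  have hsum : ∀ z ∈ Z, ∑ i, e z i = 0 := by
    intro z hz
    rw [← Finset.add_sum_erase Finset.univ _ (Finset.mem_univ i₀)]
    have h1 : ∑ i ∈ Finset.univ.erase i₀, e z i = ∑ i ∈ Finset.univ.erase i₀, (z i : ℝ) := by
      refine Finset.sum_congr rfl fun i hi => ?_
      simp only [he]
      rw [if_neg (Finset.ne_of_mem_erase hi)]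
    have h2 : (z i₀ : ℝ) + ∑ i ∈ Finset.univ.erase i₀, (z i : ℝ) = ∑ i, (z i : ℝ) :=
      Finset.add_sum_erase Finset.univ (fun i => (z i : ℝ)) (Finset.mem_univ i₀)
    rw [h1]
    simp only [he, if_true]
    rw [hZ0 z hz] at h2
    push_cast at h2
    linarith
  have hφpos : ∀ z i, 0 < φ z i := fun z i => mul_pos (ht0.1 i) (Real.exp_pos _)
  have hlogφ : ∀ z i, Real.log (φ z i) = Real.log (t0 i) + s0 * e z i := by
    intro z i
    simp only [hφ]
    rw [Real.log_mul (ht0.1 i).ne' (Real.exp_pos _).ne', Real.log_exp]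
  have hPos : ∀ z ∈ Z, Pos (φ z) := by
    intro z hz
    refine ⟨hφpos z, ?_⟩
    simp only [hφ]
    rw [Finset.prod_mul_distrib, ht0.2, one_mul, ← Real.exp_sum, ← Finset.mul_sum, hsum z hz]
    simp
  have hn0 : 0 < n := by omega
  have heb : ∀ z ∈ Z, ∀ i, |s0 * e z i| ≤ n * Real.log T := by
    intro z hz i
    have h1 : |e z i| ≤ n * m := by
      simp only [he]
      split_ifs with hi
      · rw [abs_neg]
        refine (Finset.abs_sum_le_sum_abs _ _).trans ?_
        refine (Finset.sum_le_card_nsmul _ _ (m : ℝ) fun j _ => hZb z hz j).trans ?_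
        simp
      · refine (hZb z hz i).trans ?_
        have : (1 : ℝ) ≤ n := by exact_mod_cast hn0
        nlinarith [Nat.cast_nonneg (α := ℝ) m]
    rw [abs_mul, abs_of_pos hs0pos]
    calc s0 * |e z i| ≤ s0 * (n * m) := mul_le_mul_of_nonneg_left h1 hs0pos.le
      _ = n * (m * s0) := by ring
      _ ≤ n * Real.log T := mul_le_mul_of_nonneg_left hm1 (Nat.cast_nonneg n)
  have hTn : T ^ n = Real.exp (n * Real.log T) := by
    rw [Real.exp_nat_mul, Real.exp_log hTpos]
  have hinj : ∀ z ∈ Z, ∀ w ∈ Z, Near C (φ z) (φ w) → z = w := by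
    intro z hz w hw hN
    funext i
    by_cases hi : i = i₀
    · rw [hi, hZ0 z hz, hZ0 w hw]
    · have h1 := hN.1 i
      have h2 := hN.2 i
      have h3 : Real.log (φ z i) ≤ Real.log C + Real.log (φ w i) := by
        rw [← Real.log_mul (by positivity) (hφpos w i).ne']
        exact Real.log_le_log (hφpos z i) h1
      have h4 : Real.log (φ w i) ≤ Real.log C + Real.log (φ z i) := by
        rw [← Real.log_mul (by positivity) (hφpos z i).ne']
        exact Real.log_le_log (hφpos w i) h2
      rw [hlogφ, hlogφ] at h3 h4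
      simp only [he, if_neg hi] at h3 h4
      have h5 : |((z i - w i : ℤ) : ℝ)| < 1 := by
        push_cast
        rw [abs_lt]
        constructor
        · by_contra hcon
          push Not at hcon
          nlinarith
        · by_contra hcon
          push Not at hcon
          nlinarith
      have h6 : |z i - w i| < 1 := by exact_mod_cast h5
      have h7 := Int.abs_lt_one_iff.mp h6
      omega
  refine ⟨Z.image φ, ?_, ?_, ?_⟩
  · intro t ht
    obtain ⟨z, hz, rfl⟩ := Finset.mem_image.mp ht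
    refine ⟨hPos z hz, ⟨fun i => ?_, fun i => ?_⟩, fun i hi => ?_⟩
    · have h := (abs_le.mp (heb z hz i)).2
      rw [hTn, mul_comm]
      exact mul_le_mul_of_nonneg_left (Real.exp_le_exp.mpr h) (ht0.1 i).le
    · have h := (abs_le.mp (heb z hz i)).1
      rw [hTn]
      calc t0 i = t0 i * 1 := (mul_one _).symm
        _ ≤ t0 i * Real.exp (n * Real.log T + s0 * e z i) := by
            apply mul_le_mul_of_nonneg_left _ (ht0.1 i).le
            rw [← Real.exp_zero]
            exact Real.exp_le_exp.mpr (by linarith)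
        _ = Real.exp (n * Real.log T) * φ z i := by
            simp only [hφ]
            rw [Real.exp_add]; ring
    · rw [hlogφ]
      simp only [he, if_neg hi]
      have h1 := hZb z hz i
      rw [add_sub_cancel_left, abs_mul, abs_of_pos hs0pos]
      calc s0 * |(z i : ℝ)| ≤ s0 * m := mul_le_mul_of_nonneg_left h1 hs0pos.le
        _ = m * s0 := mul_comm _ _
        _ ≤ Real.log T := hm1
  · intro s hs t ht hN
    obtain ⟨z, hz, rfl⟩ := Finset.mem_image.mp hs
    obtain ⟨w, hw, rfl⟩ := Finset.mem_image.mp ht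
    rw [hinj z hz w hw hN]
  · have hcard : (Z.image φ).card = Z.card := by
      apply Finset.card_image_of_injOn
      intro z hz w hw hzw
      apply hinj z hz w hw
      have hzw' : φ z = φ w := hzw
      rw [hzw']
      exact ⟨fun i => by nlinarith [hφpos w i], fun i => by nlinarith [hφpos w i]⟩
    have hZcard : Z.card = (2 * m + 1) ^ (n - 1) := by
      rw [hZ, Fintype.card_piFinset, ← Finset.mul_prod_erase Finset.univ _ (Finset.mem_univ i₀)]
      rw [if_pos rfl, Finset.card_singleton, one_mul]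
      rw [Finset.prod_congr rfl (g := fun _ => 2 * m + 1)]
      · rw [Finset.prod_const, Finset.card_erase_of_mem (Finset.mem_univ _), Finset.card_univ,
          Fintype.card_fin]
      · intro i hi
        rw [if_neg (Finset.ne_of_mem_erase hi), Int.card_Icc]
        omega
    rw [hcard, hZcard, ← mul_pow]
    push_cast
    have h8 : s0⁻¹ * Real.log T ≤ 2 * (m : ℝ) + 1 := by
      have := hm2
      push_cast at this
      rw [inv_mul_eq_div]
      exact this
    exact pow_le_pow_left₀ (by positivity) h8 _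

end Pool.Agent.Work.MP_77d073_nt.Gap
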