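import Mathlib
import Pool.Agent.Work.MP_77d073_nt.GapDefs
import Pool.Agent.Work.MP_77d073_nt.Reduce

set_option autoImplicit false

namespace Pool.Agent.Work.MP_77d073_nt.Gap

open Pool.Agent.Work.MP_77d073_nt Polynomial

private noncomputable def gdC (n : ℕ) (D K : ℝ) : ℝ := (n.factorial : ℝ) * (max K 1) ^ n / D

private theorem gdC_pos (n : ℕ) {D K : ℝ} (hD : 0 < D) : 0 < gdC n D K := by
  unfold gdC
  have : 0 < max K 1 := lt_of_lt_of_le one_pos (le_max_right _ _)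
  positivity

private theorem gd_inv {n : ℕ} {D K : ℝ} (hD : 0 < D) (B : Matrix (Fin n) (Fin n) ℝ)
    (hB : |B.det| = D) (hK : ∀ i j, |B i j| ≤ K) (i j : Fin n) : |B⁻¹ i j| ≤ gdC n D K := by
  have hdet : B.det ≠ 0 := by
    intro h
    rw [h, abs_zero] at hB
    exact hD.ne hB
  have h1 : |B.adjugate i j| ≤ (n.factorial : ℝ) * (max K 1) ^ n := by
    rw [Matrix.adjugate_apply]
    have h2 := Matrix.det_le (A := B.updateRow j (Pi.single i 1)) (abv := AbsoluteValue.abs)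
      (x := max K 1) (by
        intro a b
        by_cases ha : a = j
        · subst ha
          rw [Matrix.updateRow_self]
          by_cases hb : b = i
          · subst hb; simp
          · rw [Pi.single_eq_of_ne hb]; simp
        · rw [Matrix.updateRow_ne ha]
          exact (hK a b).trans (le_max_left _ _))
    simpa using h2
  rw [Matrix.inv_def, Matrix.smul_apply, smul_eq_mul, Ring.inverse_eq_inv', abs_mul, abs_inv, hB]
  unfold gdC
  rw [div_eq_inv_mul]
  exact mul_le_mul_of_nonneg_left h1 (inv_nonneg.2 hD.le)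

private theorem gd_det {n : ℕ} {D : ℝ} {L : Fin n → Fin n → ℝ} (hL : |(Matrix.of L).det| = D)
    {s : Fin n → ℝ} (hs : Pos s) {M : Matrix (Fin n) (Fin n) ℤ} (hM : IsUnit M.det) :
    |(Matrix.of (tr L M s)).det| = D := by
  rw [tr_det, hs.2, one_mul, abs_mul, hL]
  rcases Int.isUnit_iff.1 hM with h | h <;> rw [h] <;> simp

theorem red_ba (n : ℕ) (hn : 1 ≤ n) {c D K : ℝ} (hc : 0 < c) (hD : 0 < D) (hK : 0 < K) :
    ∃ T0 : ℝ, 1 ≤ T0 ∧ ∀ T : ℝ, T0 ≤ T → ∀ L : Fin n → Fin n → ℝ, Sys c D L →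
    ∀ (t : Fin n → ℝ) (M : Matrix (Fin n) (Fin n) ℤ), Pos t → Red L K t M →
    ∀ i₀ : Fin n, BA T (tr L M t i₀) := by
  set K1 : ℝ := max 1 (n * K) with hK1
  have hK1pos : 0 < K1 := lt_of_lt_of_le one_pos (le_max_left _ _)
  refine ⟨max 1 (max K (K1 ^ (n - 1) / c)), le_max_left _ _, ?_⟩
  intro T hT L hL t M ht hM i₀
  have hTK : K ≤ T := (le_max_left _ _).trans ((le_max_right _ _).trans hT)
  have hTc : K1 ^ (n - 1) / c ≤ T := (le_max_right _ _).trans ((le_max_right _ _).trans hT)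
  refine ⟨fun j => (hM.2 i₀ j).trans hTK, ?_⟩
  intro q X hq hX hqX
  have h1 := tr_lower hL.2 hM.1.ne_zero ht.2 q hq
  rw [← Finset.mul_prod_erase Finset.univ _ (Finset.mem_univ i₀), abs_mul, Finset.abs_prod] at h1
  have h2 : ∀ i, |∑ j, tr L M t i j * (q j : ℝ)| ≤ K1 * X := by
    intro i
    calc |∑ j, tr L M t i j * (q j : ℝ)| ≤ ∑ j, |tr L M t i j * (q j : ℝ)| :=
          Finset.abs_sum_le_sum_abs _ _
      _ ≤ ∑ _j : Fin n, K * X := by
          refine Finset.sum_le_sum fun j _ => ?_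
          rw [abs_mul]
          exact mul_le_mul (hM.2 i j) (hqX j) (abs_nonneg _) hK.le
      _ = n * K * X := by simp; ring
      _ ≤ K1 * X := by
          have := le_max_right 1 (n * K)
          exact mul_le_mul_of_nonneg_right this (by linarith)
  have h3 : ∏ i ∈ Finset.univ.erase i₀, |∑ j, tr L M t i j * (q j : ℝ)| ≤ (K1 * X) ^ (n - 1) := by
    calc ∏ i ∈ Finset.univ.erase i₀, |∑ j, tr L M t i j * (q j : ℝ)|
        ≤ ∏ _i ∈ Finset.univ.erase i₀, (K1 * X) :=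
          Finset.prod_le_prod (fun i _ => abs_nonneg _) (fun i _ => h2 i)
      _ = (K1 * X) ^ (n - 1) := by
          rw [Finset.prod_const, Finset.card_erase_of_mem (Finset.mem_univ _), Finset.card_univ,
            Fintype.card_fin]
  have h4 : c ≤ |∑ j, tr L M t i₀ j * (q j : ℝ)| * (K1 * X) ^ (n - 1) :=
    h1.trans (mul_le_mul_of_nonneg_left h3 (abs_nonneg _))
  have h5 : 0 ≤ X ^ (n - 1) * |∑ j, tr L M t i₀ j * (q j : ℝ)| := by positivity
  rw [mul_pow] at h4
  calc (1 : ℝ) = (1 / c) * c := by field_simp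
    _ ≤ (1 / c) * (|∑ j, tr L M t i₀ j * (q j : ℝ)| * (K1 ^ (n - 1) * X ^ (n - 1))) :=
        mul_le_mul_of_nonneg_left h4 (by positivity)
    _ = (K1 ^ (n - 1) / c) * (X ^ (n - 1) * |∑ j, tr L M t i₀ j * (q j : ℝ)|) := by ring
    _ ≤ T * (X ^ (n - 1) * |∑ j, tr L M t i₀ j * (q j : ℝ)|) :=
        mul_le_mul_of_nonneg_right hTc h5
    _ = T * X ^ (n - 1) * |∑ j, tr L M t i₀ j * (q j : ℝ)| := by ring

private theorem gd_mul {n : ℕ} (L : Fin n → Fin n → ℝ) (s t : Fin n → ℝ)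
    (M N : Matrix (Fin n) (Fin n) ℤ) (hM : IsUnit M.det) (ht : ∀ i, 0 < t i) (i j : Fin n) :
    ∑ k, tr L M s i k * (((M⁻¹ * N) k j : ℤ) : ℝ) = (s i / t i) * tr L N t i j := by
  rw [tr_sum L M s i (fun k => (((M⁻¹ * N) k j : ℤ) : ℝ))]
  have h1 : ∀ l, ∑ k, (M l k : ℝ) * (((M⁻¹ * N) k j : ℤ) : ℝ) = (N l j : ℝ) := by
    intro l
    have h2 : M * (M⁻¹ * N) = N := Matrix.mul_nonsing_inv_cancel_left _ _ hM
    have h3 := congrFun (congrFun h2 l) j
    rw [Matrix.mul_apply] at h3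
    rw [← h3]
    push_cast
    rfl
  simp_rw [h1]
  unfold tr
  have := (ht i).ne'
  field_simp

theorem trans_bound (n : ℕ) (hn : 1 ≤ n) {D K : ℝ} (hD : 0 < D) (hK : 0 < K) :
    ∃ T0 : ℝ, 1 ≤ T0 ∧ ∀ T : ℝ, T0 ≤ T → ∀ L : Fin n → Fin n → ℝ, |(Matrix.of L).det| = D →
    ∀ (k : ℕ) (s t : Fin n → ℝ) (M N : Matrix (Fin n) (Fin n) ℤ), Pos s → Pos t →
    Red L K s M → Red L K t N → (∀ i, s i ≤ T ^ k * t i) →
    (∀ i j, |((M⁻¹ * N) i j : ℝ)| ≤ T ^ (k + 1)) ∧
    ∀ i₀ j, tr L N t i₀ j = (t i₀ / s i₀) * rowMul (tr L M s i₀) (M⁻¹ * N) j := by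
  refine ⟨max 1 (n * gdC n D K * K), le_max_left _ _, ?_⟩
  intro T hT L hL k s t M N hs ht hM hN hst
  have hT1 : 1 ≤ T := (le_max_left _ _).trans hT
  have hTC : n * gdC n D K * K ≤ T := (le_max_right _ _).trans hT
  have hC := gdC_pos n (K := K) hD
  refine ⟨?_, ?_⟩
  · intro i j
    set P : Matrix (Fin n) (Fin n) ℝ := (M⁻¹ * N).map (Int.cast : ℤ → ℝ) with hP
    have hBP : Matrix.of (tr L M s) * P = Matrix.of (fun i j => (s i / t i) * tr L N t i j) := by
      ext a b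
      rw [Matrix.mul_apply]
      exact gd_mul L s t M N hM.1 ht.1 a b
    have hdet : |(Matrix.of (tr L M s)).det| = D := gd_det hL hs hM.1
    have hu : IsUnit (Matrix.of (tr L M s)).det := by
      rw [isUnit_iff_ne_zero]
      intro h
      rw [h, abs_zero] at hdet
      exact hD.ne hdet
    have hPe : P = (Matrix.of (tr L M s))⁻¹ * Matrix.of (fun i j => (s i / t i) * tr L N t i j) := by
      rw [← hBP, Matrix.nonsing_inv_mul_cancel_left _ _ hu]
    have hPij : (((M⁻¹ * N) i j : ℤ) : ℝ) = P i j := rfl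
    rw [hPij, hPe, Matrix.mul_apply]
    calc |∑ l, (Matrix.of (tr L M s))⁻¹ i l * Matrix.of (fun i j => (s i / t i) * tr L N t i j) l j|
        ≤ ∑ l, |(Matrix.of (tr L M s))⁻¹ i l *
            Matrix.of (fun i j => (s i / t i) * tr L N t i j) l j| :=
          Finset.abs_sum_le_sum_abs _ _
      _ ≤ ∑ _l : Fin n, gdC n D K * (T ^ k * K) := by
          refine Finset.sum_le_sum fun l _ => ?_
          rw [abs_mul]
          refine mul_le_mul (gd_inv hD _ hdet hM.2 i l) ?_ (abs_nonneg _) hC.le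
          show |(s l / t l) * tr L N t l j| ≤ T ^ k * K
          rw [abs_mul]
          have h1 : |s l / t l| ≤ T ^ k := by
            rw [abs_of_pos (div_pos (hs.1 l) (ht.1 l)), div_le_iff₀ (ht.1 l)]
            exact hst l
          exact mul_le_mul h1 (hN.2 l j) (abs_nonneg _) (by positivity)
      _ = T ^ k * (n * gdC n D K * K) := by simp; ring
      _ ≤ T ^ k * T := mul_le_mul_of_nonneg_left hTC (by positivity)
      _ = T ^ (k + 1) := by ring
  · intro i₀ j
    have h1 := gd_mul L s t M N hM.1 ht.1 i₀ j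
    unfold rowMul
    rw [h1]
    have := (ht.1 i₀).ne'
    have := (hs.1 i₀).ne'
    field_simp

private theorem gd_ratio {n : ℕ} {D K : ℝ} (hD : 0 < D) (hK : 0 < K) {L : Fin n → Fin n → ℝ}
    (hL : |(Matrix.of L).det| = D) {s t : Fin n → ℝ} {M : Matrix (Fin n) (Fin n) ℤ} (hs : Pos s)
    (ht : Pos t) (hMs : Red L K s M) (hMt : Red L K t M) (i : Fin n) :
    s i ≤ (n * K * gdC n D K) * t i := by
  have hC := gdC_pos n (K := K) hD
  have hdet : |(Matrix.of (tr L M t)).det| = D := gd_det hL ht hMt.1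
  have hu : IsUnit (Matrix.of (tr L M t)).det := by
    rw [isUnit_iff_ne_zero]
    intro h
    rw [h, abs_zero] at hdet
    exact hD.ne hdet
  have h1 : Matrix.of (tr L M s) = Matrix.diagonal (fun i => s i / t i) * Matrix.of (tr L M t) := by
    ext a b
    rw [Matrix.diagonal_mul]
    show tr L M s a b = (s a / t a) * tr L M t a b
    unfold tr
    have := (ht.1 a).ne'
    field_simp
  have h2 : Matrix.of (tr L M s) * (Matrix.of (tr L M t))⁻¹ = Matrix.diagonal (fun i => s i / t i) := by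
    rw [h1, Matrix.mul_nonsing_inv_cancel_right _ _ hu]
  have h3 := congrFun (congrFun h2 i) i
  rw [Matrix.mul_apply, Matrix.diagonal_apply_eq] at h3
  have h4 : s i / t i ≤ n * K * gdC n D K := by
    rw [← h3]
    calc ∑ j, Matrix.of (tr L M s) i j * (Matrix.of (tr L M t))⁻¹ j i
        ≤ |∑ j, Matrix.of (tr L M s) i j * (Matrix.of (tr L M t))⁻¹ j i| := le_abs_self _
      _ ≤ ∑ j, |Matrix.of (tr L M s) i j * (Matrix.of (tr L M t))⁻¹ j i| :=
          Finset.abs_sum_le_sum_abs _ _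
      _ ≤ ∑ _j : Fin n, K * gdC n D K := by
          refine Finset.sum_le_sum fun j _ => ?_
          rw [abs_mul]
          exact mul_le_mul (hMs.2 i j) (gd_inv hD _ hdet hMt.2 j i) (abs_nonneg _) hK.le
      _ = n * K * gdC n D K := by simp; ring
  rwa [div_le_iff₀ (ht.1 i)] at h4

theorem row_lower (n : ℕ) (hn : 1 ≤ n) {D K : ℝ} (hD : 0 < D) (hK : 0 < K) :
    ∃ C : ℝ, 1 ≤ C ∧ ∀ L : Fin n → Fin n → ℝ, |(Matrix.of L).det| = D →
    ∀ (s t : Fin n → ℝ) (M : Matrix (Fin n) (Fin n) ℤ), Pos s → Pos t →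
    Red L K s M → Red L K t M → Near C s t := by
  refine ⟨max 1 (n * K * gdC n D K), le_max_left _ _, ?_⟩
  intro L hL s t M hs ht hMs hMt
  refine ⟨fun i => ?_, fun i => ?_⟩
  · exact (gd_ratio hD hK hL hs ht hMs hMt i).trans
      (mul_le_mul_of_nonneg_right (le_max_right _ _) (ht.1 i).le)
  · exact (gd_ratio hD hK hL ht hs hMt hMs i).trans
      (mul_le_mul_of_nonneg_right (le_max_right _ _) (hs.1 i).le)

end Pool.Agent.Work.MP_77d073_nt.Gap
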