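import Mathlib
import Pool.Agent.Work.MP_77d073_nt.GapDefs
import Pool.Agent.Work.MP_77d073_nt.Reduce

set_option autoImplicit false

namespace Pool.Agent.Work.MP_77d073_nt.Gap

open Pool.Agent.Work.MP_77d073_nt Polynomial

/-- Commuting semisimple endomorphisms: if eigenvectors of `w` with equal eigenvalue have equal
eigenvalue for `y`, then `y` is a polynomial in `w`. -/
theorem gp_interp {V : Type} [AddCommGroup V] [Module ℂ V] [FiniteDimensional ℂ V]
    (w y : Module.End ℂ V) (hw : w.IsSemisimple) (hy : y.IsSemisimple) (hc : Commute w y)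
    (hgood : ∀ (γ α α' : ℂ) (v v' : V), v ≠ 0 → v' ≠ 0 → w v = γ • v → w v' = γ • v' →
      y v = α • v → y v' = α' • v' → α = α') :
    ∃ P : ℂ[X], y = aeval w P := by
  classical
  have hmaps : ∀ γ : ℂ, w.eigenspace γ ∈ y.invtSubmodule := by
    intro γ
    rw [Module.End.mem_invtSubmodule]
    intro v hv
    rw [Submodule.mem_comap, Module.End.mem_eigenspace_iff]
    rw [Module.End.mem_eigenspace_iff] at hv
    have h1 : w (y v) = y (w v) := by
      have := congrArg (fun f : Module.End ℂ V => f v) hc.eq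
      simpa using this
    rw [h1, hv, map_smul]
  let a : ℂ → ℂ := fun γ => if h : ∃ α : ℂ, ∃ v : V, v ≠ 0 ∧ w v = γ • v ∧ y v = α • v
    then h.choose else 0
  have ha : ∀ (γ α : ℂ) (v : V), v ≠ 0 → w v = γ • v → y v = α • v → α = a γ := by
    intro γ α v hv hwv hyv
    have hex : ∃ α : ℂ, ∃ v : V, v ≠ 0 ∧ w v = γ • v ∧ y v = α • v := ⟨α, v, hv, hwv, hyv⟩
    obtain ⟨v', hv', hw', hy'⟩ := hex.choose_spec
    have h1 : a γ = hex.choose := dif_pos hex
    rw [h1]
    exact hgood γ α _ v v' hv hv' hwv hw' hyv hy'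
  have hkey : ∀ (γ : ℂ) (v : V), w v = γ • v → y v = a γ • v := by
    intro γ v hv
    let p := w.eigenspace γ
    let yE : Module.End ℂ p := y.restrict (hmaps γ)
    have hyE : yE.IsSemisimple := hy.restrict (hmaps γ)
    have hg : (aeval yE (X - C (a γ)) : Module.End ℂ p).IsSemisimple := hyE.aeval _
    have h0 : (aeval yE (X - C (a γ)) : Module.End ℂ p) = 0 := by
      rw [hg.eq_zero_iff_forall_eigenvalue]
      intro μ hμ
      obtain ⟨x, hx⟩ := hμ.exists_hasEigenvector
      have hx1 := hx.apply_eq_smul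
      have hx0 := hx.2
      simp only [map_sub, aeval_X, aeval_C, LinearMap.sub_apply, Module.algebraMap_end_apply] at hx1
      have hx2 : y (x : V) = (μ + a γ) • (x : V) := by
        have h2 : yE x = μ • x + a γ • x := sub_eq_iff_eq_add.1 hx1
        have h3 := congrArg (fun z : p => (z : V)) h2
        simp only [Submodule.coe_add, Submodule.coe_smul] at h3
        rw [add_smul, ← h3]
        rfl
      have hx3 : w (x : V) = γ • (x : V) := Module.End.mem_eigenspace_iff.1 x.2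
      have hx4 : (x : V) ≠ 0 := fun h => hx0 (Subtype.ext h)
      have h5 := ha γ _ _ hx4 hx3 hx2
      linear_combination h5
    have h1 := congrArg (fun f : Module.End ℂ p => ((f ⟨v, Module.End.mem_eigenspace_iff.2 hv⟩ : p) : V)) h0
    simp only [map_sub, aeval_X, aeval_C, LinearMap.sub_apply, Module.algebraMap_end_apply,
      LinearMap.zero_apply, Submodule.coe_sub, Submodule.coe_smul, ZeroMemClass.coe_zero] at h1
    have h2 : y v - a γ • v = 0 := h1
    exact sub_eq_zero.1 h2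
  let S : Finset ℂ := (minpoly ℂ w).roots.toFinset
  let P : ℂ[X] := Lagrange.interpolate S id a
  refine ⟨P, ?_⟩
  refine LinearMap.ext fun v => ?_
  have hv : v ∈ ⨆ μ : ℂ, w.eigenspace μ := by
    rw [hw.iSup_eigenspace_eq_top]
    exact Submodule.mem_top
  refine Submodule.iSup_induction (fun μ : ℂ => w.eigenspace μ)
    (motive := fun v => y v = aeval w P v) hv ?_ ?_ ?_
  · intro γ x hx
    by_cases hx0 : x = 0
    · rw [hx0, map_zero, map_zero]
    · have hvec : w.HasEigenvector γ x := ⟨hx, hx0⟩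
      have hval : w.HasEigenvalue γ := Module.End.hasEigenvalue_of_hasEigenvector hvec
      have hroot : (minpoly ℂ w).IsRoot γ := Module.End.isRoot_of_hasEigenvalue hval
      have hS : γ ∈ S := by
        rw [Multiset.mem_toFinset, mem_roots (minpoly.ne_zero (Algebra.IsIntegral.isIntegral w))]
        exact hroot
      rw [Module.End.aeval_apply_of_hasEigenvector hvec, hkey γ x (Module.End.mem_eigenspace_iff.1 hx)]
      congr 1
      exact (Lagrange.eval_interpolate_at_node (v := id) a (Set.injOn_id _) hS).symm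
  · rw [map_zero, map_zero]
  · intro x x' hx hx'
    rw [map_add, map_add, hx, hx']

/-- Base change of a rational matrix to the complex numbers. -/
theorem gp_semisimple {n : ℕ} {Y : Matrix (Fin n) (Fin n) ℚ} (hY : Irreducible (minpoly ℚ Y)) :
    Module.End.IsSemisimple (Matrix.toLin' (Y.map (algebraMap ℚ ℂ))) := by
  refine Module.End.isSemisimple_of_squarefree_aeval_eq_zero
    (p := (minpoly ℚ Y).map (algebraMap ℚ ℂ)) ?_ ?_
  · exact (hY.separable.map).squarefree
  · rw [Polynomial.aeval_map_algebraMap]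
    have h5 : Y.map (algebraMap ℚ ℂ) = (Algebra.ofId ℚ ℂ).mapMatrix Y := rfl
    have h4 : aeval (Y.map (algebraMap ℚ ℂ)) (minpoly ℚ Y) = 0 := by
      rw [h5, aeval_algHom_apply, minpoly.aeval, map_zero]
    have h6 : Matrix.toLin' (Y.map (algebraMap ℚ ℂ)) =
      (Matrix.toLinAlgEquiv' (R := ℂ)).toAlgHom.restrictScalars ℚ (Y.map (algebraMap ℚ ℂ)) := rfl
    rw [h6, aeval_algHom_apply, h4, map_zero]

/-- A rational matrix which is a complex polynomial in another one is a rational polynomial. -/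
theorem gp_descent {n : ℕ} {Y W : Matrix (Fin n) (Fin n) ℚ}
    (h : ∃ P : ℂ[X], Y.map (algebraMap ℚ ℂ) = aeval (W.map (algebraMap ℚ ℂ)) P) :
    ∃ p : ℚ[X], Y = aeval W p := by
  classical
  obtain ⟨P, hP⟩ := h
  by_contra hno
  have hnot : Y ∉ LinearMap.range (aeval W : ℚ[X] →ₐ[ℚ] Matrix (Fin n) (Fin n) ℚ).toLinearMap := by
    rintro ⟨p, hp⟩
    exact hno ⟨p, hp.symm⟩
  obtain ⟨f, hf1, hf2⟩ := Submodule.exists_dual_map_eq_bot_of_notMem hnot inferInstance
  let F : Matrix (Fin n) (Fin n) ℂ →ₗ[ℂ] ℂ :=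
    ∑ i, ∑ j, (algebraMap ℚ ℂ (f (Matrix.single i j 1))) • Matrix.entryLinearMap ℂ ℂ i j
  have hF : ∀ A : Matrix (Fin n) (Fin n) ℚ, F (A.map (algebraMap ℚ ℂ)) = algebraMap ℚ ℂ (f A) := by
    intro A
    conv_rhs => rw [Matrix.matrix_eq_sum_single A]
    simp only [F, LinearMap.sum_apply, LinearMap.smul_apply, Matrix.entryLinearMap_apply,
      Matrix.map_apply, map_sum, smul_eq_mul]
    refine Finset.sum_congr rfl fun i _ => Finset.sum_congr rfl fun j _ => ?_
    have h1 : Matrix.single i j (A i j) = A i j • Matrix.single i j (1 : ℚ) := by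
      rw [Matrix.smul_single, smul_eq_mul, mul_one]
    rw [h1, map_smul, smul_eq_mul, map_mul, mul_comm]
  have hpow : ∀ k : ℕ, F ((W.map (algebraMap ℚ ℂ)) ^ k) = 0 := by
    intro k
    have h1 : (W.map (algebraMap ℚ ℂ)) ^ k = (W ^ k).map (algebraMap ℚ ℂ) := by
      rw [Matrix.map_pow]
    rw [h1, hF]
    have h2 : W ^ k ∈ LinearMap.range (aeval W : ℚ[X] →ₐ[ℚ] Matrix (Fin n) (Fin n) ℚ).toLinearMap :=
      ⟨X ^ k, by simp⟩
    have h3 : f (W ^ k) ∈ Submodule.map f
        (LinearMap.range (aeval W : ℚ[X] →ₐ[ℚ] Matrix (Fin n) (Fin n) ℚ).toLinearMap) :=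
      Submodule.mem_map_of_mem h2
    rw [hf2, Submodule.mem_bot] at h3
    rw [h3, map_zero]
  have h1 : F (Y.map (algebraMap ℚ ℂ)) = 0 := by
    rw [hP, aeval_eq_sum_range, map_sum]
    refine Finset.sum_eq_zero fun k _ => ?_
    rw [map_smul, hpow, smul_zero]
  rw [hF] at h1
  exact hf1 ((map_eq_zero (algebraMap ℚ ℂ)).1 h1)

theorem gp_root {n : ℕ} {A : Matrix (Fin n) (Fin n) ℂ} {v : Fin n → ℂ} (hv : v ≠ 0) {α : ℂ}
    (h : Matrix.toLin' A v = α • v) : α ∈ A.charpoly.roots.toFinset := by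
  rw [Multiset.mem_toFinset, mem_roots (Matrix.charpoly_monic A).ne_zero, ← Matrix.charpoly_toLin',
    ← Module.End.hasEigenvalue_iff_isRoot_charpoly]
  exact Module.End.hasEigenvalue_of_hasEigenvector ⟨Module.End.mem_eigenspace_iff.2 h, hv⟩

theorem gp_roots_card {n : ℕ} (A : Matrix (Fin n) (Fin n) ℂ) :
    A.charpoly.roots.toFinset.card ≤ n := by
  calc A.charpoly.roots.toFinset.card ≤ Multiset.card A.charpoly.roots :=
        Multiset.toFinset_card_le _
    _ ≤ A.charpoly.natDegree := card_roots' _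
    _ = n := by rw [Matrix.charpoly_natDegree_eq_dim, Fintype.card_fin]

theorem prim_step {n : ℕ} (hn : 1 ≤ n) {Y U : Matrix (Fin n) (Fin n) ℚ} (hc : Y * U = U * Y)
    (hY : Irreducible (minpoly ℚ Y))
    (hU : ∀ m : ℕ, m ≤ n ^ 4 → Irreducible (minpoly ℚ (U + (m : ℚ) • Y))) :
    ∃ m : ℕ, m ≤ n ^ 4 ∧ ∃ p : ℚ[X], Y = aeval (U + (m : ℚ) • Y) p := by
  classical
  set Yc : Matrix (Fin n) (Fin n) ℂ := Y.map (algebraMap ℚ ℂ) with hYc
  set Uc : Matrix (Fin n) (Fin n) ℂ := U.map (algebraMap ℚ ℂ) with hUc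
  let A : Finset ℂ := Yc.charpoly.roots.toFinset
  let B : Finset ℂ := Uc.charpoly.roots.toFinset
  let g : (ℂ × ℂ) × (ℂ × ℂ) → ℕ := fun q =>
    if h : ∃ m : ℕ, (m : ℂ) * (q.1.1 - q.1.2) = q.2.2 - q.2.1 then h.choose else 0
  let I : Finset ℕ := ((A ×ˢ A) ×ˢ (B ×ˢ B)).image g
  have hI : I.card < (Finset.range (n ^ 4 + 1)).card := by
    rw [Finset.card_range]
    calc I.card ≤ ((A ×ˢ A) ×ˢ (B ×ˢ B)).card := Finset.card_image_le
      _ = (A.card * A.card) * (B.card * B.card) := by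
          rw [Finset.card_product, Finset.card_product, Finset.card_product]
      _ ≤ (n * n) * (n * n) := by
          have h1 : A.card ≤ n := gp_roots_card Yc
          have h2 : B.card ≤ n := gp_roots_card Uc
          gcongr
      _ = n ^ 4 := by ring
      _ < n ^ 4 + 1 := Nat.lt_succ_self _
  obtain ⟨m, hm, hmI⟩ := Finset.exists_mem_notMem_of_card_lt_card hI
  have hmn : m ≤ n ^ 4 := Nat.lt_succ_iff.1 (Finset.mem_range.1 hm)
  refine ⟨m, hmn, ?_⟩
  apply gp_descent
  set W : Matrix (Fin n) (Fin n) ℚ := U + (m : ℚ) • Y with hW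
  have hWc : W.map (algebraMap ℚ ℂ) = Uc + (m : ℂ) • Yc := by
    ext i j
    simp [hW, hUc, hYc, Matrix.map_apply]
  have hcc : Yc * Uc = Uc * Yc := by
    rw [hYc, hUc, ← Matrix.map_mul, ← Matrix.map_mul, hc]
  have hcomm : Commute (Matrix.toLin' (W.map (algebraMap ℚ ℂ))) (Matrix.toLin' Yc) := by
    show Matrix.toLin' (W.map (algebraMap ℚ ℂ)) * Matrix.toLin' Yc =
      Matrix.toLin' Yc * Matrix.toLin' (W.map (algebraMap ℚ ℂ))
    rw [Module.End.mul_eq_comp, Module.End.mul_eq_comp, ← Matrix.toLin'_mul, ← Matrix.toLin'_mul,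
      hWc, add_mul, mul_add, smul_mul_assoc, mul_smul_comm, hcc]
  obtain ⟨P, hP⟩ := gp_interp (Matrix.toLin' (W.map (algebraMap ℚ ℂ))) (Matrix.toLin' Yc)
    (gp_semisimple (hU m hmn)) (gp_semisimple hY) hcomm (by
      intro γ α α' v v' hv hv' hwv hwv' hyv hyv'
      by_contra hne
      have hu : ∀ (z : Fin n → ℂ) (b : ℂ), Matrix.toLin' (W.map (algebraMap ℚ ℂ)) z = γ • z →
          Matrix.toLin' Yc z = b • z → Matrix.toLin' Uc z = (γ - m * b) • z := by
        intro z b h1 h2
        rw [hWc, map_add, map_smul, LinearMap.add_apply, LinearMap.smul_apply, h2] at h1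
        rw [sub_smul, ← h1, mul_smul]
        simp
      have hu1 := hu v α hwv hyv
      have hu2 := hu v' α' hwv' hyv'
      apply hmI
      have hex : ∃ m : ℕ, (m : ℂ) * (α - α') = (γ - (m : ℂ) * α') - (γ - m * α) := ⟨m, by ring⟩
      refine Finset.mem_image.2 ⟨((α, α'), (γ - m * α, γ - m * α')), ?_, ?_⟩
      · simp only [Finset.mem_product]
        exact ⟨⟨gp_root hv hyv, gp_root hv' hyv'⟩, gp_root hv hu1, gp_root hv' hu2⟩
      · have hex' : ∃ k : ℕ, (k : ℂ) * (α - α') = (γ - (m : ℂ) * α') - (γ - m * α) := ⟨m, by ring⟩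
        have h3 : g ((α, α'), (γ - m * α, γ - m * α')) = hex'.choose := dif_pos hex'
        rw [h3]
        have h4 := hex'.choose_spec
        have h5 : ((hex'.choose : ℕ) : ℂ) = (m : ℂ) := by
          have h6 : α - α' ≠ 0 := sub_ne_zero.2 hne
          apply mul_right_cancel₀ h6
          rw [h4]
          ring
        exact_mod_cast h5)
  refine ⟨P, ?_⟩
  apply Matrix.toLin'.injective
  rw [hP]
  have h6 : Matrix.toLin' (aeval (W.map (algebraMap ℚ ℂ)) P) =
    (Matrix.toLinAlgEquiv' (R := ℂ)).toAlgHom (aeval (W.map (algebraMap ℚ ℂ)) P) := rfl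
  rw [h6, ← aeval_algHom_apply]
  rfl

end Pool.Agent.Work.MP_77d073_nt.Gap
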