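import Mathlib
import Pool.Agent.Work.MP_77d073_nt.GapDefs
import Pool.Agent.Work.MP_77d073_nt.Reduce

set_option autoImplicit false

namespace Pool.Agent.Work.MP_77d073_nt.Gap

open Pool.Agent.Work.MP_77d073_nt Polynomial

theorem rowMul_mul {n : ℕ} (r : Fin n → ℝ) (A B : Matrix (Fin n) (Fin n) ℤ) (j : Fin n) :
    rowMul r (A * B) j = rowMul (rowMul r A) B j := by
  unfold rowMul
  simp only [Matrix.mul_apply, Int.cast_sum, Int.cast_mul, Finset.mul_sum, Finset.sum_mul]
  rw [Finset.sum_comm]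
  refine Finset.sum_congr rfl (fun i _ => Finset.sum_congr rfl (fun p _ => by ring))

theorem rowMul_lin {n : ℕ} (c : ℝ) (r s : Fin n → ℝ) (A : Matrix (Fin n) (Fin n) ℤ)
    (j : Fin n) : rowMul (fun i => c * r i + s i) A j = c * rowMul r A j + rowMul s A j := by
  unfold rowMul
  rw [Finset.mul_sum, ← Finset.sum_add_distrib]
  exact Finset.sum_congr rfl (fun i _ => by ring)

theorem rowMul_bound {n : ℕ} {r : Fin n → ℝ} {A : Matrix (Fin n) (Fin n) ℤ} {R H : ℝ}
    (hR : 0 ≤ R) (hr : ∀ i, |r i| ≤ R) (hA : ∀ i j, |(A i j : ℝ)| ≤ H) (j : Fin n) :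
    |rowMul r A j| ≤ n * (R * H) := by
  unfold rowMul
  refine (Finset.abs_sum_le_sum_abs _ _).trans ?_
  have : ∑ i : Fin n, |r i * (A i j : ℝ)| ≤ ∑ _i : Fin n, R * H := by
    refine Finset.sum_le_sum (fun i _ => ?_)
    rw [abs_mul]
    exact mul_le_mul (hr i) (hA i j) (abs_nonneg _) hR
  simpa using this

theorem pow_entry {n : ℕ} {A : Matrix (Fin n) (Fin n) ℤ} {H : ℝ} (hH : 0 ≤ H)
    (hA : ∀ i j, |(A i j : ℝ)| ≤ H) (k : ℕ) (i j : Fin n) :
    |((A ^ k) i j : ℝ)| ≤ (n * H) ^ k := by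
  induction k generalizing i j with
  | zero =>
    rw [pow_zero, pow_zero, Matrix.one_apply]
    split_ifs <;> simp
  | succ k ih =>
    rw [pow_succ, Matrix.mul_apply]
    push_cast
    refine (Finset.abs_sum_le_sum_abs _ _).trans ?_
    have : ∑ p : Fin n, |((A ^ k) i p : ℝ) * (A p j : ℝ)| ≤ ∑ _p : Fin n, (n * H) ^ k * H := by
      refine Finset.sum_le_sum (fun p _ => ?_)
      rw [abs_mul]
      exact mul_le_mul (ih i p) (hA p j) (abs_nonneg _) (by positivity)
    refine this.trans (le_of_eq ?_)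
    rw [Finset.sum_const, Finset.card_univ, Fintype.card_fin, nsmul_eq_mul, pow_succ]
    ring

/-- the approximate eigenvalue is bounded -/
theorem lam_bound {n : ℕ} (hn : 1 ≤ n) {T : ℝ} (hT : (n : ℝ) + 1 ≤ T) {a b : ℕ}
    {l : Fin n → ℝ} (hl : BA T l) {Y : Matrix (Fin n) (Fin n) ℤ}
    (hY : ∀ i j, |(Y i j : ℝ)| ≤ T ^ a) {lam : ℝ}
    (hlam : ∀ j, |rowMul l Y j - lam * l j| * T ^ b ≤ 1) : |lam| ≤ T ^ (a + 3) := by
  have hn1 : (1 : ℝ) ≤ n := by exact_mod_cast hn
  have hT1 : 1 ≤ T := by linarith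
  have hT0 : 0 < T := by linarith
  let j : Fin n := ⟨0, hn⟩
  have h1 : 1 ≤ T * |l j| := by
    have := hl.2 (Pi.single j 1) 1 (by
      intro h
      have := congrFun h j
      simp at this) le_rfl (by
      intro i
      by_cases hi : i = j
      · subst hi; simp
      · simp [hi])
    have e : ∑ i, l i * ((Pi.single j (1 : ℤ) : Fin n → ℤ) i : ℝ) = l j := by
      rw [Finset.sum_eq_single j]
      · simp
      · intro i _ hi
        simp [hi]
      · intro h
        exact absurd (Finset.mem_univ j) h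
    rw [e] at this
    simpa using this
  have h2 : |rowMul l Y j| ≤ n * (T * T ^ a) := rowMul_bound hT0.le hl.1 hY j
  have h3 : |rowMul l Y j - lam * l j| ≤ 1 := by
    have hb : 1 ≤ T ^ b := one_le_pow₀ hT1
    have := hlam j
    nlinarith [abs_nonneg (rowMul l Y j - lam * l j)]
  have h4 : |lam| * |l j| ≤ n * (T * T ^ a) + 1 := by
    rw [← abs_mul]
    have e : lam * l j = rowMul l Y j - (rowMul l Y j - lam * l j) := by ring
    rw [e]
    refine (abs_sub _ _).trans ?_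
    linarith
  have h5 : |lam| ≤ T * (n * (T * T ^ a) + 1) := by
    calc |lam| = |lam| * 1 := (mul_one _).symm
      _ ≤ |lam| * (T * |l j|) := mul_le_mul_of_nonneg_left h1 (abs_nonneg _)
      _ = T * (|lam| * |l j|) := by ring
      _ ≤ T * (n * (T * T ^ a) + 1) := mul_le_mul_of_nonneg_left h4 hT0.le
  refine h5.trans ?_
  have h6 : 1 ≤ T * T ^ a := one_le_mul_of_one_le_of_one_le hT1 (one_le_pow₀ hT1)
  have h7 : T ^ (a + 3) = T * (T * (T * T ^ a)) := by ring
  rw [h7]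
  refine mul_le_mul_of_nonneg_left ?_ hT0.le
  have h8 : ((n : ℝ) + 1) * (T * T ^ a) ≤ T * (T * T ^ a) :=
    mul_le_mul_of_nonneg_right hT (by positivity)
  linarith

theorem ne_pow (n : ℕ) (hn : 1 ≤ n) : ∃ T0 : ℝ, 1 ≤ T0 ∧ ∀ T : ℝ, T0 ≤ T → ∀ (a b : ℕ)
    (l : Fin n → ℝ), BA T l → ∀ Y : Matrix (Fin n) (Fin n) ℤ, NE T a b l Y →
    ∃ lam : ℝ, |lam| ≤ T ^ (a + 3) ∧ (∀ j, |rowMul l Y j - lam * l j| * T ^ b ≤ 1) ∧
      ∀ k : ℕ, k ≤ n →
        (∀ j, |rowMul l (Y ^ k) j - lam ^ k * l j| * T ^ b ≤ T ^ (n * (a + 4))) ∧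
        ∀ i j, |((Y ^ k) i j : ℝ)| ≤ T ^ (n * (a + 1)) := by
  have hn1 : (1 : ℝ) ≤ n := by exact_mod_cast hn
  refine ⟨(n : ℝ) + 1, by linarith, ?_⟩
  rintro T hT a b l hl Y ⟨hY1, lam, hY2⟩
  have hT1 : 1 ≤ T := by linarith
  have hT0 : 0 < T := by linarith
  have hnT : (n : ℝ) ≤ T := by linarith
  have hlam := lam_bound hn hT hl hY1 hY2
  refine ⟨lam, hlam, hY2, fun k hk => ⟨?_, ?_⟩⟩
  · have key : ∀ k : ℕ, ∀ j, |rowMul l (Y ^ k) j - lam ^ k * l j| * T ^ b ≤
        k * (T ^ (a + 3)) ^ k := by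
      intro k
      induction k with
      | zero =>
        intro j
        have : rowMul l (Y ^ 0) j = l j := by
          unfold rowMul
          rw [pow_zero, Finset.sum_eq_single j]
          · simp
          · intro i _ hi
            simp [Matrix.one_apply, hi]
          · intro h
            exact absurd (Finset.mem_univ j) h
        rw [this]
        simp
      | succ k ih =>
        intro j
        have e0 : rowMul l (Y ^ k) =
            fun i => lam ^ k * l i + (rowMul l (Y ^ k) i - lam ^ k * l i) := by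
          funext i
          ring
        have e1 : rowMul l (Y ^ (k + 1)) j - lam ^ (k + 1) * l j =
            lam ^ k * (rowMul l Y j - lam * l j) +
              rowMul (fun i => rowMul l (Y ^ k) i - lam ^ k * l i) Y j := by
          rw [pow_succ, rowMul_mul]
          conv_lhs => rw [e0]
          rw [rowMul_lin]
          ring
        rw [e1]
        have hpb : 0 ≤ T ^ b := pow_nonneg hT0.le _
        have hlk : |lam| ^ k ≤ (T ^ (a + 3)) ^ k := pow_le_pow_left₀ (abs_nonneg _) hlam k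
        have b1 : |lam ^ k * (rowMul l Y j - lam * l j)| * T ^ b ≤ (T ^ (a + 3)) ^ k := by
          rw [abs_mul, abs_pow, mul_assoc]
          calc |lam| ^ k * (|rowMul l Y j - lam * l j| * T ^ b) ≤ (T ^ (a + 3)) ^ k * 1 :=
                mul_le_mul hlk (hY2 j) (mul_nonneg (abs_nonneg _) hpb) (by positivity)
            _ = (T ^ (a + 3)) ^ k := mul_one _
        have b2 : |rowMul (fun i => rowMul l (Y ^ k) i - lam ^ k * l i) Y j| * T ^ b ≤
            n * (k * (T ^ (a + 3)) ^ k * T ^ a) := by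
          unfold rowMul
          calc |∑ i, (∑ p, l p * (((Y ^ k) p i : ℤ) : ℝ) - lam ^ k * l i) * (Y i j : ℝ)| * T ^ b
              ≤ (∑ i, |(∑ p, l p * (((Y ^ k) p i : ℤ) : ℝ) - lam ^ k * l i) * (Y i j : ℝ)|) * T ^ b :=
                mul_le_mul_of_nonneg_right (Finset.abs_sum_le_sum_abs _ _) hpb
            _ = ∑ i, |∑ p, l p * (((Y ^ k) p i : ℤ) : ℝ) - lam ^ k * l i| * T ^ b * |(Y i j : ℝ)| := by
                rw [Finset.sum_mul]
                exact Finset.sum_congr rfl (fun i _ => by rw [abs_mul]; ring)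
            _ ≤ ∑ _i : Fin n, k * (T ^ (a + 3)) ^ k * T ^ a := by
                refine Finset.sum_le_sum (fun i _ => ?_)
                exact mul_le_mul (ih i) (hY1 i j) (abs_nonneg _) (by positivity)
            _ = n * (k * (T ^ (a + 3)) ^ k * T ^ a) := by
                rw [Finset.sum_const, Finset.card_univ, Fintype.card_fin, nsmul_eq_mul]
        have b3 : |lam ^ k * (rowMul l Y j - lam * l j) +
              rowMul (fun i => rowMul l (Y ^ k) i - lam ^ k * l i) Y j| * T ^ b ≤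
            (T ^ (a + 3)) ^ k + n * (k * (T ^ (a + 3)) ^ k * T ^ a) := by
          refine (mul_le_mul_of_nonneg_right (abs_add_le _ _) hpb).trans ?_
          rw [add_mul]
          linarith
        refine b3.trans ?_
        have c1 : n * T ^ a ≤ T ^ (a + 3) := by
          calc (n : ℝ) * T ^ a ≤ T * T ^ a := mul_le_mul_of_nonneg_right hnT (by positivity)
            _ = T ^ (a + 1) := (pow_succ' _ _).symm
            _ ≤ T ^ (a + 3) := pow_le_pow_right₀ hT1 (by omega)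
        have c2 : 1 ≤ T ^ (a + 3) := one_le_pow₀ hT1
        have c3 : 0 ≤ (T ^ (a + 3)) ^ k := by positivity
        have c4 : (0 : ℝ) ≤ k := Nat.cast_nonneg k
        have c5 : (k : ℝ) * (T ^ (a + 3)) ^ k * (n * T ^ a) ≤ k * (T ^ (a + 3)) ^ k * T ^ (a + 3) :=
          mul_le_mul_of_nonneg_left c1 (mul_nonneg c4 c3)
        have c6 : (T ^ (a + 3)) ^ k * 1 ≤ (T ^ (a + 3)) ^ k * T ^ (a + 3) :=
          mul_le_mul_of_nonneg_left c2 c3
        rw [pow_succ (T ^ (a + 3)) k]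
        push_cast
        linarith
    intro j
    refine (key k j).trans ?_
    have hkn : (k : ℝ) ≤ n := by exact_mod_cast hk
    calc (k : ℝ) * (T ^ (a + 3)) ^ k ≤ T * (T ^ (a + 3)) ^ n :=
          mul_le_mul (hkn.trans hnT) (pow_le_pow_right₀ (one_le_pow₀ hT1) hk) (by positivity) hT0.le
      _ = T ^ ((a + 3) * n + 1) := by rw [← pow_mul, pow_succ']
      _ ≤ T ^ (n * (a + 4)) := pow_le_pow_right₀ hT1 (by nlinarith)
  · intro i j
    refine (pow_entry (by positivity) hY1 k i j).trans ?_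
    have h1 : (n : ℝ) * T ^ a ≤ T ^ (a + 1) := by
      rw [pow_succ']
      exact mul_le_mul_of_nonneg_right hnT (by positivity)
    calc ((n : ℝ) * T ^ a) ^ k ≤ (T ^ (a + 1)) ^ k := pow_le_pow_left₀ (by positivity) h1 k
      _ ≤ (T ^ (a + 1)) ^ n := pow_le_pow_right₀ (one_le_pow₀ hT1) hk
      _ = T ^ (n * (a + 1)) := by rw [← pow_mul, mul_comm]

theorem ne_comm (n : ℕ) (hn : 1 ≤ n) : ∃ T0 : ℝ, 1 ≤ T0 ∧ ∀ T : ℝ, T0 ≤ T → ∀ (a b : ℕ),
    100 * n ^ 2 * (a + 1) ≤ b → ∀ l : Fin n → ℝ, BA T l →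
    ∀ Y Z : Matrix (Fin n) (Fin n) ℤ, NE T a b l Y → NE T a b l Z → Y * Z = Z * Y := by
  have hn1 : (1 : ℝ) ≤ n := by exact_mod_cast hn
  refine ⟨2 * (n : ℝ) + 2, by linarith, ?_⟩
  rintro T hT a b hab l hl Y Z ⟨hY1, lam, hY2⟩ ⟨hZ1, mu, hZ2⟩
  have hT1 : 1 < T := by linarith
  have hT0 : 0 < T := by linarith
  have hnT : (n : ℝ) ≤ T := by linarith
  have hlam := lam_bound hn (by linarith) hl hY1 hY2
  have hmu := lam_bound hn (by linarith) hl hZ1 hZ2
  have hpb : 0 ≤ T ^ b := pow_nonneg hT0.le _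
  have hna : (n : ℝ) * T ^ a ≤ T ^ (a + 3) := by
    calc (n : ℝ) * T ^ a ≤ T * T ^ a := mul_le_mul_of_nonneg_right hnT (by positivity)
      _ = T ^ (a + 1) := (pow_succ' _ _).symm
      _ ≤ T ^ (a + 3) := pow_le_pow_right₀ hT1.le (by omega)
  -- error terms
  have herr : ∀ (Y Z : Matrix (Fin n) (Fin n) ℤ) (lam mu : ℝ), (∀ i j, |(Z i j : ℝ)| ≤ T ^ a) →
      |lam| ≤ T ^ (a + 3) → (∀ j, |rowMul l Y j - lam * l j| * T ^ b ≤ 1) →
      (∀ j, |rowMul l Z j - mu * l j| * T ^ b ≤ 1) → ∀ j,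
      |rowMul l (Y * Z) j - lam * mu * l j| * T ^ b ≤ 2 * T ^ (a + 3) := by
    intro Y Z lam mu hZ1 hlam hY2 hZ2 j
    have e0 : rowMul l Y = fun i => lam * l i + (rowMul l Y i - lam * l i) := by
      funext i
      ring
    have e1 : rowMul l (Y * Z) j - lam * mu * l j = lam * (rowMul l Z j - mu * l j) +
        rowMul (fun i => rowMul l Y i - lam * l i) Z j := by
      rw [rowMul_mul]
      conv_lhs => rw [e0]
      rw [rowMul_lin]
      ring
    rw [e1]
    have b1 : |lam * (rowMul l Z j - mu * l j)| * T ^ b ≤ T ^ (a + 3) := by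
      rw [abs_mul, mul_assoc]
      calc |lam| * (|rowMul l Z j - mu * l j| * T ^ b) ≤ T ^ (a + 3) * 1 :=
            mul_le_mul hlam (hZ2 j) (mul_nonneg (abs_nonneg _) hpb) (by positivity)
        _ = T ^ (a + 3) := mul_one _
    have b2 : |rowMul (fun i => rowMul l Y i - lam * l i) Z j| * T ^ b ≤ n * T ^ a := by
      unfold rowMul
      calc |∑ i, (∑ p, l p * (Y p i : ℝ) - lam * l i) * (Z i j : ℝ)| * T ^ b
          ≤ (∑ i, |(∑ p, l p * (Y p i : ℝ) - lam * l i) * (Z i j : ℝ)|) * T ^ b :=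
            mul_le_mul_of_nonneg_right (Finset.abs_sum_le_sum_abs _ _) hpb
        _ = ∑ i, |∑ p, l p * (Y p i : ℝ) - lam * l i| * T ^ b * |(Z i j : ℝ)| := by
            rw [Finset.sum_mul]
            exact Finset.sum_congr rfl (fun i _ => by rw [abs_mul]; ring)
        _ ≤ ∑ _i : Fin n, 1 * T ^ a := by
            refine Finset.sum_le_sum (fun i _ => ?_)
            exact mul_le_mul (hY2 i) (hZ1 i j) (abs_nonneg _) zero_le_one
        _ = n * T ^ a := by
            rw [Finset.sum_const, Finset.card_univ, Fintype.card_fin, nsmul_eq_mul, one_mul]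
    refine (mul_le_mul_of_nonneg_right (abs_add_le _ _) hpb).trans ?_
    rw [add_mul]
    linarith
  have hYZ := herr Y Z lam mu hZ1 hlam hY2 hZ2
  have hZY := herr Z Y mu lam hY1 hmu hZ2 hY2
  rw [← sub_eq_zero]
  ext i j
  rw [Matrix.zero_apply]
  by_contra hne
  set q : Fin n → ℤ := fun i => (Y * Z - Z * Y) i j with hq
  have hq0 : q ≠ 0 := fun h => hne (by
    have := congrFun h i
    simpa [hq] using this)
  have hent : ∀ (A B : Matrix (Fin n) (Fin n) ℤ), (∀ i j, |(A i j : ℝ)| ≤ T ^ a) →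
      (∀ i j, |(B i j : ℝ)| ≤ T ^ a) → ∀ i j, |((A * B) i j : ℝ)| ≤ n * (T ^ a * T ^ a) := by
    intro A B hA hB i j
    rw [Matrix.mul_apply]
    push_cast
    refine (Finset.abs_sum_le_sum_abs _ _).trans ?_
    have : ∑ p : Fin n, |(A i p : ℝ) * (B p j : ℝ)| ≤ ∑ _p : Fin n, T ^ a * T ^ a := by
      refine Finset.sum_le_sum (fun p _ => ?_)
      rw [abs_mul]
      exact mul_le_mul (hA i p) (hB p j) (abs_nonneg _) (by positivity)
    simpa using this
  have hqX : ∀ i, |(q i : ℝ)| ≤ T ^ (2 * a + 1) := by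
    intro i
    have e : (q i : ℝ) = ((Y * Z) i j : ℝ) - ((Z * Y) i j : ℝ) := by
      rw [hq]
      simp only [Matrix.sub_apply]
      push_cast
      ring
    rw [e]
    refine (abs_sub _ _).trans ?_
    have h1 := hent Y Z hY1 hZ1 i j
    have h2 := hent Z Y hZ1 hY1 i j
    have h3 : 2 * (n : ℝ) * (T ^ a * T ^ a) ≤ T * (T ^ a * T ^ a) :=
      mul_le_mul_of_nonneg_right (by linarith) (by positivity)
    have h4 : T ^ (2 * a + 1) = T * (T ^ a * T ^ a) := by ring
    rw [h4]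
    linarith
  have hX1 : (1 : ℝ) ≤ T ^ (2 * a + 1) := one_le_pow₀ hT1.le
  have hmain := hl.2 q (T ^ (2 * a + 1)) hq0 hX1 hqX
  have hlq : |∑ i, l i * (q i : ℝ)| * T ^ b ≤ T ^ (a + 5) := by
    have e : ∑ i, l i * (q i : ℝ) = (rowMul l (Y * Z) j - lam * mu * l j) -
        (rowMul l (Z * Y) j - mu * lam * l j) := by
      have : ∑ i, l i * (q i : ℝ) = rowMul l (Y * Z) j - rowMul l (Z * Y) j := by
        unfold rowMul
        rw [← Finset.sum_sub_distrib]
        refine Finset.sum_congr rfl (fun i _ => ?_)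
        rw [hq]
        simp only [Matrix.sub_apply]
        push_cast
        ring
      rw [this]
      ring
    rw [e]
    refine (mul_le_mul_of_nonneg_right (abs_sub _ _) hpb).trans ?_
    rw [add_mul]
    have h1 := hYZ j
    have h2 := hZY j
    have h3 : T ^ (a + 5) = T ^ 2 * T ^ (a + 3) := by ring
    have h4 : (4 : ℝ) ≤ T ^ 2 := by nlinarith
    have h5 : 4 * T ^ (a + 3) ≤ T ^ 2 * T ^ (a + 3) :=
      mul_le_mul_of_nonneg_right h4 (by positivity)
    linarith
  have hfin : T ^ b ≤ T ^ (1 + (2 * a + 1) * (n - 1) + (a + 5)) := by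
    calc T ^ b = 1 * T ^ b := (one_mul _).symm
      _ ≤ T * (T ^ (2 * a + 1)) ^ (n - 1) * |∑ i, l i * (q i : ℝ)| * T ^ b :=
          mul_le_mul_of_nonneg_right hmain hpb
      _ = T * (T ^ (2 * a + 1)) ^ (n - 1) * (|∑ i, l i * (q i : ℝ)| * T ^ b) := by ring
      _ ≤ T * (T ^ (2 * a + 1)) ^ (n - 1) * T ^ (a + 5) :=
          mul_le_mul_of_nonneg_left hlq (by positivity)
      _ = T ^ (1 + (2 * a + 1) * (n - 1) + (a + 5)) := by
          rw [pow_add T (1 + (2 * a + 1) * (n - 1)) (a + 5), pow_add T 1, pow_one,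
            pow_mul T (2 * a + 1)]
  have hle : b ≤ 1 + (2 * a + 1) * (n - 1) + (a + 5) := (pow_le_pow_iff_right₀ hT1).1 hfin
  have h9 : (2 * a + 1) * (n - 1) ≤ (2 * a + 1) * n := Nat.mul_le_mul_left _ (Nat.sub_le _ _)
  nlinarith

end Pool.Agent.Work.MP_77d073_nt.Gap
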