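import Mathlib
import Pool.Agent.Work.MP_77d073_nt.GapDefs
import Pool.Agent.Work.MP_77d073_nt.Reduce
import Pool.Agent.Work.MP_77d073_nt.GapNP

set_option autoImplicit false

namespace Pool.Agent.Work.MP_77d073_nt.Gap

open Pool.Agent.Work.MP_77d073_nt Polynomial

/-- eigenvalues are bounded by the size of the matrix -/
theorem root_bound {n : ℕ} {Y : Matrix (Fin n) (Fin n) ℤ} {H : ℝ}
    (hY : ∀ i j, |(Y i j : ℝ)| ≤ H) {z : ℂ}
    (hz : (Y.charpoly.map (Int.castRingHom ℂ)).IsRoot z) : ‖z‖ ≤ n * H := by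
  set A : Matrix (Fin n) (Fin n) ℂ := Y.map (Int.castRingHom ℂ) with hA
  have h1 : (Matrix.scalar (Fin n) z - A).det = 0 := by
    rw [← Matrix.eval_charpoly, hA, Matrix.charpoly_map]
    exact hz
  obtain ⟨v, hv, hv0⟩ := Matrix.exists_mulVec_eq_zero_iff.2 h1
  have h2 : ∀ i, z * v i = ∑ j, A i j * v j := by
    intro i
    have := congrFun hv0 i
    rw [Matrix.sub_mulVec, Pi.sub_apply, Pi.zero_apply, sub_eq_zero] at this
    have e : (Matrix.scalar (Fin n) z).mulVec v i = z * v i := by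
      rw [Matrix.scalar_apply, Matrix.mulVec_diagonal]
    rw [e] at this
    rw [this]
    rfl
  obtain ⟨i0, hi0⟩ := Function.ne_iff.1 hv
  have : Nonempty (Fin n) := ⟨i0⟩
  obtain ⟨i, hi⟩ := Finite.exists_max (fun j => ‖v j‖)
  have hpos : 0 < ‖v i‖ := lt_of_lt_of_le (norm_pos_iff.2 hi0) (hi i0)
  have h3 : ‖z‖ * ‖v i‖ ≤ n * H * ‖v i‖ := by
    rw [← norm_mul, h2 i]
    refine (norm_sum_le _ _).trans ?_
    have : ∑ j : Fin n, ‖A i j * v j‖ ≤ ∑ _j : Fin n, H * ‖v i‖ := by
      refine Finset.sum_le_sum (fun j _ => ?_)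
      rw [norm_mul]
      have e : ‖A i j‖ = |(Y i j : ℝ)| := by
        rw [hA, Matrix.map_apply]
        simp only [eq_intCast]
        rw [Complex.norm_intCast]
      rw [e]
      exact mul_le_mul (hY i j) (hi j) (norm_nonneg _) ((abs_nonneg _).trans (hY i j))
    refine this.trans (le_of_eq ?_)
    rw [Finset.sum_const, Finset.card_univ, Fintype.card_fin, nsmul_eq_mul]
    ring
  exact le_of_mul_le_mul_right h3 hpos

theorem toQ_eq {n : ℕ} (Y : Matrix (Fin n) (Fin n) ℤ) :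
    toQ Y = (Int.castRingHom ℚ).mapMatrix Y := rfl

theorem toQ_inj {n : ℕ} {Y Z : Matrix (Fin n) (Fin n) ℤ} (h : toQ Y = toQ Z) : Y = Z := by
  ext i j
  have := congrFun (congrFun h i) j
  simpa [toQ] using this

theorem aeval_toQ {n : ℕ} (Y : Matrix (Fin n) (Fin n) ℤ) (h : ℤ[X]) :
    toQ (aeval Y h) = aeval (toQ Y) (h.map (Int.castRingHom ℚ)) := by
  rw [toQ_eq, toQ_eq, aeval_def, aeval_def, eval₂_map, hom_eval₂]
  congr 1
  exact RingHom.ext_int _ _

/-- a monic rational factor of the characteristic polynomial is integral with small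
coefficients -/
theorem factor_int {n : ℕ} {Y : Matrix (Fin n) (Fin n) ℤ} {H : ℝ} (hH : 1 ≤ n * H)
    (hY : ∀ i j, |(Y i j : ℝ)| ≤ H) {f : ℚ[X]} (hf : f.Monic)
    (hd : f ∣ (toQ Y).charpoly) :
    ∃ f' : ℤ[X], f'.Monic ∧ f'.map (Int.castRingHom ℚ) = f ∧ f'.natDegree ≤ n ∧
      ∀ k, |((f'.coeff k : ℤ) : ℝ)| ≤ (n * H) ^ n * 2 ^ n := by
  have hchar : (toQ Y).charpoly = Y.charpoly.map (algebraMap ℤ ℚ) := by
    rw [toQ_eq, RingHom.mapMatrix_apply, Matrix.charpoly_map]
    rfl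
  rw [hchar] at hd
  obtain ⟨f', hf'⟩ := IsIntegrallyClosed.eq_map_mul_C_of_dvd ℚ Y.charpoly_monic hd
  rw [hf.leadingCoeff, C_1, mul_one] at hf'
  have hmap : f'.map (Int.castRingHom ℚ) = f := hf'
  have hinj : Function.Injective (Int.castRingHom ℚ) := Int.cast_injective
  have hmonic : f'.Monic := monic_of_injective hinj (by rw [hmap]; exact hf)
  have hdeg : f'.natDegree ≤ n := by
    have h1 : f'.natDegree = f.natDegree := by
      rw [← hmap, natDegree_map_eq_of_injective hinj]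
    rw [h1]
    refine (natDegree_le_of_dvd hd ?_).trans ?_
    · exact (Y.charpoly_monic.map _).ne_zero
    · rw [natDegree_map_eq_of_injective (f := algebraMap ℤ ℚ) hinj,
        Matrix.charpoly_natDegree_eq_dim, Fintype.card_fin]
  refine ⟨f', hmonic, hmap, hdeg, fun k => ?_⟩
  have hroots : ∀ z ∈ (f'.map (Int.castRingHom ℂ)).roots, ‖z‖ ≤ n * H := by
    intro z hz
    refine root_bound hY ?_
    have hdvd : f'.map (Int.castRingHom ℂ) ∣ Y.charpoly.map (Int.castRingHom ℂ) := by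
      have h1 := Polynomial.map_dvd (Rat.castHom ℂ) hd
      rw [← hmap, Polynomial.map_map, Polynomial.map_map] at h1
      have e1 : (Rat.castHom ℂ).comp (Int.castRingHom ℚ) = Int.castRingHom ℂ :=
        RingHom.ext_int _ _
      have e2 : (Rat.castHom ℂ).comp (algebraMap ℤ ℚ) = Int.castRingHom ℂ :=
        RingHom.ext_int _ _
      rwa [e1, e2] at h1
    exact (isRoot_of_mem_roots hz).dvd hdvd
  have h1 := coeff_bdd_of_roots_le (Int.castRingHom ℂ) hmonic (IsAlgClosed.splits _) hdeg hroots k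
  rw [coeff_map, max_eq_left hH] at h1
  have h2 : ‖(Int.castRingHom ℂ) (f'.coeff k)‖ = |((f'.coeff k : ℤ) : ℝ)| := by
    simp only [eq_intCast]
    rw [Complex.norm_intCast]
  rw [h2] at h1
  refine h1.trans ?_
  refine mul_le_mul_of_nonneg_left ?_ (by positivity)
  have : n.choose (n / 2) ≤ 2 ^ n := by
    have := Finset.single_le_sum (f := fun m => n.choose m) (fun _ _ => Nat.zero_le _)
      (Finset.mem_range.2 (Nat.lt_succ_of_le (Nat.div_le_self n 2)))
    rwa [Nat.sum_range_choose] at this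
  exact_mod_cast this

theorem rowMul_aeval {n : ℕ} (l : Fin n → ℝ) (Y : Matrix (Fin n) (Fin n) ℤ) (h : ℤ[X])
    {N : ℕ} (hN : h.natDegree ≤ N) (j : Fin n) :
    rowMul l (aeval Y h) j = ∑ k ∈ Finset.range (N + 1), (h.coeff k : ℝ) * rowMul l (Y ^ k) j := by
  unfold rowMul
  rw [aeval_eq_sum_range' (Nat.lt_succ_of_le hN)]
  simp only [Finset.mul_sum]
  rw [Finset.sum_comm]
  refine Finset.sum_congr rfl (fun i _ => ?_)
  rw [Matrix.sum_apply]
  push_cast
  rw [Finset.mul_sum]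
  refine Finset.sum_congr rfl (fun k _ => ?_)
  rw [Matrix.smul_apply, smul_eq_mul]
  push_cast
  ring

theorem aeval_entry {n : ℕ} (Y : Matrix (Fin n) (Fin n) ℤ) (h : ℤ[X])
    {N : ℕ} (hN : h.natDegree ≤ N) {C X : ℝ} (hC : ∀ k, |((h.coeff k : ℤ) : ℝ)| ≤ C)
    (hX : ∀ k ≤ N, ∀ i j, |((Y ^ k) i j : ℝ)| ≤ X) (i j : Fin n) :
    |((aeval Y h) i j : ℝ)| ≤ (N + 1) * (C * X) := by
  rw [aeval_eq_sum_range' (Nat.lt_succ_of_le hN), Matrix.sum_apply]
  push_cast
  refine (Finset.abs_sum_le_sum_abs _ _).trans ?_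
  have : ∑ k ∈ Finset.range (N + 1), |(((h.coeff k • Y ^ k) i j : ℤ) : ℝ)| ≤
      ∑ _k ∈ Finset.range (N + 1), C * X := by
    refine Finset.sum_le_sum (fun k hk => ?_)
    rw [Matrix.smul_apply, smul_eq_mul]
    push_cast
    rw [abs_mul]
    exact mul_le_mul (hC k) (hX k (Nat.lt_succ_iff.1 (Finset.mem_range.1 hk)) i j) (abs_nonneg _)
      ((abs_nonneg _).trans (hC k))
  refine this.trans (le_of_eq ?_)
  rw [Finset.sum_const, Finset.card_range, nsmul_eq_mul]
  push_cast
  ring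

theorem aeval_real_bound {h : ℤ[X]} {N : ℕ} (hN : h.natDegree ≤ N) {C : ℝ}
    (hC : ∀ k, |((h.coeff k : ℤ) : ℝ)| ≤ C) {lam Λ : ℝ} (hΛ : 1 ≤ Λ) (hl : |lam| ≤ Λ) :
    |∑ k ∈ Finset.range (N + 1), (h.coeff k : ℝ) * lam ^ k| ≤ (N + 1) * (C * Λ ^ N) := by
  refine (Finset.abs_sum_le_sum_abs _ _).trans ?_
  have : ∑ k ∈ Finset.range (N + 1), |(h.coeff k : ℝ) * lam ^ k| ≤
      ∑ _k ∈ Finset.range (N + 1), C * Λ ^ N := by
    refine Finset.sum_le_sum (fun k hk => ?_)
    rw [abs_mul, abs_pow]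
    refine mul_le_mul (hC k) ?_ (by positivity) ((abs_nonneg _).trans (hC k))
    exact (pow_le_pow_left₀ (abs_nonneg _) hl k).trans
      (pow_le_pow_right₀ hΛ (Nat.lt_succ_iff.1 (Finset.mem_range.1 hk)))
  refine this.trans (le_of_eq ?_)
  rw [Finset.sum_const, Finset.card_range, nsmul_eq_mul]
  push_cast
  ring

/-- a polynomial with small value at the approximate eigenvalue kills the matrix -/
theorem kill {n : ℕ} (hn : 1 ≤ n) {T : ℝ} (hT : 2 ≤ T) {l : Fin n → ℝ} (hl : BA T l)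
    {M : Matrix (Fin n) (Fin n) ℤ} {x c e : ℕ} (hM : ∀ i j, |(M i j : ℝ)| ≤ T ^ x)
    (hsmall : ∀ j, |rowMul l M j| * T ^ c ≤ T ^ e) (hd : 1 + x * n + e + 1 ≤ c) :
    M = 0 := by
  have hT1 : 1 < T := by linarith
  have hT0 : 0 < T := by linarith
  ext i j
  rw [Matrix.zero_apply]
  by_contra hne
  have hq0 : (fun i => M i j) ≠ 0 := fun h => hne (congrFun h i)
  have hmain := hl.2 (fun i => M i j) (T ^ x) hq0 (one_le_pow₀ hT1.le) (fun i => hM i j)
  have hfin : T ^ c ≤ T ^ (1 + x * (n - 1) + e) := by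
    calc T ^ c = 1 * T ^ c := (one_mul _).symm
      _ ≤ T * (T ^ x) ^ (n - 1) * |∑ i, l i * (M i j : ℝ)| * T ^ c :=
          mul_le_mul_of_nonneg_right hmain (by positivity)
      _ = T * (T ^ x) ^ (n - 1) * (|rowMul l M j| * T ^ c) := by unfold rowMul; ring
      _ ≤ T * (T ^ x) ^ (n - 1) * T ^ e :=
          mul_le_mul_of_nonneg_left (hsmall j) (by positivity)
      _ = T ^ (1 + x * (n - 1) + e) := by
          rw [pow_add T (1 + x * (n - 1)) e, pow_add T 1, pow_one, pow_mul T x]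
  have hle : c ≤ 1 + x * (n - 1) + e := (pow_le_pow_iff_right₀ hT1).1 hfin
  have h9 : x * (n - 1) ≤ x * n := Nat.mul_le_mul_left _ (Nat.sub_le _ _)
  omega

theorem ne_irred (n : ℕ) (hn : 1 ≤ n) : ∃ T0 : ℝ, 1 ≤ T0 ∧ ∀ T : ℝ, T0 ≤ T → ∀ (a b : ℕ),
    100 * n ^ 2 * (a + 1) ≤ b → ∀ l : Fin n → ℝ, BA T l →
    ∀ Y : Matrix (Fin n) (Fin n) ℤ, NE T a b l Y → Irreducible (minpoly ℚ (toQ Y)) := by
  obtain ⟨T1, hT1, hpow⟩ := ne_pow n hn
  have hn1 : (1 : ℝ) ≤ n := by exact_mod_cast hn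
  have h2n : (1 : ℝ) ≤ 2 ^ n := one_le_pow₀ (by norm_num)
  refine ⟨max T1 (2 ^ n + n + 2), le_trans hT1 (le_max_left _ _), ?_⟩
  intro T hT a b hab l hl Y hY
  have hTa : T1 ≤ T := (le_max_left _ _).trans hT
  have hTb : 2 ^ n + (n : ℝ) + 2 ≤ T := (le_max_right _ _).trans hT
  have hT2 : 2 ≤ T := by linarith
  have hT1' : 1 ≤ T := by linarith
  have hT0 : 0 < T := by linarith
  have hnT : (n : ℝ) + 1 ≤ T := by linarith
  have h2T : (2 : ℝ) ^ n ≤ T := by linarith
  have hYe := hY.1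
  obtain ⟨lam, hlam, -, hk⟩ := hpow T hTa a b l hl Y hY
  have : Nonempty (Fin n) := ⟨⟨0, hn⟩⟩
  set mu := minpoly ℚ (toQ Y) with hmu
  have hint : IsIntegral ℚ (toQ Y) := Matrix.isIntegral _
  have hmonic : mu.Monic := minpoly.monic hint
  by_contra hirr
  rw [hmonic.irreducible_iff_natDegree'] at hirr
  push Not at hirr
  obtain ⟨f, g, hf, hg, hfg, hdeg⟩ := hirr (minpoly.ne_one ℚ _)
  rw [Finset.mem_Ioc] at hdeg
  have hmudvd : mu ∣ (toQ Y).charpoly := Matrix.minpoly_dvd_charpoly _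
  have hfd : f ∣ (toQ Y).charpoly := (Dvd.intro _ hfg).trans hmudvd
  have hgd : g ∣ (toQ Y).charpoly := (Dvd.intro_left _ hfg).trans hmudvd
  have hnH : (1 : ℝ) ≤ n * T ^ a :=
    one_le_mul_of_one_le_of_one_le hn1 (one_le_pow₀ hT1')
  obtain ⟨f', hf'm, hf'f, hf'd, hf'c⟩ := factor_int hnH hYe hf hfd
  obtain ⟨g', hg'm, hg'g, hg'd, hg'c⟩ := factor_int hnH hYe hg hgd
  -- coefficient bound
  have hC : (n * T ^ a) ^ n * 2 ^ n ≤ T ^ (n * (a + 1) + 1) := by
    have h1 : (n : ℝ) * T ^ a ≤ T ^ (a + 1) := by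
      rw [pow_succ']
      exact mul_le_mul_of_nonneg_right (by linarith) (by positivity)
    calc ((n : ℝ) * T ^ a) ^ n * 2 ^ n ≤ (T ^ (a + 1)) ^ n * T :=
          mul_le_mul (pow_le_pow_left₀ (by positivity) h1 n) h2T (by positivity) (by positivity)
      _ = T ^ (n * (a + 1) + 1) := by rw [← pow_mul, mul_comm (a + 1) n, pow_succ]
  -- a common package for the two factors
  have pack : ∀ h : ℤ[X], h.natDegree ≤ n → (∀ k, |((h.coeff k : ℤ) : ℝ)| ≤
      (n * T ^ a) ^ n * 2 ^ n) →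
      (∀ j, |rowMul l (aeval Y h) j -
        (∑ k ∈ Finset.range (n + 1), (h.coeff k : ℝ) * lam ^ k) * l j| * T ^ b ≤
          T ^ (n * (2 * a + 5) + 2)) ∧
      (∀ i j, |((aeval Y h) i j : ℝ)| ≤ T ^ (2 * n * (a + 1) + 2)) ∧
      |∑ k ∈ Finset.range (n + 1), (h.coeff k : ℝ) * lam ^ k| ≤ T ^ (n * (2 * a + 4) + 2) := by
    intro h hdeg hcoef
    have hcoef' : ∀ k, |((h.coeff k : ℤ) : ℝ)| ≤ T ^ (n * (a + 1) + 1) := fun k =>
      (hcoef k).trans hC
    refine ⟨fun j => ?_, fun i j => ?_, ?_⟩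
    · rw [rowMul_aeval l Y h hdeg, Finset.sum_mul, ← Finset.sum_sub_distrib]
      have hpb : 0 ≤ T ^ b := pow_nonneg hT0.le _
      calc |∑ k ∈ Finset.range (n + 1), ((h.coeff k : ℝ) * rowMul l (Y ^ k) j -
              (h.coeff k : ℝ) * lam ^ k * l j)| * T ^ b
          ≤ (∑ k ∈ Finset.range (n + 1), |(h.coeff k : ℝ) * rowMul l (Y ^ k) j -
              (h.coeff k : ℝ) * lam ^ k * l j|) * T ^ b :=
            mul_le_mul_of_nonneg_right (Finset.abs_sum_le_sum_abs _ _) hpb
        _ = ∑ k ∈ Finset.range (n + 1), |(h.coeff k : ℝ)| *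
              (|rowMul l (Y ^ k) j - lam ^ k * l j| * T ^ b) := by
            rw [Finset.sum_mul]
            refine Finset.sum_congr rfl (fun k _ => ?_)
            rw [← mul_assoc, ← abs_mul]
            congr 2
            ring
        _ ≤ ∑ _k ∈ Finset.range (n + 1), T ^ (n * (a + 1) + 1) * T ^ (n * (a + 4)) := by
            refine Finset.sum_le_sum (fun k hk' => ?_)
            refine mul_le_mul (hcoef' k) ?_ (mul_nonneg (abs_nonneg _) hpb) (by positivity)
            exact (hk k (Nat.lt_succ_iff.1 (Finset.mem_range.1 hk'))).1 j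
        _ = ((n : ℝ) + 1) * (T ^ (n * (a + 1) + 1) * T ^ (n * (a + 4))) := by
            rw [Finset.sum_const, Finset.card_range, nsmul_eq_mul]
            push_cast
            ring
        _ ≤ T * (T ^ (n * (a + 1) + 1) * T ^ (n * (a + 4))) :=
            mul_le_mul_of_nonneg_right hnT (by positivity)
        _ = T ^ (n * (2 * a + 5) + 2) := by
            rw [← pow_add, ← pow_succ']
            congr 1
            ring
    · refine (aeval_entry Y h hdeg hcoef' (fun k hk' => (hk k hk').2) i j).trans ?_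
      calc ((n : ℝ) + 1) * (T ^ (n * (a + 1) + 1) * T ^ (n * (a + 1)))
          ≤ T * (T ^ (n * (a + 1) + 1) * T ^ (n * (a + 1))) :=
            mul_le_mul_of_nonneg_right hnT (by positivity)
        _ = T ^ (2 * n * (a + 1) + 2) := by
            rw [← pow_add, ← pow_succ']
            congr 1
            ring
    · refine (aeval_real_bound hdeg hcoef' (one_le_pow₀ hT1') hlam).trans ?_
      calc ((n : ℝ) + 1) * (T ^ (n * (a + 1) + 1) * (T ^ (a + 3)) ^ n)
          ≤ T * (T ^ (n * (a + 1) + 1) * (T ^ (a + 3)) ^ n) :=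
            mul_le_mul_of_nonneg_right hnT (by positivity)
        _ = T ^ (n * (2 * a + 4) + 2) := by
            rw [← pow_mul, ← pow_add, ← pow_succ']
            congr 1
            ring
  obtain ⟨F1, F2, F3⟩ := pack f' hf'd hf'c
  obtain ⟨G1, G2, G3⟩ := pack g' hg'd hg'c
  set ef := ∑ k ∈ Finset.range (n + 1), (f'.coeff k : ℝ) * lam ^ k with hef
  set eg := ∑ k ∈ Finset.range (n + 1), (g'.coeff k : ℝ) * lam ^ k with heg
  set R := n * (2 * a + 5) + 2 with hR
  set x := 2 * n * (a + 1) + 2 with hx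
  set y := n * (2 * a + 4) + 2 with hy
  have hpb : 0 ≤ T ^ b := pow_nonneg hT0.le _
  -- the product vanishes
  have hprod : aeval Y f' * aeval Y g' = 0 := by
    apply toQ_inj
    rw [← map_mul, aeval_toQ, Polynomial.map_mul, hf'f, hg'g, hfg, hmu, minpoly.aeval]
    ext i j
    simp [toQ]
  let j0 : Fin n := ⟨0, hn⟩
  have hl0 : 1 ≤ T * |l j0| := by
    have := hl.2 (Pi.single j0 1) 1 (by
      intro h
      have := congrFun h j0
      simp at this) le_rfl (by
      intro i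
      by_cases hi : i = j0
      · subst hi; simp
      · simp [hi])
    have e : ∑ i, l i * ((Pi.single j0 (1 : ℤ) : Fin n → ℤ) i : ℝ) = l j0 := by
      rw [Finset.sum_eq_single j0]
      · simp
      · intro i _ hi
        simp [hi]
      · intro h
        exact absurd (Finset.mem_univ j0) h
    rw [e] at this
    simpa using this
  have hefg : |ef| * |eg| * T ^ b ≤ T ^ (R + x + y + 3) := by
    have e0 : rowMul l (aeval Y f') =
        fun i => ef * l i + (rowMul l (aeval Y f') i - ef * l i) := by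
      funext i
      ring
    have e1 : rowMul l (aeval Y f' * aeval Y g') j0 = 0 := by
      rw [hprod]
      unfold rowMul
      simp
    have e2 : rowMul l (aeval Y f' * aeval Y g') j0 = ef * rowMul l (aeval Y g') j0 +
        rowMul (fun i => rowMul l (aeval Y f') i - ef * l i) (aeval Y g') j0 := by
      rw [rowMul_mul]
      conv_lhs => rw [e0]
      rw [rowMul_lin]
    have e3 : ef * eg * l j0 = -(ef * (rowMul l (aeval Y g') j0 - eg * l j0)) -
        rowMul (fun i => rowMul l (aeval Y f') i - ef * l i) (aeval Y g') j0 := by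
      rw [e1] at e2
      linarith
    have b1 : |ef * (rowMul l (aeval Y g') j0 - eg * l j0)| * T ^ b ≤ T ^ y * T ^ R := by
      rw [abs_mul, mul_assoc]
      exact mul_le_mul F3 (G1 j0) (mul_nonneg (abs_nonneg _) hpb) (by positivity)
    have b2 : |rowMul (fun i => rowMul l (aeval Y f') i - ef * l i) (aeval Y g') j0| * T ^ b ≤
        n * (T ^ R * T ^ x) := by
      have := rowMul_bound (r := fun i => (rowMul l (aeval Y f') i - ef * l i) * T ^ b)
        (A := aeval Y g') (R := T ^ R) (H := T ^ x) (by positivity)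
        (fun i => by rw [abs_mul, abs_of_nonneg hpb]; exact F1 i) G2 j0
      have e4 : rowMul (fun i => (rowMul l (aeval Y f') i - ef * l i) * T ^ b) (aeval Y g') j0 =
          rowMul (fun i => rowMul l (aeval Y f') i - ef * l i) (aeval Y g') j0 * T ^ b := by
        unfold rowMul
        rw [Finset.sum_mul]
        exact Finset.sum_congr rfl (fun i _ => by ring)
      rw [e4, abs_mul, abs_of_nonneg hpb] at this
      exact this
    have b3 : |ef| * |eg| * |l j0| * T ^ b ≤ T ^ y * T ^ R + n * (T ^ R * T ^ x) := by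
      rw [← abs_mul, ← abs_mul, e3]
      have := abs_sub (-(ef * (rowMul l (aeval Y g') j0 - eg * l j0)))
        (rowMul (fun i => rowMul l (aeval Y f') i - ef * l i) (aeval Y g') j0)
      rw [abs_neg] at this
      refine (mul_le_mul_of_nonneg_right this hpb).trans ?_
      rw [add_mul]
      linarith
    have b4 : |ef| * |eg| * T ^ b ≤ T * (T ^ y * T ^ R + n * (T ^ R * T ^ x)) := by
      calc |ef| * |eg| * T ^ b = |ef| * |eg| * T ^ b * 1 := (mul_one _).symm
        _ ≤ |ef| * |eg| * T ^ b * (T * |l j0|) :=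
            mul_le_mul_of_nonneg_left hl0 (by positivity)
        _ = T * (|ef| * |eg| * |l j0| * T ^ b) := by ring
        _ ≤ T * (T ^ y * T ^ R + n * (T ^ R * T ^ x)) := mul_le_mul_of_nonneg_left b3 hT0.le
    refine b4.trans ?_
    have c1 : T ^ y * T ^ R ≤ T ^ (R + x + y) := by
      rw [← pow_add]
      exact pow_le_pow_right₀ hT1' (by omega)
    have c2 : T ^ R * T ^ x ≤ T ^ (R + x + y) := by
      rw [← pow_add]
      exact pow_le_pow_right₀ hT1' (by omega)
    have c3 : (n : ℝ) * (T ^ R * T ^ x) ≤ n * T ^ (R + x + y) :=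
      mul_le_mul_of_nonneg_left c2 (by linarith)
    have c4 : (1 + (n : ℝ)) * T ^ (R + x + y) ≤ T * T ^ (R + x + y) :=
      mul_le_mul_of_nonneg_right (by linarith) (by positivity)
    have c5 : T * (T ^ y * T ^ R + n * (T ^ R * T ^ x)) ≤ T * (T * T ^ (R + x + y)) :=
      mul_le_mul_of_nonneg_left (by linarith) hT0.le
    refine c5.trans ?_
    rw [← pow_succ', ← pow_succ']
    exact pow_le_pow_right₀ hT1' (by omega)
  -- the size condition
  have hsize : 1 + x * n + (R + x + y + 3 + 2) + 1 ≤ b / 2 := by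
    rw [Nat.le_div_iff_mul_le two_pos, hx, hR, hy]
    have p1 : n * (a + 1) ≤ n ^ 2 * (a + 1) := Nat.mul_le_mul_right _ (by nlinarith)
    have p2 : 1 ≤ n ^ 2 * (a + 1) := Nat.one_le_iff_ne_zero.2 (by positivity)
    have p3 : n ≤ n ^ 2 * (a + 1) := by nlinarith
    have p4 : n * a ≤ n ^ 2 * (a + 1) := by nlinarith
    nlinarith
  -- a factor with small value kills the matrix
  have fin : ∀ h : ℤ[X], ∀ v : ℝ, v ^ 2 * T ^ b ≤ T ^ (R + x + y + 3) → 0 ≤ v →
      (∀ j, |rowMul l (aeval Y h) j| * T ^ b ≤ v * |l j| * T ^ b + T ^ R) →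
      (∀ i j, |((aeval Y h) i j : ℝ)| ≤ T ^ x) → aeval Y h = 0 := by
    intro h v hv hv0 hrow hent
    have hc2 : T ^ (2 * (b / 2)) ≤ T ^ b := pow_le_pow_right₀ hT1' (by omega)
    have hcb : T ^ (b / 2) ≤ T ^ b := pow_le_pow_right₀ hT1' (by omega)
    have hN1 : 1 ≤ T ^ (R + x + y + 3) := one_le_pow₀ hT1'
    have hv2 : v * T ^ (b / 2) ≤ T ^ (R + x + y + 3) := by
      have h1 : (v * T ^ (b / 2)) ^ 2 ≤ (T ^ (R + x + y + 3)) ^ 2 := by
        calc (v * T ^ (b / 2)) ^ 2 = v ^ 2 * T ^ (2 * (b / 2)) := by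
              rw [mul_pow, ← pow_mul, mul_comm (b / 2) 2]
          _ ≤ v ^ 2 * T ^ b := mul_le_mul_of_nonneg_left hc2 (by positivity)
          _ ≤ T ^ (R + x + y + 3) := hv
          _ ≤ (T ^ (R + x + y + 3)) ^ 2 := by nlinarith
      exact (abs_le_of_sq_le_sq' h1 (by positivity)).2
    refine kill hn hT2 hl (c := b / 2) (e := R + x + y + 3 + 2) hent ?_ hsize
    intro j
    have hTc : 0 < T ^ (b / 2) := by positivity
    have hTbb : T ^ b = T ^ (b / 2) * T ^ (b - b / 2) := by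
      rw [← pow_add]
      congr 1
      omega
    have hrow' : |rowMul l (aeval Y h) j| * T ^ (b / 2) ≤ v * |l j| * T ^ (b / 2) + T ^ R := by
      have h1 := hrow j
      have hq : 1 ≤ T ^ (b - b / 2) := one_le_pow₀ hT1'
      rw [hTbb] at h1
      have h2 : |rowMul l (aeval Y h) j| * T ^ (b / 2) * T ^ (b - b / 2) ≤
          (v * |l j| * T ^ (b / 2) + T ^ R) * T ^ (b - b / 2) := by
        have h3 : T ^ R * 1 ≤ T ^ R * T ^ (b - b / 2) :=
          mul_le_mul_of_nonneg_left hq (by positivity)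
        calc |rowMul l (aeval Y h) j| * T ^ (b / 2) * T ^ (b - b / 2)
            = |rowMul l (aeval Y h) j| * (T ^ (b / 2) * T ^ (b - b / 2)) := by ring
          _ ≤ v * |l j| * (T ^ (b / 2) * T ^ (b - b / 2)) + T ^ R := h1
          _ ≤ (v * |l j| * T ^ (b / 2) + T ^ R) * T ^ (b - b / 2) := by
              rw [add_mul]
              linarith
      exact le_of_mul_le_mul_right h2 (by positivity)
    refine hrow'.trans ?_
    have h4 : v * |l j| * T ^ (b / 2) ≤ T ^ (R + x + y + 3) * T := by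
      calc v * |l j| * T ^ (b / 2) = (v * T ^ (b / 2)) * |l j| := by ring
        _ ≤ T ^ (R + x + y + 3) * T :=
            mul_le_mul hv2 (hl.1 j) (abs_nonneg _) (by positivity)
    have h5 : T ^ R ≤ T ^ (R + x + y + 3) * T := by
      rw [← pow_succ]
      exact pow_le_pow_right₀ hT1' (by omega)
    calc v * |l j| * T ^ (b / 2) + T ^ R ≤ 2 * (T ^ (R + x + y + 3) * T) := by linarith
      _ ≤ T * (T ^ (R + x + y + 3) * T) := mul_le_mul_of_nonneg_right hT2 (by positivity)
      _ = T ^ (R + x + y + 3 + 2) := by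
          rw [pow_add T (R + x + y + 3) 2]
          ring
  have rowb : ∀ (h : ℤ[X]) (v : ℝ), (∀ j, |rowMul l (aeval Y h) j - v * l j| * T ^ b ≤ T ^ R) →
      ∀ j, |rowMul l (aeval Y h) j| * T ^ b ≤ |v| * |l j| * T ^ b + T ^ R := by
    intro h v hh j
    have e : rowMul l (aeval Y h) j = v * l j + (rowMul l (aeval Y h) j - v * l j) := by ring
    have h1 := abs_add_le (v * l j) (rowMul l (aeval Y h) j - v * l j)
    rw [← e, abs_mul] at h1
    have h2 := mul_le_mul_of_nonneg_right h1 hpb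
    rw [add_mul] at h2
    linarith [hh j]
  -- degrees
  have hdegsum : f.natDegree + g.natDegree = mu.natDegree := by
    rw [← hfg, hf.natDegree_mul hg]
  have contra : ∀ (h : ℤ[X]) (q : ℚ[X]), q.Monic → h.map (Int.castRingHom ℚ) = q →
      q.natDegree < mu.natDegree → aeval Y h ≠ 0 := by
    intro h q hq hmap hlt h0
    have h1 : aeval (toQ Y) q = 0 := by
      rw [← hmap, ← aeval_toQ, h0]
      ext i j
      simp [toQ]
    have h2 := minpoly.min ℚ (toQ Y) hq h1
    rw [degree_eq_natDegree hmonic.ne_zero, degree_eq_natDegree hq.ne_zero] at h2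
    have h3 : mu.natDegree ≤ q.natDegree := by exact_mod_cast h2
    omega
  rcases le_total |ef| |eg| with hle | hle
  · refine contra f' f hf hf'f (by omega) (fin f' |ef| ?_ (abs_nonneg _) (rowb f' ef F1) F2)
    refine le_trans ?_ hefg
    refine mul_le_mul_of_nonneg_right ?_ hpb
    rw [sq]
    exact mul_le_mul_of_nonneg_left hle (abs_nonneg _)
  · refine contra g' g hg hg'g (by omega) (fin g' |eg| ?_ (abs_nonneg _) (rowb g' eg G1) G2)
    refine le_trans ?_ hefg
    refine mul_le_mul_of_nonneg_right ?_ hpb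
    rw [sq]
    exact mul_le_mul_of_nonneg_right hle (abs_nonneg _)

end Pool.Agent.Work.MP_77d073_nt.Gap
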