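import Mathlib
import Pool.Agent.Work.MP_77d073_nt.GapDefs
import Pool.Agent.Work.MP_77d073_nt.Reduce

set_option autoImplicit false

namespace Pool.Agent.Work.MP_77d073_nt.Gap

open Pool.Agent.Work.MP_77d073_nt Polynomial

theorem ne_comb (n r : ℕ) (hn : 1 ≤ n) : ∃ T0 : ℝ, 1 ≤ T0 ∧ ∀ T : ℝ, T0 ≤ T → ∀ (a b : ℕ),
    1 ≤ b → ∀ (l : Fin n → ℝ) (Y Z : Matrix (Fin n) (Fin n) ℤ), NE T a b l Y → NE T a b l Z →
    ∀ m : ℕ, m ≤ r → NE T (a + 1) (b - 1) l (Z + (m : ℤ) • Y) := by
  refine ⟨(r : ℝ) + 1, by linarith [(Nat.cast_nonneg r : (0 : ℝ) ≤ r)], ?_⟩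
  rintro T hT a b hb l Y Z ⟨hY1, lam, hY2⟩ ⟨hZ1, mu, hZ2⟩ m hm
  have hr0 : (0 : ℝ) ≤ r := Nat.cast_nonneg r
  have hT1 : 1 ≤ T := by linarith
  have hT0 : 0 < T := by linarith
  have hmr : (m : ℝ) ≤ r := by exact_mod_cast hm
  have hm0 : (0 : ℝ) ≤ m := Nat.cast_nonneg m
  refine ⟨fun i j => ?_, mu + m * lam, fun j => ?_⟩
  · have e : (((Z + (m : ℤ) • Y) i j : ℤ) : ℝ) = (Z i j : ℝ) + m * (Y i j : ℝ) := by
      rw [Matrix.add_apply, Matrix.smul_apply, smul_eq_mul]
      push_cast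
      ring
    rw [e]
    have h1 := abs_add_le (Z i j : ℝ) (m * (Y i j : ℝ))
    rw [abs_mul, abs_of_nonneg hm0] at h1
    have h2 : (m : ℝ) * |(Y i j : ℝ)| ≤ r * T ^ a :=
      mul_le_mul hmr (hY1 i j) (abs_nonneg _) hr0
    have h3 : ((r : ℝ) + 1) * T ^ a ≤ T * T ^ a :=
      mul_le_mul_of_nonneg_right hT (pow_nonneg hT0.le _)
    have h4 := hZ1 i j
    rw [pow_succ']
    linarith
  · have e : rowMul l (Z + (m : ℤ) • Y) j - (mu + m * lam) * l j =
        (rowMul l Z j - mu * l j) + m * (rowMul l Y j - lam * l j) := by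
      unfold rowMul
      have : ∑ i, l i * (((Z + (m : ℤ) • Y) i j : ℤ) : ℝ) =
          ∑ i, l i * (Z i j : ℝ) + m * ∑ i, l i * (Y i j : ℝ) := by
        rw [Finset.mul_sum, ← Finset.sum_add_distrib]
        refine Finset.sum_congr rfl (fun i _ => ?_)
        rw [Matrix.add_apply, Matrix.smul_apply, smul_eq_mul]
        push_cast
        ring
      rw [this]
      ring
    rw [e]
    have hTb : T ^ b = T ^ (b - 1) * T := by
      rw [← pow_succ]
      congr 1
      omega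
    have h1 := hZ2 j
    have h2 := hY2 j
    have h3 := abs_add_le (rowMul l Z j - mu * l j) (m * (rowMul l Y j - lam * l j))
    rw [abs_mul, abs_of_nonneg hm0] at h3
    have hp : 0 ≤ T ^ (b - 1) := pow_nonneg hT0.le _
    have h4 : |rowMul l Z j - mu * l j + m * (rowMul l Y j - lam * l j)| * T ^ b ≤ (r : ℝ) + 1 := by
      have hpb : 0 ≤ T ^ b := pow_nonneg hT0.le _
      calc |rowMul l Z j - mu * l j + m * (rowMul l Y j - lam * l j)| * T ^ b
          ≤ (|rowMul l Z j - mu * l j| + m * |rowMul l Y j - lam * l j|) * T ^ b :=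
            mul_le_mul_of_nonneg_right h3 hpb
        _ = |rowMul l Z j - mu * l j| * T ^ b + m * (|rowMul l Y j - lam * l j| * T ^ b) := by ring
        _ ≤ 1 + r * 1 := by
            have := mul_le_mul hmr h2 (mul_nonneg (abs_nonneg _) hpb) hr0
            linarith
        _ = (r : ℝ) + 1 := by ring
    rw [hTb, ← mul_assoc] at h4
    have h5 : |rowMul l Z j - mu * l j + m * (rowMul l Y j - lam * l j)| * T ^ (b - 1) * T ≤ 1 * T := by
      linarith
    exact le_of_mul_le_mul_right h5 hT0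

theorem ne_transport (n : ℕ) (hn : 1 ≤ n) : ∃ T0 : ℝ, 1 ≤ T0 ∧ ∀ T : ℝ, T0 ≤ T →
    ∀ (a b k : ℕ), 2 * k + 1 ≤ b → ∀ (l l' : Fin n → ℝ) (θ : ℝ)
      (V V' : Matrix (Fin n) (Fin n) ℤ), |θ| ≤ T ^ k →
      (∀ i j, |(V i j : ℝ)| ≤ T ^ k) → (∀ i j, |(V' i j : ℝ)| ≤ T ^ k) → V * V' = 1 →
      (∀ j, l' j = θ * rowMul l V j) → ∀ Y : Matrix (Fin n) (Fin n) ℤ, NE T a b l Y →
      NE T (a + 2 * k + 1) (b - (2 * k + 1)) l' (V' * Y * V) := by
  have hn1 : (1 : ℝ) ≤ n := by exact_mod_cast hn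
  refine ⟨(n : ℝ) ^ 2, by nlinarith, ?_⟩
  rintro T hT a b k hb l l' θ V V' hθ hV hV' hVV hl' Y ⟨hY1, lam, hY2⟩
  have hT1 : 1 ≤ T := by nlinarith
  have hT0 : 0 < T := by linarith
  have hnT : (n : ℝ) ≤ T := by nlinarith
  have hk0 : 0 ≤ T ^ k := pow_nonneg hT0.le _
  have ha0 : 0 ≤ T ^ a := pow_nonneg hT0.le _
  refine ⟨fun i j => ?_, lam, fun j => ?_⟩
  · have e : (((V' * Y * V) i j : ℤ) : ℝ) =
        ∑ p, (∑ q, (V' i q : ℝ) * (Y q p : ℝ)) * (V p j : ℝ) := by
      simp [Matrix.mul_apply]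
    rw [e]
    have h1 : ∀ p, |∑ q, (V' i q : ℝ) * (Y q p : ℝ)| ≤ n * (T ^ k * T ^ a) := by
      intro p
      refine (Finset.abs_sum_le_sum_abs _ _).trans ?_
      have : ∑ q : Fin n, |(V' i q : ℝ) * (Y q p : ℝ)| ≤ ∑ _q : Fin n, T ^ k * T ^ a := by
        refine Finset.sum_le_sum (fun q _ => ?_)
        rw [abs_mul]
        exact mul_le_mul (hV' i q) (hY1 q p) (abs_nonneg _) hk0
      simpa using this
    refine (Finset.abs_sum_le_sum_abs _ _).trans ?_
    have h2 : ∑ p : Fin n, |(∑ q, (V' i q : ℝ) * (Y q p : ℝ)) * (V p j : ℝ)| ≤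
        ∑ _p : Fin n, n * (T ^ k * T ^ a) * T ^ k := by
      refine Finset.sum_le_sum (fun p _ => ?_)
      rw [abs_mul]
      exact mul_le_mul (h1 p) (hV p j) (abs_nonneg _) (by positivity)
    refine h2.trans ?_
    rw [Finset.sum_const, Finset.card_univ, Fintype.card_fin, nsmul_eq_mul]
    have h3 : (n : ℝ) * (n * (T ^ k * T ^ a) * T ^ k) = (n : ℝ) ^ 2 * (T ^ (a + 2 * k)) := by
      rw [pow_add, pow_mul']
      ring
    rw [h3, pow_succ' T (a + 2 * k)]
    exact mul_le_mul_of_nonneg_right hT (pow_nonneg hT0.le _)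
  · set E : Fin n → ℝ := fun i => rowMul l Y i - lam * l i with hE
    have hmat : V * (V' * Y * V) = Y * V := by
      rw [← Matrix.mul_assoc, ← Matrix.mul_assoc, hVV, Matrix.one_mul]
    have assoc : ∀ (r : Fin n → ℝ) (A B : Matrix (Fin n) (Fin n) ℤ) (j : Fin n),
        rowMul (rowMul r A) B j = rowMul r (A * B) j := by
      intro r A B j
      unfold rowMul
      simp only [Matrix.mul_apply, Int.cast_sum, Int.cast_mul, Finset.mul_sum, Finset.sum_mul]
      rw [Finset.sum_comm]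
      refine Finset.sum_congr rfl (fun i _ => Finset.sum_congr rfl (fun p _ => by ring))
    have smulr : ∀ (c : ℝ) (r : Fin n → ℝ) (A : Matrix (Fin n) (Fin n) ℤ) (j : Fin n),
        rowMul (fun i => c * r i) A j = c * rowMul r A j := by
      intro c r A j
      unfold rowMul
      rw [Finset.mul_sum]
      exact Finset.sum_congr rfl (fun i _ => by ring)
    have addr : ∀ (r s : Fin n → ℝ) (A : Matrix (Fin n) (Fin n) ℤ) (j : Fin n),
        rowMul (fun i => r i + s i) A j = rowMul r A j + rowMul s A j := by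
      intro r s A j
      unfold rowMul
      rw [← Finset.sum_add_distrib]
      exact Finset.sum_congr rfl (fun i _ => by ring)
    have hl'f : l' = fun i => θ * rowMul l V i := funext hl'
    have e1 : rowMul l' (V' * Y * V) j = θ * rowMul l (Y * V) j := by
      rw [hl'f, smulr θ (rowMul l V), assoc, hmat]
    have e2 : rowMul l (Y * V) j = lam * rowMul l V j + rowMul E V j := by
      rw [← assoc, ← smulr, ← addr]
      congr 1
      funext i
      rw [hE]
      ring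
    have e3 : rowMul l' (V' * Y * V) j - lam * l' j = θ * rowMul E V j := by
      rw [e1, e2, hl' j]
      ring
    rw [e3]
    have hEb : |rowMul E V j| * T ^ b ≤ n * T ^ k := by
      unfold rowMul
      have hpb : 0 ≤ T ^ b := pow_nonneg hT0.le _
      calc |∑ i, E i * (V i j : ℝ)| * T ^ b ≤ (∑ i, |E i * (V i j : ℝ)|) * T ^ b :=
            mul_le_mul_of_nonneg_right (Finset.abs_sum_le_sum_abs _ _) hpb
        _ = ∑ i, |E i| * T ^ b * |(V i j : ℝ)| := by
            rw [Finset.sum_mul]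
            exact Finset.sum_congr rfl (fun i _ => by rw [abs_mul]; ring)
        _ ≤ ∑ _i : Fin n, 1 * T ^ k := by
            refine Finset.sum_le_sum (fun i _ => ?_)
            exact mul_le_mul (hY2 i) (hV i j) (abs_nonneg _) zero_le_one
        _ = n * T ^ k := by simp
    have hTb : T ^ b = T ^ (b - (2 * k + 1)) * (T ^ k * T ^ k * T) := by
      rw [← pow_add, ← pow_succ, ← pow_add]
      congr 1
      omega
    have h6 : |θ * rowMul E V j| * T ^ b ≤ T ^ k * (T * T ^ k) := by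
      rw [abs_mul, mul_assoc]
      refine mul_le_mul hθ (hEb.trans ?_) (by positivity) hk0
      exact mul_le_mul_of_nonneg_right hnT hk0
    rw [hTb, ← mul_assoc] at h6
    have hpos : 0 < T ^ k * T ^ k * T := by positivity
    have h7 : |θ * rowMul E V j| * T ^ (b - (2 * k + 1)) * (T ^ k * T ^ k * T) ≤
        1 * (T ^ k * T ^ k * T) := by
      refine h6.trans (le_of_eq ?_)
      ring
    exact le_of_mul_le_mul_right h7 hpos

end Pool.Agent.Work.MP_77d073_nt.Gap
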