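import Mathlib
import Pool.Agent.Work.MP_77d073_nt.GapDefs
import Pool.Agent.Work.MP_77d073_nt.GapNP
import Pool.Agent.Work.MP_77d073_nt.GapNI
import Pool.Agent.Work.MP_77d073_nt.GapNT
import Pool.Agent.Work.MP_77d073_nt.GapGB
import Pool.Agent.Work.MP_77d073_nt.GapGP

set_option autoImplicit false

/-!
All matrices of a finite family of near-eigen matrices are polynomials in one near-eigen matrix.
-/

namespace Pool.Agent.Work.MP_77d073_nt.Gap

open Pool.Agent.Work.MP_77d073_nt Polynomial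

theorem ne_mono {n : ℕ} {T : ℝ} (hT : 1 ≤ T) {a a' b b' : ℕ} (ha : a ≤ a') (hb : b' ≤ b)
    {l : Fin n → ℝ} {Y : Matrix (Fin n) (Fin n) ℤ} (h : NE T a b l Y) : NE T a' b' l Y := by
  obtain ⟨h1, lam, h2⟩ := h
  refine ⟨fun i j => (h1 i j).trans (pow_le_pow_right₀ hT ha), lam, fun j => ?_⟩
  refine le_trans ?_ (h2 j)
  have := pow_le_pow_right₀ hT hb
  gcongr

theorem ne_one {n : ℕ} {T : ℝ} (hT : 1 ≤ T) (a b : ℕ) (l : Fin n → ℝ) :
    NE T a b l (1 : Matrix (Fin n) (Fin n) ℤ) := by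
  refine ⟨fun i j => ?_, 1, fun j => ?_⟩
  · have h1 : (1 : ℝ) ≤ T ^ a := one_le_pow₀ hT
    by_cases hij : i = j
    · subst hij; simpa using h1
    · rw [Matrix.one_apply_ne hij]; simp; linarith
  · have h1 : rowMul l (1 : Matrix (Fin n) (Fin n) ℤ) j = l j := by
      unfold rowMul
      rw [Finset.sum_eq_single j]
      · simp
      · intro i _ hij
        rw [Matrix.one_apply_ne hij]; simp
      · simp
    rw [h1]; simp

theorem toQ_add_smul {n : ℕ} (U Y : Matrix (Fin n) (Fin n) ℤ) (m : ℕ) :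
    toQ (U + (m : ℤ) • Y) = toQ U + (m : ℚ) • toQ Y := by
  ext i j
  simp only [toQ, Matrix.map_apply, Matrix.add_apply, Matrix.smul_apply, smul_eq_mul]
  push_cast
  ring

theorem toQ_mul {n : ℕ} (U Y : Matrix (Fin n) (Fin n) ℤ) :
    toQ (U * Y) = toQ U * toQ Y := by
  unfold toQ
  exact Matrix.map_mul (f := Int.castRingHom ℚ)

theorem prim_all (n : ℕ) (hn : 1 ≤ n) : ∃ T0 : ℝ, 1 ≤ T0 ∧ ∀ T : ℝ, T0 ≤ T → ∀ (a b : ℕ),
    100 * n ^ 2 * (a + n + 2) + n ≤ b → ∀ l : Fin n → ℝ, BA T l →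
    ∀ S : Set (Matrix (Fin n) (Fin n) ℤ), (∀ U ∈ S, NE T a b l U) →
    ∃ Y : Matrix (Fin n) (Fin n) ℤ, NE T (a + n) (b - n) l Y ∧
      ∀ U ∈ S, ∃ p : ℚ[X], toQ U = aeval (toQ Y) p := by
  obtain ⟨T1, hT1, h1⟩ := ne_comm n hn
  obtain ⟨T2, hT2, h2⟩ := ne_irred n hn
  obtain ⟨T3, hT3, h3⟩ := ne_comb n (n ^ 4) hn
  refine ⟨max T1 (max T2 T3), hT1.trans (le_max_left _ _), ?_⟩
  intro T hT a b hb l hl S hS
  have hTT1 : T1 ≤ T := (le_max_left _ _).trans hT
  have hTT2 : T2 ≤ T := (le_max_left _ _).trans ((le_max_right _ _).trans hT)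
  have hTT3 : T3 ≤ T := (le_max_right _ _).trans ((le_max_right _ _).trans hT)
  have hT1' : (1 : ℝ) ≤ T := hT1.trans hTT1
  have key : ∀ k : ℕ, k ≤ n →
      (∃ Y : Matrix (Fin n) (Fin n) ℤ, NE T (a + n) (b - n) l Y ∧
        ∀ U ∈ S, ∃ p : ℚ[X], toQ U = aeval (toQ Y) p) ∨
      ∃ Y : Matrix (Fin n) (Fin n) ℤ, NE T (a + k) (b - k) l Y ∧
        k + 1 ≤ (minpoly ℚ (toQ Y)).natDegree := by
    intro k
    induction k with
    | zero =>
      intro _
      right
      refine ⟨1, ne_one hT1' _ _ l, ?_⟩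
      have h4 : IsIntegral ℚ (toQ (1 : Matrix (Fin n) (Fin n) ℤ)) := Matrix.isIntegral _
      have : Nonempty (Fin n) := ⟨⟨0, hn⟩⟩
      exact minpoly.natDegree_pos h4
    | succ k ih =>
      intro hk
      rcases ih (by omega) with h | ⟨Y, hY, hdeg⟩
      · exact Or.inl h
      · by_cases hall : ∀ U ∈ S, ∃ p : ℚ[X], toQ U = aeval (toQ Y) p
        · left
          exact ⟨Y, ne_mono hT1' (by omega) (by omega) hY, hall⟩
        · right
          push Not at hall
          obtain ⟨U, hU, hUY⟩ := hall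
          have hUk : NE T (a + k) (b - k) l U := ne_mono hT1' (by omega) (by omega) (hS U hU)
          have hnum : 100 * n ^ 2 * (a + k + 1) ≤ b - k := by
            have : 100 * n ^ 2 * (a + k + 1) ≤ 100 * n ^ 2 * (a + n + 2) :=
              Nat.mul_le_mul_left _ (by omega)
            omega
          have hnum2 : 100 * n ^ 2 * (a + k + 1 + 1) ≤ b - k - 1 := by
            have : 100 * n ^ 2 * (a + k + 1 + 1) ≤ 100 * n ^ 2 * (a + n + 2) :=
              Nat.mul_le_mul_left _ (by omega)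
            omega
          have hb1 : 1 ≤ b - k := by omega
          have hcomm := h1 T hTT1 (a + k) (b - k) hnum l hl Y U hY hUk
          have hcomb : ∀ m : ℕ, m ≤ n ^ 4 → NE T (a + k + 1) (b - k - 1) l (U + (m : ℤ) • Y) :=
            fun m hm => h3 T hTT3 (a + k) (b - k) hb1 l Y U hY hUk m hm
          obtain ⟨m, hm, p, hp⟩ := prim_step hn (Y := toQ Y) (U := toQ U)
            (by rw [← toQ_mul, ← toQ_mul, hcomm])
            (h2 T hTT2 (a + k) (b - k) hnum l hl Y hY)
            (fun m hm => by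
              rw [← toQ_add_smul]
              exact h2 T hTT2 (a + k + 1) (b - k - 1) hnum2 l hl _ (hcomb m hm))
          refine ⟨U + (m : ℤ) • Y, ?_, ?_⟩
          · have := hcomb m hm
            rw [show a + (k + 1) = a + k + 1 by omega, show b - (k + 1) = b - k - 1 by omega]
            exact this
          · have hlt := deg_lt hn (Y := toQ Y) (Y' := toQ (U + (m : ℤ) • Y)) (U := toQ U)
              (by rw [toQ_add_smul]; exact ⟨p, hp⟩)
              (by
                rw [toQ_add_smul]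
                refine ⟨X - C (m : ℚ) * p, ?_⟩
                rw [map_sub, aeval_X, map_mul, aeval_C, ← hp, Algebra.algebraMap_eq_smul_one,
                  smul_mul_assoc, one_mul]
                abel)
              (by push Not; exact hUY)
            omega
  rcases key n le_rfl with h | ⟨Y, hY, hdeg⟩
  · exact h
  · exfalso
    have hnum : 100 * n ^ 2 * (a + n + 1) ≤ b - n := by
      have : 100 * n ^ 2 * (a + n + 1) ≤ 100 * n ^ 2 * (a + n + 2) :=
        Nat.mul_le_mul_left _ (by omega)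
      omega
    have hirr := h2 T hTT2 (a + n) (b - n) hnum l hl Y hY
    have hd := (deg_dvd hn hirr).1
    have := Nat.le_of_dvd (by omega) hd
    omega

end Pool.Agent.Work.MP_77d073_nt.Gap
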