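import Mathlib
import Pool.Agent.Work.MP_77d073_nt.GapDefs
import Pool.Agent.Work.MP_77d073_nt.GapGL1
import Pool.Agent.Work.MP_77d073_nt.GapGD

set_option autoImplicit false

/-!
Two positions that see the same hyperplane up to a small error give a near-eigen matrix.
-/

namespace Pool.Agent.Work.MP_77d073_nt.Gap

open Pool.Agent.Work.MP_77d073_nt Polynomial

theorem BA.one_le {n : ℕ} {T : ℝ} {l : Fin n → ℝ} (h : BA T l) (j : Fin n) : 1 ≤ T * |l j| := by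
  have h1 := h.2 (Pi.single j 1) 1 (by
    intro h0
    have := congrFun h0 j
    simp at this) le_rfl (fun i => by
      by_cases hij : i = j
      · subst hij; simp
      · simp [Pi.single_eq_of_ne hij])
  have h2 : ∑ i, l i * ((Pi.single j 1 : Fin n → ℤ) i : ℝ) = l j := by
    rw [Finset.sum_eq_single j]
    · simp
    · intro i _ hij
      simp [Pi.single_eq_of_ne hij]
    · simp
  rw [h2] at h1
  simpa using h1

theorem mul_entries {n : ℕ} {A B : Matrix (Fin n) (Fin n) ℤ} {x y : ℝ} (hx : 0 ≤ x)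
    (hA : ∀ i j, |(A i j : ℝ)| ≤ x) (hB : ∀ i j, |(B i j : ℝ)| ≤ y) (i j : Fin n) :
    |((A * B) i j : ℝ)| ≤ n * (x * y) := by
  rw [Matrix.mul_apply]
  push_cast
  calc |∑ k, (A i k : ℝ) * (B k j : ℝ)| ≤ ∑ k, |(A i k : ℝ) * (B k j : ℝ)| :=
        Finset.abs_sum_le_sum_abs _ _
    _ ≤ ∑ _k : Fin n, x * y := by
        refine Finset.sum_le_sum fun k _ => ?_
        rw [abs_mul]
        exact mul_le_mul (hA i k) (hB k j) (abs_nonneg _) hx
    _ = n * (x * y) := by simp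

theorem near_trans {n : ℕ} {R S : ℝ} (hR : 0 ≤ R) (hS : 0 ≤ S) {s t u : Fin n → ℝ} (h : Near R s t) (h' : Near S t u) :
    Near (R * S) s u := by
  refine ⟨fun i => ?_, fun i => ?_⟩
  · calc s i ≤ R * t i := h.1 i
      _ ≤ R * (S * u i) := mul_le_mul_of_nonneg_left (h'.1 i) hR
      _ = R * S * u i := by ring
  · calc u i ≤ S * t i := h'.2 i
      _ ≤ S * (R * s i) := mul_le_mul_of_nonneg_left (h.2 i) hS
      _ = R * S * s i := by ring

theorem near_symm {n : ℕ} {R : ℝ} {s t : Fin n → ℝ} (h : Near R s t) : Near R t s := ⟨h.2, h.1⟩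

theorem ret_ne (n : ℕ) (hn : 1 ≤ n) {c D K : ℝ} (hc : 0 < c) (hD : 0 < D) (hK : 0 < K) :
    ∃ T0 : ℝ, 1 ≤ T0 ∧ ∀ T : ℝ, T0 ≤ T → ∀ L : Fin n → Fin n → ℝ, Sys c D L →
    ∀ m : ℕ, 10 * n + 10 ≤ m → ∀ (i₀ : Fin n) (t0 s t : Fin n → ℝ)
      (M0 Ms Mt : Matrix (Fin n) (Fin n) ℤ), Pos t0 → Pos s → Pos t →
    Red L K t0 M0 → Red L K s Ms → Red L K t Mt → Near (T ^ n) s t0 → Near (T ^ n) t t0 →
    ∀ (y : Fin n → ℝ) (θs θt : ℝ), (∀ k, |tr L Ms s i₀ k - θs * y k| * T ^ m ≤ 1) →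
      (∀ k, |tr L Mt t i₀ k - θt * y k| * T ^ m ≤ 1) →
      NE T (4 * n + 4) (m - (4 * n + 6)) (tr L M0 t0 i₀) (M0⁻¹ * Mt * Ms⁻¹ * M0) := by
  obtain ⟨T1, hT1, h1⟩ := red_ba n hn hc hD hK
  obtain ⟨T2, hT2, h2⟩ := trans_bound n hn hD hK
  obtain ⟨T3, hT3, h3⟩ := ne_transport n hn
  refine ⟨max (max T1 T2) (max T3 (max 4 (K + 1))),
    hT1.trans ((le_max_left _ _).trans (le_max_left _ _)), ?_⟩
  intro T hT L hL m hm i₀ t0 s t M0 Ms Mt ht0 hs ht hM0 hMs hMt hst0 htt0 y θs θt hys hyt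
  have hTT1 : T1 ≤ T := (le_max_left _ _).trans ((le_max_left _ _).trans hT)
  have hTT2 : T2 ≤ T := (le_max_right _ _).trans ((le_max_left _ _).trans hT)
  have hTT3 : T3 ≤ T := (le_max_left _ _).trans ((le_max_right _ _).trans hT)
  have hT4 : (4 : ℝ) ≤ T :=
    (le_max_left _ _).trans ((le_max_right _ _).trans ((le_max_right _ _).trans hT))
  have hTK : K + 1 ≤ T :=
    (le_max_right _ _).trans ((le_max_right _ _).trans ((le_max_right _ _).trans hT))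
  have hT1' : (1 : ℝ) ≤ T := hT1.trans hTT1
  have hT0 : (0 : ℝ) < T := by linarith
  have hBs := h1 T hTT1 L hL s Ms hs hMs i₀
  -- transition matrices
  have hnear : Near (T ^ (2 * n)) s t := by
    have := near_trans (by positivity) (by positivity) hst0 (near_symm htt0)
    rwa [← pow_add, ← two_mul] at this
  obtain ⟨hV1, hV2⟩ := h2 T hTT2 L hL.1 (2 * n) s t Ms Mt hs ht hMs hMt hnear.1
  obtain ⟨hW1, hW2⟩ := h2 T hTT2 L hL.1 n s t0 Ms M0 hs ht0 hMs hM0 hst0.1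
  obtain ⟨hW1', hW2'⟩ := h2 T hTT2 L hL.1 n t0 s M0 Ms ht0 hs hM0 hMs hst0.2
  -- the ratio
  set j0 : Fin n := ⟨0, hn⟩
  have hrs : 1 ≤ T * |tr L Ms s i₀ j0| := hBs.one_le j0
  have hTm : T ^ 10 ≤ T ^ m := pow_le_pow_right₀ hT1' (by omega)
  have hTm0 : 0 < T ^ m := by positivity
  have hsm : ∀ x : ℝ, |x| * T ^ m ≤ 1 → |x| * T ^ 10 ≤ 1 := fun x hx =>
    (mul_le_mul_of_nonneg_left hTm (abs_nonneg _)).trans hx
  have hy0 : 1 ≤ 2 * T * (|θs| * |y j0|) := by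
    have h4 := hsm _ (hys j0)
    have h5 : |tr L Ms s i₀ j0| ≤ |tr L Ms s i₀ j0 - θs * y j0| + |θs * y j0| := by
      have := abs_add_le (tr L Ms s i₀ j0 - θs * y j0) (θs * y j0)
      simpa using this
    have h6 : T * |tr L Ms s i₀ j0 - θs * y j0| ≤ 1 / 2 := by
      have h7 : 2 * T ≤ T ^ 10 := by
        calc 2 * T ≤ T * T := by nlinarith
          _ = T ^ 2 := by ring
          _ ≤ T ^ 10 := pow_le_pow_right₀ hT1' (by norm_num)
      have h8 : |tr L Ms s i₀ j0 - θs * y j0| * (2 * T) ≤ 1 :=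
        (mul_le_mul_of_nonneg_left h7 (abs_nonneg _)).trans h4
      linarith
    rw [← abs_mul]
    nlinarith [mul_le_mul_of_nonneg_left h5 hT0.le]
  have hθs : 0 < |θs| := by
    by_contra h
    have : |θs| = 0 := le_antisymm (not_lt.mp h) (abs_nonneg _)
    rw [this] at hy0
    norm_num at hy0
  have hyt0 : |θt| * |y j0| ≤ K + 1 := by
    have h4 := hsm _ (hyt j0)
    have h5 : |θt * y j0| ≤ |tr L Mt t i₀ j0 - θt * y j0| + |tr L Mt t i₀ j0| := by
      have := abs_sub (tr L Mt t i₀ j0) (tr L Mt t i₀ j0 - θt * y j0)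
      have h9 := abs_sub_abs_le_abs_sub (θt * y j0) (tr L Mt t i₀ j0)
      rw [abs_sub_comm] at h9
      linarith
    have h6 : |tr L Mt t i₀ j0 - θt * y j0| ≤ 1 := by
      have h7 : (1 : ℝ) ≤ T ^ 10 := one_le_pow₀ hT1'
      nlinarith [abs_nonneg (tr L Mt t i₀ j0 - θt * y j0)]
    have h7 := hMt.2 i₀ j0
    rw [← abs_mul]
    linarith
  have hratio : |θt / θs| ≤ 2 * T * (K + 1) := by
    rw [abs_div, div_le_iff₀ hθs]
    have hyj : 0 < |y j0| := by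
      by_contra h
      have : |y j0| = 0 := le_antisymm (not_lt.mp h) (abs_nonneg _)
      rw [this] at hy0
      norm_num at hy0
    have h8 : |θt| * |y j0| ≤ 2 * T * (K + 1) * |θs| * |y j0| := by
      calc |θt| * |y j0| ≤ K + 1 := hyt0
        _ ≤ (K + 1) * (2 * T * (|θs| * |y j0|)) := by nlinarith
        _ = 2 * T * (K + 1) * |θs| * |y j0| := by ring
    exact le_of_mul_le_mul_right h8 hyj
  -- near-eigen at `s`
  have hts : 0 < t i₀ := ht.1 i₀
  have hss : 0 < s i₀ := hs.1 i₀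
  have hNEs : NE T (2 * n + 1) (m - (2 * n + 3)) (tr L Ms s i₀) (Ms⁻¹ * Mt) := by
    refine ⟨hV1, s i₀ / t i₀ * (θt / θs), fun j => ?_⟩
    have h4 : rowMul (tr L Ms s i₀) (Ms⁻¹ * Mt) j = s i₀ / t i₀ * tr L Mt t i₀ j := by
      rw [hV2 i₀ j]
      field_simp
    rw [h4]
    have h5 : s i₀ / t i₀ * tr L Mt t i₀ j - s i₀ / t i₀ * (θt / θs) * tr L Ms s i₀ j =
        s i₀ / t i₀ * ((tr L Mt t i₀ j - θt * y j) -
          (θt / θs) * (tr L Ms s i₀ j - θs * y j)) := by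
      have : θs ≠ 0 := abs_pos.mp hθs
      field_simp
      ring
    rw [h5, abs_mul]
    have h6 : |s i₀ / t i₀| ≤ T ^ (2 * n) := by
      rw [abs_of_pos (by positivity), div_le_iff₀ hts]
      exact hnear.1 i₀
    have h7 : |(tr L Mt t i₀ j - θt * y j) - (θt / θs) * (tr L Ms s i₀ j - θs * y j)| * T ^ m ≤
        1 + 2 * T * (K + 1) := by
      calc |(tr L Mt t i₀ j - θt * y j) - (θt / θs) * (tr L Ms s i₀ j - θs * y j)| * T ^ m
          ≤ (|tr L Mt t i₀ j - θt * y j| + |θt / θs| * |tr L Ms s i₀ j - θs * y j|) * T ^ m := by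
            gcongr
            rw [← abs_mul]
            exact abs_sub _ _
        _ = |tr L Mt t i₀ j - θt * y j| * T ^ m +
            |θt / θs| * (|tr L Ms s i₀ j - θs * y j| * T ^ m) := by ring
        _ ≤ 1 + |θt / θs| * 1 := by
            gcongr
            · exact hyt j
            · exact hys j
        _ ≤ 1 + 2 * T * (K + 1) := by linarith
    have h8 : 1 + 2 * T * (K + 1) ≤ T ^ 3 := by
      have h9 : 1 + 2 * T * (K + 1) ≤ 1 + 2 * T * T := by nlinarith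
      nlinarith [sq_nonneg T]
    have h10 : T ^ (2 * n) * (T ^ 3 * T ^ (m - (2 * n + 3))) = T ^ m := by
      rw [← pow_add, ← pow_add]
      congr 1
      omega
    have hTm' : 0 < T ^ (m - (2 * n + 3)) := by positivity
    have h11 : |(tr L Mt t i₀ j - θt * y j) - (θt / θs) * (tr L Ms s i₀ j - θs * y j)| *
        T ^ m ≤ T ^ 3 := h7.trans h8
    set E := |(tr L Mt t i₀ j - θt * y j) - (θt / θs) * (tr L Ms s i₀ j - θs * y j)|
    have hE : 0 ≤ E := abs_nonneg _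
    have h12 : T ^ 3 * (E * (T ^ (2 * n) * T ^ (m - (2 * n + 3)))) ≤ T ^ 3 * 1 := by
      calc T ^ 3 * (E * (T ^ (2 * n) * T ^ (m - (2 * n + 3)))) = E * T ^ m := by
            rw [← h10]; ring
        _ ≤ T ^ 3 * 1 := by rw [mul_one]; exact h11
    have h13 := le_of_mul_le_mul_left h12 (by positivity)
    calc |s i₀ / t i₀| * E * T ^ (m - (2 * n + 3)) ≤ T ^ (2 * n) * E * T ^ (m - (2 * n + 3)) := by
          gcongr
      _ = E * (T ^ (2 * n) * T ^ (m - (2 * n + 3))) := by ring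
      _ ≤ 1 := h13
  -- transport to `t0`
  have hMsu := hMs.1
  have hM0u := hM0.1
  have hVV : (Ms⁻¹ * M0) * (M0⁻¹ * Ms) = 1 := by
    rw [Matrix.mul_assoc, ← Matrix.mul_assoc M0, Matrix.mul_nonsing_inv _ hM0u, Matrix.one_mul,
      Matrix.nonsing_inv_mul _ hMsu]
  have hθ : |t0 i₀ / s i₀| ≤ T ^ (n + 1) := by
    rw [abs_of_pos (div_pos (ht0.1 i₀) hss), div_le_iff₀ hss]
    calc t0 i₀ ≤ T ^ n * s i₀ := hst0.2 i₀
      _ ≤ T ^ (n + 1) * s i₀ := by
          have := pow_le_pow_right₀ hT1' (Nat.le_succ n)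
          gcongr
  have h14 := h3 T hTT3 (2 * n + 1) (m - (2 * n + 3)) (n + 1) (by omega) (tr L Ms s i₀)
    (tr L M0 t0 i₀) (t0 i₀ / s i₀) (Ms⁻¹ * M0) (M0⁻¹ * Ms) hθ hW1 hW1' hVV
    (fun j => hW2 i₀ j) (Ms⁻¹ * Mt) hNEs
  have h15 : M0⁻¹ * Ms * (Ms⁻¹ * Mt) * (Ms⁻¹ * M0) = M0⁻¹ * Mt * Ms⁻¹ * M0 := by
    have : M0⁻¹ * Ms * (Ms⁻¹ * Mt) = M0⁻¹ * Mt := by
      rw [Matrix.mul_assoc, ← Matrix.mul_assoc Ms, Matrix.mul_nonsing_inv _ hMsu, Matrix.one_mul]
    rw [this, ← Matrix.mul_assoc]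
  rw [h15] at h14
  exact ne_mono hT1' (by omega) (by omega) h14

end Pool.Agent.Work.MP_77d073_nt.Gap
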