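import Mathlib
import Pool.Agent.Work.MP_77d073_nt.GapDefs
import Pool.Agent.Work.MP_77d073_nt.Reduce

set_option autoImplicit false

namespace Pool.Agent.Work.MP_77d073_nt.Gap

open Pool.Agent.Work.MP_77d073_nt Polynomial

/-- Integer polynomials of degree at most `n` with coefficients bounded by `B`. -/
noncomputable def guPolys (n B : ℕ) : Finset ℤ[X] :=
  (Fintype.piFinset (fun _ : Fin (n+1) => Finset.Icc (-(B:ℤ)) B)).image
    (fun f => ∑ i : Fin (n+1), Polynomial.C (f i) * X ^ (i : ℕ))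

theorem gu_card (n B : ℕ) : (guPolys n B).card ≤ (2*B+1)^(n+1) := by
  refine Finset.card_image_le.trans ?_
  rw [Fintype.card_piFinset]
  simp only [Int.card_Icc, Finset.prod_const, Finset.card_univ, Fintype.card_fin]
  refine Nat.pow_le_pow_left ?_ _
  omega

theorem gu_mem (n B : ℕ) (p : ℤ[X]) (hd : p.natDegree ≤ n) (hc : ∀ i, |p.coeff i| ≤ (B : ℤ)) :
    p ∈ guPolys n B := by
  unfold guPolys
  rw [Finset.mem_image]
  refine ⟨fun i => p.coeff i, ?_, ?_⟩
  · rw [Fintype.mem_piFinset]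
    intro i
    rw [Finset.mem_Icc]
    exact abs_le.mp (hc i)
  · rw [Fin.sum_univ_eq_sum_range (fun i => Polynomial.C (p.coeff i) * X ^ i) (n+1)]
    exact (p.as_sum_range_C_mul_X_pow' (by omega)).symm

theorem gu_bounded (n : ℕ) (M : ℝ) : ∃ C : ℕ, ∀ (F : Type) [Field F] [NumberField F],
    Module.finrank ℚ F ≤ n → ∀ S : Finset F,
    (∀ w ∈ S, IsIntegral ℤ w ∧ ∀ σ : F →+* ℂ, ‖σ w‖ ≤ M) → S.card ≤ C := by
  set B : ℕ := Nat.ceil ((max M 1) ^ n * (2:ℝ)^n) with hB
  refine ⟨(2*B+1)^(n+1) * n, ?_⟩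
  intro F _ _ hn S hS
  classical
  have hsub : S ⊆ (guPolys n B).biUnion
      (fun p => if p.natDegree ≤ n then (p.map (algebraMap ℤ F)).roots.toFinset else ∅) := by
    intro w hw
    obtain ⟨h1, h2⟩ := hS w hw
    have hQ := minpoly.isIntegrallyClosed_eq_field_fractions' ℚ h1
    have hdeg : (minpoly ℤ w).natDegree ≤ n := by
      rw [← (minpoly.monic h1).natDegree_map (algebraMap ℤ ℚ), ← hQ]
      exact (minpoly.natDegree_le w).trans hn
    rw [Finset.mem_biUnion]
    refine ⟨minpoly ℤ w, gu_mem n B _ hdeg ?_, ?_⟩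
    · intro i
      rw [← @Int.cast_le ℝ]
      have h3 := NumberField.Embeddings.coeff_bdd_of_norm_le h2 i
      have h4 : ((|(minpoly ℤ w).coeff i| : ℤ) : ℝ) = ‖(minpoly ℚ w).coeff i‖ := by
        rw [hQ, coeff_map, eq_intCast, Int.norm_cast_rat, Int.norm_eq_abs, Int.cast_abs]
      rw [h4]
      refine h3.trans ?_
      have h5 : (max M 1) ^ Module.finrank ℚ F * ((Module.finrank ℚ F).choose (Module.finrank ℚ F / 2) : ℝ)
          ≤ (max M 1) ^ n * (2:ℝ)^n := by
        apply mul_le_mul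
        · exact pow_le_pow_right₀ (le_max_right _ _) hn
        · have h6 := Nat.choose_le_two_pow (Module.finrank ℚ F) (Module.finrank ℚ F / 2)
          have h7 : (((Module.finrank ℚ F).choose (Module.finrank ℚ F / 2) : ℕ) : ℝ)
              ≤ (2:ℝ) ^ (Module.finrank ℚ F) := by exact_mod_cast h6
          exact h7.trans (pow_le_pow_right₀ (by norm_num) hn)
        · positivity
        · positivity
      refine h5.trans ?_
      have h8 := Nat.le_ceil ((max M 1) ^ n * (2:ℝ)^n)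
      rw [← hB] at h8
      exact_mod_cast h8
    · rw [if_pos hdeg, Multiset.mem_toFinset, mem_roots']
      have h9 : (minpoly ℤ w).Monic := minpoly.monic h1
      refine ⟨(h9.map _).ne_zero, ?_⟩
      rw [IsRoot.def, eval_map_algebraMap]
      exact minpoly.aeval ℤ w
  refine (Finset.card_le_card hsub).trans ?_
  refine Finset.card_biUnion_le.trans ?_
  calc ∑ p ∈ guPolys n B, (if p.natDegree ≤ n then (p.map (algebraMap ℤ F)).roots.toFinset else ∅).card
      ≤ ∑ _p ∈ guPolys n B, n := by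
        apply Finset.sum_le_sum
        intro p _
        split_ifs with h
        · refine (Multiset.toFinset_card_le _).trans ?_
          exact (card_roots' _).trans ((natDegree_map_le).trans h)
        · simp
    _ = (guPolys n B).card * n := by rw [Finset.sum_const, smul_eq_mul]
    _ ≤ _ := Nat.mul_le_mul_right _ (gu_card n B)

theorem gu_norm (F : Type) [Field F] [NumberField F] (w : F) (hw : w ≠ 0) (h1 : IsIntegral ℤ w)
    (h2 : IsIntegral ℤ w⁻¹) : ∏ σ : F →+* ℂ, ‖σ w‖ = 1 := by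
  classical
  have hN : algebraMap ℚ ℂ (Algebra.norm ℚ w) = ∏ σ : F →ₐ[ℚ] ℂ, σ w :=
    Algebra.norm_eq_prod_embeddings ℚ ℂ w
  have hi1 : IsIntegral ℤ (Algebra.norm ℚ w) := Algebra.isIntegral_norm ℚ h1
  have hi2 : IsIntegral ℤ (Algebra.norm ℚ w⁻¹) := Algebra.isIntegral_norm ℚ h2
  obtain ⟨a, ha⟩ := IsIntegrallyClosed.isIntegral_iff.mp hi1
  obtain ⟨b, hb⟩ := IsIntegrallyClosed.isIntegral_iff.mp hi2
  have hab : (algebraMap ℤ ℚ a) * (algebraMap ℤ ℚ b) = 1 := by
    rw [ha, hb, ← map_mul, mul_inv_cancel₀ hw, map_one]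
  have hab' : a * b = 1 := by
    have : ((a * b : ℤ) : ℚ) = ((1:ℤ) : ℚ) := by
      push_cast
      simpa using hab
    exact_mod_cast this
  have ha1 : |a| = 1 := by
    rcases Int.isUnit_iff.mp (IsUnit.of_mul_eq_one b hab') with h | h <;> simp [h]
  have e1 : ∏ σ : F →+* ℂ, ‖σ w‖ = ∏ σ : F →ₐ[ℚ] ℂ, ‖σ w‖ := by
    refine Fintype.prod_equiv (RingHom.equivRatAlgHom F ℂ) _ _ ?_
    intro σ
    rfl
  rw [e1, ← norm_prod, ← hN, ← ha]
  simp
  exact_mod_cast ha1

theorem unit_count (n : ℕ) : ∃ C : ℝ, 0 < C ∧ ∀ (F : Type) [Field F] [NumberField F],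
    Module.finrank ℚ F ≤ n → ∀ A : ℝ, 1 ≤ A → ∀ S : Finset F,
    (∀ u ∈ S, u ≠ 0 ∧ IsIntegral ℤ u ∧ IsIntegral ℤ u⁻¹ ∧
      ∀ σ : F →+* ℂ, ‖σ u‖ ≤ Real.exp A ∧ ‖σ u⁻¹‖ ≤ Real.exp A) →
    (S.card : ℝ) ≤ C * A ^ (Module.finrank ℚ F - 1) := by
  obtain ⟨C0, hC0⟩ := gu_bounded n (Real.exp n)
  refine ⟨((C0 : ℝ) + 1) * 5 ^ n, by positivity, ?_⟩
  intro F _ _ hn A hA S hS
  classical
  have hcardE : Fintype.card (F →+* ℂ) = Module.finrank ℚ F := NumberField.Embeddings.card F ℂ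
  have hpos : 0 < Module.finrank ℚ F := Module.finrank_pos
  have hne : Nonempty (F →+* ℂ) := by
    rw [← Fintype.card_pos_iff, hcardE]; exact hpos
  obtain ⟨σ0⟩ := hne
  set Φ : F → ({σ : F →+* ℂ // σ ≠ σ0} → ℤ) := fun u σ => ⌊Real.log ‖σ.1 u‖⌋ with hΦ
  set N : ℕ := ⌈A⌉₊ with hN
  set T : Finset ({σ : F →+* ℂ // σ ≠ σ0} → ℤ) :=
    Fintype.piFinset (fun _ => Finset.Icc (-(N:ℤ)) N) with hT
  have hNA : A ≤ N := Nat.le_ceil A
  have hNA' : (N:ℝ) < A + 1 := Nat.ceil_lt_add_one (by linarith)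
  have hlog : ∀ u ∈ S, ∀ σ : F →+* ℂ, -A ≤ Real.log ‖σ u‖ ∧ Real.log ‖σ u‖ ≤ A := by
    intro u hu σ
    obtain ⟨h0, _, _, h3⟩ := hS u hu
    obtain ⟨h4, h5⟩ := h3 σ
    have hσ : 0 < ‖σ u‖ := by
      rw [norm_pos_iff]; exact (map_ne_zero σ).mpr h0
    constructor
    · rw [map_inv₀, norm_inv] at h5
      have h6 : Real.log (‖σ u‖⁻¹) ≤ A := by
        rw [← Real.log_exp A]
        exact Real.log_le_log (by positivity) h5
      rw [Real.log_inv] at h6
      linarith
    · rw [← Real.log_exp A]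
      exact Real.log_le_log hσ h4
  have hmaps : ∀ u ∈ S, Φ u ∈ T := by
    intro u hu
    rw [hT, Fintype.mem_piFinset]
    intro σ
    rw [Finset.mem_Icc]
    obtain ⟨h1, h2⟩ := hlog u hu σ.1
    constructor
    · simp only [hΦ]
      rw [Int.le_floor]
      push_cast
      linarith
    · simp only [hΦ]
      have h3 : ((⌊Real.log ‖σ.1 u‖⌋ : ℤ) : ℝ) ≤ ((N : ℤ) : ℝ) := by
        refine (Int.floor_le _).trans ?_
        push_cast
        linarith
      exact_mod_cast h3
  have hfib : ∀ y ∈ T, (S.filter (fun u => Φ u = y)).card ≤ C0 := by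
    intro y _
    rcases (S.filter (fun u => Φ u = y)).eq_empty_or_nonempty with he | ⟨v, hv⟩
    · rw [he]; simp
    · rw [Finset.mem_filter] at hv
      obtain ⟨hvS, hvy⟩ := hv
      obtain ⟨hv0, hv1, hv2, _⟩ := hS v hvS
      have hinj : Function.Injective (fun u : F => u * v⁻¹) := by
        intro a b hab
        exact mul_right_cancel₀ (inv_ne_zero hv0) hab
      rw [← Finset.card_image_of_injective _ hinj]
      apply hC0 F hn
      intro w hw
      rw [Finset.mem_image] at hw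
      obtain ⟨u, hu, rfl⟩ := hw
      rw [Finset.mem_filter] at hu
      obtain ⟨huS, huy⟩ := hu
      obtain ⟨hu0, hu1, hu2, _⟩ := hS u huS
      have hw0 : u * v⁻¹ ≠ 0 := mul_ne_zero hu0 (inv_ne_zero hv0)
      have hw1 : IsIntegral ℤ (u * v⁻¹) := hu1.mul hv2
      have hw2 : IsIntegral ℤ (u * v⁻¹)⁻¹ := by
        rw [mul_inv, inv_inv]
        exact hu2.mul hv1
      refine ⟨hw1, ?_⟩
      have hnorm := gu_norm F (u * v⁻¹) hw0 hw1 hw2
      have hlogw : ∀ σ : F →+* ℂ, Real.log ‖σ (u * v⁻¹)‖ = Real.log ‖σ u‖ - Real.log ‖σ v‖ := by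
        intro σ
        have h1 : ‖σ u‖ ≠ 0 := by
          rw [norm_ne_zero_iff]; exact (map_ne_zero σ).mpr hu0
        have h2 : ‖σ v‖ ≠ 0 := by
          rw [norm_ne_zero_iff]; exact (map_ne_zero σ).mpr hv0
        rw [map_mul, map_inv₀, norm_mul, norm_inv, Real.log_mul h1 (inv_ne_zero h2), Real.log_inv]
        ring
      have hclose : ∀ σ : F →+* ℂ, σ ≠ σ0 → |Real.log ‖σ (u * v⁻¹)‖| ≤ 1 := by
        intro σ hσ
        have h1 : ⌊Real.log ‖σ u‖⌋ = ⌊Real.log ‖σ v‖⌋ := by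
          have := congrFun (huy.trans hvy.symm) ⟨σ, hσ⟩
          simpa [hΦ] using this
        rw [hlogw]
        exact (Int.abs_sub_lt_one_of_floor_eq_floor h1).le
      have hsum : ∑ σ : F →+* ℂ, Real.log ‖σ (u * v⁻¹)‖ = 0 := by
        rw [← Real.log_prod, hnorm, Real.log_one]
        intro σ _
        rw [norm_ne_zero_iff]
        exact (map_ne_zero σ).mpr hw0
      have hσ0 : Real.log ‖σ0 (u * v⁻¹)‖ ≤ n := by
        rw [← Finset.add_sum_erase _ _ (Finset.mem_univ σ0)] at hsum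
        have h1 : |∑ σ ∈ Finset.univ.erase σ0, Real.log ‖σ (u * v⁻¹)‖| ≤ (n:ℝ) := by
          refine (Finset.abs_sum_le_sum_abs _ _).trans ?_
          refine (Finset.sum_le_card_nsmul _ _ 1 ?_).trans ?_
          · intro σ hσ
            exact hclose σ (Finset.ne_of_mem_erase hσ)
          · rw [Finset.card_erase_of_mem (Finset.mem_univ _), Finset.card_univ, hcardE]
            simp only [nsmul_eq_mul, mul_one]
            have : Module.finrank ℚ F - 1 ≤ n := by omega
            exact_mod_cast this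
        have h2 := abs_le.mp h1
        linarith [h2.1]
      intro σ
      have hσpos : 0 < ‖σ (u * v⁻¹)‖ := by
        rw [norm_pos_iff]; exact (map_ne_zero σ).mpr hw0
      rw [← Real.log_le_iff_le_exp hσpos]
      by_cases hσ : σ = σ0
      · rw [hσ]; exact hσ0
      · refine (le_abs_self _).trans ((hclose σ hσ).trans ?_)
        have : 1 ≤ n := by omega
        exact_mod_cast this
  have hcard : S.card ≤ T.card * C0 := by
    have := Finset.card_le_mul_card_image_of_maps_to hmaps C0 hfib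
    rw [mul_comm]; exact this
  have hTcard : (T.card : ℝ) ≤ 5 ^ n * A ^ (Module.finrank ℚ F - 1) := by
    rw [hT, Fintype.card_piFinset]
    simp only [Int.card_Icc, Finset.prod_const, Finset.card_univ]
    have h1 : Fintype.card {σ : F →+* ℂ // σ ≠ σ0} = Module.finrank ℚ F - 1 := by
      rw [← hcardE]
      simp
    rw [h1]
    have h2 : (((N:ℤ) + 1 - (-(N:ℤ))).toNat : ℝ) = 2 * N + 1 := by
      have : ((N:ℤ) + 1 - (-(N:ℤ))).toNat = 2 * N + 1 := by omega
      rw [this]; push_cast; ring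
    push_cast
    rw [h2]
    have h3 : (2 * (N:ℝ) + 1) ≤ 5 * A := by linarith
    calc (2 * (N:ℝ) + 1) ^ (Module.finrank ℚ F - 1) ≤ (5 * A) ^ (Module.finrank ℚ F - 1) :=
          pow_le_pow_left₀ (by positivity) h3 _
      _ = 5 ^ (Module.finrank ℚ F - 1) * A ^ (Module.finrank ℚ F - 1) := by rw [mul_pow]
      _ ≤ 5 ^ n * A ^ (Module.finrank ℚ F - 1) := by
          apply mul_le_mul_of_nonneg_right _ (by positivity)
          exact pow_le_pow_right₀ (by norm_num) (by omega)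
  have hA0 : 0 ≤ A ^ (Module.finrank ℚ F - 1) := by positivity
  calc (S.card : ℝ) ≤ (T.card : ℝ) * C0 := by exact_mod_cast hcard
    _ ≤ (5 ^ n * A ^ (Module.finrank ℚ F - 1)) * C0 := by
        apply mul_le_mul_of_nonneg_right hTcard (by positivity)
    _ ≤ ((C0 : ℝ) + 1) * 5 ^ n * A ^ (Module.finrank ℚ F - 1) := by
        have : 0 ≤ (5:ℝ)^n * A ^ (Module.finrank ℚ F - 1) := by positivity
        nlinarith

end Pool.Agent.Work.MP_77d073_nt.Gap
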