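import Mathlib
import Pool.Agent.Work.MP_77d073_nt.GapDefs
import Pool.Agent.Work.MP_77d073_nt.Reduce
import Pool.Agent.Work.MP_77d073_nt.GapGU

set_option autoImplicit false

namespace Pool.Agent.Work.MP_77d073_nt.Gap

open Pool.Agent.Work.MP_77d073_nt Polynomial

private theorem gm_aeval_mk (μ p q : ℚ[X]) :
    aeval (AdjoinRoot.mk μ p) q = AdjoinRoot.mk μ (q.comp p) := by
  rw [← AdjoinRoot.aeval_eq, ← AdjoinRoot.aeval_eq, aeval_comp]

private theorem gm_root {n : ℕ} {Y : Matrix (Fin n) (Fin n) ℚ} {U : Matrix (Fin n) (Fin n) ℤ}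
    {p : ℚ[X]} (hU : toQ U = aeval Y p) :
    aeval (AdjoinRoot.mk (minpoly ℚ Y) p) (U.charpoly.map (Int.castRingHom ℚ)) = 0 := by
  rw [gm_aeval_mk, AdjoinRoot.mk_eq_zero]
  apply minpoly.dvd
  rw [aeval_comp, ← hU]
  have h1 : (toQ U).charpoly = U.charpoly.map (Int.castRingHom ℚ) := by
    have := Matrix.charpoly_map U (Int.castRingHom ℚ)
    exact this
  rw [← h1]
  exact Matrix.aeval_self_charpoly _

private theorem gm_norm {n : ℕ} {U : Matrix (Fin n) (Fin n) ℤ} {H : ℝ}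
    (hU : ∀ i j, |(U i j : ℝ)| ≤ H) {z : ℂ}
    (hz : (U.charpoly.map (Int.castRingHom ℂ)).IsRoot z) : ‖z‖ ≤ n * H := by
  set A : Matrix (Fin n) (Fin n) ℂ := U.map (Int.castRingHom ℂ) with hA
  have h1 : A.charpoly.IsRoot z := by
    rw [hA, Matrix.charpoly_map]
    exact hz
  have h2 : Module.End.HasEigenvalue (Matrix.toLin' A) z := by
    rw [Module.End.hasEigenvalue_iff_isRoot_charpoly, Matrix.charpoly_toLin']
    exact h1
  obtain ⟨k, hk⟩ := eigenvalue_mem_ball h2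
  rw [Metric.mem_closedBall, dist_eq_norm] at hk
  have h3 : ∀ j, ‖A k j‖ ≤ H := by
    intro j
    have h4 : ‖A k j‖ = |(U k j : ℝ)| := by
      rw [hA]
      simp [Matrix.map_apply]
    rw [h4]
    exact hU k j
  calc ‖z‖ = ‖(z - A k k) + A k k‖ := by rw [sub_add_cancel]
    _ ≤ ‖z - A k k‖ + ‖A k k‖ := norm_add_le _ _
    _ ≤ ∑ j ∈ Finset.univ.erase k, ‖A k j‖ + ‖A k k‖ := by linarith
    _ = ∑ j, ‖A k j‖ := Finset.sum_erase_add _ _ (Finset.mem_univ k)
    _ ≤ ∑ _j : Fin n, H := Finset.sum_le_sum fun j _ => h3 j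
    _ = n * H := by simp

private theorem gm_field {n : ℕ} {Y : Matrix (Fin n) (Fin n) ℚ} [Fact (Irreducible (minpoly ℚ Y))]
    {U : Matrix (Fin n) (Fin n) ℤ} {p : ℚ[X]} (hU : toQ U = aeval Y p) {H : ℝ}
    (hH : ∀ i j, |(U i j : ℝ)| ≤ H) :
    IsIntegral ℤ (AdjoinRoot.mk (minpoly ℚ Y) p) ∧
      ∀ σ : AdjoinRoot (minpoly ℚ Y) →+* ℂ, ‖σ (AdjoinRoot.mk (minpoly ℚ Y) p)‖ ≤ n * H := by
  have h1 := gm_root hU
  rw [aeval_def, eval₂_map] at h1
  refine ⟨⟨U.charpoly, Matrix.charpoly_monic U, ?_⟩, ?_⟩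
  · rw [← h1]
    congr 1
  · intro σ
    apply gm_norm hH
    rw [IsRoot.def, eval_map]
    have h2 := congrArg σ h1
    rw [hom_eval₂, map_zero] at h2
    rw [← h2]
    congr 1
    exact RingHom.ext_int _ _

theorem mat_unit_count (n : ℕ) (hn : 1 ≤ n) : ∃ C : ℝ, 0 < C ∧ ∃ H0 : ℝ, 1 ≤ H0 ∧
    ∀ Y : Matrix (Fin n) (Fin n) ℚ, Irreducible (minpoly ℚ Y) → ∀ H : ℝ, H0 ≤ H →
    ∀ S : Finset (Matrix (Fin n) (Fin n) ℤ),
    (∀ U ∈ S, (∃ p : ℚ[X], toQ U = aeval Y p) ∧ (∀ i j, |(U i j : ℝ)| ≤ H) ∧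
      ∃ U' : Matrix (Fin n) (Fin n) ℤ, U * U' = 1 ∧ ∀ i j, |(U' i j : ℝ)| ≤ H) →
    (S.card : ℝ) ≤ C * (Real.log H) ^ ((minpoly ℚ Y).natDegree - 1) := by
  classical
  obtain ⟨C, hC, hcount⟩ := unit_count n
  refine ⟨C * 2 ^ n, by positivity, max 3 n, le_max_of_le_left (by norm_num), ?_⟩
  intro Y hY H hH S hS
  have hH3 : 3 ≤ H := (le_max_left _ _).trans hH
  have hHn : (n : ℝ) ≤ H := (le_max_right _ _).trans hH
  have hnR : (1 : ℝ) ≤ n := by exact_mod_cast hn
  have hnH : 3 ≤ n * H := by nlinarith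
  haveI : Fact (Irreducible (minpoly ℚ Y)) := ⟨hY⟩
  haveI : Nonempty (Fin n) := ⟨⟨0, hn⟩⟩
  have hne : minpoly ℚ Y ≠ 0 := hY.ne_zero
  haveI : FiniteDimensional ℚ (AdjoinRoot (minpoly ℚ Y)) :=
    (AdjoinRoot.powerBasis hne).finite
  haveI : NumberField (AdjoinRoot (minpoly ℚ Y)) :=
    { to_charZero := algebraRat.charZero _
      to_finiteDimensional := inferInstance }
  have hfr : Module.finrank ℚ (AdjoinRoot (minpoly ℚ Y)) = (minpoly ℚ Y).natDegree := by
    rw [(AdjoinRoot.powerBasis hne).finrank, AdjoinRoot.powerBasis_dim]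
  have hdeg : (minpoly ℚ Y).natDegree ≤ n := by
    have h1 := natDegree_le_of_dvd (Matrix.minpoly_dvd_charpoly Y) (Matrix.charpoly_monic Y).ne_zero
    rwa [Matrix.charpoly_natDegree_eq_dim, Fintype.card_fin] at h1
  choose! P hP using fun U (hU : U ∈ S) => (hS U hU).1
  set f : Matrix (Fin n) (Fin n) ℤ → AdjoinRoot (minpoly ℚ Y) :=
    fun U => AdjoinRoot.mk (minpoly ℚ Y) (P U) with hf
  have htoQ : Function.Injective (toQ (n := n)) := by
    intro A B h
    ext i j
    have := congrFun (congrFun h i) j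
    simpa [toQ] using this
  have htoQmul : ∀ A B : Matrix (Fin n) (Fin n) ℤ, toQ (A * B) = toQ A * toQ B := by
    intro A B
    exact Matrix.map_mul (f := Int.castRingHom ℚ)
  have htoQone : toQ (1 : Matrix (Fin n) (Fin n) ℤ) = 1 := by
    exact Matrix.map_one _ (by simp) (by simp)
  have hinj : Set.InjOn f S := by
    intro U hU V hV h
    apply htoQ
    rw [hP U hU, hP V hV]
    have h1 : minpoly ℚ Y ∣ P U - P V := by
      rw [← AdjoinRoot.mk_eq_zero, map_sub, sub_eq_zero]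
      exact h
    obtain ⟨r, hr⟩ := h1
    have h2 : aeval Y (P U - P V) = 0 := by
      rw [hr, map_mul, minpoly.aeval, zero_mul]
    rw [map_sub, sub_eq_zero] at h2
    exact h2
  have hcard : (S.image f).card = S.card := Finset.card_image_of_injOn hinj
  have hA : Real.exp (Real.log (n * H)) = n * H := Real.exp_log (by linarith)
  have hlog1 : 1 ≤ Real.log (n * H) := by
    rw [Real.le_log_iff_exp_le (by linarith)]
    have := Real.exp_one_lt_d9
    linarith
  have hlog2 : Real.log (n * H) ≤ 2 * Real.log H := by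
    rw [Real.log_mul (by linarith) (by linarith)]
    have := Real.log_le_log (by linarith) hHn
    linarith
  have hlogH : 0 ≤ Real.log H := Real.log_nonneg (by linarith)
  have h := hcount (AdjoinRoot (minpoly ℚ Y)) (by rw [hfr]; exact hdeg) (Real.log (n * H)) hlog1
    (S.image f) (by
      intro u hu
      obtain ⟨U, hU, rfl⟩ := Finset.mem_image.1 hu
      obtain ⟨-, hUH, U', hUU', hU'H⟩ := hS U hU
      have hPU := hP U hU
      have h0 : f U ≠ 0 := by
        intro h0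
        have h1 : minpoly ℚ Y ∣ P U := by
          rw [← AdjoinRoot.mk_eq_zero]; exact h0
        obtain ⟨r, hr⟩ := h1
        have h2 : toQ U = 0 := by
          rw [hPU, hr, map_mul, minpoly.aeval, zero_mul]
        have h3 : toQ (U * U') = 1 := by rw [hUU', htoQone]
        rw [htoQmul, h2, zero_mul] at h3
        exact zero_ne_one h3
      obtain ⟨p', hp'⟩ := AdjoinRoot.mk_surjective (g := minpoly ℚ Y) (f U)⁻¹
      have hpp : AdjoinRoot.mk (minpoly ℚ Y) (P U * p') = 1 := by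
        rw [map_mul, hp']
        exact mul_inv_cancel₀ h0
      have hUp' : toQ U * aeval Y p' = 1 := by
        have h1 : minpoly ℚ Y ∣ P U * p' - 1 := by
          rw [← AdjoinRoot.mk_eq_zero, map_sub, hpp, map_one, sub_self]
        obtain ⟨r, hr⟩ := h1
        have h2 : aeval Y (P U * p' - 1) = 0 := by
          rw [hr, map_mul, minpoly.aeval, zero_mul]
        rw [map_sub, map_mul, map_one, sub_eq_zero, ← hPU] at h2
        exact h2
      have hUU'Q : toQ U * toQ U' = 1 := by rw [← htoQmul, hUU', htoQone]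
      have hU'U : toQ U' * toQ U = 1 := mul_eq_one_comm.1 hUU'Q
      have hU'p : toQ U' = aeval Y p' := by
        calc toQ U' = toQ U' * (toQ U * aeval Y p') := by rw [hUp', mul_one]
          _ = (toQ U' * toQ U) * aeval Y p' := by rw [mul_assoc]
          _ = aeval Y p' := by rw [hU'U, one_mul]
      have hu1 := gm_field hPU hUH
      have hu2 := gm_field hU'p hU'H
      rw [hp'] at hu2
      refine ⟨h0, hu1.1, hu2.1, fun σ => ⟨?_, ?_⟩⟩
      · rw [hA]; exact hu1.2 σ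
      · rw [hA]; exact hu2.2 σ)
  rw [hcard, hfr] at h
  refine h.trans ?_
  set d := (minpoly ℚ Y).natDegree
  calc C * Real.log (n * H) ^ (d - 1) ≤ C * (2 * Real.log H) ^ (d - 1) := by
        gcongr
    _ = C * (2 ^ (d - 1) * Real.log H ^ (d - 1)) := by rw [mul_pow]
    _ ≤ C * (2 ^ n * Real.log H ^ (d - 1)) := by
        have h2 : (2 : ℝ) ^ (d - 1) ≤ 2 ^ n := pow_le_pow_right₀ (by norm_num) (by omega)
        have h3 : 0 ≤ Real.log H ^ (d - 1) := pow_nonneg hlogH _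
        exact mul_le_mul_of_nonneg_left (mul_le_mul_of_nonneg_right h2 h3) hC.le
    _ = C * 2 ^ n * Real.log H ^ (d - 1) := by ring

end Pool.Agent.Work.MP_77d073_nt.Gap
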