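import Mathlib
import Pool.Agent.Work.MP_77d073_nt.GapDefs
import Pool.Agent.Work.MP_77d073_nt.GapGL2
import Pool.Agent.Work.MP_77d073_nt.GapGM
import Pool.Agent.Work.MP_77d073_nt.GapGG

set_option autoImplicit false

/-!
Local theorem: if few hyperplanes are seen around a position, there is a near-eigen matrix with
irreducible characteristic polynomial at this position.
-/

namespace Pool.Agent.Work.MP_77d073_nt.Gap

open Pool.Agent.Work.MP_77d073_nt Polynomial

theorem le_div_minFac {n d : ℕ} (hn : 2 ≤ n) (h : d ∣ n) (hd : d < n) : d ≤ n / n.minFac := by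
  obtain ⟨e, he⟩ := h
  have he1 : 1 < e := by
    by_contra hcon
    interval_cases e
    · omega
    · omega
  have hd0 : 0 < d := by
    rcases Nat.eq_zero_or_pos d with h0 | h0
    · subst h0; omega
    · exact h0
  have hm : n.minFac ≤ e := by
    have h1 : e.minFac ∣ n := (Nat.minFac_dvd e).trans ⟨d, by rw [he]; ring⟩
    have h2 : 2 ≤ e.minFac := (Nat.minFac_prime (by omega)).two_le
    exact (Nat.minFac_le_of_dvd h2 h1).trans (Nat.minFac_le (by omega))
  have hmpos : 0 < n.minFac := Nat.minFac_pos n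
  rw [Nat.le_div_iff_mul_le hmpos, he]
  calc d * (d * e).minFac = d * n.minFac := by rw [he]
    _ ≤ d * e := Nat.mul_le_mul_left _ hm

theorem pigeon {α : Type*} [DecidableEq α] (G : Finset α) (N : ℕ) (f : α → Fin N) :
    ∀ B : ℝ, (∀ j : Fin N, ((G.filter fun t => f t = j).card : ℝ) ≤ B) → (G.card : ℝ) ≤ N * B := by
  intro B hB
  have h1 : G.card = ∑ j : Fin N, (G.filter fun t => f t = j).card :=
    Finset.card_eq_sum_card_fiberwise (fun t _ => Finset.mem_univ (f t))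
  rw [h1]
  push_cast
  calc ∑ j : Fin N, ((G.filter fun t => f t = j).card : ℝ) ≤ ∑ _j : Fin N, B :=
        Finset.sum_le_sum fun j _ => hB j
    _ = N * B := by simp

theorem local_eigen (n : ℕ) (hn : 3 ≤ n) {c D K : ℝ} (hc : 0 < c) (hD : 0 < D) (hK : 0 < K)
    (m : ℕ) (hm : 10000 * n ^ 3 ≤ m) :
    ∃ κ : ℝ, 0 < κ ∧ ∃ T0 : ℝ, 1 ≤ T0 ∧ ∀ T : ℝ, T0 ≤ T → ∀ L : Fin n → Fin n → ℝ, Sys c D L →
    ∀ (i₀ : Fin n) (t0 : Fin n → ℝ) (M0 : Matrix (Fin n) (Fin n) ℤ), Pos t0 → Red L K t0 M0 →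
    ∀ N : ℕ, (N : ℝ) ≤ κ * (Real.log T) ^ (n - n / n.minFac) → ∀ y : Fin N → Fin n → ℝ,
    (∀ t : Fin n → ℝ, Pos t → (∀ i, i ≠ i₀ → |Real.log (t i) - Real.log (t0 i)| ≤ Real.log T) →
      ∃ M : Matrix (Fin n) (Fin n) ℤ, Red L K t M ∧ ∃ (j : Fin N) (θ : ℝ),
        ∀ k, |tr L M t i₀ k - θ * y j k| * T ^ m ≤ 1) →
    ∃ Y : Matrix (Fin n) (Fin n) ℤ, NE T (6 * n + 6) (m - (10 * n + 10)) (tr L M0 t0 i₀) Y ∧
      Irreducible (toQ Y).charpoly := by
  classical
  have hn1 : 1 ≤ n := by omega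
  obtain ⟨T1, hT1, h1⟩ := red_ba n hn1 hc hD hK
  obtain ⟨T2, hT2, h2⟩ := trans_bound n hn1 hD hK
  obtain ⟨T3, hT3, h3⟩ := ret_ne n hn1 hc hD hK
  obtain ⟨T4, hT4, h4⟩ := prim_all n hn1
  obtain ⟨C1, hC1, h5⟩ := row_lower n hn1 hD hK
  obtain ⟨c', hc', T5, hT5, h6⟩ := grid n (by omega) C1 hC1
  obtain ⟨C2, hC2, H0, hH0, h7⟩ := mat_unit_count n hn1
  obtain ⟨T6, hT6, h8⟩ := ne_irred n hn1
  -- constants
  set κ : ℝ := c' / (2 * (C2 * (2 * n + 3) ^ n)) with hκ
  have hnR : (3 : ℝ) ≤ n := by exact_mod_cast hn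
  have hκ0 : 0 < κ := by positivity
  refine ⟨κ, hκ0, max (max (max T1 T2) (max T3 T4)) (max (max T5 T6) (max (max H0 n) 3)),
    hT1.trans ((le_max_left _ _).trans ((le_max_left _ _).trans (le_max_left _ _))), ?_⟩
  intro T hT L hL i₀ t0 M0 ht0 hM0 N hN y hy
  have hTT1 : T1 ≤ T := (le_max_left _ _).trans ((le_max_left _ _).trans ((le_max_left _ _).trans hT))
  have hTT2 : T2 ≤ T := (le_max_right _ _).trans ((le_max_left _ _).trans ((le_max_left _ _).trans hT))
  have hTT3 : T3 ≤ T := (le_max_left _ _).trans ((le_max_right _ _).trans ((le_max_left _ _).trans hT))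
  have hTT4 : T4 ≤ T := (le_max_right _ _).trans ((le_max_right _ _).trans ((le_max_left _ _).trans hT))
  have hTT5 : T5 ≤ T := (le_max_left _ _).trans ((le_max_left _ _).trans ((le_max_right _ _).trans hT))
  have hTT6 : T6 ≤ T := (le_max_right _ _).trans ((le_max_left _ _).trans ((le_max_right _ _).trans hT))
  have hTH : H0 ≤ T := (le_max_left _ _).trans ((le_max_left _ _).trans
    ((le_max_right _ _).trans ((le_max_right _ _).trans hT)))
  have hTn : (n : ℝ) ≤ T := (le_max_right _ _).trans ((le_max_left _ _).trans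
    ((le_max_right _ _).trans ((le_max_right _ _).trans hT)))
  have hTe : (3 : ℝ) ≤ T := (le_max_right _ _).trans
    ((le_max_right _ _).trans ((le_max_right _ _).trans hT))
  have hT1' : (1 : ℝ) ≤ T := hT1.trans hTT1
  have hT0 : (0 : ℝ) < T := by linarith
  have hlog : 1 ≤ Real.log T := by
    rw [Real.le_log_iff_exp_le hT0]
    have := Real.exp_one_lt_d9
    linarith
  have hm1 : 100 * n ^ 3 ≤ m := le_trans (Nat.mul_le_mul_right _ (by norm_num)) hm
  have hn3 : n ≤ n ^ 3 := Nat.le_self_pow (by norm_num) n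
  have hn23 : n ^ 2 ≤ n ^ 3 := Nat.pow_le_pow_right hn1 (by norm_num)
  have hn33 : 27 ≤ n ^ 3 := by
    calc 27 = 3 ^ 3 := by norm_num
      _ ≤ n ^ 3 := Nat.pow_le_pow_left hn 3
  have hBA0 := h1 T hTT1 L hL t0 M0 ht0 hM0 i₀
  obtain ⟨G, hG1, hG2, hG3⟩ := h6 T hTT5 i₀ t0 ht0
  -- choose reduced matrices on the grid
  have hch : ∀ t : Fin n → ℝ, ∃ (M : Matrix (Fin n) (Fin n) ℤ), t ∈ G → Red L K t M ∧
      ∃ (j : Fin N) (θ : ℝ), ∀ k, |tr L M t i₀ k - θ * y j k| * T ^ m ≤ 1 := by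
    intro t
    by_cases ht : t ∈ G
    · obtain ⟨M, hM⟩ := hy t (hG1 t ht).1 (hG1 t ht).2.2
      exact ⟨M, fun _ => hM⟩
    · exact ⟨1, fun h => absurd h ht⟩
  choose M hM using hch
  -- N positive
  have hGpos : 0 < (G.card : ℝ) := lt_of_lt_of_le (by positivity) hG3
  have hGne : G.Nonempty := by
    rw [← Finset.card_pos]; exact_mod_cast hGpos
  obtain ⟨g0, hg0⟩ := hGne
  obtain ⟨jj, _⟩ := (hM g0 hg0).2
  have hch2 : ∀ t : Fin n → ℝ, ∃ (j : Fin N), t ∈ G →
      ∃ (θ : ℝ), ∀ k, |tr L (M t) t i₀ k - θ * y j k| * T ^ m ≤ 1 := by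
    intro t
    by_cases ht : t ∈ G
    · obtain ⟨j, hj⟩ := (hM t ht).2
      exact ⟨j, fun _ => hj⟩
    · exact ⟨jj, fun h => absurd h ht⟩
  choose f hf using hch2
  -- suppose that all degrees are small
  by_contra hcon
  push Not at hcon
  -- class bound
  have hclass : ∀ j : Fin N, ((G.filter fun t => f t = j).card : ℝ) ≤
      C2 * ((2 * n + 3) ^ n * (Real.log T) ^ (n / n.minFac - 1)) := by
    intro j
    rcases (G.filter fun t => f t = j).eq_empty_or_nonempty with hempty | ⟨s, hs⟩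
    · rw [hempty]; simp; positivity
    rw [Finset.mem_filter] at hs
    obtain ⟨hsG, hsj⟩ := hs
    obtain ⟨θs, hθs⟩ := hf s hsG
    rw [hsj] at hθs
    set U : (Fin n → ℝ) → Matrix (Fin n) (Fin n) ℤ := fun t => M0⁻¹ * M t * (M s)⁻¹ * M0 with hU
    set S : Finset (Matrix (Fin n) (Fin n) ℤ) := (G.filter fun t => f t = j).image U with hS
    have hMsu := (hM s hsG).1.1
    have hM0u := hM0.1
    have hinj : Set.InjOn U (G.filter fun t => f t = j) := by
      intro t ht t' ht' htt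
      simp only [Finset.coe_filter, Set.mem_ofPred_eq] at ht ht'
      have h9 : M t = M t' := by
        have h10 : M0 * (M0⁻¹ * M t * (M s)⁻¹ * M0) * M0⁻¹ * M s =
            M0 * (M0⁻¹ * M t' * (M s)⁻¹ * M0) * M0⁻¹ * M s := by
          simp only [hU] at htt
          rw [htt]
        have h11 : ∀ Z : Matrix (Fin n) (Fin n) ℤ,
            M0 * (M0⁻¹ * Z * (M s)⁻¹ * M0) * M0⁻¹ * M s = Z := by
          intro Z
          have e1 : M0 * (M0⁻¹ * Z * (M s)⁻¹ * M0) * M0⁻¹ * M s =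
              (M0 * M0⁻¹) * Z * ((M s)⁻¹ * ((M0 * M0⁻¹) * M s)) := by
            simp only [Matrix.mul_assoc]
          rw [e1, Matrix.mul_nonsing_inv _ hM0u, Matrix.one_mul, Matrix.one_mul,
            Matrix.nonsing_inv_mul _ hMsu, Matrix.mul_one]
        rwa [h11, h11] at h10
      refine hG2 t ht.1 t' ht'.1 (h5 L hL.1 t t' (M t) (hG1 t ht.1).1 (hG1 t' ht'.1).1
        (hM t ht.1).1 ?_)
      rw [h9]
      exact (hM t' ht'.1).1
    have hcard : (G.filter fun t => f t = j).card = S.card :=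
      (Finset.card_image_of_injOn hinj).symm
    -- near-eigen property
    have hNE : ∀ V ∈ S, NE T (4 * n + 4) (m - (4 * n + 6)) (tr L M0 t0 i₀) V := by
      intro V hV
      rw [hS, Finset.mem_image] at hV
      obtain ⟨t, ht, rfl⟩ := hV
      rw [Finset.mem_filter] at ht
      obtain ⟨htG, htj⟩ := ht
      obtain ⟨θt, hθt⟩ := hf t htG
      rw [htj] at hθt
      exact h3 T hTT3 L hL m (by omega) i₀ t0 s t M0 (M s) (M t) ht0 (hG1 s hsG).1 (hG1 t htG).1
        hM0 (hM s hsG).1 (hM t htG).1 (hG1 s hsG).2.1 (hG1 t htG).2.1 (y j) θs θt hθs hθt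
    have hnum1 : 100 * n ^ 2 * (4 * n + 4 + n + 2) + n ≤ m - (4 * n + 6) := by
      have : 100 * n ^ 2 * (4 * n + 4 + n + 2) = 500 * n ^ 3 + 600 * n ^ 2 := by ring
      omega
    obtain ⟨Y, hY, hYS⟩ := h4 T hTT4 (4 * n + 4) (m - (4 * n + 6)) hnum1 _ hBA0 (S : Set _)
      (fun V hV => hNE V hV)
    have hY' : NE T (6 * n + 6) (m - (10 * n + 10)) (tr L M0 t0 i₀) Y :=
      ne_mono hT1' (by omega) (by omega) hY
    have hnum2 : 100 * n ^ 2 * (6 * n + 6 + 1) ≤ m - (10 * n + 10) := by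
      have : 100 * n ^ 2 * (6 * n + 6 + 1) = 600 * n ^ 3 + 700 * n ^ 2 := by ring
      omega
    have hirr := h8 T hTT6 (6 * n + 6) (m - (10 * n + 10)) hnum2 _ hBA0 Y hY'
    obtain ⟨hdvd, hfull⟩ := deg_dvd hn1 hirr
    have hdlt : (minpoly ℚ (toQ Y)).natDegree < n := by
      refine lt_of_le_of_ne (Nat.le_of_dvd (by omega) hdvd) fun h => ?_
      exact hcon Y hY' (hfull h)
    have hdle := le_div_minFac (by omega) hdvd hdlt
    have hTpow : H0 ≤ T ^ (2 * n + 3) := hTH.trans (le_self_pow₀ hT1' (by omega))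
    have hcount := h7 (toQ Y) hirr (T ^ (2 * n + 3)) hTpow S (by
      intro V hV
      obtain ⟨p, hp⟩ := hYS V hV
      refine ⟨⟨p, hp⟩, ?_⟩
      rw [hS, Finset.mem_image] at hV
      obtain ⟨t, ht, rfl⟩ := hV
      rw [Finset.mem_filter] at ht
      obtain ⟨htG, htj⟩ := ht
      have hMtu := (hM t htG).1.1
      have b1 := (h2 T hTT2 L hL.1 n t0 t M0 (M t) ht0 (hG1 t htG).1 hM0 (hM t htG).1
        (hG1 t htG).2.1.2).1
      have b2 := (h2 T hTT2 L hL.1 n s t0 (M s) M0 (hG1 s hsG).1 ht0 (hM s hsG).1 hM0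
        (hG1 s hsG).2.1.1).1
      have b3 := (h2 T hTT2 L hL.1 n t0 s M0 (M s) ht0 (hG1 s hsG).1 hM0 (hM s hsG).1
        (hG1 s hsG).2.1.2).1
      have b4 := (h2 T hTT2 L hL.1 n t t0 (M t) M0 (hG1 t htG).1 ht0 (hM t htG).1 hM0
        (hG1 t htG).2.1.1).1
      have hpow : (n : ℝ) * (T ^ (n + 1) * T ^ (n + 1)) ≤ T ^ (2 * n + 3) := by
        calc (n : ℝ) * (T ^ (n + 1) * T ^ (n + 1)) ≤ T * (T ^ (n + 1) * T ^ (n + 1)) := by gcongr
          _ = T ^ (2 * n + 3) := by rw [← pow_add, ← pow_succ']; congr 1; omega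
      refine ⟨fun i k => ?_, M0⁻¹ * M s * (M t)⁻¹ * M0, ?_, fun i k => ?_⟩
      · have e1 : U t = (M0⁻¹ * M t) * ((M s)⁻¹ * M0) := by
          simp only [hU, Matrix.mul_assoc]
        rw [e1]
        exact (mul_entries (by positivity) b1 b2 i k).trans hpow
      · have e1 : U t * (M0⁻¹ * M s * (M t)⁻¹ * M0) =
            M0⁻¹ * (M t * ((M s)⁻¹ * ((M0 * M0⁻¹) * (M s * ((M t)⁻¹ * M0))))) := by
          simp only [hU, Matrix.mul_assoc]
        rw [e1, Matrix.mul_nonsing_inv _ hM0u, Matrix.one_mul, ← Matrix.mul_assoc (M s)⁻¹,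
          Matrix.nonsing_inv_mul _ hMsu, Matrix.one_mul, ← Matrix.mul_assoc (M t),
          Matrix.mul_nonsing_inv _ hMtu, Matrix.one_mul, Matrix.nonsing_inv_mul _ hM0u]
      · have e1 : M0⁻¹ * M s * (M t)⁻¹ * M0 = (M0⁻¹ * M s) * ((M t)⁻¹ * M0) := by
          simp only [Matrix.mul_assoc]
        rw [e1]
        exact (mul_entries (by positivity) b3 b4 i k).trans hpow)
    rw [hcard]
    refine hcount.trans ?_
    rw [Real.log_pow]
    have hx : (1 : ℝ) ≤ (((2 * n + 3 : ℕ) : ℝ)) * Real.log T := by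
      have : (1 : ℝ) ≤ ((2 * n + 3 : ℕ) : ℝ) := by
        push_cast
        linarith
      nlinarith
    calc C2 * (((2 * n + 3 : ℕ) : ℝ) * Real.log T) ^ ((minpoly ℚ (toQ Y)).natDegree - 1)
        ≤ C2 * (((2 * n + 3 : ℕ) : ℝ) * Real.log T) ^ (n / n.minFac - 1) := by
          gcongr ?_ * ?_
          exact pow_le_pow_right₀ hx (by omega)
      _ = C2 * ((((2 * n + 3 : ℕ) : ℝ)) ^ (n / n.minFac - 1) *
            Real.log T ^ (n / n.minFac - 1)) := by rw [mul_pow]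
      _ ≤ C2 * ((2 * n + 3) ^ n * (Real.log T) ^ (n / n.minFac - 1)) := by
          have h12 : (((2 * n + 3 : ℕ) : ℝ)) ^ (n / n.minFac - 1) ≤ (2 * n + 3 : ℝ) ^ n := by
            push_cast
            refine pow_le_pow_right₀ (by linarith) ?_
            have := Nat.div_le_self n n.minFac
            omega
          gcongr
  have hcardG := pigeon G N f _ hclass
  -- final contradiction
  have hq : 1 ≤ n / n.minFac := by
    have := Nat.minFac_le (by omega : 0 < n)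
    exact (Nat.one_le_div_iff (Nat.minFac_pos n)).mpr this
  have hq2 : n / n.minFac ≤ n := Nat.div_le_self _ _
  have hexp : (n - n / n.minFac) + (n / n.minFac - 1) = n - 1 := by omega
  have hfin : (G.card : ℝ) ≤ c' / 2 * (Real.log T) ^ (n - 1) := by
    calc (G.card : ℝ) ≤ N * (C2 * ((2 * n + 3) ^ n * (Real.log T) ^ (n / n.minFac - 1))) := hcardG
      _ ≤ (κ * (Real.log T) ^ (n - n / n.minFac)) *
          (C2 * ((2 * n + 3) ^ n * (Real.log T) ^ (n / n.minFac - 1))) := by gcongr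
      _ = (κ * (C2 * (2 * n + 3) ^ n)) *
          ((Real.log T) ^ (n - n / n.minFac) * (Real.log T) ^ (n / n.minFac - 1)) := by ring
      _ = c' / 2 * (Real.log T) ^ (n - 1) := by
          rw [← pow_add, hexp, hκ]
          congr 1
          field_simp
  have hlp : 0 < (Real.log T) ^ (n - 1) := by positivity
  nlinarith

end Pool.Agent.Work.MP_77d073_nt.Gap
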