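import Mathlib
import Pool.Agent.Work.MP_77d073_nt.GapDefs
import Pool.Agent.Work.MP_77d073_nt.Reduce

set_option autoImplicit false

namespace Pool.Agent.Work.MP_77d073_nt.Gap

open Pool.Agent.Work.MP_77d073_nt Polynomial

theorem gc_eigen {n : ℕ} (L : Fin n → Fin n → ℝ) (B : Matrix (Fin n) (Fin n) ℝ) (i : Fin n)
    (hi : L i ≠ 0)
    (hinv : ∀ x : Fin n → ℝ, ∑ j, L i j * x j = 0 → ∑ j, L i j * (B.mulVec x) j = 0) :
    ∃ μ : ℝ, ∀ k, ∑ j, L i j * B j k = μ * L i k := by
  classical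
  obtain ⟨j0, hj0⟩ : ∃ j, L i j ≠ 0 := by
    by_contra hcon
    push Not at hcon
    exact hi (funext hcon)
  set F : (Fin n → ℝ) → ℝ := fun x => ∑ j, L i j * (B.mulVec x) j with hF
  have hFadd : ∀ (x y : Fin n → ℝ) (a : ℝ), F (x + a • y) = F x + a * F y := by
    intro x y a
    simp only [hF, Matrix.mulVec_add, Matrix.mulVec_smul, Pi.add_apply, Pi.smul_apply, smul_eq_mul]
    rw [Finset.mul_sum, ← Finset.sum_add_distrib]
    refine Finset.sum_congr rfl fun j _ => ?_
    ring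
  have hFe : ∀ k, F (Pi.single k 1) = ∑ j, L i j * B j k := by
    intro k
    simp only [hF]
    refine Finset.sum_congr rfl fun j _ => ?_
    simp
  refine ⟨F (Pi.single j0 1) / L i j0, fun k => ?_⟩
  have h1 := hinv (Pi.single k 1 + (-(L i k / L i j0)) • Pi.single j0 1) (by
    simp only [Pi.add_apply, Pi.smul_apply, smul_eq_mul, mul_add, Finset.sum_add_distrib]
    have h2 : ∑ j, L i j * (Pi.single k (1 : ℝ) : Fin n → ℝ) j = L i k := by
      simp [Pi.single_apply]
    have h3 : ∑ j, L i j * (-(L i k / L i j0) * (Pi.single j0 (1 : ℝ) : Fin n → ℝ) j) = - L i k := by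
      rw [Finset.sum_eq_single j0]
      · simp only [Pi.single_eq_same]
        field_simp
      · intro j _ hj
        simp [hj]
      · simp
    rw [h2, h3]; ring)
  have h4 := hFadd (Pi.single k 1) (Pi.single j0 1) (-(L i k / L i j0))
  have h5 : F (Pi.single k 1 + (-(L i k / L i j0)) • Pi.single j0 1) = 0 := h1
  rw [h5] at h4
  rw [← hFe]
  field_simp
  field_simp at h4
  linarith

/-- Rows of an invertible matrix diagonalizing `A` with distinct eigenvalues: a left eigenvector is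
a multiple of the corresponding row. -/
theorem gc_left {n : ℕ} (P Ar : Matrix (Fin n) (Fin n) ℝ) (lam : Fin n → ℝ) (hP : IsUnit P.det)
    (hPA : P * Ar = Matrix.diagonal lam * P) (hinj : Function.Injective lam) (i₀ : Fin n)
    (v : Fin n → ℝ) (hv : Matrix.vecMul v Ar = lam i₀ • v) : ∃ a : ℝ, v = a • P i₀ := by
  classical
  set a : Fin n → ℝ := Matrix.vecMul v P⁻¹ with ha
  have h1 : P⁻¹ * Matrix.diagonal lam = Ar * P⁻¹ := by
    have h2 : P⁻¹ * (P * Ar) * P⁻¹ = P⁻¹ * (Matrix.diagonal lam * P) * P⁻¹ := by rw [hPA]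
    rw [← Matrix.mul_assoc, Matrix.nonsing_inv_mul _ hP, Matrix.one_mul] at h2
    rw [h2, Matrix.mul_assoc, Matrix.mul_assoc, Matrix.mul_nonsing_inv _ hP, Matrix.mul_one]
  have h2 : Matrix.vecMul a (Matrix.diagonal lam) = lam i₀ • a := by
    rw [ha, Matrix.vecMul_vecMul, h1, ← Matrix.vecMul_vecMul, hv, Matrix.smul_vecMul]
  have h3 : ∀ i, i ≠ i₀ → a i = 0 := by
    intro i hi
    have h4 := congrFun h2 i
    rw [Matrix.vecMul_diagonal] at h4
    simp only [Pi.smul_apply, smul_eq_mul] at h4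
    have h5 : a i * (lam i - lam i₀) = 0 := by linarith
    rcases mul_eq_zero.mp h5 with h | h
    · exact h
    · exact absurd (hinj (by linarith)) hi
  have h4 : v = Matrix.vecMul a P := by
    rw [ha, Matrix.vecMul_vecMul, Matrix.nonsing_inv_mul _ hP, Matrix.vecMul_one]
  refine ⟨a i₀, ?_⟩
  rw [h4]
  funext k
  simp only [Matrix.vecMul, dotProduct, Pi.smul_apply, smul_eq_mul]
  rw [Finset.sum_eq_single i₀]
  · intro j _ hj
    rw [h3 j hj, zero_mul]
  · simp

theorem gc_inj {n : ℕ} (P : Matrix (Fin n) (Fin n) ℝ) (A : Matrix (Fin n) (Fin n) ℤ)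
    (lam : Fin n → ℝ) (hP : IsUnit P.det)
    (hPA : P * A.map (Int.cast : ℤ → ℝ) = Matrix.diagonal lam * P)
    (hA : Irreducible (A.charpoly.map (Int.castRingHom ℚ))) : Function.Injective lam := by
  classical
  rw [← Polynomial.separable_prod_X_sub_C_iff, ← Matrix.charpoly_diagonal]
  have h1 : (Matrix.diagonal lam).charpoly = (A.map (Int.cast : ℤ → ℝ)).charpoly := by
    have hPu : IsUnit P := (Matrix.isUnit_iff_isUnit_det P).mpr hP
    obtain ⟨U, rfl⟩ := hPu
    rw [← Matrix.charpoly_units_conj U (A.map (Int.cast : ℤ → ℝ))]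
    congr 1
    rw [hPA, Matrix.mul_assoc, Matrix.mul_nonsing_inv _ hP, Matrix.mul_one]
  rw [h1]
  have h2 : A.map (Int.cast : ℤ → ℝ) = A.map (Int.castRingHom ℝ) := rfl
  rw [h2, Matrix.charpoly_map]
  have h3 : A.charpoly.map (Int.castRingHom ℝ) =
      (A.charpoly.map (Int.castRingHom ℚ)).map (algebraMap ℚ ℝ) := by
    rw [Polynomial.map_map]
    congr 1
  rw [h3]
  exact hA.separable.map

theorem gc_bound {n : ℕ} (B : Matrix (Fin n) (Fin n) ℝ) (Q : Matrix (Fin n) (Fin n) ℝ)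
    (lam : Fin n → ℝ) {D K : ℝ} (hD : 0 < D) (hdet : |B.det| = D) (hK : 1 ≤ K)
    (hB : ∀ i j, |B i j| ≤ K) (hQ : B * Q = Matrix.diagonal lam * B) (i j : Fin n) :
    |Q i j| ≤ D⁻¹ * ∑ k, ((n.factorial : ℝ) * K ^ n) * (|lam k| * K) := by
  classical
  have hdet0 : B.det ≠ 0 := by
    intro h
    rw [h, abs_zero] at hdet
    exact hD.ne hdet
  have h1 : B.det • Q = B.adjugate * (Matrix.diagonal lam * B) := by
    rw [← hQ, ← Matrix.mul_assoc, Matrix.adjugate_mul, Matrix.smul_mul, Matrix.one_mul]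
  have h2 : B.det * Q i j = ∑ k, B.adjugate i k * (lam k * B k j) := by
    have := congrFun (congrFun h1 i) j
    rw [Matrix.smul_apply, smul_eq_mul, Matrix.mul_apply] at this
    rw [this]
    refine Finset.sum_congr rfl fun k _ => ?_
    rw [Matrix.diagonal_mul]
  have hadj : ∀ i k, |B.adjugate i k| ≤ (n.factorial : ℝ) * K ^ n := by
    intro i k
    rw [Matrix.adjugate_apply]
    have h3 := Matrix.det_le (A := B.updateRow k (Pi.single i 1)) (abv := AbsoluteValue.abs)
      (x := K) (fun a b => by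
        show |B.updateRow k (Pi.single i 1) a b| ≤ K
        by_cases ha : a = k
        · subst ha
          rw [Matrix.updateRow_self]
          by_cases hb : b = i
          · subst hb; simpa using hK
          · rw [Pi.single_eq_of_ne hb, abs_zero]; linarith
        · rw [Matrix.updateRow_ne ha]; exact hB a b)
    have h4 : |(B.updateRow k (Pi.single i 1)).det| ≤ (Fintype.card (Fin n)).factorial • K ^ (Fintype.card (Fin n)) := h3
    rw [Fintype.card_fin, nsmul_eq_mul] at h4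
    exact h4
  have h5 : |Q i j| = D⁻¹ * |B.det * Q i j| := by
    rw [abs_mul, hdet, ← mul_assoc, inv_mul_cancel₀ hD.ne', one_mul]
  rw [h5, h2]
  apply mul_le_mul_of_nonneg_left _ (by positivity)
  refine (Finset.abs_sum_le_sum_abs _ _).trans (Finset.sum_le_sum fun k _ => ?_)
  rw [abs_mul, abs_mul]
  exact mul_le_mul (hadj i k) (mul_le_mul_of_nonneg_left (hB k j) (abs_nonneg _))
    (by positivity) (by positivity)

theorem conv (n : ℕ) (hn : 1 ≤ n) (L : Fin n → Fin n → ℝ) {c D : ℝ} (hc : 0 < c) (hD : 0 < D)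
    (hL : Sys c D L) (A : Matrix (Fin n) (Fin n) ℤ)
    (hA : Irreducible (A.charpoly.map (Int.castRingHom ℚ)))
    (hinv : ∀ i : Fin n, ∀ x : Fin n → ℝ, ∑ j, L i j * x j = 0 →
          ∑ j, L i j * ((A.map (Int.cast : ℤ → ℝ)).mulVec x) j = 0) (i₀ : Fin n) (K : ℝ) :
    ∃ (N : ℕ) (y : Fin N → Fin n → ℝ), ∀ (t : Fin n → ℝ) (M : Matrix (Fin n) (Fin n) ℤ),
      Pos t → Red L K t M → ∃ (j : Fin N) (θ : ℝ), ∀ k, tr L M t i₀ k = θ * y j k := by
  classical
  set P : Matrix (Fin n) (Fin n) ℝ := Matrix.of L with hPdef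
  have hPdet : |P.det| = D := hL.1
  have hPdet0 : P.det ≠ 0 := by
    intro h
    rw [h, abs_zero] at hPdet
    exact hD.ne hPdet
  have hPu : IsUnit P.det := isUnit_iff_ne_zero.mpr hPdet0
  have hLi : ∀ i, L i ≠ 0 := fun i => ((li_iff_det L).mpr hPdet0).ne_zero i
  choose lam hlam using fun i => gc_eigen L (A.map (Int.cast : ℤ → ℝ)) i (hLi i) (hinv i)
  have hPA : P * A.map (Int.cast : ℤ → ℝ) = Matrix.diagonal lam * P := by
    ext i k
    rw [Matrix.mul_apply, Matrix.diagonal_mul]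
    exact hlam i k
  have hinj := gc_inj P A lam hPu hPA hA
  -- the finite set of conjugates
  set K' : ℝ := max K 1 with hK'
  set C : ℝ := D⁻¹ * ∑ k, ((n.factorial : ℝ) * K' ^ n) * (|lam k| * K') with hC
  set S : Set ((Fin n → ℝ) × Matrix (Fin n) (Fin n) ℤ) := {p | Pos p.1 ∧ Red L K p.1 p.2} with hS
  set q : S → Matrix (Fin n) (Fin n) ℤ := fun p => p.1.2⁻¹ * A * p.1.2 with hq
  have hB : ∀ (t : Fin n → ℝ) (M : Matrix (Fin n) (Fin n) ℤ),
      Matrix.of (tr L M t) = Matrix.diagonal t * (P * M.map (Int.cast : ℤ → ℝ)) := by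
    intro t M
    ext i j
    rw [Matrix.diagonal_mul, Matrix.mul_apply]
    simp [tr, hPdef]
  have hmap : ∀ X Y : Matrix (Fin n) (Fin n) ℤ, (X * Y).map (Int.cast : ℤ → ℝ) =
      X.map (Int.cast : ℤ → ℝ) * Y.map (Int.cast : ℤ → ℝ) := by
    intro X Y
    exact Matrix.map_mul (f := Int.castRingHom ℝ)
  have hqb : ∀ p : S, ∀ i j, |((q p i j : ℤ) : ℝ)| ≤ C := by
    rintro ⟨⟨t, M⟩, hp⟩ i j
    have hpos : Pos t := hp.1
    have hred : Red L K t M := hp.2
    have hMu : IsUnit M.det := hred.1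
    have hBdet : |(Matrix.of (tr L M t)).det| = D := by
      rw [tr_det, hpos.2, one_mul, abs_mul]
      rcases Int.isUnit_iff.mp hMu with h | h <;> simp [h, ← hPdef, hPdet]
    have hBQ : Matrix.of (tr L M t) * (M⁻¹ * A * M).map (Int.cast : ℤ → ℝ) =
        Matrix.diagonal lam * Matrix.of (tr L M t) := by
      have hMQ : M.map (Int.cast : ℤ → ℝ) * (M⁻¹ * A * M).map (Int.cast : ℤ → ℝ) =
          A.map (Int.cast : ℤ → ℝ) * M.map (Int.cast : ℤ → ℝ) := by
        rw [← hmap, ← hmap, ← Matrix.mul_assoc, ← Matrix.mul_assoc, Matrix.mul_nonsing_inv _ hMu,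
          Matrix.one_mul]
      have hcomm : Matrix.diagonal t * Matrix.diagonal lam =
          Matrix.diagonal lam * Matrix.diagonal t := by
        rw [Matrix.diagonal_mul_diagonal, Matrix.diagonal_mul_diagonal]
        congr 1
        funext k
        exact mul_comm _ _
      rw [hB]
      calc Matrix.diagonal t * (P * M.map (Int.cast : ℤ → ℝ)) *
            (M⁻¹ * A * M).map (Int.cast : ℤ → ℝ)
          = Matrix.diagonal t * (P * (M.map (Int.cast : ℤ → ℝ) *
            (M⁻¹ * A * M).map (Int.cast : ℤ → ℝ))) := by simp only [Matrix.mul_assoc]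
        _ = Matrix.diagonal t * ((P * A.map (Int.cast : ℤ → ℝ)) * M.map (Int.cast : ℤ → ℝ)) := by
            rw [hMQ]; simp only [Matrix.mul_assoc]
        _ = (Matrix.diagonal t * Matrix.diagonal lam) * (P * M.map (Int.cast : ℤ → ℝ)) := by
            rw [hPA]; simp only [Matrix.mul_assoc]
        _ = Matrix.diagonal lam * (Matrix.diagonal t * (P * M.map (Int.cast : ℤ → ℝ))) := by
            rw [hcomm]; simp only [Matrix.mul_assoc]
    exact gc_bound (Matrix.of (tr L M t)) _ lam hD hBdet (le_max_right _ _)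
      (fun a b => (hred.2 a b).trans (le_max_left _ _)) hBQ i j
  have hfin : (Set.range q).Finite := by
    apply (Set.finite_Icc (fun _ _ => -⌈C⌉ : Fin n → Fin n → ℤ) (fun _ _ => ⌈C⌉)).subset
    rintro _ ⟨p, rfl⟩
    have h1 : ∀ i j, -⌈C⌉ ≤ q p i j ∧ q p i j ≤ ⌈C⌉ := by
      intro i j
      have h2 := (hqb p i j).trans (Int.le_ceil C)
      have h3 : |q p i j| ≤ ⌈C⌉ := by exact_mod_cast h2
      exact abs_le.mp h3
    exact ⟨fun i j => (h1 i j).1, fun i j => (h1 i j).2⟩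
  have : Fintype (Set.range q) := hfin.fintype
  refine ⟨Fintype.card (Set.range q), fun j =>
    tr L (Classical.choose ((Fintype.equivFin (Set.range q)).symm j).2).1.2
      (Classical.choose ((Fintype.equivFin (Set.range q)).symm j).2).1.1 i₀, ?_⟩
  intro t M ht hM
  have hp : (t, M) ∈ S := ⟨ht, hM⟩
  set r : Set.range q := ⟨q ⟨(t, M), hp⟩, ⟨_, rfl⟩⟩ with hr
  refine ⟨Fintype.equivFin (Set.range q) r, ?_⟩
  simp only [Equiv.symm_apply_apply]
  set p' : S := Classical.choose r.2 with hp'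
  have hp'q : q p' = r.1 := Classical.choose_spec r.2
  obtain ⟨⟨t', M'⟩, hp2⟩ := p'
  have hpos' : Pos t' := hp2.1
  have hred' : Red L K t' M' := hp2.2
  have hMu : IsUnit M.det := hM.1
  have hMu' : IsUnit M'.det := hred'.1
  have hQ : M'⁻¹ * A * M' = M⁻¹ * A * M := hp'q
  show ∃ θ, ∀ k, tr L M t i₀ k = θ * tr L M' t' i₀ k
  set G : Matrix (Fin n) (Fin n) ℤ := M * M'⁻¹ with hG
  have hGA : A * G = G * A := by
    have h1 : M * (M'⁻¹ * A * M') * M'⁻¹ = M * (M⁻¹ * A * M) * M'⁻¹ := by rw [hQ]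
    have h2 : M * (M'⁻¹ * A * M') * M'⁻¹ = G * A := by
      rw [hG]
      simp only [Matrix.mul_assoc]
      rw [Matrix.mul_nonsing_inv _ hMu', Matrix.mul_one]
    have h3 : M * (M⁻¹ * A * M) * M'⁻¹ = A * G := by
      rw [hG]
      simp only [← Matrix.mul_assoc]
      rw [Matrix.mul_nonsing_inv _ hMu, Matrix.one_mul]
    rw [← h2, ← h3, h1]
  have hGM : G * M' = M := by
    rw [hG, Matrix.mul_assoc, Matrix.nonsing_inv_mul _ hMu', Matrix.mul_one]
  set Gr : Matrix (Fin n) (Fin n) ℝ := G.map (Int.cast : ℤ → ℝ) with hGr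
  have hPi : Matrix.vecMul (P i₀) (A.map (Int.cast : ℤ → ℝ)) = lam i₀ • P i₀ := by
    funext k
    simp only [Matrix.vecMul, dotProduct, Pi.smul_apply, smul_eq_mul]
    exact hlam i₀ k
  obtain ⟨a, ha⟩ := gc_left P (A.map (Int.cast : ℤ → ℝ)) lam hPu hPA hinj i₀
    (Matrix.vecMul (P i₀) Gr) (by
      rw [Matrix.vecMul_vecMul, hGr, ← hmap, ← hGA, hmap, ← Matrix.vecMul_vecMul, hPi,
        Matrix.smul_vecMul])
  refine ⟨t i₀ * a / t' i₀, fun k => ?_⟩
  have ht' : t' i₀ ≠ 0 := (hpos'.1 i₀).ne'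
  have h1 : ∀ (s : Fin n → ℝ) (X : Matrix (Fin n) (Fin n) ℤ), tr L X s i₀ k =
      s i₀ * Matrix.vecMul (P i₀) (X.map (Int.cast : ℤ → ℝ)) k := by
    intro s X
    simp [tr, Matrix.vecMul, dotProduct, hPdef]
  rw [h1 t M, h1 t' M']
  have h2 : Matrix.vecMul (P i₀) (M.map (Int.cast : ℤ → ℝ)) k =
      a * Matrix.vecMul (P i₀) (M'.map (Int.cast : ℤ → ℝ)) k := by
    rw [← hGM, hmap, ← Matrix.vecMul_vecMul, ← hGr, ha, Matrix.smul_vecMul]
    simp
  rw [h2]
  field_simp

end Pool.Agent.Work.MP_77d073_nt.Gap
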