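import Mathlib
import Pool.Agent.Work.MP_77d073_nt.Rigid

set_option autoImplicit false

namespace Pool.Agent.Work.MP_77d073_nt.HypResult

open Filter Topology Pool.Agent.Work.MP_77d073_nt

/-- If the product of `n ≥ 3` independent real linear forms is bounded away from zero on nonzero
integer points and some limit of the systems `t_i L_i ∘ M` has one hyperplane invariant under an
irreducible rational matrix, then all hyperplanes `L_i = 0` are invariant under one irreducible
matrix in `SL(n, ℤ)` with real eigenvalues. -/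
theorem result :
    ∀ n : ℕ, 3 ≤ n → ∀ L : Fin n → Fin n → ℝ, LinearIndependent ℝ L →
      (∃ c : ℝ, 0 < c ∧ ∀ p : Fin n → ℤ, p ≠ 0 →
          c ≤ |∏ i, ∑ j, L i j * (p j : ℝ)|) →
      ∀ (M : ℕ → Matrix (Fin n) (Fin n) ℤ) (t : ℕ → Fin n → ℝ) (L' : Fin n → Fin n → ℝ),
        (∀ k, (M k).det ≠ 0) → (∀ k, ∏ i, t k i = 1) →
        (∀ i j, Tendsto (fun k => t k i * ∑ l, L i l * (M k l j : ℝ)) atTop (𝓝 (L' i j))) →
      ∀ (i₀ : Fin n) (B : Matrix (Fin n) (Fin n) ℚ), Irreducible B.charpoly →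
        (∀ x : Fin n → ℝ, ∑ j, L' i₀ j * x j = 0 →
          ∑ j, L' i₀ j * ((B.map (Rat.cast : ℚ → ℝ)).mulVec x) j = 0) →
      ∃ A : Matrix (Fin n) (Fin n) ℤ,
        A.det = 1 ∧
        Irreducible (A.charpoly.map (Int.castRingHom ℚ)) ∧
        (∀ z : ℂ, Polynomial.aeval z A.charpoly = 0 → z.im = 0) ∧
        ∀ i : Fin n, ∀ x : Fin n → ℝ, ∑ j, L i j * x j = 0 →
          ∑ j, L i j * ((A.map (Int.cast : ℤ → ℝ)).mulVec x) j = 0 := by
  classical
  intro n hn L hL hν M t L' hM ht hlim i₀ B hB hinv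
  obtain ⟨c, hc0, hc⟩ := hν
  obtain ⟨K, _, _, b, θ, hb, hgen⟩ := field_of_matrix B hB
  have hL' := lim_li hL hM ht hlim
  have hrow0 : L' i₀ ≠ 0 := hL'.ne_zero i₀
  obtain ⟨j0, hj0⟩ : ∃ j, L' i₀ j ≠ 0 := by
    by_contra hcon
    push Not at hcon
    exact hrow0 (funext hcon)
  -- eigen relation
  obtain ⟨μ, hμ⟩ : ∃ μ : ℝ, ∀ k, ∑ j, L' i₀ j * (B j k : ℝ) = μ * L' i₀ k := by
    set F : (Fin n → ℝ) → ℝ := fun x => ∑ j, L' i₀ j * ((B.map (Rat.cast : ℚ → ℝ)).mulVec x) j with hF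
    have hFadd : ∀ (x y : Fin n → ℝ) (a : ℝ), F (x + a • y) = F x + a * F y := by
      intro x y a
      simp only [hF, Matrix.mulVec_add, Matrix.mulVec_smul, Pi.add_apply, Pi.smul_apply, smul_eq_mul]
      rw [Finset.mul_sum, ← Finset.sum_add_distrib]
      refine Finset.sum_congr rfl fun j _ => ?_
      ring
    have hFe : ∀ k, F (Pi.single k 1) = ∑ j, L' i₀ j * (B j k : ℝ) := by
      intro k
      simp only [hF]
      refine Finset.sum_congr rfl fun j _ => ?_
      simp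
    refine ⟨F (Pi.single j0 1) / L' i₀ j0, fun k => ?_⟩
    have h1 := hinv (Pi.single k 1 + (-(L' i₀ k / L' i₀ j0)) • Pi.single j0 1) (by
      simp only [Pi.add_apply, Pi.smul_apply, smul_eq_mul, mul_add, Finset.sum_add_distrib]
      have h2 : ∑ j, L' i₀ j * (Pi.single k (1 : ℝ) : Fin n → ℝ) j = L' i₀ k := by
        simp [Pi.single_apply]
      have h3 : ∑ j, L' i₀ j * (-(L' i₀ k / L' i₀ j0) * (Pi.single j0 (1 : ℝ) : Fin n → ℝ) j) = - L' i₀ k := by
        rw [Finset.sum_eq_single j0]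
        · simp only [Pi.single_eq_same]
          field_simp
        · intro j _ hj
          simp [hj]
        · simp
      rw [h2, h3]; ring)
    have h4 := hFadd (Pi.single k 1) (Pi.single j0 1) (-(L' i₀ k / L' i₀ j0))
    have h5 : F (Pi.single k 1 + (-(L' i₀ k / L' i₀ j0)) • Pi.single j0 1) = 0 := h1
    rw [h5] at h4
    rw [← hFe]
    field_simp
    field_simp at h4
    linarith
  have hcoef : ∀ σ : K →+* ℂ, coef b L' i₀ σ ≠ 0 → σ θ = μ := by
    intro σ hσ
    have h1 := coef_mul hb L' i₀ σ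
    have h2 : coef b (fun i k => ∑ j, L' i j * (B j k : ℝ)) i₀ σ = μ * coef b L' i₀ σ := by
      unfold coef
      simp only [hμ]
      rw [Finset.mul_sum]
      refine Finset.sum_congr rfl fun j _ => ?_
      push_cast
      ring
    rw [h2] at h1
    exact (mul_right_cancel₀ hσ h1).symm
  set J : Finset (K →+* ℂ) := Finset.univ.filter fun σ => coef b L' i₀ σ ≠ 0 with hJ
  have hJmem : ∀ σ, σ ∈ J ↔ ∃ i ∈ ({i₀} : Finset (Fin n)), coef b L' i σ ≠ 0 := by
    intro σ
    simp [hJ]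
  obtain ⟨σ0, hσ0⟩ : ∃ σ, coef b L' i₀ σ ≠ 0 := by
    by_contra hcon
    push Not at hcon
    exact (coef_li b hL').ne_zero i₀ (funext hcon)
  have hJeq : J = {σ0} := by
    ext σ
    simp only [hJ, Finset.mem_filter, Finset.mem_univ, true_and, Finset.mem_singleton]
    constructor
    · intro h
      exact embedding_ext hgen ((hcoef σ h).trans (hcoef σ0 hσ0).symm)
    · rintro rfl; exact hσ0
  obtain ⟨A, hA1, hA2, hA3, hA4⟩ := rigid_core hn b hL hc0 hc hM ht hlim {i₀} J
    (by rw [hJeq]; simp) (by simp)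
    (by
      intro h
      have := congrArg Finset.card h
      rw [Finset.card_singleton, Finset.card_univ, Fintype.card_fin] at this
      omega)
    hJmem
    (by
      intro σ τ hστ
      obtain ⟨ρ', hρ', hz⟩ := exists_partner hστ σ0
      refine ⟨σ0, by rw [hJeq]; simp, ρ', by rw [hJeq]; simpa using hρ', hz⟩)
  refine ⟨A, hA1, hA2, hA3, fun i x hx => ?_⟩
  obtain ⟨μ', hμ'⟩ := hA4 i
  rw [hμ', hx, mul_zero]

end Pool.Agent.Work.MP_77d073_nt.HypResult
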