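import Mathlib
import Pool.Agent.Work.MP_77d073_nt.Rigid
import Pool.Agent.Work.MP_77d073_nt.Reduce

set_option autoImplicit false

namespace Pool.Agent.Work.MP_77d073_nt

open Module Filter Topology

section space

variable {n : ℕ}

/-- unimodular -/
def Uni (M : Matrix (Fin n) (Fin n) ℤ) : Prop := M.det = 1 ∨ M.det = -1

theorem Uni.mul {M M' : Matrix (Fin n) (Fin n) ℤ} (h : Uni M) (h' : Uni M') : Uni (M * M') := by
  unfold Uni at *
  rw [Matrix.det_mul]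
  rcases h with h | h <;> rcases h' with h' | h' <;> simp [h, h']

theorem Uni.ne_zero {M : Matrix (Fin n) (Fin n) ℤ} (h : Uni M) : M.det ≠ 0 := by
  rcases h with h | h <;> simp [h]

theorem Uni.inv {M : Matrix (Fin n) (Fin n) ℤ} (h : Uni M) :
    ∃ M' : Matrix (Fin n) (Fin n) ℤ, Uni M' ∧ M * M' = 1 ∧ M' * M = 1 := by
  have hu : IsUnit M.det := by
    rcases h with h | h <;> simp [h]
  refine ⟨M⁻¹, ?_, Matrix.mul_nonsing_inv _ hu, Matrix.nonsing_inv_mul _ hu⟩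
  have h1 : M.det * (M⁻¹).det = 1 := by
    rw [← Matrix.det_mul, Matrix.mul_nonsing_inv _ hu, Matrix.det_one]
  unfold Uni
  rcases h with h | h
  · left; rw [h, one_mul] at h1; exact h1
  · right; rw [h] at h1; linarith

theorem tr_tr (L : Fin n → Fin n → ℝ) (M M' : Matrix (Fin n) (Fin n) ℤ) (t t' : Fin n → ℝ) :
    tr (tr L M t) M' t' = tr L (M * M') (t' * t) := by
  funext i j
  unfold tr
  simp only [Pi.mul_apply, Matrix.mul_apply]
  push_cast
  have h1 : ∀ l, t i * ∑ k, L i k * (M k l : ℝ) = ∑ k, t i * (L i k * (M k l : ℝ)) := by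
    intro l; rw [Finset.mul_sum]
  simp_rw [h1, Finset.sum_mul, Finset.mul_sum]
  rw [Finset.sum_comm]
  refine Finset.sum_congr rfl fun l _ => Finset.sum_congr rfl fun k _ => ?_
  ring

theorem tr_one (L : Fin n → Fin n → ℝ) : tr L 1 1 = L := by
  funext i j
  unfold tr
  simp [Matrix.one_apply]

theorem tr_cont (M : Matrix (Fin n) (Fin n) ℤ) (t : Fin n → ℝ) :
    Continuous fun L : Fin n → Fin n → ℝ => tr L M t := by
  unfold tr
  fun_prop

/-- closed invariant -/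
structure CI (S : Set (Fin n → Fin n → ℝ)) : Prop where
  closed : IsClosed S
  inv : ∀ L ∈ S, ∀ (M : Matrix (Fin n) (Fin n) ℤ) (t : Fin n → ℝ), Uni M → ∏ i, t i = 1 →
    tr L M t ∈ S

/-- orbit -/
def orb (L : Fin n → Fin n → ℝ) : Set (Fin n → Fin n → ℝ) :=
  {L' | ∃ (M : Matrix (Fin n) (Fin n) ℤ) (t : Fin n → ℝ), Uni M ∧ ∏ i, t i = 1 ∧ L' = tr L M t}

theorem self_mem_orb (L : Fin n → Fin n → ℝ) : L ∈ orb L :=
  ⟨1, 1, Or.inl (by simp), by simp, (tr_one L).symm⟩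

theorem orb_CI (L : Fin n → Fin n → ℝ) : CI (closure (orb L)) := by
  refine ⟨isClosed_closure, fun L' hL' M t hM ht => ?_⟩
  have h1 : Set.MapsTo (fun L' : Fin n → Fin n → ℝ => tr L' M t) (orb L) (orb L) := by
    rintro L'' ⟨M', t', hM', ht', rfl⟩
    refine ⟨M' * M, t * t', hM'.mul hM, ?_, tr_tr _ _ _ _ _⟩
    simp [Finset.prod_mul_distrib, ht, ht']
  exact h1.closure (tr_cont M t) hL'

theorem CI.orb_sub {S : Set (Fin n → Fin n → ℝ)} (hS : CI S) {L : Fin n → Fin n → ℝ} (hL : L ∈ S) :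
    closure (orb L) ⊆ S := by
  apply closure_minimal _ hS.closed
  rintro L' ⟨M, t, hM, ht, rfl⟩
  exact hS.inv L hL M t hM ht

theorem mem_closure_orb {L L' : Fin n → Fin n → ℝ} (h : L' ∈ closure (orb L)) :
    ∃ (M : ℕ → Matrix (Fin n) (Fin n) ℤ) (t : ℕ → Fin n → ℝ), (∀ k, Uni (M k)) ∧
      (∀ k, ∏ i, t k i = 1) ∧ ∀ i j, Tendsto (fun k => tr L (M k) (t k) i j) atTop (𝓝 (L' i j)) := by
  rw [mem_closure_iff_seq_limit] at h
  obtain ⟨x, hx, hlim⟩ := h
  choose M t hM ht hxe using hx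
  refine ⟨M, t, hM, ht, fun i j => ?_⟩
  have h1 := (tendsto_pi_nhds.mp ((tendsto_pi_nhds.mp hlim) i)) j
  refine h1.congr fun k => ?_
  rw [hxe k]

theorem orb_det {L L' : Fin n → Fin n → ℝ} (h : L' ∈ closure (orb L)) :
    |(Matrix.of L').det| = |(Matrix.of L).det| := by
  obtain ⟨M, t, hM, ht, hlim⟩ := mem_closure_orb h
  have h1 : Tendsto (fun k => |(Matrix.of (tr L (M k) (t k))).det|) atTop (𝓝 |(Matrix.of L').det|) := by
    have h2 : Tendsto (fun k => Matrix.of (tr L (M k) (t k))) atTop (𝓝 (Matrix.of L')) := by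
      exact tendsto_pi_nhds.mpr fun i => tendsto_pi_nhds.mpr fun j => hlim i j
    exact ((continuous_id.matrix_det.tendsto _).comp h2).abs
  have h2 : ∀ k, |(Matrix.of (tr L (M k) (t k))).det| = |(Matrix.of L).det| := by
    intro k
    rw [tr_det, ht, one_mul, abs_mul]
    rcases hM k with h | h <;> simp [h]
  simp_rw [h2] at h1
  exact (tendsto_nhds_unique h1 tendsto_const_nhds)

theorem orb_lower {L L' : Fin n → Fin n → ℝ} (h : L' ∈ closure (orb L)) {c : ℝ}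
    (hc : ∀ p : Fin n → ℤ, p ≠ 0 → c ≤ |∏ i, ∑ j, L i j * (p j : ℝ)|)
    (p : Fin n → ℤ) (hp : p ≠ 0) : c ≤ |∏ i, ∑ j, L' i j * (p j : ℝ)| := by
  obtain ⟨M, t, hM, ht, hlim⟩ := mem_closure_orb h
  exact lim_lower hc (fun k => (hM k).ne_zero) ht hlim p hp

/-- box -/
def box (n : ℕ) (β : ℝ) : Set (Fin n → Fin n → ℝ) := {L | ∀ i j, |L i j| ≤ β}

theorem box_compact (β : ℝ) : IsCompact (box n β) := by
  have h1 : box n β = Set.pi Set.univ fun _ : Fin n => Set.pi Set.univ fun _ : Fin n => Set.Icc (-β) β := by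
    ext L
    simp only [box, Set.mem_pi, Set.mem_univ, forall_true_left, Set.mem_Icc, abs_le, Set.mem_setOf_eq]
  rw [h1]
  exact isCompact_univ_pi fun _ => isCompact_univ_pi fun _ => isCompact_Icc

/-- The standing assumptions. -/
structure Good (c D : ℝ) (S : Set (Fin n → Fin n → ℝ)) : Prop where
  det : ∀ L ∈ S, |(Matrix.of L).det| = D
  low : ∀ L ∈ S, ∀ p : Fin n → ℤ, p ≠ 0 → c ≤ |∏ i, ∑ j, L i j * (p j : ℝ)|

theorem Good.mono {c D : ℝ} {S S' : Set (Fin n → Fin n → ℝ)} (h : Good c D S) (hs : S' ⊆ S) :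
    Good c D S' := ⟨fun L hL => h.det L (hs hL), fun L hL => h.low L (hs hL)⟩

theorem Good.ne {c D : ℝ} (hD : 0 < D) {S : Set (Fin n → Fin n → ℝ)} (h : Good c D S)
    {L : Fin n → Fin n → ℝ} (hL : L ∈ S) : (Matrix.of L).det ≠ 0 := by
  intro h0
  have := h.det L hL
  rw [h0, abs_zero] at this
  exact hD.ne this

theorem meets_box (hn : 1 ≤ n) {c D : ℝ} (hc : 0 < c) (hD : 0 < D) :
    ∃ β : ℝ, 0 < β ∧ ∀ S : Set (Fin n → Fin n → ℝ), CI S → Good c D S → ∀ L ∈ S,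
      ∃ M : Matrix (Fin n) (Fin n) ℤ, Uni M ∧ tr L M 1 ∈ S ∩ box n β := by
  obtain ⟨β, hβ, h⟩ := reduction hn hc hD
  refine ⟨β, hβ, fun S hS hG L hL => ?_⟩
  obtain ⟨M, hM, hMb⟩ := h L (hG.det L hL) (hG.low L hL)
  refine ⟨M, hM, hS.inv L hL M 1 hM (by simp), fun i j => ?_⟩
  have := hMb i j
  unfold tr
  simpa using this

theorem exists_minimal (hn : 1 ≤ n) {c D : ℝ} (hc : 0 < c) (hD : 0 < D)
    {S : Set (Fin n → Fin n → ℝ)} (hS : CI S) (hG : Good c D S) (hne : S.Nonempty) :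
    ∃ Y ⊆ S, CI Y ∧ Y.Nonempty ∧ ∀ Z ⊆ Y, CI Z → Z.Nonempty → Z = Y := by
  obtain ⟨β, hβ, hbox⟩ := meets_box (n := n) hn hc hD
  obtain ⟨Y, hYS, hY⟩ := zorn_superset_nonempty {Y | Y ⊆ S ∧ CI Y ∧ Y.Nonempty} (by
    intro ch hch hchain hchne
    refine ⟨⋂₀ ch, ⟨?_, ⟨?_, ?_⟩, ?_⟩, fun s hs => Set.sInter_subset_of_mem hs⟩
    · obtain ⟨s, hs⟩ := hchne
      exact (Set.sInter_subset_of_mem hs).trans (hch hs).1
    · exact isClosed_sInter fun s hs => (hch hs).2.1.closed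
    · intro L hL M t hM ht s hs
      exact (hch hs).2.1.inv L (hL s hs) M t hM ht
    · have : Nonempty ↥ch := hchne.to_subtype
      have h1 : (⋂ s : ↥ch, (s : Set (Fin n → Fin n → ℝ)) ∩ box n β).Nonempty := by
        apply IsCompact.nonempty_iInter_of_directed_nonempty_isCompact_isClosed
        · intro a b
          rcases hchain.total a.2 b.2 with h | h
          · exact ⟨a, fun x hx => hx, fun x hx => ⟨h hx.1, hx.2⟩⟩
          · exact ⟨b, fun x hx => ⟨h hx.1, hx.2⟩, fun x hx => hx⟩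
        · intro a
          obtain ⟨h2, h3, L, hL⟩ := hch a.2
          obtain ⟨M, hM, h4⟩ := hbox _ h3 (hG.mono h2) L hL
          exact ⟨_, h4⟩
        · intro a
          exact (box_compact β).inter_left (hch a.2).2.1.closed
        · intro a
          exact (hch a.2).2.1.closed.inter (box_compact β).isClosed
      obtain ⟨L, hL⟩ := h1
      rw [Set.mem_iInter] at hL
      exact ⟨L, fun s hs => (hL ⟨s, hs⟩).1⟩) S ⟨Set.Subset.rfl, hS, hne⟩
  refine ⟨Y, hYS, hY.prop.2.1, hY.prop.2.2, fun Z hZY hZ hZne => ?_⟩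
  exact Set.Subset.antisymm hZY (hY.le_of_le ⟨hZY.trans hYS, hZ, hZne⟩ hZY)

end space

end Pool.Agent.Work.MP_77d073_nt
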