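import Mathlib
import Pool.Agent.Work.MP_77d073_nt.Space

set_option autoImplicit false

namespace Pool.Agent.Work.MP_77d073_nt

open Module Filter Topology

section baire

variable {n : ℕ}

/-- value of the product -/
noncomputable def val (L : Fin n → Fin n → ℝ) (x : Fin n → ℝ) : ℝ := ∏ i, ∑ j, L i j * x j

theorem val_cont (x : Fin n → ℝ) : Continuous fun L : Fin n → Fin n → ℝ => val L x := by
  unfold val
  fun_prop

theorem poly_grid (L L' : Fin n → Fin n → ℝ)
    (h : ∀ p : Fin n → Fin (n + 1), val L (fun j => ((p j : ℕ) : ℝ)) = val L' (fun j => ((p j : ℕ) : ℝ)))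
    (x : Fin n → ℝ) : val L x = val L' x := by
  classical
  set F : (Fin n → Fin n → ℝ) → MvPolynomial (Fin n) ℝ := fun L =>
    ∏ i, ∑ j, MvPolynomial.C (L i j) * MvPolynomial.X j with hF
  have hev : ∀ L y, MvPolynomial.eval y (F L) = val L y := by
    intro L y
    simp [hF, val]
  have hhom : ∀ L, (F L).IsHomogeneous n := by
    intro L
    have h1 : (F L).IsHomogeneous (∑ _i : Fin n, 1) := by
      apply MvPolynomial.IsHomogeneous.prod
      intro i _
      apply MvPolynomial.IsHomogeneous.sum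
      intro j _
      exact MvPolynomial.isHomogeneous_C_mul_X _ _
    simpa using h1
  have hz : F L - F L' = 0 := by
    apply MvPolynomial.eq_zero_of_eval_zero_at_prod_finset _
      (fun _ => (Finset.range (n + 1)).image (Nat.cast : ℕ → ℝ))
    · intro i
      rw [Finset.card_image_of_injective _ Nat.cast_injective, Finset.card_range]
      have h1 : MvPolynomial.degreeOf i (F L - F L') ≤ (F L - F L').totalDegree :=
        MvPolynomial.degreeOf_le_totalDegree _ _
      have h2 : (F L - F L').totalDegree ≤ n := ((hhom L).sub (hhom L')).totalDegree_le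
      omega
    · intro y hy
      have hy' : ∀ i, ∃ m : Fin (n + 1), ((m : ℕ) : ℝ) = y i := by
        intro i
        obtain ⟨m, hm, hm2⟩ := Finset.mem_image.mp (hy i)
        exact ⟨⟨m, Finset.mem_range.mp hm⟩, hm2⟩
      choose p hp using hy'
      have h3 := h p
      have h4 : (fun j => ((p j : ℕ) : ℝ)) = y := funext hp
      rw [h4] at h3
      rw [map_sub, hev, hev, h3, sub_self]
  rw [← hev, ← hev, sub_eq_zero.mp hz]

theorem diag_of_prod (H : Fin n → Fin n → ℝ) (h : ∀ y : Fin n → ℝ, val H y = ∏ i, y i)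
    (hH : ∀ i, H i i ≠ 0) : ∀ i k, k ≠ i → H i k = 0 := by
  classical
  intro j
  set P : Fin n → Polynomial ℝ := fun i =>
    ∑ k, Polynomial.C (if k = j then 0 else H i k) * Polynomial.X ^ (k : ℕ) with hP
  have hcoef : ∀ i k, (P i).coeff (k : Fin n) = if k = j then 0 else H i k := by
    intro i k
    rw [hP]
    simp only [Polynomial.finsetSum_coeff, Polynomial.coeff_C_mul, Polynomial.coeff_X_pow]
    rw [Finset.sum_eq_single k]
    · simp
    · intro l _ hl
      have : (k : ℕ) ≠ (l : ℕ) := fun h => hl (Fin.ext h.symm)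
      simp [this]
    · simp
  have hprod : ∏ i, P i = 0 := by
    apply Polynomial.funext
    intro s
    rw [Polynomial.eval_prod, Polynomial.eval_zero]
    have h1 := h (fun k => if k = j then 0 else s ^ (k : ℕ))
    rw [Finset.prod_eq_zero (Finset.mem_univ j) (by simp)] at h1
    rw [← h1]
    unfold val
    refine Finset.prod_congr rfl fun i _ => ?_
    rw [hP]
    simp only [Polynomial.eval_finsetSum, Polynomial.eval_mul, Polynomial.eval_C,
      Polynomial.eval_pow, Polynomial.eval_X]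
    refine Finset.sum_congr rfl fun k _ => ?_
    split_ifs <;> simp
  obtain ⟨i, -, hi⟩ := Finset.prod_eq_zero_iff.mp hprod
  have h2 : ∀ k, k ≠ j → H i k = 0 := by
    intro k hk
    have h3 := hcoef i k
    rw [hi, Polynomial.coeff_zero, if_neg hk] at h3
    exact h3.symm
  have hij : i = j := by
    by_contra hij
    exact hH i (h2 i hij)
  subst hij
  exact h2

theorem near_iso {L₀ : Fin n → Fin n → ℝ} (hL : (Matrix.of L₀).det ≠ 0) :
    ∃ U : Set (Fin n → Fin n → ℝ), IsOpen U ∧ L₀ ∈ U ∧ ∀ L ∈ U, (∀ x, val L x = val L₀ x) →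
      ∃ s : Fin n → ℝ, (∀ i, 3 / 4 < s i ∧ s i < 3 / 2) ∧ ∏ i, s i = 1 ∧
        ∀ i j, L i j = s i * L₀ i j := by
  classical
  set R : Matrix (Fin n) (Fin n) ℝ := (Matrix.of L₀)⁻¹ with hR
  have hunit : IsUnit (Matrix.of L₀).det := isUnit_iff_ne_zero.mpr hL
  have hRL : R * Matrix.of L₀ = 1 := Matrix.nonsing_inv_mul _ hunit
  have hLR : Matrix.of L₀ * R = 1 := Matrix.mul_nonsing_inv _ hunit
  set H : (Fin n → Fin n → ℝ) → Fin n → Fin n → ℝ := fun L i k => ∑ j, L i j * R j k with hH
  have hHcont : ∀ i k, Continuous fun L => H L i k := by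
    intro i k
    simp only [hH]
    fun_prop
  refine ⟨⋂ i, {L | 3 / 4 < H L i i ∧ H L i i < 3 / 2}, ?_, ?_, ?_⟩
  · apply isOpen_iInter_of_finite
    intro i
    exact (isOpen_lt continuous_const (hHcont i i)).inter (isOpen_lt (hHcont i i) continuous_const)
  · rw [Set.mem_iInter]
    intro i
    have h1 : H L₀ i i = 1 := by
      have := congrFun (congrFun hLR i) i
      rw [Matrix.mul_apply, Matrix.one_apply_eq] at this
      exact this
    show 3 / 4 < H L₀ i i ∧ H L₀ i i < 3 / 2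
    rw [h1]
    norm_num
  · intro L hLU hval
    rw [Set.mem_iInter] at hLU
    have hb : ∀ i, 3 / 4 < H L i i ∧ H L i i < 3 / 2 := fun i => hLU i
    have hprod : ∀ y : Fin n → ℝ, val (H L) y = ∏ i, y i := by
      intro y
      have h1 : val (H L) y = val L (R.mulVec y) := by
        unfold val
        refine Finset.prod_congr rfl fun i _ => ?_
        simp only [hH, Matrix.mulVec, dotProduct, Finset.mul_sum, Finset.sum_mul]
        rw [Finset.sum_comm]
        refine Finset.sum_congr rfl fun j _ => Finset.sum_congr rfl fun k _ => ?_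
        ring
      have h2 : val L₀ (R.mulVec y) = ∏ i, y i := by
        unfold val
        refine Finset.prod_congr rfl fun i _ => ?_
        have h3 := congrFun (congrArg (fun Z => Matrix.mulVec Z y) hLR) i
        simp only [Matrix.one_mulVec] at h3
        rw [← h3, ← Matrix.mulVec_mulVec]
        rfl
      rw [h1, hval, h2]
    have hdiag := diag_of_prod (H L) hprod (fun i => by linarith [(hb i).1])
    refine ⟨fun i => H L i i, hb, ?_, ?_⟩
    · have h1 := hprod (fun _ => 1)
      rw [Finset.prod_const_one] at h1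
      rw [← h1]
      unfold val
      refine Finset.prod_congr rfl fun i _ => ?_
      rw [Finset.sum_eq_single i]
      · rw [mul_one]
      · intro k _ hk
        rw [hdiag i k hk, zero_mul]
      · simp
    · intro i j
      have h1 : L i j = ∑ k, H L i k * L₀ k j := by
        simp only [hH, Finset.sum_mul]
        rw [Finset.sum_comm]
        have h2 : ∀ l, ∑ k, L i l * R l k * L₀ k j = L i l * (if l = j then 1 else 0) := by
          intro l
          have h3 := congrFun (congrFun hRL l) j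
          rw [Matrix.mul_apply, Matrix.one_apply] at h3
          rw [← h3, Finset.mul_sum]
          refine Finset.sum_congr rfl fun k _ => ?_
          simp only [Matrix.of_apply]
          ring
        simp_rw [h2]
        simp
      rw [h1, Finset.sum_eq_single i]
      · intro k _ hk
        rw [hdiag i k hk, zero_mul]
      · simp

theorem val_tr (L : Fin n → Fin n → ℝ) (M : Matrix (Fin n) (Fin n) ℤ) {t : Fin n → ℝ}
    (ht : ∏ i, t i = 1) (x : Fin n → ℝ) :
    val (tr L M t) x = val L (fun l => ∑ j, (M l j : ℝ) * x j) := by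
  unfold val
  simp_rw [tr_sum]
  rw [Finset.prod_mul_distrib, ht, one_mul]

theorem val_box {β : ℝ} (hβ : 0 ≤ β) {L : Fin n → Fin n → ℝ} (hL : L ∈ box n β)
    (p : Fin n → Fin (n + 1)) : |val L (fun j => ((p j : ℕ) : ℝ))| ≤ (n * (β * n)) ^ n := by
  unfold val
  rw [Finset.abs_prod]
  calc ∏ i, |∑ j, L i j * ((p j : ℕ) : ℝ)| ≤ ∏ _i : Fin n, (n * (β * n) : ℝ) := by
        refine Finset.prod_le_prod (fun i _ => abs_nonneg _) fun i _ => ?_
        calc |∑ j, L i j * ((p j : ℕ) : ℝ)| ≤ ∑ j, |L i j * ((p j : ℕ) : ℝ)| :=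
              Finset.abs_sum_le_sum_abs _ _
          _ ≤ ∑ _j : Fin n, β * n := by
              refine Finset.sum_le_sum fun j _ => ?_
              rw [abs_mul, Nat.abs_cast]
              have h1 := hL i j
              have h2 : ((p j : ℕ) : ℝ) ≤ n := by exact_mod_cast Nat.lt_succ_iff.mp (p j).2
              gcongr
          _ = n * (β * n) := by simp
    _ = (n * (β * n)) ^ n := by simp

/-- Countability of values forces a transversally isolated point. -/
theorem exists_isolated {c D β : ℝ} (hD : 0 < D) (hβ : 0 ≤ β)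
    {Y : Set (Fin n → Fin n → ℝ)} (hY : CI Y) (hG : Good c D Y) (hne : Y.Nonempty)
    (hbox : ∀ L ∈ Y, ∃ M : Matrix (Fin n) (Fin n) ℤ, Uni M ∧ tr L M 1 ∈ Y ∩ box n β)
    {V : Set ℝ} (hV : ∀ L ∈ Y, ∀ p : Fin n → ℤ, val L (fun j => (p j : ℝ)) ∈ V)
    (hcount : (V ∩ Set.Icc (-((n * (β * n)) ^ n)) ((n * (β * n)) ^ n)).Countable) :
    ∃ L₀ ∈ Y, ∃ U : Set (Fin n → Fin n → ℝ), IsOpen U ∧ L₀ ∈ U ∧ ∀ L ∈ Y ∩ U,
      ∃ s : Fin n → ℝ, (∀ i, 3 / 4 < s i ∧ s i < 3 / 2) ∧ ∏ i, s i = 1 ∧
        ∀ i j, L i j = s i * L₀ i j := by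
  classical
  set T : ℝ := (n * (β * n)) ^ n with hT
  have hVc : Countable ↥(V ∩ Set.Icc (-T) T) := hcount.to_subtype
  have hMc : Countable (Matrix (Fin n) (Fin n) ℤ) :=
    inferInstanceAs (Countable (Fin n → Fin n → ℤ))
  have hcomp : CompleteSpace ↥Y := hY.closed.completeSpace_coe
  have hYne : Nonempty ↥Y := hne.to_subtype
  let ι := {M : Matrix (Fin n) (Fin n) ℤ // Uni M} × ((Fin n → Fin (n + 1)) → ↥(V ∩ Set.Icc (-T) T))
  let f : ι → Set ↥Y := fun a =>
    {L | ∀ p : Fin n → Fin (n + 1),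
      val (L : Fin n → Fin n → ℝ) (fun l => ∑ j, (a.1.1 l j : ℝ) * ((p j : ℕ) : ℝ)) = (a.2 p : ℝ)}
  obtain ⟨⟨M, w⟩, hint⟩ := nonempty_interior_of_iUnion_of_closed (f := f) (by
      intro a
      have : f a = ⋂ p : Fin n → Fin (n + 1), {L : ↥Y |
        val (L : Fin n → Fin n → ℝ) (fun l => ∑ j, (a.1.1 l j : ℝ) * ((p j : ℕ) : ℝ)) = (a.2 p : ℝ)} := by
        ext L
        rw [Set.mem_iInter]
        rfl
      rw [this]
      refine isClosed_iInter fun p => ?_
      exact isClosed_eq ((val_cont _).comp continuous_subtype_val) continuous_const)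
    (by
      rw [Set.eq_univ_iff_forall]
      rintro ⟨L, hL⟩
      rw [Set.mem_iUnion]
      obtain ⟨M, hM, hM1, hM2⟩ := hbox L hL
      refine ⟨(⟨M, hM⟩, fun p => ⟨val L (fun l => ∑ j, (M l j : ℝ) * ((p j : ℕ) : ℝ)), ?_, ?_⟩), ?_⟩
      · have h1 := hV L hL (fun l => ∑ j, M l j * ((p j : ℕ) : ℤ))
        have h2 : (fun l => ∑ j, (M l j : ℝ) * ((p j : ℕ) : ℝ)) =
            fun l => ((∑ j, M l j * ((p j : ℕ) : ℤ) : ℤ) : ℝ) := by
          funext l; push_cast; rfl
        rw [h2]
        exact h1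
      · rw [← val_tr L M (t := 1) (by simp)]
        have h1 := val_box hβ hM2 p
        exact abs_le.mp h1
      · intro p
        rfl)
  obtain ⟨⟨L₀, hL₀⟩, hL₀int⟩ := hint
  obtain ⟨U₁, hU₁o, hU₁⟩ := isOpen_induced_iff.mp (isOpen_interior (s := f (M, w)))
  have hmem : ∀ L (hL : L ∈ Y), L ∈ U₁ → (⟨L, hL⟩ : ↥Y) ∈ f (M, w) := by
    intro L hL hLU
    apply interior_subset
    rw [← hU₁]
    exact hLU
  have hL₀U : L₀ ∈ U₁ := by
    have : (⟨L₀, hL₀⟩ : ↥Y) ∈ Subtype.val ⁻¹' U₁ := by rw [hU₁]; exact hL₀int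
    exact this
  obtain ⟨U₂, hU₂o, hL₀U₂, hU₂⟩ := near_iso (hG.ne hD hL₀)
  refine ⟨L₀, hL₀, U₁ ∩ U₂, hU₁o.inter hU₂o, ⟨hL₀U, hL₀U₂⟩, ?_⟩
  rintro L ⟨hL, hLU₁, hLU₂⟩
  apply hU₂ L hLU₂
  have h1 : ∀ p : Fin n → Fin (n + 1), val (tr L M.1 1) (fun j => ((p j : ℕ) : ℝ)) =
      val (tr L₀ M.1 1) (fun j => ((p j : ℕ) : ℝ)) := by
    intro p
    rw [val_tr L M.1 (t := 1) (by simp), val_tr L₀ M.1 (t := 1) (by simp)]
    exact (hmem L hL hLU₁ p).trans (hmem L₀ hL₀ hL₀U p).symm
  intro x
  obtain ⟨M', hM', hMM', hM'M⟩ := M.2.inv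
  have h2 := poly_grid _ _ h1 (fun l => ∑ j, (M' l j : ℝ) * x j)
  rw [val_tr L M.1 (t := 1) (by simp), val_tr L₀ M.1 (t := 1) (by simp)] at h2
  have h3 : (fun l => ∑ k, (M.1 l k : ℝ) * ∑ j, (M' k j : ℝ) * x j) = x := by
    funext l
    simp_rw [Finset.mul_sum]
    rw [Finset.sum_comm]
    have h4 : ∀ j, ∑ k, (M.1 l k : ℝ) * ((M' k j : ℝ) * x j) = (if l = j then 1 else 0) * x j := by
      intro j
      have h5 := congrFun (congrFun hMM' l) j
      rw [Matrix.mul_apply, Matrix.one_apply] at h5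
      have h6 : ∑ k, (M.1 l k : ℝ) * (M' k j : ℝ) = if l = j then 1 else 0 := by
        have := congrArg (Int.cast : ℤ → ℝ) h5
        push_cast at this
        rw [this]
      rw [← h6, Finset.sum_mul]
      refine Finset.sum_congr rfl fun k _ => ?_
      ring
    simp_rw [h4]
    simp
  rw [h3] at h2
  exact h2

end baire

end Pool.Agent.Work.MP_77d073_nt
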