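import Mathlib
import Pool.Agent.Work.MP_77d073_nt.Baire

set_option autoImplicit false

namespace Pool.Agent.Work.MP_77d073_nt

open Module Filter Topology

section orbit

variable {n : ℕ}

theorem dense_orbit {Y : Set (Fin n → Fin n → ℝ)} (hY : CI Y)
    (hmin : ∀ Z ⊆ Y, CI Z → Z.Nonempty → Z = Y) {L : Fin n → Fin n → ℝ} (hL : L ∈ Y)
    {U : Set (Fin n → Fin n → ℝ)} (hU : IsOpen U) {L₀ : Fin n → Fin n → ℝ} (hL₀ : L₀ ∈ Y)
    (hL₀U : L₀ ∈ U) :
    ∃ (M : Matrix (Fin n) (Fin n) ℤ) (t : Fin n → ℝ), Uni M ∧ ∏ i, t i = 1 ∧ tr L M t ∈ U := by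
  have h1 : closure (orb L) = Y :=
    hmin _ (hY.orb_sub hL) (orb_CI L) ⟨L, subset_closure (self_mem_orb L)⟩
  rw [← h1] at hL₀
  obtain ⟨L', hL'U, M, t, hM, ht, rfl⟩ := mem_closure_iff.mp hL₀ U hU hL₀U
  exact ⟨M, t, hM, ht, hL'U⟩

theorem exists_eigen (hn : 1 ≤ n) {β : ℝ}
    {Y : Set (Fin n → Fin n → ℝ)} (hY : CI Y)
    (hbox : ∀ L ∈ Y, ∃ M : Matrix (Fin n) (Fin n) ℤ, Uni M ∧ tr L M 1 ∈ Y ∩ box n β)
    (hmin : ∀ Z ⊆ Y, CI Z → Z.Nonempty → Z = Y) {L₀ : Fin n → Fin n → ℝ} (hL₀ : L₀ ∈ Y)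
    {U : Set (Fin n → Fin n → ℝ)} (hU : IsOpen U) (hL₀U : L₀ ∈ U)
    (hiso : ∀ L ∈ Y ∩ U, ∃ s : Fin n → ℝ, (∀ i, 3 / 4 < s i ∧ s i < 3 / 2) ∧ ∏ i, s i = 1 ∧
        ∀ i j, L i j = s i * L₀ i j) :
    ∃ A : Matrix (Fin n) (Fin n) ℤ, Uni A ∧ ∃ μ : Fin n → ℝ, Function.Injective μ ∧
      ∀ i k, ∑ j, L₀ i j * (A j k : ℝ) = μ i * L₀ i k := by
  classical
  have hn0 : (n : ℝ) ≠ 0 := by
    have : (1 : ℝ) ≤ n := by exact_mod_cast hn
    linarith
  set m₀ : ℝ := (∑ i : Fin n, 4 * ((i : ℕ) : ℝ)) / n with hm₀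
  set y : Fin n → ℝ := fun i => 4 * ((i : ℕ) : ℝ) - m₀ with hy
  have hysum : ∑ i, y i = 0 := by
    simp only [hy]
    rw [Finset.sum_sub_distrib, Finset.sum_const, Finset.card_univ, nsmul_eq_mul, Fintype.card_fin, hm₀]
    field_simp
    ring
  set τ : ℕ → Fin n → ℝ := fun m i => Real.exp (m * y i) with hτ
  have hτprod : ∀ m, ∏ i, τ m i = 1 := by
    intro m
    simp only [hτ]
    rw [← Real.exp_sum, ← Finset.mul_sum, hysum, mul_zero, Real.exp_zero]
  have h1 : ∀ m, ∃ M : Matrix (Fin n) (Fin n) ℤ, Uni M ∧ tr L₀ M (τ m) ∈ Y ∩ box n β := by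
    intro m
    obtain ⟨M, hM, hMY⟩ := hbox _ (hY.inv L₀ hL₀ 1 (τ m) (Or.inl (by simp)) (hτprod m))
    refine ⟨M, hM, ?_⟩
    rw [tr_tr, one_mul, one_mul] at hMY
    exact hMY
  choose M hM hMY using h1
  obtain ⟨a, ha, φ, hφ, hlim⟩ := (box_compact β).tendsto_subseq (fun m => (hMY m).2)
  have haY : a ∈ Y := hY.closed.mem_of_tendsto hlim (Filter.Eventually.of_forall fun m => (hMY _).1)
  obtain ⟨N, t, hN, ht, haU⟩ := dense_orbit hY hmin haY hU hL₀ hL₀U
  have hev : ∀ᶠ k in atTop, tr (tr L₀ (M (φ k)) (τ (φ k))) N t ∈ U := by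
    have h2 : Tendsto (fun k => tr (tr L₀ (M (φ k)) (τ (φ k))) N t) atTop (𝓝 (tr a N t)) :=
      ((tr_cont N t).tendsto a).comp hlim
    exact h2 (hU.mem_nhds haU)
  obtain ⟨k, hk⟩ := eventually_atTop.mp hev
  have ht0 : ∀ i, t i ≠ 0 := by
    intro i h0
    rw [Finset.prod_eq_zero (Finset.mem_univ i) h0] at ht
    exact zero_ne_one ht
  have key : ∀ k' ≥ k, ∃ s : Fin n → ℝ, (∀ i, 3 / 4 < s i ∧ s i < 3 / 2) ∧
      ∀ i j, ∑ l, L₀ i l * ((M (φ k') * N) l j : ℝ) = s i / (t i * τ (φ k') i) * L₀ i j := by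
    intro k' hk'
    obtain ⟨s, hs1, -, hs2⟩ := hiso _ ⟨hY.inv _ (hMY (φ k')).1 N t hN ht, hk k' hk'⟩
    refine ⟨s, hs1, fun i j => ?_⟩
    have h3 := hs2 i j
    rw [tr_tr] at h3
    have h4 : t i * τ (φ k') i ≠ 0 := mul_ne_zero (ht0 i) (Real.exp_pos _).ne'
    have h5 : tr L₀ (M (φ k') * N) (t * τ (φ k')) i j =
        (t i * τ (φ k') i) * ∑ l, L₀ i l * ((M (φ k') * N) l j : ℝ) := rfl
    rw [h5] at h3
    rw [div_mul_eq_mul_div, eq_div_iff h4]
    linarith
  obtain ⟨s₁, hs₁, h₁⟩ := key k le_rfl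
  obtain ⟨s₂, hs₂, h₂⟩ := key (k + 1) (Nat.le_succ k)
  have hφlt : φ k < φ (k + 1) := hφ (Nat.lt_succ_self k)
  obtain ⟨B, hB, hB1, hB2⟩ := ((hM (φ (k + 1))).mul hN).inv
  refine ⟨M (φ k) * N * B, ((hM _).mul hN).mul hB,
    fun i => (s₁ i / (t i * τ (φ k) i)) / (s₂ i / (t i * τ (φ (k + 1)) i)), ?_, ?_⟩
  · intro i j hij
    have hs1p : ∀ i, 0 < s₁ i := fun i => by linarith [(hs₁ i).1]
    have hs2p : ∀ i, 0 < s₂ i := fun i => by linarith [(hs₂ i).1]
    have hdiv : ∀ i, (s₁ i / (t i * τ (φ k) i)) / (s₂ i / (t i * τ (φ (k + 1)) i)) =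
        (s₁ i / s₂ i) * Real.exp (((φ (k + 1) : ℕ) - (φ k : ℕ) : ℝ) * y i) := by
      intro i
      have h3 : Real.exp (((φ (k + 1) : ℕ) - (φ k : ℕ) : ℝ) * y i) = τ (φ (k + 1)) i / τ (φ k) i := by
        simp only [hτ]
        rw [← Real.exp_sub]
        congr 1; ring
      rw [h3]
      have h4 := ht0 i
      have h5 := (hs2p i).ne'
      have h6 : τ (φ k) i ≠ 0 := (Real.exp_pos _).ne'
      have h7 : τ (φ (k + 1)) i ≠ 0 := (Real.exp_pos _).ne'
      field_simp
    have hd1 : (1 : ℝ) ≤ ((φ (k + 1) : ℕ) - (φ k : ℕ) : ℝ) := by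
      have : ((φ k : ℕ) : ℝ) + 1 ≤ (φ (k + 1) : ℕ) := by exact_mod_cast hφlt
      linarith
    set d : ℝ := ((φ (k + 1) : ℕ) - (φ k : ℕ) : ℝ) with hd
    have main : ∀ i j : Fin n, (i : ℕ) < (j : ℕ) →
        (s₁ i / s₂ i) * Real.exp (d * y i) < (s₁ j / s₂ j) * Real.exp (d * y j) := by
      intro i j hlt
      have h4 : y i + 4 ≤ y j := by
        simp only [hy]
        have : ((i : ℕ) : ℝ) + 1 ≤ (j : ℕ) := by exact_mod_cast hlt
        linarith
      have h5 : d * y i + 4 ≤ d * y j := by nlinarith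
      have h6 : s₁ i / s₂ i < 2 := by
        rw [div_lt_iff₀ (hs2p i)]
        linarith [(hs₁ i).2, (hs₂ i).1]
      have h7 : 1 / 2 < s₁ j / s₂ j := by
        rw [lt_div_iff₀ (hs2p j)]
        linarith [(hs₁ j).1, (hs₂ j).2]
      have h8 : 4 * Real.exp (d * y i) < Real.exp (d * y j) := by
        have h9 : Real.exp (d * y i + 4) ≤ Real.exp (d * y j) := Real.exp_le_exp.mpr h5
        rw [Real.exp_add] at h9
        have h10 : (4 : ℝ) + 1 ≤ Real.exp 4 := Real.add_one_le_exp 4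
        have h11 := Real.exp_pos (d * y i)
        nlinarith
      have h12 := Real.exp_pos (d * y i)
      have h13 := Real.exp_pos (d * y j)
      calc (s₁ i / s₂ i) * Real.exp (d * y i) < 2 * Real.exp (d * y i) := by
            exact mul_lt_mul_of_pos_right h6 h12
        _ < 1 / 2 * Real.exp (d * y j) := by linarith
        _ < (s₁ j / s₂ j) * Real.exp (d * y j) := mul_lt_mul_of_pos_right h7 h13
    simp only [hdiv] at hij
    rcases lt_trichotomy (i : ℕ) (j : ℕ) with h | h | h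
    · exact absurd hij (main i j h).ne
    · exact Fin.ext h
    · exact absurd hij (main j i h).ne'
  · intro i j
    have hB3 : ∀ j, ∑ l, L₀ i l * (B l j : ℝ) = (s₂ i / (t i * τ (φ (k + 1)) i))⁻¹ * L₀ i j := by
      intro j
      set lam := s₂ i / (t i * τ (φ (k + 1)) i) with hlam
      have hlam0 : lam ≠ 0 := by
        rw [hlam]
        have := (hs₂ i).1
        exact div_ne_zero (by linarith) (mul_ne_zero (ht0 i) (Real.exp_pos _).ne')
      have h6 : ∑ l, (∑ m, L₀ i m * ((M (φ (k + 1)) * N) m l : ℝ)) * (B l j : ℝ) = L₀ i j := by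
        simp_rw [Finset.sum_mul]
        rw [Finset.sum_comm]
        have h7 : ∀ m, ∑ l, L₀ i m * ((M (φ (k + 1)) * N) m l : ℝ) * (B l j : ℝ) =
            L₀ i m * (if m = j then 1 else 0) := by
          intro m
          have h8 := congrFun (congrFun hB1 m) j
          rw [Matrix.mul_apply, Matrix.one_apply] at h8
          have h9 := congrArg (Int.cast : ℤ → ℝ) h8
          push_cast at h9
          rw [← h9, Finset.mul_sum]
          refine Finset.sum_congr rfl fun l _ => ?_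
          ring
        simp_rw [h7]
        simp
      simp_rw [h₂, mul_assoc, ← Finset.mul_sum] at h6
      rw [← hlam] at h6
      rw [← h6]
      field_simp
    have h6 : ∑ l, L₀ i l * ((M (φ k) * N * B) l j : ℝ) =
        ∑ m, (∑ l, L₀ i l * ((M (φ k) * N) l m : ℝ)) * (B m j : ℝ) := by
      simp_rw [Finset.sum_mul]
      rw [Finset.sum_comm]
      refine Finset.sum_congr rfl fun l _ => ?_
      rw [Matrix.mul_apply]
      push_cast
      rw [Finset.mul_sum]
      refine Finset.sum_congr rfl fun m _ => ?_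
      ring
    rw [h6]
    simp_rw [h₁, mul_assoc, ← Finset.mul_sum]
    rw [hB3 j]
    ring

/-- polynomial action on row eigenvectors -/
theorem poly_eigen {A : Matrix (Fin n) (Fin n) ℚ} {v : Fin n → ℝ} {μ : ℝ}
    (h : ∀ k, ∑ j, v j * (A j k : ℝ) = μ * v k) (f : Polynomial ℚ) :
    ∀ k, ∑ j, v j * (((Polynomial.aeval A f) j k : ℚ) : ℝ) = Polynomial.aeval μ f * v k := by
  induction f using Polynomial.induction_on' with
  | add p q hp hq =>
    intro k
    rw [map_add, map_add, add_mul, ← hp k, ← hq k, ← Finset.sum_add_distrib]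
    refine Finset.sum_congr rfl fun j _ => ?_
    rw [Matrix.add_apply]; push_cast; ring
  | monomial m a =>
    have hpow : ∀ m : ℕ, ∀ k, ∑ j, v j * ((A ^ m) j k : ℝ) = μ ^ m * v k := by
      intro m
      induction m with
      | zero =>
        intro k
        rw [pow_zero, pow_zero, one_mul, Finset.sum_eq_single k]
        · simp
        · intro j _ hj; simp [hj]
        · simp
      | succ m ih =>
        intro k
        rw [pow_succ]
        simp_rw [Matrix.mul_apply]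
        push_cast
        simp_rw [Finset.mul_sum]
        rw [Finset.sum_comm]
        simp_rw [← mul_assoc, ← Finset.sum_mul, ih, mul_assoc, ← Finset.mul_sum, h]
        ring
    intro k
    rw [Polynomial.aeval_monomial, Polynomial.aeval_monomial]
    have h2 : ∀ j, (((algebraMap ℚ (Matrix (Fin n) (Fin n) ℚ)) a * A ^ m) j k : ℚ) = a * (A ^ m) j k := by
      intro j
      rw [← Algebra.smul_def, Matrix.smul_apply, smul_eq_mul]
    simp_rw [h2]
    push_cast
    have h3 : ∀ j, v j * ((a : ℝ) * ((A ^ m) j k : ℝ)) = (a : ℝ) * (v j * ((A ^ m) j k : ℝ)) := by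
      intro j; ring
    simp_rw [h3]
    rw [← Finset.mul_sum, hpow]
    rw [eq_ratCast]
    ring

theorem irr_of_eigen {L : Fin n → Fin n → ℝ} (hL : (Matrix.of L).det ≠ 0) (hn : 1 ≤ n)
    (hne : ∀ p : Fin n → ℤ, p ≠ 0 → ∀ i, ∑ j, L i j * (p j : ℝ) ≠ 0)
    {A : Matrix (Fin n) (Fin n) ℚ} {μ : Fin n → ℝ} (hμ : Function.Injective μ)
    (h : ∀ i k, ∑ j, L i j * (A j k : ℝ) = μ i * L i k) : Irreducible A.charpoly := by
  classical
  have hrow : ∀ i, ∃ k, L i k ≠ 0 := by
    intro i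
    by_contra hcon
    push Not at hcon
    apply hL
    exact Matrix.det_eq_zero_of_row_eq_zero i hcon
  have hroot : ∀ i, Polynomial.aeval (μ i) A.charpoly = 0 := by
    intro i
    obtain ⟨k, hk⟩ := hrow i
    have h1 := poly_eigen (h i) A.charpoly k
    rw [Matrix.aeval_self_charpoly] at h1
    simp only [Matrix.zero_apply, Rat.cast_zero, mul_zero, Finset.sum_const_zero] at h1
    exact (mul_eq_zero.mp h1.symm).resolve_right hk
  have hnonroot : ∀ g : Polynomial ℚ, g.Monic → g.natDegree < n → ∃ i, Polynomial.aeval (μ i) g ≠ 0 := by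
    intro g hg hdeg
    by_contra hcon
    push Not at hcon
    have h1 : Finset.univ.image μ ⊆ (g.aroots ℝ).toFinset := by
      intro z hz
      obtain ⟨i, -, rfl⟩ := Finset.mem_image.mp hz
      rw [Multiset.mem_toFinset, Polynomial.mem_aroots]
      exact ⟨hg.ne_zero, hcon i⟩
    have h2 := Finset.card_le_card h1
    rw [Finset.card_image_of_injective _ hμ, Finset.card_univ, Fintype.card_fin] at h2
    have h3 : (g.aroots ℝ).toFinset.card ≤ g.natDegree := by
      refine (Multiset.toFinset_card_le _).trans ?_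
      refine (Polynomial.card_roots' _).trans ?_
      rw [Polynomial.natDegree_map]
    omega
  have hdeg := Matrix.charpoly_natDegree_eq_dim A
  rw [Fintype.card_fin] at hdeg
  rw [(Matrix.charpoly_monic A).irreducible_iff_natDegree']
  refine ⟨?_, ?_⟩
  · intro h1
    rw [h1, Polynomial.natDegree_one] at hdeg
    omega
  · intro g f hg hf hgf hf'
    rw [hdeg, Finset.mem_Ioc] at hf'
    have hsum : g.natDegree + f.natDegree = n := by
      rw [← hdeg, ← hgf, hg.natDegree_mul hf]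
    have hgdeg : g.natDegree < n := by omega
    have hfdeg : f.natDegree < n := by
      have := Nat.div_lt_self (show 0 < n by omega) (show 1 < 2 by norm_num)
      omega
    obtain ⟨i₀, hi₀⟩ := hnonroot g hg hgdeg
    obtain ⟨i₁, hi₁⟩ := hnonroot f hf hfdeg
    have hg0 : Polynomial.aeval (μ i₁) g = 0 := by
      have := hroot i₁
      rw [← hgf, map_mul] at this
      exact (mul_eq_zero.mp this).resolve_right hi₁
    -- g(A) nonzero
    obtain ⟨k₀, hk₀⟩ := hrow i₀
    have h2 := poly_eigen (h i₀) g k₀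
    have h3 : ∑ j, L i₀ j * (((Polynomial.aeval A g) j k₀ : ℚ) : ℝ) ≠ 0 := by
      rw [h2]; exact mul_ne_zero hi₀ hk₀
    have h4 := poly_eigen (h i₁) g k₀
    rw [hg0, zero_mul] at h4
    -- clear denominators
    set q : Fin n → ℚ := fun j => (Polynomial.aeval A g) j k₀ with hq
    have hq0 : ∃ j, q j ≠ 0 := by
      by_contra hcon
      push Not at hcon
      apply h3
      refine Finset.sum_eq_zero fun j _ => ?_
      have := hcon j
      simp only [hq] at this
      rw [this]; simp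
    obtain ⟨b, hb⟩ := IsLocalization.exist_integer_multiples_of_finset (nonZeroDivisors ℤ)
      (Finset.univ.image q)
    have hb' : ∀ j, ∃ z : ℤ, (z : ℚ) = (b : ℤ) * q j := by
      intro j
      obtain ⟨z, hz⟩ := hb (q j) (Finset.mem_image_of_mem _ (Finset.mem_univ j))
      refine ⟨z, ?_⟩
      have : ((algebraMap ℤ ℚ) z) = (b : ℤ) • q j := hz
      rw [zsmul_eq_mul] at this
      simpa using this
    choose p hp using hb'
    have hb0 : ((b : ℤ) : ℚ) ≠ 0 := by exact_mod_cast nonZeroDivisors.coe_ne_zero b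
    refine hne p ?_ i₁ ?_
    · intro h0
      obtain ⟨j, hj⟩ := hq0
      have := hp j
      rw [h0] at this
      simp only [Pi.zero_apply, Int.cast_zero] at this
      exact mul_ne_zero hb0 hj this.symm
    · have h5 : ∀ j, (p j : ℝ) = ((b : ℤ) : ℝ) * ((q j : ℚ) : ℝ) := by
        intro j
        have := hp j
        exact_mod_cast this
      simp_rw [h5]
      have h6 : ∀ j, L i₁ j * (((b : ℤ) : ℝ) * ((q j : ℚ) : ℝ)) = ((b : ℤ) : ℝ) * (L i₁ j * ((q j : ℚ) : ℝ)) := by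
        intro j; ring
      simp_rw [h6]
      rw [← Finset.mul_sum, h4, mul_zero]

end orbit

end Pool.Agent.Work.MP_77d073_nt
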