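import Mathlib
import Pool.Agent.Work.MP_77d073_nt.Orbit

set_option autoImplicit false

namespace Pool.Agent.Work.MP_77d073_nt

open Module Filter Topology

section disc

variable {n : ℕ}

theorem eigen_of_hyper {v : Fin n → ℝ} (hv : v ≠ 0) {B : Matrix (Fin n) (Fin n) ℝ}
    (hinv : ∀ x : Fin n → ℝ, ∑ j, v j * x j = 0 → ∑ j, v j * (B.mulVec x) j = 0) :
    ∃ μ : ℝ, ∀ k, ∑ j, v j * B j k = μ * v k := by
  classical
  obtain ⟨j0, hj0⟩ : ∃ j, v j ≠ 0 := by
    by_contra hcon
    push Not at hcon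
    exact hv (funext hcon)
  set F : (Fin n → ℝ) → ℝ := fun x => ∑ j, v j * (B.mulVec x) j with hF
  have hFadd : ∀ (x y : Fin n → ℝ) (a : ℝ), F (x + a • y) = F x + a * F y := by
    intro x y a
    simp only [hF, Matrix.mulVec_add, Matrix.mulVec_smul, Pi.add_apply, Pi.smul_apply, smul_eq_mul]
    rw [Finset.mul_sum, ← Finset.sum_add_distrib]
    refine Finset.sum_congr rfl fun j _ => ?_
    ring
  have hFe : ∀ k, F (Pi.single k 1) = ∑ j, v j * B j k := by
    intro k
    simp only [hF]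
    refine Finset.sum_congr rfl fun j _ => ?_
    simp
  refine ⟨F (Pi.single j0 1) / v j0, fun k => ?_⟩
  have h1 := hinv (Pi.single k 1 + (-(v k / v j0)) • Pi.single j0 1) (by
    simp only [Pi.add_apply, Pi.smul_apply, smul_eq_mul, mul_add, Finset.sum_add_distrib]
    have h2 : ∑ j, v j * (Pi.single k (1 : ℝ) : Fin n → ℝ) j = v k := by
      simp [Pi.single_apply]
    have h3 : ∑ j, v j * (-(v k / v j0) * (Pi.single j0 (1 : ℝ) : Fin n → ℝ) j) = - v k := by
      rw [Finset.sum_eq_single j0]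
      · simp only [Pi.single_eq_same]
        field_simp
      · intro j _ hj
        simp [hj]
      · simp
    rw [h2, h3]; ring)
  have h4 := hFadd (Pi.single k 1) (Pi.single j0 1) (-(v k / v j0))
  have h5 : F (Pi.single k 1 + (-(v k / v j0)) • Pi.single j0 1) = 0 := h1
  rw [h5] at h4
  rw [← hFe]
  field_simp
  field_simp at h4
  linarith

theorem eigen_injective {L : Fin n → Fin n → ℝ} (hL : (Matrix.of L).det ≠ 0)
    {A : Matrix (Fin n) (Fin n) ℤ} (hA : Irreducible (A.charpoly.map (Int.castRingHom ℚ)))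
    {μ : Fin n → ℝ} (h : ∀ i k, ∑ j, L i j * (A j k : ℝ) = μ i * L i k) :
    Function.Injective μ := by
  classical
  have hu : IsUnit (Matrix.of L) := (Matrix.isUnit_iff_isUnit_det _).mpr (isUnit_iff_ne_zero.mpr hL)
  obtain ⟨u, hu⟩ := hu
  set AR : Matrix (Fin n) (Fin n) ℝ := A.map (Int.castRingHom ℝ) with hAR
  have h1 : Matrix.of L * AR = Matrix.diagonal μ * Matrix.of L := by
    ext i k
    rw [Matrix.mul_apply, Matrix.diagonal_mul]
    simpa [hAR] using h i k
  have h2 : (u : Matrix (Fin n) (Fin n) ℝ) * AR * (u : Matrix (Fin n) (Fin n) ℝ)⁻¹ =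
      Matrix.diagonal μ := by
    rw [hu, h1, mul_assoc, Matrix.mul_nonsing_inv _ (isUnit_iff_ne_zero.mpr hL), mul_one]
  have h3 : AR.charpoly = ∏ i, (Polynomial.X - Polynomial.C (μ i)) := by
    rw [← Matrix.charpoly_units_conj u AR, h2, Matrix.charpoly_diagonal]
  have h4 : AR.charpoly.Separable := by
    have h5 : (A.charpoly.map (Int.castRingHom ℚ)).Separable := hA.separable
    have h6 := h5.map (f := Rat.castHom ℝ)
    rw [Polynomial.map_map] at h6
    have h7 : (Rat.castHom ℝ).comp (Int.castRingHom ℚ) = Int.castRingHom ℝ := RingHom.ext_int _ _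
    rw [h7, ← Matrix.charpoly_map] at h6
    exact h6
  rw [h3, Polynomial.separable_prod_X_sub_C_iff] at h4
  exact h4

theorem values_of_matrix {L : Fin n → Fin n → ℝ}
    {A : Matrix (Fin n) (Fin n) ℤ} {μ : Fin n → ℝ} (hμ : Function.Injective μ)
    (h : ∀ i k, ∑ j, L i j * (A j k : ℝ) = μ i * L i k) :
    ∃ C : ℝ, ∀ p : Fin n → ℤ, ∃ z : ℤ, val L (fun j => (p j : ℝ)) = C * z := by
  classical
  have hV : (Matrix.vandermonde μ).det ≠ 0 := Matrix.det_vandermonde_ne_zero_iff.mpr hμ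
  refine ⟨(Matrix.of L).det / (Matrix.vandermonde μ).det, fun p => ?_⟩
  set P : Matrix (Fin n) (Fin n) ℤ := fun l k => ((A ^ (k : ℕ)).mulVec p) l with hP
  refine ⟨P.det, ?_⟩
  have hstep : ∀ (q : Fin n → ℤ) (i : Fin n), ∑ l, L i l * ((A.mulVec q l : ℤ) : ℝ) =
      μ i * ∑ l, L i l * (q l : ℝ) := by
    intro q i
    have h1 : ∀ l, L i l * ((A.mulVec q l : ℤ) : ℝ) = ∑ j, L i l * (A l j : ℝ) * (q j : ℝ) := by
      intro l
      simp only [Matrix.mulVec, dotProduct]
      push_cast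
      rw [Finset.mul_sum]
      refine Finset.sum_congr rfl fun j _ => ?_
      ring
    simp_rw [h1]
    rw [Finset.sum_comm]
    simp_rw [← Finset.sum_mul, h, mul_assoc]
    rw [← Finset.mul_sum]
  have hpow : ∀ (k : ℕ) (i : Fin n), ∑ l, L i l * (((A ^ k).mulVec p l : ℤ) : ℝ) =
      μ i ^ k * ∑ l, L i l * (p l : ℝ) := by
    intro k
    induction k with
    | zero => intro i; simp
    | succ k ih =>
      intro i
      rw [pow_succ' A, ← Matrix.mulVec_mulVec, hstep, ih, pow_succ]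
      ring
  have hmat : Matrix.of L * P.map (Int.castRingHom ℝ) =
      Matrix.diagonal (fun i => ∑ l, L i l * (p l : ℝ)) * Matrix.vandermonde μ := by
    ext i k
    rw [Matrix.mul_apply, Matrix.diagonal_mul, Matrix.vandermonde_apply, mul_comm, ← hpow]
    rfl
  have hdet := congrArg Matrix.det hmat
  rw [Matrix.det_mul, Matrix.det_mul, Matrix.det_diagonal, ← RingHom.mapMatrix_apply,
    ← RingHom.map_det] at hdet
  unfold val
  rw [div_mul_eq_mul_div, eq_div_iff hV, ← hdet]
  simp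

end disc

end Pool.Agent.Work.MP_77d073_nt
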