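import Mathlib
import Pool.Agent.Work.MP_77d073_nt.Disc
import Pool.Agent.Work.MP_77d073_nt.HypResult

set_option autoImplicit false

namespace Pool.Agent.Work.MP_77d073_nt

open Module Filter Topology

section pair

variable {n : ℕ}

theorem concl_of_isolated (hn : 3 ≤ n) {c D β : ℝ} (hc : 0 < c) (hD : 0 < D)
    {L : Fin n → Fin n → ℝ} (hdet : |(Matrix.of L).det| = D)
    (hlow : ∀ p : Fin n → ℤ, p ≠ 0 → c ≤ |∏ i, ∑ j, L i j * (p j : ℝ)|)
    {Y : Set (Fin n → Fin n → ℝ)} (hYS : Y ⊆ closure (orb L)) (hY : CI Y)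
    (hbox : ∀ L ∈ Y, ∃ M : Matrix (Fin n) (Fin n) ℤ, Uni M ∧ tr L M 1 ∈ Y ∩ box n β)
    (hmin : ∀ Z ⊆ Y, CI Z → Z.Nonempty → Z = Y) {L₀ : Fin n → Fin n → ℝ} (hL₀ : L₀ ∈ Y)
    {U : Set (Fin n → Fin n → ℝ)} (hU : IsOpen U) (hL₀U : L₀ ∈ U)
    (hiso : ∀ L ∈ Y ∩ U, ∃ s : Fin n → ℝ, (∀ i, 3 / 4 < s i ∧ s i < 3 / 2) ∧ ∏ i, s i = 1 ∧
        ∀ i j, L i j = s i * L₀ i j) :
    ∃ A : Matrix (Fin n) (Fin n) ℤ,
        A.det = 1 ∧
        Irreducible (A.charpoly.map (Int.castRingHom ℚ)) ∧
        (∀ z : ℂ, Polynomial.aeval z A.charpoly = 0 → z.im = 0) ∧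
        ∀ i : Fin n, ∀ x : Fin n → ℝ, ∑ j, L i j * x j = 0 →
          ∑ j, L i j * ((A.map (Int.cast : ℤ → ℝ)).mulVec x) j = 0 := by
  classical
  have hn1 : 1 ≤ n := by omega
  have hG : Good c D (closure (orb L)) :=
    ⟨fun L' hL' => (orb_det hL').trans hdet, fun L' hL' => orb_lower hL' hlow⟩
  have hGY := hG.mono hYS
  obtain ⟨A, hA, μ, hμinj, hμ⟩ := exists_eigen hn1 hY hbox hmin hL₀ hU hL₀U hiso
  have hLdet : (Matrix.of L).det ≠ 0 := by
    intro h0; rw [h0, abs_zero] at hdet; exact hD.ne hdet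
  obtain ⟨M, t, hM, ht, hlim⟩ := mem_closure_orb (hYS hL₀)
  have hirr : Irreducible (A.map (Int.castRingHom ℚ)).charpoly := by
    refine irr_of_eigen (hGY.ne hD hL₀) hn1 ?_ hμinj (fun i k => ?_)
    · intro p hp i h0
      have h1 := hGY.low L₀ hL₀ p hp
      rw [Finset.prod_eq_zero (Finset.mem_univ i) h0, abs_zero] at h1
      linarith
    · rw [← hμ i k]
      refine Finset.sum_congr rfl fun j _ => ?_
      simp
  refine Pool.Agent.Work.MP_77d073_nt.HypResult.result n hn L
    ((li_iff_det L).mpr hLdet) ⟨c, hc, hlow⟩ M t L₀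
    (fun k => (hM k).ne_zero) ht hlim ⟨0, by omega⟩ (A.map (Int.castRingHom ℚ)) hirr ?_
  intro x hx
  have h1 : ∀ j, (((A.map (Int.castRingHom ℚ)).map (Rat.cast : ℚ → ℝ)).mulVec x) j =
      ∑ k, (A j k : ℝ) * x k := by
    intro j
    simp [Matrix.mulVec, dotProduct]
  simp_rw [h1, Finset.mul_sum]
  rw [Finset.sum_comm]
  simp_rw [← mul_assoc, ← Finset.sum_mul, hμ, mul_assoc]
  rw [← Finset.mul_sum, hx, mul_zero]

/-- the diagonal vector scaling one pair of coordinates -/
noncomputable def tv (i j : Fin n) (r : ℝ) : Fin n → ℝ := fun a => if a = i then r⁻¹ else if a = j then r else 1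

theorem tv_pos {i j : Fin n} {r : ℝ} (hr : 0 < r) (a : Fin n) : 0 < tv i j r a := by
  unfold tv
  split_ifs <;> positivity

theorem tv_prod {i j : Fin n} (hij : i ≠ j) {r : ℝ} (hr : 0 < r) : ∏ a, tv i j r a = 1 := by
  classical
  rw [← Finset.mul_prod_erase _ _ (Finset.mem_univ i),
    ← Finset.mul_prod_erase _ _ (Finset.mem_erase.mpr ⟨hij.symm, Finset.mem_univ j⟩)]
  rw [Finset.prod_eq_one]
  · simp only [tv, if_true, if_neg hij.symm, mul_one]
    exact inv_mul_cancel₀ hr.ne'
  · intro a ha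
    rw [Finset.mem_erase, Finset.mem_erase] at ha
    simp [tv, ha.1, ha.2.1]

theorem tv_ratio {i j : Fin n} (hij : i ≠ j) {r : ℝ} (hr : 0 < r) (hr1 : r ≤ 1) {a b : Fin n}
    (hab : ¬ (a = i ∧ b = j)) : tv i j r a / tv i j r b ≤ r⁻¹ := by
  have h1 : 1 ≤ r⁻¹ := (one_le_inv₀ hr).mpr hr1
  have h2 : r ≤ r⁻¹ := hr1.trans h1
  have h3 : r * r ≤ r⁻¹ := by nlinarith
  unfold tv
  by_cases hai : a = i
  · subst hai
    have hbj : b ≠ j := fun h => hab ⟨rfl, h⟩
    by_cases hba : b = a
    · subst hba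
      simp only [if_true]
      rw [div_self (inv_ne_zero hr.ne')]
      exact h1
    · simp [hba, hbj]
  · by_cases haj : a = j
    · subst haj
      by_cases hbi : b = i
      · subst hbi
        simp only [if_true, if_neg hai, div_inv_eq_mul]
        exact h3
      · by_cases hba : b = a
        · subst hba
          simp only [if_true, if_neg hbi]
          rw [div_self hr.ne']
          exact h1
        · simp [hai, hbi, hba, h2]
    · by_cases hbi : b = i
      · subst hbi
        simp [hai, haj, h2]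
      · by_cases hbj : b = j
        · subst hbj
          simp [hai, haj, hbi]
        · simp [hai, haj, hbi, hbj, h1]

theorem pair_of_not_isolated {c D β : ℝ} (hD : 0 < D)
    {Y : Set (Fin n → Fin n → ℝ)} (hY : CI Y) (hG : Good c D Y)
    (hbox : ∀ L ∈ Y, ∃ M : Matrix (Fin n) (Fin n) ℤ, Uni M ∧ tr L M 1 ∈ Y ∩ box n β)
    {L₀ : Fin n → Fin n → ℝ} (hL₀ : L₀ ∈ Y)
    (hnot : ∀ U : Set (Fin n → Fin n → ℝ), IsOpen U → L₀ ∈ U → ∃ L ∈ Y ∩ U,
      ¬ ∃ s : Fin n → ℝ, (∀ i, 3 / 4 < s i ∧ s i < 3 / 2) ∧ ∏ i, s i = 1 ∧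
        ∀ i j, L i j = s i * L₀ i j) :
    ∃ L' ∈ Y, ∃ L'' ∈ Y, ∃ i j : Fin n, i ≠ j ∧
      ∀ a b, L'' a b = L' a b + if a = i then L' j b else 0 := by
  classical
  have hL : (Matrix.of L₀).det ≠ 0 := hG.ne hD hL₀
  set R : Matrix (Fin n) (Fin n) ℝ := (Matrix.of L₀)⁻¹ with hR
  have hunit : IsUnit (Matrix.of L₀).det := isUnit_iff_ne_zero.mpr hL
  have hRL : R * Matrix.of L₀ = 1 := Matrix.nonsing_inv_mul _ hunit
  have hLR : Matrix.of L₀ * R = 1 := Matrix.mul_nonsing_inv _ hunit
  set H : (Fin n → Fin n → ℝ) → Fin n → Fin n → ℝ := fun L i k => ∑ j, L i j * R j k with hH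
  have hHcont : ∀ i k, Continuous fun L => H L i k := by
    intro i k
    simp only [hH]
    fun_prop
  have hH0 : ∀ i k, H L₀ i k = if i = k then 1 else 0 := by
    intro i k
    have := congrFun (congrFun hLR i) k
    rw [Matrix.mul_apply, Matrix.one_apply] at this
    exact this
  have hrec : ∀ L i j, L i j = ∑ k, H L i k * L₀ k j := by
    intro L i j
    simp only [hH, Finset.sum_mul]
    rw [Finset.sum_comm]
    have h2 : ∀ l, ∑ k, L i l * R l k * L₀ k j = L i l * (if l = j then 1 else 0) := by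
      intro l
      have h3 := congrFun (congrFun hRL l) j
      rw [Matrix.mul_apply, Matrix.one_apply] at h3
      rw [← h3, Finset.mul_sum]
      refine Finset.sum_congr rfl fun k _ => ?_
      simp only [Matrix.of_apply]
      ring
    simp_rw [h2]
    simp
  -- the approximating sequence
  have hseq : ∀ k : ℕ, ∃ L ∈ Y, (∀ a b, |H L a b - if a = b then 1 else 0| < 1 / ((k : ℝ) + 4)) ∧
      ∃ i j : Fin n, i ≠ j ∧ H L i j ≠ 0 ∧ ∀ a b, a ≠ b → |H L a b| ≤ |H L i j| := by
    intro k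
    have hk0 : (0 : ℝ) < 1 / ((k : ℝ) + 4) := by positivity
    obtain ⟨L, ⟨hLY, hLU⟩, hLn⟩ := hnot
      (⋂ a, ⋂ b, {L | |H L a b - if a = b then 1 else 0| < 1 / ((k : ℝ) + 4)}) (by
        apply isOpen_iInter_of_finite; intro a
        apply isOpen_iInter_of_finite; intro b
        exact isOpen_lt ((hHcont a b).sub continuous_const).abs continuous_const) (by
        simp only [Set.mem_iInter]
        intro a b
        show |H L₀ a b - if a = b then 1 else 0| < 1 / ((k : ℝ) + 4)
        rw [hH0, sub_self, abs_zero]; exact hk0)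
    simp only [Set.mem_iInter] at hLU
    have hLU' : ∀ a b, |H L a b - if a = b then 1 else 0| < 1 / ((k : ℝ) + 4) := hLU
    refine ⟨L, hLY, hLU', ?_⟩
    have hk4 : 1 / ((k : ℝ) + 4) ≤ 1 / 4 := by
      apply one_div_le_one_div_of_le (by norm_num)
      have : (0 : ℝ) ≤ k := Nat.cast_nonneg k
      linarith
    have hoff : ∃ ab : Fin n × Fin n, ab.1 ≠ ab.2 ∧ H L ab.1 ab.2 ≠ 0 := by
      by_contra hcon
      push Not at hcon
      apply hLn
      have hdiag : ∀ a b, a ≠ b → H L a b = 0 := fun a b hab => hcon (a, b) hab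
      have hs : ∀ a, 3 / 4 < H L a a ∧ H L a a < 3 / 2 := by
        intro a
        have h1 := hLU' a a
        rw [if_pos rfl, abs_lt] at h1
        constructor <;> linarith [h1.1, h1.2]
      have hrel : ∀ i j, L i j = H L i i * L₀ i j := by
        intro i j
        rw [hrec L i j, Finset.sum_eq_single i]
        · intro k _ hk
          rw [hdiag i k (Ne.symm hk), zero_mul]
        · simp
      refine ⟨fun a => H L a a, hs, ?_, hrel⟩
      have h1 : Matrix.of L = Matrix.diagonal (fun a => H L a a) * Matrix.of L₀ := by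
        ext i j
        rw [Matrix.diagonal_mul]
        exact hrel i j
      have h2 := congrArg (fun Z : Matrix (Fin n) (Fin n) ℝ => |Z.det|) h1
      simp only [Matrix.det_mul, Matrix.det_diagonal, abs_mul] at h2
      rw [hG.det L hLY, hG.det L₀ hL₀] at h2
      have h3 : |∏ a, H L a a| = 1 := by
        have : |∏ a, H L a a| * D = 1 * D := by rw [one_mul]; exact h2.symm
        exact mul_right_cancel₀ hD.ne' this
      have h4 : 0 < ∏ a, H L a a := Finset.prod_pos fun a _ => by linarith [(hs a).1]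
      rwa [abs_of_pos h4] at h3
    obtain ⟨ab₀, hab₀, hne₀⟩ := hoff
    obtain ⟨ij, hij, hmax⟩ := Finset.exists_max_image
      (Finset.univ.filter fun ab : Fin n × Fin n => ab.1 ≠ ab.2) (fun ab => |H L ab.1 ab.2|)
      ⟨ab₀, by simpa using hab₀⟩
    rw [Finset.mem_filter] at hij
    refine ⟨ij.1, ij.2, hij.2, ?_, fun a b hab => hmax (a, b) (by simpa using hab)⟩
    intro h0
    have := hmax ab₀ (by simpa using hab₀)
    rw [h0, abs_zero] at this
    exact hne₀ (abs_nonpos_iff.mp this)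
  choose X hXY hXnear I J hIJ hIJ0 hIJmax using hseq
  set r : ℕ → ℝ := fun k => Real.sqrt |H (X k) (I k) (J k)| with hr
  have hr0 : ∀ k, 0 < r k := fun k => Real.sqrt_pos.mpr (abs_pos.mpr (hIJ0 k))
  have hrsq : ∀ k, r k * r k = |H (X k) (I k) (J k)| := fun k => Real.mul_self_sqrt (abs_nonneg _)
  have hrlt : ∀ k, r k * r k < 1 / ((k : ℝ) + 4) := by
    intro k
    rw [hrsq]
    have := hXnear k (I k) (J k)
    rwa [if_neg (hIJ k), sub_zero] at this
  have hr1 : ∀ k, r k ≤ 1 := by
    intro k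
    have h1 := hrlt k
    have h2 : 1 / ((k : ℝ) + 4) ≤ 1 := by
      rw [div_le_one (by positivity)]
      have : (0 : ℝ) ≤ k := Nat.cast_nonneg k
      linarith
    by_contra h3
    push Not at h3
    nlinarith
  have hrtend : Tendsto r atTop (𝓝 0) := by
    have h1 : Tendsto (fun k : ℕ => Real.sqrt (1 / ((k : ℝ) + 4))) atTop (𝓝 0) := by
      have h2 : Tendsto (fun k : ℕ => 1 / ((k : ℝ) + 4)) atTop (𝓝 0) := by
        apply Tendsto.div_atTop tendsto_const_nhds
        exact tendsto_atTop_add_const_right _ _ tendsto_natCast_atTop_atTop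
      have h3 := (Real.continuous_sqrt.tendsto 0).comp h2
      rw [Real.sqrt_zero] at h3
      exact h3
    refine squeeze_zero (fun k => (hr0 k).le) (fun k => ?_) h1
    apply Real.le_sqrt_of_sq_le
    rw [sq]
    exact (hrlt k).le
  set G : ℕ → Fin n → Fin n → ℝ := fun k a b =>
    tv (I k) (J k) (r k) a / tv (I k) (J k) (r k) b * H (X k) a b with hGdef
  have hprod1 : ∀ k, ∏ a, tv (I k) (J k) (r k) a = 1 := fun k => tv_prod (hIJ k) (hr0 k)
  have hM : ∀ k, ∃ M : Matrix (Fin n) (Fin n) ℤ, Uni M ∧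
      tr L₀ M (tv (I k) (J k) (r k)) ∈ Y ∩ box n β := by
    intro k
    obtain ⟨M, hM, hMY⟩ := hbox _ (hY.inv L₀ hL₀ 1 (tv (I k) (J k) (r k)) (Or.inl (by simp)) (hprod1 k))
    refine ⟨M, hM, ?_⟩
    rw [tr_tr, one_mul, one_mul] at hMY
    exact hMY
  choose M hM1 hMY using hM
  have hrelG : ∀ k a b, tr (X k) (M k) (tv (I k) (J k) (r k)) a b =
      ∑ c, G k a c * tr L₀ (M k) (tv (I k) (J k) (r k)) c b := by
    intro k a b
    simp only [hGdef, tr]
    have h1 : ∀ c, tv (I k) (J k) (r k) a / tv (I k) (J k) (r k) c * H (X k) a c *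
        (tv (I k) (J k) (r k) c * ∑ l, L₀ c l * (M k l b : ℝ)) =
        tv (I k) (J k) (r k) a * (H (X k) a c * ∑ l, L₀ c l * (M k l b : ℝ)) := by
      intro c
      have := (tv_pos (i := I k) (j := J k) (hr0 k) c).ne'
      field_simp
    simp_rw [h1]
    rw [← Finset.mul_sum]
    congr 1
    simp_rw [Finset.mul_sum]
    rw [Finset.sum_comm]
    refine Finset.sum_congr rfl fun l _ => ?_
    rw [hrec (X k) a l, Finset.sum_mul]
    refine Finset.sum_congr rfl fun c _ => ?_
    ring
  -- pigeonhole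
  obtain ⟨⟨i, j, ε⟩, hfreq⟩ : ∃ q : Fin n × Fin n × Bool, ∃ᶠ k in atTop,
      I k = q.1 ∧ J k = q.2.1 ∧ H (X k) (I k) (J k) = (if q.2.2 then 1 else -1) * |H (X k) (I k) (J k)| := by
    by_contra hcon
    rw [not_exists] at hcon
    have h1 : ∀ q : Fin n × Fin n × Bool, ∀ᶠ k in atTop, ¬ (I k = q.1 ∧ J k = q.2.1 ∧
        H (X k) (I k) (J k) = (if q.2.2 then 1 else -1) * |H (X k) (I k) (J k)|) := by
      intro q
      exact not_frequently.mp (hcon q)
    have h2 := eventually_all.mpr h1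
    obtain ⟨k, hk⟩ := h2.exists
    by_cases hsgn : 0 ≤ H (X k) (I k) (J k)
    · exact hk (I k, J k, true) ⟨rfl, rfl, by simp [abs_of_nonneg hsgn]⟩
    · push Not at hsgn
      exact hk (I k, J k, false) ⟨rfl, rfl, by simp [abs_of_neg hsgn]⟩
  obtain ⟨φ, hφ, hφP⟩ := extraction_of_frequently_atTop hfreq
  obtain ⟨L', hL'box, ψ, hψ, hlim⟩ := (box_compact β).tendsto_subseq (fun k => (hMY (φ k)).2)
  have hij : i ≠ j := by
    have h1 := hφP 0
    simp only at h1
    rw [← h1.1, ← h1.2.1]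
    exact hIJ _
  have hφψ : Tendsto (fun k => φ (ψ k)) atTop atTop := hφ.tendsto_atTop.comp hψ.tendsto_atTop
  have hL'Y : L' ∈ Y := hY.closed.mem_of_tendsto hlim (Eventually.of_forall fun k => (hMY _).1)
  set e : ℝ := if ε then 1 else -1 with he
  have hGlim : ∀ a b, Tendsto (fun k => G (φ (ψ k)) a b) atTop
      (𝓝 (if a = b then 1 else if a = i ∧ b = j then e else 0)) := by
    intro a b
    by_cases hab : a = b
    · subst hab
      rw [if_pos rfl]
      have h1 : ∀ k, G k a a = H (X k) a a := by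
        intro k
        simp only [hGdef]
        rw [div_self (tv_pos (hr0 k) a).ne', one_mul]
      simp_rw [h1]
      have h2 : Tendsto (fun k => H (X k) a a) atTop (𝓝 1) := by
        rw [tendsto_iff_norm_sub_tendsto_zero]
        have h3 : Tendsto (fun k : ℕ => 1 / ((k : ℝ) + 4)) atTop (𝓝 0) := by
          apply Tendsto.div_atTop tendsto_const_nhds
          exact tendsto_atTop_add_const_right _ _ tendsto_natCast_atTop_atTop
        refine squeeze_zero (fun k => norm_nonneg _) (fun k => ?_) h3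
        have := hXnear k a a
        rw [if_pos rfl] at this
        exact this.le
      exact h2.comp hφψ
    · rw [if_neg hab]
      by_cases hab2 : a = i ∧ b = j
      · rw [if_pos hab2]
        obtain ⟨rfl, rfl⟩ := hab2
        have h1 : ∀ k, G (φ (ψ k)) a b = e := by
          intro k
          obtain ⟨hI, hJ, hsg⟩ := hφP (ψ k)
          simp only [hGdef]
          simp only at hI hJ hsg
          rw [← hI, ← hJ]
          have h2 : tv (I (φ (ψ k))) (J (φ (ψ k))) (r (φ (ψ k))) (I (φ (ψ k))) = (r (φ (ψ k)))⁻¹ := by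
            simp [tv]
          have h3 : tv (I (φ (ψ k))) (J (φ (ψ k))) (r (φ (ψ k))) (J (φ (ψ k))) = r (φ (ψ k)) := by
            simp [tv, (hIJ (φ (ψ k))).symm]
          rw [h2, h3, hsg, ← hrsq]
          have := (hr0 (φ (ψ k))).ne'
          field_simp
        simp_rw [h1]
        exact tendsto_const_nhds
      · rw [if_neg hab2]
        rw [tendsto_zero_iff_norm_tendsto_zero]
        refine squeeze_zero (fun k => norm_nonneg _) (fun k => ?_) (hrtend.comp hφψ)
        obtain ⟨hI, hJ, -⟩ := hφP (ψ k)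
        simp only at hI hJ
        simp only [hGdef, Function.comp]
        rw [norm_mul, Real.norm_eq_abs, Real.norm_eq_abs,
          abs_of_pos (div_pos (tv_pos (hr0 _) a) (tv_pos (hr0 _) b))]
        have h1 : tv (I (φ (ψ k))) (J (φ (ψ k))) (r (φ (ψ k))) a /
            tv (I (φ (ψ k))) (J (φ (ψ k))) (r (φ (ψ k))) b ≤ (r (φ (ψ k)))⁻¹ := by
          apply tv_ratio (hIJ _) (hr0 _) (hr1 _)
          rw [hI, hJ]
          exact hab2
        have h2 := hIJmax (φ (ψ k)) a b hab
        rw [← hrsq] at h2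
        calc _ ≤ (r (φ (ψ k)))⁻¹ * (r (φ (ψ k)) * r (φ (ψ k))) := by
              apply mul_le_mul h1 h2 (abs_nonneg _) (inv_nonneg.mpr (hr0 _).le)
          _ = r (φ (ψ k)) := by
              have := (hr0 (φ (ψ k))).ne'
              field_simp
  have hlim' : ∀ a b, Tendsto (fun k => tr L₀ (M (φ (ψ k)))
      (tv (I (φ (ψ k))) (J (φ (ψ k))) (r (φ (ψ k)))) a b) atTop (𝓝 (L' a b)) := by
    intro a b
    exact (tendsto_pi_nhds.mp ((tendsto_pi_nhds.mp hlim) a)) b
  set L'' : Fin n → Fin n → ℝ := fun a b => L' a b + if a = i then e * L' j b else 0 with hL''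
  have hL''Y : L'' ∈ Y := by
    refine hY.closed.mem_of_tendsto (f := fun k => tr (X (φ (ψ k))) (M (φ (ψ k)))
      (tv (I (φ (ψ k))) (J (φ (ψ k))) (r (φ (ψ k))))) (b := atTop) ?_
      (Eventually.of_forall fun k => hY.inv _ (hXY _) _ _ (hM1 _) (hprod1 _))
    refine tendsto_pi_nhds.mpr fun a => tendsto_pi_nhds.mpr fun b => ?_
    refine Tendsto.congr (fun k => (hrelG (φ (ψ k)) a b).symm) ?_
    have h1 : L'' a b = ∑ c, (if a = c then 1 else if a = i ∧ c = j then e else 0) * L' c b := by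
      show L' a b + (if a = i then e * L' j b else 0) = _
      by_cases hai : a = i
      · subst hai
        have h2 : ∀ c, (if a = c then (1 : ℝ) else if a = a ∧ c = j then e else 0) * L' c b =
            (if c = a then L' c b else 0) + (if c = j then e * L' c b else 0) := by
          intro c
          by_cases hca : c = a
          · subst hca
            simp [hij]
          · simp only [if_neg (Ne.symm hca), if_neg hca]
            by_cases hcj : c = j
            · simp [hcj]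
            · simp [hcj]
        rw [Finset.sum_congr rfl fun c _ => h2 c, Finset.sum_add_distrib]
        simp
      · simp [hai]
    rw [h1]
    exact tendsto_finsetSum _ fun c _ => (hGlim a c).mul (hlim' c b)
  by_cases hε : ε = true
  · refine ⟨L', hL'Y, L'', hL''Y, i, j, hij, fun a b => ?_⟩
    simp only [hL'', he, hε, if_true, one_mul]
  · refine ⟨L'', hL''Y, L', hL'Y, i, j, hij, fun a b => ?_⟩
    simp only [hL'', he, if_neg hε, if_neg hij.symm]
    by_cases hai : a = i
    · simp [hai]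
    · simp [hai]

end pair

end Pool.Agent.Work.MP_77d073_nt
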