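import Mathlib
import Pool.Agent.Work.MP_77d073_nt.Pair

set_option autoImplicit false

namespace Pool.Agent.Work.MP_77d073_nt

open Module Filter Topology

section pairb

variable {n : ℕ}

/-- Two systems with an eigenmatrix each which share a row cannot differ by an elementary change
of another row. -/
theorem no_pair {L' L'' : Fin n → Fin n → ℝ} (hL' : (Matrix.of L').det ≠ 0)
    (hne : ∀ p : Fin n → ℤ, p ≠ 0 → ∀ i, ∑ j, L' i j * (p j : ℝ) ≠ 0)
    {A' A'' : Matrix (Fin n) (Fin n) ℤ} {μ' μ'' : Fin n → ℝ}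
    (hμ' : Function.Injective μ') (hμ'' : Function.Injective μ'')
    (h' : ∀ i k, ∑ j, L' i j * (A' j k : ℝ) = μ' i * L' i k)
    (h'' : ∀ i k, ∑ j, L'' i j * (A'' j k : ℝ) = μ'' i * L'' i k)
    {i j : Fin n} (hij : i ≠ j) (hpair : ∀ a b, L'' a b = L' a b + if a = i then L' j b else 0) :
    False := by
  classical
  have hrowj : L'' j = L' j := by
    funext b; rw [hpair, if_neg hij.symm, add_zero]
  -- real matrices
  set R' : Matrix (Fin n) (Fin n) ℝ := A'.map (Int.castRingHom ℝ) with hR'
  set R'' : Matrix (Fin n) (Fin n) ℝ := A''.map (Int.castRingHom ℝ) with hR''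
  have e' : ∀ i, Matrix.vecMul (L' i) R' = μ' i • L' i := by
    intro i; funext k
    have := h' i k
    simpa [Matrix.vecMul, dotProduct, hR'] using this
  have e'' : ∀ i, Matrix.vecMul (L'' i) R'' = μ'' i • L'' i := by
    intro i; funext k
    have := h'' i k
    simpa [Matrix.vecMul, dotProduct, hR''] using this
  -- commutation
  have hcomm : A' * A'' = A'' * A' := by
    have h1 : ∀ k, (fun l => (A' * A'' - A'' * A') l k) = 0 := by
      intro k
      by_contra hcon
      apply hne _ hcon j
      have h2 : Matrix.vecMul (L' j) (R' * R'' - R'' * R') = 0 := by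
        rw [Matrix.vecMul_sub, ← Matrix.vecMul_vecMul, ← Matrix.vecMul_vecMul, e' j, ← hrowj, e'' j,
          Matrix.smul_vecMul, Matrix.smul_vecMul, e'' j, hrowj, e' j, smul_smul, smul_smul, mul_comm,
          sub_self]
      have h3 : (A' * A'' - A'' * A').map (Int.castRingHom ℝ) = R' * R'' - R'' * R' := by
        rw [hR', hR'', Matrix.map_sub _ (by simp), Matrix.map_mul, Matrix.map_mul]
      have h4 := congrFun h2 k
      rw [← h3] at h4
      simpa [Matrix.vecMul, dotProduct] using h4
    ext l k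
    have := congrFun (h1 k) l
    simp only [Matrix.sub_apply, Pi.zero_apply] at this
    linarith
  have hcommR : R' * R'' = R'' * R' := by
    rw [hR', hR'', ← Matrix.map_mul, ← Matrix.map_mul, hcomm]
  -- each row of L' is an eigenrow of A''
  have hLI : LinearIndependent ℝ L' := (li_iff_det L').mpr hL'
  have hspan : ∀ v : Fin n → ℝ, ∃ a : Fin n → ℝ, v = ∑ l, a l • L' l := by
    intro v
    have hunit : IsUnit (Matrix.of L').det := isUnit_iff_ne_zero.mpr hL'
    refine ⟨Matrix.vecMul v (Matrix.of L')⁻¹, ?_⟩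
    have h1 : Matrix.vecMul (Matrix.vecMul v (Matrix.of L')⁻¹) (Matrix.of L') = v := by
      rw [Matrix.vecMul_vecMul, Matrix.nonsing_inv_mul _ hunit, Matrix.vecMul_one]
    conv_lhs => rw [← h1]
    funext k
    simp [Matrix.vecMul, dotProduct, Finset.sum_apply]
  have hlam : ∀ m, ∃ lam : ℝ, Matrix.vecMul (L' m) R'' = lam • L' m := by
    intro m
    obtain ⟨a, ha⟩ := hspan (Matrix.vecMul (L' m) R'')
    have h1 : Matrix.vecMul (Matrix.vecMul (L' m) R'') R' = μ' m • Matrix.vecMul (L' m) R'' := by
      rw [Matrix.vecMul_vecMul, ← hcommR, ← Matrix.vecMul_vecMul, e' m, Matrix.smul_vecMul]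
    rw [ha] at h1
    have h2 : Matrix.vecMul (∑ l, a l • L' l) R' = ∑ l, (a l * μ' l) • L' l := by
      rw [Matrix.sum_vecMul]
      refine Finset.sum_congr rfl fun l _ => ?_
      rw [Matrix.smul_vecMul, e' l, smul_smul]
    rw [h2, Finset.smul_sum] at h1
    have h3 : ∑ l, (a l * μ' l - μ' m * a l) • L' l = 0 := by
      simp_rw [sub_smul]
      rw [Finset.sum_sub_distrib, h1, sub_eq_zero]
      refine Finset.sum_congr rfl fun l _ => ?_
      rw [smul_smul]
    have h4 := Fintype.linearIndependent_iff.mp hLI _ h3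
    have h5 : ∀ l, l ≠ m → a l = 0 := by
      intro l hl
      have h6 := h4 l
      have h7 : a l * (μ' l - μ' m) = 0 := by linarith
      rcases mul_eq_zero.mp h7 with h8 | h8
      · exact h8
      · exact absurd (hμ' (sub_eq_zero.mp h8)) hl
    refine ⟨a m, ?_⟩
    rw [ha, Finset.sum_eq_single m]
    · intro l _ hl
      rw [h5 l hl, zero_smul]
    · simp
  choose lam hlam using hlam
  have hi : L'' i = L' i + L' j := by
    funext b; rw [hpair, if_pos rfl]; rfl
  have h1 := e'' i
  rw [hi, Matrix.add_vecMul, hlam i, hlam j, smul_add] at h1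
  have h2 : ∀ c d : ℝ, c • L' i + d • L' j = 0 → c = 0 ∧ d = 0 := by
    intro c d hcd
    have h3 := Fintype.linearIndependent_iff.mp hLI
      (fun l => (if l = i then c else 0) + (if l = j then d else 0)) (by
        simp_rw [add_smul, ite_smul, zero_smul]
        rw [Finset.sum_add_distrib]
        simpa using hcd)
    have h4 := h3 i
    have h5 := h3 j
    simp only [if_true, if_neg hij, if_neg hij.symm, add_zero, zero_add] at h4 h5
    exact ⟨h4, h5⟩
  have h3 := h2 (lam i - μ'' i) (lam j - μ'' i) (by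
    rw [sub_smul, sub_smul]
    rw [show lam i • L' i - μ'' i • L' i + (lam j • L' j - μ'' i • L' j) =
      (lam i • L' i + lam j • L' j) - (μ'' i • L' i + μ'' i • L' j) by abel, h1, sub_self])
  have h4 := e'' j
  rw [hrowj, hlam j] at h4
  have h5 := h2 0 (lam j - μ'' j) (by
    rw [zero_smul, zero_add, sub_smul, h4, sub_self])
  have h6 : μ'' i = μ'' j := by linarith [h3.2, h5.2]
  exact hij (hμ'' h6)

theorem closed_orbit {L : Fin n → Fin n → ℝ} (hL : (Matrix.of L).det ≠ 0)
    {C : ℝ} (hC : ∀ p : Fin n → ℤ, ∃ z : ℤ, val L (fun j => (p j : ℝ)) = C * z)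
    {L' : Fin n → Fin n → ℝ} (h : L' ∈ closure (orb L)) : L' ∈ orb L := by
  classical
  have hL' : (Matrix.of L').det ≠ 0 := by
    rw [← abs_pos, orb_det h]; exact abs_pos.mpr hL
  obtain ⟨U, hU, hL'U, hUiso⟩ := near_iso hL'
  obtain ⟨M, t, hM, ht, hlim⟩ := mem_closure_orb h
  have hlim' : Tendsto (fun k => tr L (M k) (t k)) atTop (𝓝 L') :=
    tendsto_pi_nhds.mpr fun i => tendsto_pi_nhds.mpr fun j => hlim i j
  have hclosed : IsClosed (Set.range fun z : ℤ => C * (z : ℝ)) := by
    by_cases hC0 : C = 0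
    · have : (Set.range fun z : ℤ => C * (z : ℝ)) = {0} := by
        ext y; simp [hC0]
      rw [this]; exact isClosed_singleton
    · have h1 : (Set.range fun z : ℤ => C * (z : ℝ)) =
          (Homeomorph.mulLeft₀ C hC0) '' (Set.range (Int.cast : ℤ → ℝ)) := by
        rw [← Set.range_comp]; rfl
      rw [h1]
      exact (Homeomorph.mulLeft₀ C hC0).isClosedMap _ Int.isClosedEmbedding_coe_real.isClosed_range
  have hvalmem : ∀ (p : Fin n → ℤ) k, val (tr L (M k) (t k)) (fun j => (p j : ℝ)) ∈
      Set.range fun z : ℤ => C * (z : ℝ) := by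
    intro p k
    rw [val_tr L (M k) (ht k)]
    obtain ⟨z, hz⟩ := hC ((M k).mulVec p)
    refine ⟨z, ?_⟩
    show C * (z : ℝ) = _
    rw [← hz]
    unfold val
    refine Finset.prod_congr rfl fun i _ => Finset.sum_congr rfl fun j _ => ?_
    simp [Matrix.mulVec, dotProduct]
  have hvlim : ∀ p : Fin n → ℤ, Tendsto (fun k => val (tr L (M k) (t k)) (fun j => (p j : ℝ)))
      atTop (𝓝 (val L' (fun j => (p j : ℝ)))) := fun p => ((val_cont _).tendsto L').comp hlim'
  have hev : ∀ p : Fin n → ℤ, ∀ᶠ k in atTop, val (tr L (M k) (t k)) (fun j => (p j : ℝ)) =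
      val L' (fun j => (p j : ℝ)) := by
    intro p
    obtain ⟨w, hw⟩ := hclosed.mem_of_tendsto (hvlim p) (Eventually.of_forall fun k => hvalmem p k)
    simp only at hw
    by_cases hC0 : C = 0
    · refine Eventually.of_forall fun k => ?_
      obtain ⟨z, hz⟩ := hvalmem p k
      simp only at hz
      rw [← hw, ← hz, hC0, zero_mul, zero_mul]
    · have h1 : ∀ᶠ k in atTop, |val (tr L (M k) (t k)) (fun j => (p j : ℝ)) -
          val L' (fun j => (p j : ℝ))| < |C| := by
        have h2 := (hvlim p).sub_const (val L' (fun j => (p j : ℝ)))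
        rw [sub_self] at h2
        have h3 := h2.abs
        rw [abs_zero] at h3
        exact h3.eventually (gt_mem_nhds (abs_pos.mpr hC0))
      filter_upwards [h1] with k hk
      obtain ⟨z, hz⟩ := hvalmem p k
      simp only at hz
      rw [← hw, ← hz, ← mul_sub, abs_mul] at hk
      have h4 : |(z : ℝ) - w| < 1 := by
        have h5 : 0 < |C| := abs_pos.mpr hC0
        by_contra h6
        push Not at h6
        nlinarith
      have h6 : z = w := by
        have h7 : |z - w| < 1 := by exact_mod_cast h4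
        have := Int.abs_lt_one_iff.mp h7
        omega
      rw [← hw, ← hz, h6]
  have hevall : ∀ᶠ k in atTop, ∀ p : Fin n → Fin (n + 1),
      val (tr L (M k) (t k)) (fun j => ((p j : ℕ) : ℝ)) = val L' (fun j => ((p j : ℕ) : ℝ)) := by
    rw [eventually_all]
    intro p
    have := hev (fun j => ((p j : ℕ) : ℤ))
    simpa using this
  obtain ⟨k, hk1, hk2⟩ := (hevall.and (hlim'.eventually (hU.mem_nhds hL'U))).exists
  obtain ⟨s, hs, hsprod, hrel⟩ := hUiso _ hk2 (fun x => poly_grid _ _ hk1 x)
  have hs0 : ∀ i, s i ≠ 0 := fun i => by linarith [(hs i).1] |> fun (h : 0 < s i) => h.ne'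
  refine ⟨M k, fun i => (s i)⁻¹ * t k i, hM k, ?_, ?_⟩
  · rw [Finset.prod_mul_distrib, ht k, mul_one, Finset.prod_inv_distrib, hsprod, inv_one]
  · funext i j
    have h1 := hrel i j
    have h2 : tr L (M k) (fun i => (s i)⁻¹ * t k i) i j = (s i)⁻¹ * tr L (M k) (t k) i j := by
      unfold tr; ring
    rw [h2, h1]
    have := hs0 i
    field_simp

end pairb

end Pool.Agent.Work.MP_77d073_nt
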