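import Mathlib
import Pool.Agent.Work.MP_77d073_nt.Pairb

set_option autoImplicit false

namespace Pool.Agent.Work.MP_77d073_nt.PairResult

open Filter Topology Pool.Agent.Work.MP_77d073_nt

/-- The product of the forms is bounded away from zero on nonzero integer points. -/
def Bounded {n : ℕ} (L : Fin n → Fin n → ℝ) : Prop :=
  ∃ c : ℝ, 0 < c ∧ ∀ p : Fin n → ℤ, p ≠ 0 → c ≤ |∏ i, ∑ j, L i j * (p j : ℝ)|

/-- The conclusion of Oppenheim's conjecture for the system `L`. -/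
def Conclusion {n : ℕ} (L : Fin n → Fin n → ℝ) : Prop :=
  ∃ A : Matrix (Fin n) (Fin n) ℤ,
    A.det = 1 ∧
    Irreducible (A.charpoly.map (Int.castRingHom ℚ)) ∧
    (∀ z : ℂ, Polynomial.aeval z A.charpoly = 0 → z.im = 0) ∧
    ∀ i : Fin n, ∀ x : Fin n → ℝ, ∑ j, L i j * x j = 0 →
      ∑ j, L i j * ((A.map (Int.cast : ℤ → ℝ)).mulVec x) j = 0

/-- `L'` is a limit of systems `t_i L_i ∘ M` with `M` unimodular and `∏ t_i = 1`. -/
def IsLimit {n : ℕ} (L L' : Fin n → Fin n → ℝ) : Prop :=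
  ∃ (M : ℕ → Matrix (Fin n) (Fin n) ℤ) (t : ℕ → Fin n → ℝ),
    (∀ k, (M k).det = 1 ∨ (M k).det = -1) ∧ (∀ k, ∏ i, t k i = 1) ∧
    ∀ i j, Tendsto (fun k => t k i * ∑ l, L i l * (M k l j : ℝ)) atTop (𝓝 (L' i j))

theorem eigen_of_conclusion {n : ℕ} {L : Fin n → Fin n → ℝ} (hL : LinearIndependent ℝ L)
    (h : Conclusion L) : ∃ (A : Matrix (Fin n) (Fin n) ℤ) (μ : Fin n → ℝ), Function.Injective μ ∧
      ∀ i k, ∑ j, L i j * (A j k : ℝ) = μ i * L i k := by
  obtain ⟨A, -, hirr, -, hinv⟩ := h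
  have hrow : ∀ i, L i ≠ 0 := fun i => hL.ne_zero i
  choose μ hμ using fun i => eigen_of_hyper (hrow i) (hinv i)
  have hμ' : ∀ i k, ∑ j, L i j * (A j k : ℝ) = μ i * L i k := fun i k => hμ i k
  exact ⟨A, μ, eigen_injective ((li_iff_det L).mp hL) hirr hμ', hμ'⟩

theorem pair_of_not {n : ℕ} (hn : 3 ≤ n) {L : Fin n → Fin n → ℝ} (hL : LinearIndependent ℝ L)
    (hb : Bounded L) (hnot : ¬ Conclusion L) :
    ∃ L' L'' : Fin n → Fin n → ℝ, IsLimit L L' ∧ IsLimit L L'' ∧ ∃ i j : Fin n, i ≠ j ∧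
      ∀ m, L'' m = if m = i then L' i + L' j else L' m := by
  classical
  obtain ⟨c, hc, hlow⟩ := hb
  have hLdet := (li_iff_det L).mp hL
  have hD : 0 < |(Matrix.of L).det| := abs_pos.mpr hLdet
  have hn1 : 1 ≤ n := by omega
  obtain ⟨β, hβ, hbox⟩ := meets_box (n := n) hn1 hc hD
  have hG : Good c |(Matrix.of L).det| (closure (orb L)) :=
    ⟨fun L' hL' => orb_det hL', fun L' hL' => orb_lower hL' hlow⟩
  obtain ⟨Y, hYS, hY, ⟨L₀, hL₀⟩, hmin⟩ := exists_minimal hn1 hc hD (orb_CI L) hG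
    ⟨L, subset_closure (self_mem_orb L)⟩
  have hGY := hG.mono hYS
  by_cases hiso : ∃ U : Set (Fin n → Fin n → ℝ), IsOpen U ∧ L₀ ∈ U ∧ ∀ L ∈ Y ∩ U,
      ∃ s : Fin n → ℝ, (∀ i, 3 / 4 < s i ∧ s i < 3 / 2) ∧ ∏ i, s i = 1 ∧
        ∀ i j, L i j = s i * L₀ i j
  · obtain ⟨U, hU, hL₀U, hiso⟩ := hiso
    exact absurd (concl_of_isolated hn hc hD rfl hlow hYS hY (hbox Y hY hGY) hmin hL₀ hU hL₀U hiso)
      hnot
  · obtain ⟨L', hL', L'', hL'', i, j, hij, hrel⟩ := pair_of_not_isolated hD hY hGY (hbox Y hY hGY)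
      hL₀ (by
        intro U hU hL₀U
        by_contra hcon
        push Not at hcon
        exact hiso ⟨U, hU, hL₀U, hcon⟩)
    refine ⟨L', L'', mem_closure_orb (hYS hL'), mem_closure_orb (hYS hL''), i, j, hij, fun m => ?_⟩
    funext b
    rw [hrel m b]
    split_ifs with h
    · rw [h]; rfl
    · rw [add_zero]

theorem limit_orb {n : ℕ} {L L' : Fin n → Fin n → ℝ} (h : IsLimit L L') : L' ∈ closure (orb L) := by
  obtain ⟨M, t, hM, ht, hlim⟩ := h
  refine mem_closure_of_tendsto (f := fun k => tr L (M k) (t k)) (b := atTop)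
    (tendsto_pi_nhds.mpr fun i => tendsto_pi_nhds.mpr fun j => hlim i j)
    (Eventually.of_forall fun k => ⟨M k, t k, hM k, ht k, rfl⟩)

theorem eigen_orb {n : ℕ} {L L' : Fin n → Fin n → ℝ} (h : L' ∈ orb L)
    {A : Matrix (Fin n) (Fin n) ℤ} {μ : Fin n → ℝ}
    (hA : ∀ i k, ∑ j, L i j * (A j k : ℝ) = μ i * L i k) :
    ∃ A' : Matrix (Fin n) (Fin n) ℤ, ∀ i k, ∑ j, L' i j * (A' j k : ℝ) = μ i * L' i k := by
  obtain ⟨M, t, hM, ht, rfl⟩ := h
  obtain ⟨M', hM', h1, h2⟩ := Uni.inv hM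
  refine ⟨M' * (A * M), fun i k => ?_⟩
  have h3 : ∀ X : Matrix (Fin n) (Fin n) ℤ, ∑ j, tr L M t i j * (X j k : ℝ) =
      t i * ∑ l, L i l * ((M * X) l k : ℝ) := by
    intro X
    rw [tr_sum]
    congr 1
    refine Finset.sum_congr rfl fun l _ => ?_
    congr 1
    rw [Matrix.mul_apply]
    push_cast
    rfl
  rw [h3, ← mul_assoc, h1, one_mul]
  have h4 : ∑ l, L i l * ((A * M) l k : ℝ) = μ i * ∑ l, L i l * (M l k : ℝ) := by
    have h5 : ∀ l, L i l * ((A * M) l k : ℝ) = ∑ j, L i l * (A l j : ℝ) * (M j k : ℝ) := by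
      intro l
      rw [Matrix.mul_apply]
      push_cast
      rw [Finset.mul_sum]
      refine Finset.sum_congr rfl fun j _ => ?_
      ring
    simp_rw [h5]
    rw [Finset.sum_comm]
    simp_rw [← Finset.sum_mul, hA, mul_assoc]
    rw [← Finset.mul_sum]
  rw [h4]
  unfold tr
  ring

/-- Oppenheim's conjecture and pairs of systems that differ by one elementary change of one form. -/
theorem result :
    (∀ n : ℕ, 3 ≤ n → ∀ L : Fin n → Fin n → ℝ, LinearIndependent ℝ L → Bounded L →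
      (¬ Conclusion L ↔
        ∃ L' L'' : Fin n → Fin n → ℝ, IsLimit L L' ∧ IsLimit L L'' ∧ ∃ i j : Fin n, i ≠ j ∧
          ∀ m, L'' m = if m = i then L' i + L' j else L' m)) ∧
    (∀ (n : ℕ) (hn : 3 ≤ n),
      (∀ L : Fin n → Fin n → ℝ, LinearIndependent ℝ L → Bounded L → Conclusion L) ↔
      ∀ L : Fin n → Fin n → ℝ, LinearIndependent ℝ L → Bounded L →
        ¬ Bounded (fun m => if m = ⟨0, by omega⟩ then L ⟨0, by omega⟩ + L ⟨1, by omega⟩ else L m)) := by
  classical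
  refine ⟨fun n hn L hL hb => ⟨pair_of_not hn hL hb, ?_⟩, fun n hn => ⟨?_, ?_⟩⟩
  · rintro ⟨L', L'', hL', hL'', i, j, hij, hrel⟩ hconc
    obtain ⟨A, μ, hμ, hA⟩ := eigen_of_conclusion hL hconc
    have hLdet := (li_iff_det L).mp hL
    obtain ⟨C, hC⟩ := values_of_matrix hμ hA
    obtain ⟨c, hc, hlow⟩ := hb
    have h1 := closed_orbit hLdet hC (limit_orb hL')
    have h2 := closed_orbit hLdet hC (limit_orb hL'')
    obtain ⟨A', hA'⟩ := eigen_orb h1 hA
    obtain ⟨A'', hA''⟩ := eigen_orb h2 hA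
    refine no_pair (L' := L') (L'' := L'') ?_ ?_ hμ hμ hA' hA'' hij ?_
    · rw [← abs_pos, orb_det (limit_orb hL')]; exact abs_pos.mpr hLdet
    · intro p hp i h0
      have h3 := orb_lower (limit_orb hL') hlow p hp
      rw [Finset.prod_eq_zero (Finset.mem_univ i) h0, abs_zero] at h3
      linarith
    · intro a b
      rw [hrel a]
      split_ifs with h
      · rw [h]; rfl
      · rw [add_zero]
  · intro hall L hL hb hb'
    have h01 : (⟨0, by omega⟩ : Fin n) ≠ ⟨1, by omega⟩ := by simp [Fin.ext_iff]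
    set L'' : Fin n → Fin n → ℝ :=
      fun m => if m = ⟨0, by omega⟩ then L ⟨0, by omega⟩ + L ⟨1, by omega⟩ else L m with hL''
    have hrel : ∀ a b, L'' a b = L a b + if a = ⟨0, by omega⟩ then L ⟨1, by omega⟩ b else 0 := by
      intro a b
      simp only [hL'']
      split_ifs with h
      · rw [h]; rfl
      · rw [add_zero]
    have hLI'' : LinearIndependent ℝ L'' := by
      rw [li_iff_det]
      have h3 : Matrix.of L'' = (Matrix.of L).updateRow ⟨0, by omega⟩
          (Matrix.of L ⟨0, by omega⟩ + Matrix.of L ⟨1, by omega⟩) := by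
        ext a b
        rw [Matrix.updateRow_apply]
        simp only [hL'', Matrix.of_apply]
        split_ifs <;> rfl
      rw [h3, Matrix.det_updateRow_add_self _ h01]
      exact (li_iff_det L).mp hL
    obtain ⟨A', μ', hμ', hA'⟩ := eigen_of_conclusion hL (hall L hL hb)
    obtain ⟨A'', μ'', hμ'', hA''⟩ := eigen_of_conclusion hLI'' (hall L'' hLI'' hb')
    obtain ⟨c, hc, hlow⟩ := hb
    refine no_pair (L' := L) (L'' := L'') ((li_iff_det L).mp hL) ?_ hμ' hμ'' hA' hA'' h01 hrel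
    intro p hp i h0
    have h3 := hlow p hp
    rw [Finset.prod_eq_zero (Finset.mem_univ i) h0, abs_zero] at h3
    linarith
  · intro hno L hL hb
    by_contra hcon
    obtain ⟨L', L'', hL', hL'', i, j, hij, hrel⟩ := pair_of_not hn hL hb hcon
    obtain ⟨c, hc, hlow⟩ := hb
    have hlow' := orb_lower (limit_orb hL') hlow
    have hlow'' := orb_lower (limit_orb hL'') hlow
    set z : Fin n := ⟨0, by omega⟩ with hz
    set o : Fin n := ⟨1, by omega⟩ with ho
    have hzo : z ≠ o := by simp [hz, ho, Fin.ext_iff]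
    set e₁ : Equiv.Perm (Fin n) := Equiv.swap z i with he₁
    have he₁z : e₁ z = i := Equiv.swap_apply_left _ _
    have he₁i : e₁ i = z := Equiv.swap_apply_right _ _
    have hj' : e₁ j ≠ z := by
      intro h
      rw [← he₁i] at h
      exact hij (e₁.injective h).symm
    set π : Equiv.Perm (Fin n) := (Equiv.swap o (e₁ j)).trans e₁ with hπ
    have hπz : π z = i := by
      rw [hπ, Equiv.trans_apply, Equiv.swap_apply_of_ne_of_ne hzo (Ne.symm hj')]
      exact he₁z
    have hπo : π o = j := by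
      rw [hπ, Equiv.trans_apply, Equiv.swap_apply_left]
      simp [he₁, Equiv.swap_apply_self]
    have hperm : ∀ X : Fin n → Fin n → ℝ,
        (∀ p : Fin n → ℤ, p ≠ 0 → c ≤ |∏ i, ∑ j, X i j * (p j : ℝ)|) →
        ∀ p : Fin n → ℤ, p ≠ 0 → c ≤ |∏ m, ∑ j, X (π m) j * (p j : ℝ)| := by
      intro X hX p hp
      rw [Equiv.prod_comp π (fun m => ∑ j, X m j * (p j : ℝ))]
      exact hX p hp
    have hLI' : LinearIndependent ℝ L' := by
      rw [li_iff_det, ← abs_pos, orb_det (limit_orb hL')]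
      exact abs_pos.mpr ((li_iff_det L).mp hL)
    refine hno (fun m => L' (π m)) (hLI'.comp π π.injective) ⟨c, hc, hperm L' hlow'⟩
      ⟨c, hc, ?_⟩
    have h5 : (fun m => if m = z then (fun m => L' (π m)) z + (fun m => L' (π m)) o
        else (fun m => L' (π m)) m) = fun m => L'' (π m) := by
      funext m
      by_cases hm : m = z
      · subst hm
        simp only [if_true]
        rw [hrel, hπz, hπo, if_pos rfl]
      · simp only [if_neg hm]
        rw [hrel, if_neg]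
        intro h
        rw [← hπz] at h
        exact hm (π.injective h)
    rw [h5]
    exact hperm L'' hlow''

end Pool.Agent.Work.MP_77d073_nt.PairResult
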