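import Mathlib
import Pool.Agent.Work.MP_77d073_nt.Space

set_option autoImplicit false

/-!
Definitions for the theorem on root directions.
-/

namespace Pool.Agent.Work.MP_77d073_nt.Root

open Pool.Agent.Work.MP_77d073_nt

/-- A real matrix acting on a system of linear forms: `(h X)_a = ∑_c h_ac X_c`. -/
noncomputable def ac {n : ℕ} (h : Matrix (Fin n) (Fin n) ℝ) (X : Fin n → Fin n → ℝ) :
    Fin n → Fin n → ℝ :=
  fun a b => ∑ c, h a c * X c b

/-- Block scaling: `exp (|Pᶜ| r)` on the indices in `P`, `exp (-|P| r)` outside. -/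
noncomputable def bt {n : ℕ} (P : Finset (Fin n)) (r : ℝ) (a : Fin n) : ℝ :=
  if a ∈ P then Real.exp ((Pᶜ.card : ℝ) * r) else Real.exp (-((P.card : ℝ) * r))

/-- Every system in `Y` can be moved into the box by a unimodular substitution. -/
def Red {n : ℕ} (Y : Set (Fin n → Fin n → ℝ)) (β : ℝ) : Prop :=
  ∀ L ∈ Y, ∃ M : Matrix (Fin n) (Fin n) ℤ, Uni M ∧ tr L M 1 ∈ Y ∩ box n β

/-- `Y` contains two systems which differ by adding the `m`-th form to the `l`-th. -/
def Pr {n : ℕ} (Y : Set (Fin n → Fin n → ℝ)) (l m : Fin n) : Prop :=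
  ∃ Z ∈ Y, ∃ Z' ∈ Y, ∀ a b, Z' a b = Z a b + if a = l then Z m b else 0

theorem ac_one {n : ℕ} (X : Fin n → Fin n → ℝ) : ac 1 X = X := by
  funext a b
  simp [ac, Matrix.one_apply]

theorem ac_mul {n : ℕ} (h g : Matrix (Fin n) (Fin n) ℝ) (X : Fin n → Fin n → ℝ) :
    ac (h * g) X = ac h (ac g X) := by
  funext a b
  simp only [ac, Matrix.mul_apply, Finset.sum_mul, Finset.mul_sum]
  rw [Finset.sum_comm]
  refine Finset.sum_congr rfl fun c _ => Finset.sum_congr rfl fun d _ => ?_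
  ring

theorem tr_ac {n : ℕ} (h : Matrix (Fin n) (Fin n) ℝ) (X : Fin n → Fin n → ℝ)
    (M : Matrix (Fin n) (Fin n) ℤ) {t : Fin n → ℝ} (ht : ∀ i, t i ≠ 0) :
    tr (ac h X) M t = ac (fun a c => t a / t c * h a c) (tr X M t) := by
  funext a b
  simp only [ac, tr]
  have h1 : ∀ c, t a / t c * h a c * (t c * ∑ l, X c l * (M l b : ℝ)) =
      t a * (h a c * ∑ l, X c l * (M l b : ℝ)) := by
    intro c
    have := ht c
    field_simp
  simp_rw [h1]
  rw [← Finset.mul_sum]
  congr 1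
  simp_rw [Finset.mul_sum, Finset.sum_mul]
  rw [Finset.sum_comm]
  refine Finset.sum_congr rfl fun c _ => Finset.sum_congr rfl fun l _ => ?_
  ring

theorem bt_pos {n : ℕ} (P : Finset (Fin n)) (r : ℝ) (a : Fin n) : 0 < bt P r a := by
  unfold bt
  split_ifs <;> exact Real.exp_pos _

theorem bt_prod {n : ℕ} (P : Finset (Fin n)) (r : ℝ) : ∏ a, bt P r a = 1 := by
  classical
  unfold bt
  rw [Finset.prod_ite, Finset.prod_const, Finset.prod_const]
  have h1 : (Finset.univ.filter fun a => a ∈ P) = P := by ext; simp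
  have h2 : (Finset.univ.filter fun a => ¬ a ∈ P) = Pᶜ := by ext; simp
  rw [h1, h2, ← Real.exp_nat_mul, ← Real.exp_nat_mul, ← Real.exp_add]
  rw [show (P.card : ℝ) * ((Pᶜ.card : ℝ) * r) + (Pᶜ.card : ℝ) * (-((P.card : ℝ) * r)) = 0 by ring,
    Real.exp_zero]

end Pool.Agent.Work.MP_77d073_nt.Root
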