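import Mathlib
import Pool.Agent.Work.MP_77d073_nt.RootDefs

set_option autoImplicit false

namespace Pool.Agent.Work.MP_77d073_nt.Root

open Filter Topology Pool.Agent.Work.MP_77d073_nt

/-- BLOW. -/
theorem blow {n : ℕ} {Y : Set (Fin n → Fin n → ℝ)} (hY : CI Y) {β : ℝ} (hbox : Red Y β)
    {ι : Type} (Z : ℕ → Fin n → Fin n → ℝ) (hZ : ∀ k, Z k ∈ Y)
    (G : ι → ℕ → Matrix (Fin n) (Fin n) ℝ) (hG : ∀ s k, ac (G s k) (Z k) ∈ Y)
    (t : ℕ → Fin n → ℝ) (ht : ∀ k i, 0 < t k i) (ht1 : ∀ k, ∏ i, t k i = 1)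
    (h : ι → Matrix (Fin n) (Fin n) ℝ)
    (hlim : ∀ s a b, Tendsto (fun k => t k a / t k b * G s k a b) atTop (𝓝 (h s a b))) :
    ∃ z ∈ Y, ∀ s, ac (h s) z ∈ Y := by
  have h1 : ∀ k, ∃ M : Matrix (Fin n) (Fin n) ℤ, Uni M ∧ tr (Z k) M (t k) ∈ Y ∩ box n β := by
    intro k
    obtain ⟨M, hM, hMY⟩ := hbox _ (hY.inv (Z k) (hZ k) 1 (t k) (Or.inl (by simp)) (ht1 k))
    rw [tr_tr, one_mul, one_mul] at hMY
    exact ⟨M, hM, hMY⟩
  choose M hM hMY using h1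
  obtain ⟨z, hz, φ, hφ, hlimz⟩ := (box_compact (n := n) β).tendsto_subseq (fun k => (hMY k).2)
  have hzY : z ∈ Y := hY.closed.mem_of_tendsto hlimz (Eventually.of_forall fun k => (hMY (φ k)).1)
  refine ⟨z, hzY, fun s => ?_⟩
  have h2 : ∀ k, ac (fun a c => t k a / t k c * G s k a c) (tr (Z k) (M k) (t k)) ∈ Y := by
    intro k
    rw [← tr_ac (G s k) (Z k) (M k) (fun i => (ht k i).ne')]
    exact hY.inv _ (hG s k) _ _ (hM k) (ht1 k)
  refine hY.closed.mem_of_tendsto (b := atTop)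
    (f := fun k => ac (fun a c => t (φ k) a / t (φ k) c * G s (φ k) a c)
      (tr (Z (φ k)) (M (φ k)) (t (φ k)))) ?_ (Eventually.of_forall fun k => h2 (φ k))
  rw [tendsto_pi_nhds]
  intro a
  rw [tendsto_pi_nhds]
  intro b
  unfold ac
  apply tendsto_finsetSum
  intro c _
  apply Tendsto.mul
  · exact (hlim s a c).comp hφ.tendsto_atTop
  · exact (tendsto_pi_nhds.mp ((tendsto_pi_nhds.mp hlimz) c)) b

end Pool.Agent.Work.MP_77d073_nt.Root
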