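import Mathlib
import Pool.Agent.Work.MP_77d073_nt.RootDefs

set_option autoImplicit false

/-!
Irreducibility of a unimodular integer matrix with two clusters of eigenvalues.
-/

namespace Pool.Agent.Work.MP_77d073_nt.Root

open Polynomial Pool.Agent.Work.MP_77d073_nt

/-- Every complex eigenvalue of `M` is close to the inverse of one of the block scalings. -/
theorem irr_root {n : ℕ} (P : Finset (Fin n)) {X : Fin n → Fin n → ℝ}
    (hX : (Matrix.of X).det ≠ 0) {G : Matrix (Fin n) (Fin n) ℝ} {r : ℝ}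
    {M : Matrix (Fin n) (Fin n) ℤ} {ε : ℝ}
    (hG : ∀ a b, |G a b - (1 : Matrix (Fin n) (Fin n) ℝ) a b| ≤ ε)
    (hac : ac G X = tr X M (bt P r)) {z : ℂ}
    (hz : (M.charpoly.map (Int.castRingHom ℂ)).IsRoot z) :
    ∃ b, |‖z‖ * bt P r b - 1| ≤ n * ε := by
  classical
  set A : Matrix (Fin n) (Fin n) ℂ := M.map (Int.castRingHom ℂ) with hA
  set Xc : Matrix (Fin n) (Fin n) ℂ := (Matrix.of X).map (algebraMap ℝ ℂ) with hXc
  set Gc : Matrix (Fin n) (Fin n) ℂ := G.map (algebraMap ℝ ℂ) with hGc
  set Dc : Matrix (Fin n) (Fin n) ℂ := Matrix.diagonal (fun a => ((bt P r a : ℝ) : ℂ)) with hDc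
  have h1 : (Matrix.scalar (Fin n) z - A).det = 0 := by
    have e : (M.charpoly.map (Int.castRingHom ℂ)) = A.charpoly := (Matrix.charpoly_map _ _).symm
    rw [e, IsRoot.def, Matrix.eval_charpoly] at hz
    exact hz
  have h2 : Gc * Xc = Dc * Xc * A := by
    ext a b
    rw [Matrix.mul_apply, Matrix.mul_assoc, hDc, Matrix.diagonal_mul, Matrix.mul_apply]
    have := congrFun (congrFun hac a) b
    simp only [ac, tr] at this
    simp only [hGc, hXc, hA, Matrix.map_apply, Matrix.of_apply]
    have h3 := congrArg (fun x : ℝ => (x : ℂ)) this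
    simp only [Complex.ofReal_sum, Complex.ofReal_mul, Complex.ofReal_intCast] at h3
    simpa using h3
  have h4 : (Matrix.scalar (Fin n) z * Dc - Gc) * Xc = Dc * Xc * (Matrix.scalar (Fin n) z - A) := by
    rw [sub_mul, h2, mul_sub]
    congr 1
    have : Matrix.scalar (Fin n) z * Dc = Dc * Matrix.scalar (Fin n) z :=
      Matrix.scalar_commute z (fun _ => Commute.all _ _) Dc
    rw [this, Matrix.mul_assoc, Matrix.mul_assoc]
    congr 1
    exact Matrix.scalar_commute z (fun _ => Commute.all _ _) Xc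
  have h5 : (Matrix.scalar (Fin n) z * Dc - Gc).det = 0 := by
    have h6 := congrArg Matrix.det h4
    rw [Matrix.det_mul, Matrix.det_mul _ (Matrix.scalar (Fin n) z - A), h1, mul_zero] at h6
    have h7 : Xc.det ≠ 0 := by
      rw [hXc, ← RingHom.mapMatrix_apply, ← RingHom.map_det]
      simpa using hX
    exact (mul_eq_zero.1 h6).resolve_right h7
  obtain ⟨v, hv, hv0⟩ := Matrix.exists_vecMul_eq_zero_iff.2 h5
  have h8 : ∀ b, v b * (z * (bt P r b : ℝ)) = ∑ a, v a * Gc a b := by
    intro b
    have := congrFun hv0 b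
    rw [Matrix.vecMul_sub, Pi.sub_apply, Pi.zero_apply, sub_eq_zero] at this
    have e : Matrix.vecMul v (Matrix.scalar (Fin n) z * Dc) b = v b * (z * (bt P r b : ℝ)) := by
      rw [Matrix.scalar_apply, hDc, Matrix.diagonal_mul_diagonal, Matrix.vecMul_diagonal]
    rw [e] at this
    rw [this]
    rfl
  obtain ⟨i0, hi0⟩ := Function.ne_iff.1 hv
  have : Nonempty (Fin n) := ⟨i0⟩
  obtain ⟨i, hi⟩ := Finite.exists_max (fun j => ‖v j‖)
  have hpos : 0 < ‖v i‖ := lt_of_lt_of_le (norm_pos_iff.2 hi0) (hi i0)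
  refine ⟨i, ?_⟩
  have h9 : v i * (z * (bt P r i : ℝ) - 1) =
      ∑ a, v a * ((G a i - (1 : Matrix (Fin n) (Fin n) ℝ) a i : ℝ) : ℂ) := by
    rw [mul_sub, h8 i, mul_one]
    have e : ∀ a, v a * ((G a i - (1 : Matrix (Fin n) (Fin n) ℝ) a i : ℝ) : ℂ) =
        v a * Gc a i - v a * (((1 : Matrix (Fin n) (Fin n) ℝ) a i : ℝ) : ℂ) := by
      intro a
      rw [hGc, Matrix.map_apply]
      push_cast
      simp [mul_sub]
    simp_rw [e]
    rw [Finset.sum_sub_distrib]
    congr 1
    rw [Finset.sum_eq_single i]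
    · simp
    · intro b _ hb
      simp [Matrix.one_apply_ne hb]
    · intro hi
      exact absurd (Finset.mem_univ i) hi
  have h10 : ‖v i‖ * ‖z * (bt P r i : ℝ) - 1‖ ≤ ‖v i‖ * (n * ε) := by
    rw [← norm_mul, h9]
    refine (norm_sum_le _ _).trans ?_
    have : ∑ a : Fin n, ‖v a * ((G a i - (1 : Matrix (Fin n) (Fin n) ℝ) a i : ℝ) : ℂ)‖ ≤
        ∑ _a : Fin n, ‖v i‖ * ε := by
      refine Finset.sum_le_sum (fun a _ => ?_)
      rw [norm_mul, Complex.norm_real, Real.norm_eq_abs]
      exact mul_le_mul (hi a) (hG a i) (abs_nonneg _) (norm_nonneg _)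
    refine this.trans (le_of_eq ?_)
    rw [Finset.sum_const, Finset.card_univ, Fintype.card_fin, nsmul_eq_mul]
    ring
  have h11 : ‖z * (bt P r i : ℝ) - 1‖ ≤ n * ε := le_of_mul_le_mul_left h10 hpos
  refine le_trans ?_ h11
  have h12 := abs_norm_sub_norm_le (z * (bt P r i : ℝ)) 1
  rw [norm_mul, Complex.norm_real, Real.norm_eq_abs, abs_of_pos (bt_pos P r i), norm_one] at h12
  exact h12

/-- logarithmic form of the previous estimate -/
theorem irr_log {η : ℝ} (hη0 : 0 ≤ η) (hη : η ≤ 1 / 2) {x y : ℝ} (hx : 0 ≤ x)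
    (hxy : |x * Real.exp y - 1| ≤ η) : |Real.log x + y| ≤ 2 * η := by
  have h1 := abs_le.1 hxy
  have h2 : 0 < x * Real.exp y := by linarith [h1.1]
  have hx0 : x ≠ 0 := by
    rintro rfl
    simp at h2
  have h3 : Real.log x + y = Real.log (x * Real.exp y) := by
    rw [Real.log_mul hx0 (Real.exp_ne_zero _), Real.log_exp]
  rw [h3, abs_le]
  constructor
  · have h4 := Real.one_sub_inv_le_log_of_pos h2
    have h5 : (x * Real.exp y)⁻¹ ≤ 1 + 2 * η := by
      rw [inv_le_comm₀ h2 (by linarith)]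
      refine le_trans ?_ (by linarith [h1.1] : 1 - η ≤ x * Real.exp y)
      rw [inv_le_iff_one_le_mul₀ (by linarith)]
      nlinarith
    linarith
  · have h4 := Real.log_le_sub_one_of_pos h2
    linarith [h1.2]

theorem irr_sum (S : Multiset ℂ) (c : ℂ → ℤ) (r : ℕ) {δ : ℝ}
    (h : ∀ z ∈ S, |Real.log ‖z‖ - r * c z| ≤ δ) :
    |(S.map fun z => Real.log ‖z‖).sum - r * ((S.map c).sum : ℤ)| ≤ Multiset.card S * δ := by
  induction S using Multiset.induction_on with
  | empty => simp
  | cons a S ih =>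
    have h1 := ih fun z hz => h z (Multiset.mem_cons_of_mem hz)
    have h2 := h a (Multiset.mem_cons_self a S)
    simp only [Multiset.map_cons, Multiset.sum_cons, Multiset.card_cons]
    rw [Int.cast_add, Nat.cast_add, Nat.cast_one]
    rw [abs_le] at h1 h2 ⊢
    constructor <;> nlinarith [h1.1, h1.2, h2.1, h2.2]

theorem irr_log_prod (S : Multiset ℂ) (h : ∀ z ∈ S, z ≠ 0) :
    (S.map fun z => Real.log ‖z‖).sum = Real.log ‖S.prod‖ := by
  induction S using Multiset.induction_on with
  | empty => simp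
  | cons a S ih =>
    have h1 := ih fun z hz => h z (Multiset.mem_cons_of_mem hz)
    have h2 := h a (Multiset.mem_cons_self a S)
    have h3 : S.prod ≠ 0 := by
      rw [Ne, Multiset.prod_eq_zero_iff]
      intro h0
      exact h 0 (Multiset.mem_cons_of_mem h0) rfl
    simp only [Multiset.map_cons, Multiset.sum_cons, Multiset.prod_cons]
    rw [h1, norm_mul, Real.log_mul (norm_ne_zero_iff.2 h2) (norm_ne_zero_iff.2 h3)]

theorem irr_count (S : Multiset ℂ) (Q : ℂ → Prop) [DecidablePred Q] (x y : ℤ) :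
    (S.map fun z => if Q z then x else y).sum = x * S.countP Q + y * (Multiset.card S - S.countP Q) := by
  induction S using Multiset.induction_on with
  | empty => simp
  | cons a S ih =>
    simp only [Multiset.map_cons, Multiset.sum_cons, Multiset.card_cons, Multiset.countP_cons]
    rw [ih]
    split_ifs <;> push_cast <;> ring

/-- IRR. -/
theorem irr_block {n : ℕ} (P : Finset (Fin n)) (hP : P.Nonempty) (hP' : Pᶜ.Nonempty)
    (hco : Nat.Coprime P.card Pᶜ.card) :
    ∃ ε : ℝ, 0 < ε ∧ ∀ (X : Fin n → Fin n → ℝ), (Matrix.of X).det ≠ 0 →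
      ∀ (G : Matrix (Fin n) (Fin n) ℝ) (r : ℕ) (M : Matrix (Fin n) (Fin n) ℤ),
      (∀ a b, |G a b - (1 : Matrix (Fin n) (Fin n) ℝ) a b| < ε) → 1 ≤ r → Uni M →
      ac G X = tr X M (bt P r) → Irreducible (M.map (Int.castRingHom ℚ)).charpoly := by
  classical
  have hp : 1 ≤ P.card := hP.card_pos
  have hq : 1 ≤ Pᶜ.card := hP'.card_pos
  have hpq : P.card + Pᶜ.card = n := by
    rw [Finset.card_add_card_compl, Fintype.card_fin]
  have hn : 2 ≤ n := by omega
  have hnR : (2 : ℝ) ≤ n := by exact_mod_cast hn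
  refine ⟨1 / (8 * n ^ 2), by positivity, ?_⟩
  intro X hX G r M hG hr hM hac
  set ε : ℝ := 1 / (8 * n ^ 2) with hε
  set η : ℝ := n * ε with hη
  have hη0 : 0 ≤ η := by positivity
  have hη1 : n * (2 * η) ≤ 1 / 4 := by
    rw [hη, hε]
    have : (n : ℝ) ≠ 0 := by positivity
    field_simp
    norm_num
  have hη2 : 2 * η ≤ 1 / 8 := by nlinarith
  have hrR : (1 : ℝ) ≤ r := by exact_mod_cast hr
  have hpR : (1 : ℝ) ≤ P.card := by exact_mod_cast hp
  have hqR : (1 : ℝ) ≤ Pᶜ.card := by exact_mod_cast hq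
  set c : ℂ → ℤ := fun z => if ‖z‖ < 1 then -(Pᶜ.card : ℤ) else (P.card : ℤ) with hc
  have key : ∀ z : ℂ, (M.charpoly.map (Int.castRingHom ℂ)).IsRoot z →
      z ≠ 0 ∧ |Real.log ‖z‖ - r * c z| ≤ 2 * η := by
    intro z hz
    obtain ⟨b, hb⟩ := irr_root P hX (fun a b => (hG a b).le) hac hz
    have hz0 : z ≠ 0 := by
      rintro rfl
      simp at hb
      linarith
    refine ⟨hz0, ?_⟩
    have hzpos : 0 < ‖z‖ := norm_pos_iff.2 hz0
    unfold bt at hb
    by_cases hbP : b ∈ P
    · rw [if_pos hbP] at hb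
      have h1 := irr_log hη0 (by linarith) (norm_nonneg z) hb
      have h2 : Real.log ‖z‖ < 0 := by
        have := (abs_le.1 h1).2
        nlinarith
      have h3 : ‖z‖ < 1 := by
        by_contra h
        exact absurd (Real.log_nonneg (not_lt.1 h)) (not_le.2 h2)
      have h4 : c z = -(Pᶜ.card : ℤ) := by simp only [hc]; rw [if_pos h3]
      rw [h4]
      push_cast
      have e : Real.log ‖z‖ - r * -(Pᶜ.card : ℝ) = Real.log ‖z‖ + Pᶜ.card * r := by ring
      rw [e]
      exact h1
    · rw [if_neg hbP] at hb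
      have h1 := irr_log hη0 (by linarith) (norm_nonneg z) hb
      have h2 : 0 < Real.log ‖z‖ := by
        have := (abs_le.1 h1).1
        nlinarith
      have h3 : ¬ ‖z‖ < 1 := by
        intro h
        exact absurd (Real.log_nonpos (norm_nonneg z) h.le) (not_le.2 h2)
      have h4 : c z = (P.card : ℤ) := by simp only [hc]; rw [if_neg h3]
      rw [h4]
      push_cast
      have e : Real.log ‖z‖ - r * (P.card : ℝ) = Real.log ‖z‖ + -(P.card * r) := by ring
      rw [e]
      exact h1
  have main : ∀ g : ℤ[X], g.Monic → g ∣ M.charpoly → IsUnit (g.coeff 0) → n ∣ g.natDegree := by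
    intro g hg hdvd hu
    set S : Multiset ℂ := (g.map (Int.castRingHom ℂ)).roots with hS
    have hcard : Multiset.card S = g.natDegree := by
      rw [hS, (splits_iff_card_roots.1 (IsAlgClosed.splits _)), hg.natDegree_map]
    have hroot : ∀ z ∈ S, z ≠ 0 ∧ |Real.log ‖z‖ - r * c z| ≤ 2 * η := by
      intro z hz
      exact key z ((isRoot_of_mem_roots hz).dvd (Polynomial.map_dvd _ hdvd))
    have hdeg : g.natDegree ≤ n := by
      have := natDegree_le_of_dvd hdvd M.charpoly_monic.ne_zero
      rwa [Matrix.charpoly_natDegree_eq_dim, Fintype.card_fin] at this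
    have hprod : ‖S.prod‖ = 1 := by
      have h1 := (IsAlgClosed.splits (g.map (Int.castRingHom ℂ))).coeff_zero_eq_prod_roots_of_monic
        (hg.map _)
      rw [coeff_map] at h1
      have h2 := congrArg norm h1
      rw [norm_mul, norm_pow, norm_neg, norm_one, one_pow, one_mul] at h2
      rw [← hS] at h2
      rw [← h2]
      rcases Int.isUnit_iff.1 hu with h | h <;> rw [h] <;> simp
    have h1 := irr_sum S c r fun z hz => (hroot z hz).2
    rw [irr_log_prod S fun z hz => (hroot z hz).1, hprod, Real.log_one, zero_sub, abs_neg] at h1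
    have h2 : (S.map c).sum = 0 := by
      have h3 : |(r : ℝ) * ((S.map c).sum : ℤ)| < 1 := by
        refine lt_of_le_of_lt h1 ?_
        rw [hcard]
        have : (g.natDegree : ℝ) ≤ n := by exact_mod_cast hdeg
        nlinarith
      by_contra h0
      have h4 : (1 : ℝ) ≤ |(((S.map c).sum : ℤ) : ℝ)| := by
        have := Int.one_le_abs h0
        exact_mod_cast this
      rw [abs_mul, abs_of_pos (by linarith : (0 : ℝ) < r)] at h3
      nlinarith
    rw [hc, irr_count, hcard] at h2
    set s := S.countP fun z => ‖z‖ < 1 with hs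
    have hsle : s ≤ g.natDegree := by rw [← hcard]; exact Multiset.countP_le_card _ _
    obtain ⟨s', hs'⟩ := Nat.exists_eq_add_of_le hsle
    have h5 : Pᶜ.card * s = P.card * s' := by
      rw [hs'] at h2
      push_cast at h2
      have : (Pᶜ.card : ℤ) * s = P.card * s' := by linarith
      exact_mod_cast this
    have h6 : P.card ∣ s := hco.dvd_of_dvd_mul_left (Dvd.intro _ h5.symm)
    obtain ⟨k, hk⟩ := h6
    have h7 : s' = Pᶜ.card * k := by
      rw [hk] at h5
      have : P.card * s' = P.card * (Pᶜ.card * k) := by rw [← h5]; ring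
      exact Nat.eq_of_mul_eq_mul_left (by omega) this
    rw [hs', hk, h7, ← add_mul, hpq]
    exact Dvd.intro _ rfl
  have hmap : (M.map (Int.castRingHom ℚ)).charpoly = M.charpoly.map (algebraMap ℤ ℚ) := by
    rw [Matrix.charpoly_map]
    rfl
  rw [hmap, ← M.charpoly_monic.irreducible_iff_irreducible_map_fraction_map]
  have hdegM : M.charpoly.natDegree = n := by
    rw [Matrix.charpoly_natDegree_eq_dim, Fintype.card_fin]
  rw [M.charpoly_monic.irreducible_iff_natDegree']
  refine ⟨?_, ?_⟩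
  · intro h1
    rw [h1, natDegree_one] at hdegM
    omega
  · intro f g hf hg hfg hmem
    rw [Finset.mem_Ioc, hdegM] at hmem
    have hu : IsUnit (g.coeff 0) := by
      have h1 : f.coeff 0 * g.coeff 0 = M.charpoly.coeff 0 := by
        rw [← hfg, mul_coeff_zero]
      have h2 : IsUnit (M.charpoly.coeff 0) := by
        have h3 := Matrix.det_eq_sign_charpoly_coeff M
        have h4 : IsUnit M.det := by
          rcases hM with h | h <;> rw [h] <;> simp
        rw [h3] at h4
        exact isUnit_of_mul_isUnit_right h4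
      rw [← h1] at h2
      exact isUnit_of_mul_isUnit_right h2
    have := main g hg ⟨f, by rw [← hfg]; ring⟩ hu
    have := Nat.le_of_dvd hmem.1 this
    omega

end Pool.Agent.Work.MP_77d073_nt.Root
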