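import Mathlib
import Pool.Agent.Work.MP_77d073_nt.RootDefs
import Pool.Agent.Work.MP_77d073_nt.RootBlow

set_option autoImplicit false

namespace Pool.Agent.Work.MP_77d073_nt.Root

open Filter Topology Pool.Agent.Work.MP_77d073_nt

theorem iso_norm {n : ℕ} (hn : 0 < n) (s : Fin n → ℝ) (hs : ∀ i, 0 < s i) :
    ∃ t : Fin n → ℝ, (∀ i, 0 < t i) ∧ ∏ i, t i = 1 ∧ ∀ a b, t a / t b = s a / s b := by
  have hP : 0 < ∏ i, s i := Finset.prod_pos fun i _ => hs i
  set q : ℝ := (∏ i, s i) ^ (-(1 / (n : ℝ))) with hq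
  have hq0 : 0 < q := Real.rpow_pos_of_pos hP _
  refine ⟨fun i => s i * q, fun i => mul_pos (hs i) hq0, ?_, fun a b => ?_⟩
  · rw [Finset.prod_mul_distrib, Finset.prod_const, Finset.card_univ, Fintype.card_fin, hq,
      ← Real.rpow_natCast, ← Real.rpow_mul hP.le]
    have h1 : -(1 / (n : ℝ)) * n = -1 := by
      have : (n : ℝ) ≠ 0 := by exact_mod_cast hn.ne'
      field_simp
    rw [h1, Real.rpow_neg_one, mul_inv_cancel₀ hP.ne']
  · exact mul_div_mul_right _ _ hq0.ne'

/-- ISO. -/
theorem isolate {n : ℕ} {Y : Set (Fin n → Fin n → ℝ)} (hY : CI Y) {β : ℝ} (hbox : Red Y β)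
    (P : Finset (Fin n)) (B : Matrix (Fin n) (Fin n) ℝ)
    (hB : ∀ a b, B a b ≠ 0 → a ∈ P ∧ b ∉ P) {z : Fin n → Fin n → ℝ} (hz : z ∈ Y)
    (hBz : ac (1 + B) z ∈ Y) {l m : Fin n} (hlm : B l m ≠ 0) : Pr Y l m := by
  classical
  have hn : 0 < n := lt_of_le_of_lt (Nat.zero_le _) l.2
  obtain ⟨hl, hm⟩ := hB l m hlm
  have hlm' : l ≠ m := fun h => hm (h ▸ hl)
  set b0 : ℝ := |B l m| with hb0
  have hb0p : 0 < b0 := abs_pos.2 hlm
  set s : ℕ → Fin n → ℝ := fun k a =>
    if a ∈ P then (if a = l then 1 else 1 / ((k : ℝ) + 1)) else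
      (if a = m then b0 else (k : ℝ) + 1) with hs
  have hk0 : ∀ k : ℕ, (0 : ℝ) < (k : ℝ) + 1 := fun k => by positivity
  have hspos : ∀ k i, 0 < s k i := by
    intro k i
    simp only [hs]
    have := hk0 k
    split_ifs <;> positivity
  choose t ht ht1 htr using fun k => iso_norm hn (s k) (hspos k)
  set σ : ℝ := B l m / b0 with hσ
  have hσ1 : σ = 1 ∨ σ = -1 := by
    rcases lt_or_gt_of_ne hlm with h | h
    · right; rw [hσ, hb0, abs_of_neg h, div_neg, div_self hlm]
    · left; rw [hσ, hb0, abs_of_pos h, div_self hlm]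
  set h : Matrix (Fin n) (Fin n) ℝ := fun a b =>
    (1 : Matrix (Fin n) (Fin n) ℝ) a b + (if a = l ∧ b = m then σ else 0) with hh
  have h1k : Tendsto (fun k : ℕ => 1 / ((k : ℝ) + 1)) atTop (𝓝 0) :=
    tendsto_one_div_add_atTop_nhds_zero_nat
  have hlim : ∀ (_ : Unit) (a b : Fin n), Tendsto (fun k => t k a / t k b * (1 + B) a b) atTop
      (𝓝 (h a b)) := by
    intro _ a b
    simp_rw [htr]
    by_cases hab : B a b = 0
    · have hne : ¬ (a = l ∧ b = m) := by
        rintro ⟨rfl, rfl⟩
        exact hlm hab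
      have h2 : ∀ k, s k a / s k b * (1 + B) a b = h a b := by
        intro k
        rw [Matrix.add_apply, hab, add_zero, hh]
        simp only [if_neg hne, add_zero]
        by_cases hab' : a = b
        · subst hab'
          rw [div_self (hspos k a).ne', one_mul]
        · rw [Matrix.one_apply_ne hab', mul_zero]
      simp_rw [h2]
      exact tendsto_const_nhds
    · obtain ⟨ha, hb⟩ := hB a b hab
      have hab' : a ≠ b := fun h => hb (h ▸ ha)
      rw [hh]
      simp only [Matrix.add_apply, Matrix.one_apply_ne hab', zero_add]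
      by_cases hal : a = l
      · by_cases hbm : b = m
        · rw [if_pos ⟨hal, hbm⟩]
          have h2 : ∀ k, s k a / s k b * B a b = σ := by
            intro k
            simp only [hs, if_pos ha, if_neg hb, if_pos hal, if_pos hbm]
            rw [hσ, hal, hbm]
            ring
          simp_rw [h2]
          exact tendsto_const_nhds
        · rw [if_neg (fun h => hbm h.2)]
          have h2 : ∀ k : ℕ, s k a / s k b * B a b = 1 / ((k : ℝ) + 1) * B a b := by
            intro k
            simp only [hs, if_pos ha, if_neg hb, if_pos hal, if_neg hbm]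
          simp_rw [h2]
          simpa using h1k.mul_const (B a b)
      · rw [if_neg (fun h => hal h.1)]
        by_cases hbm : b = m
        · have h2 : ∀ k : ℕ, s k a / s k b * B a b = 1 / ((k : ℝ) + 1) * (B a b / b0) := by
            intro k
            simp only [hs, if_pos ha, if_neg hb, if_neg hal, if_pos hbm]
            ring
          simp_rw [h2]
          simpa using h1k.mul_const (B a b / b0)
        · have h2 : ∀ k : ℕ, s k a / s k b * B a b =
              1 / ((k : ℝ) + 1) * (1 / ((k : ℝ) + 1)) * B a b := by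
            intro k
            simp only [hs, if_pos ha, if_neg hb, if_neg hal, if_neg hbm]
            ring
          simp_rw [h2]
          simpa using (h1k.mul h1k).mul_const (B a b)
  obtain ⟨w, hw, hw'⟩ := blow (ι := Unit) hY hbox (fun _ => z) (fun _ => hz) (fun _ _ => 1 + B)
    (fun _ _ => hBz) t ht ht1 (fun _ => h) hlim
  have hw1 := hw' ()
  have hac : ∀ a b, ac h w a b = w a b + if a = l then σ * w m b else 0 := by
    intro a b
    unfold ac
    simp only [hh, add_mul, Finset.sum_add_distrib]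
    congr 1
    · simp [Matrix.one_apply]
    · by_cases hal : a = l
      · simp [hal]
      · simp [hal]
  rcases hσ1 with h1 | h1
  · refine ⟨w, hw, ac h w, hw1, fun a b => ?_⟩
    rw [hac, h1, one_mul]
  · refine ⟨ac h w, hw1, w, hw, fun a b => ?_⟩
    rw [hac, hac m b, if_neg (Ne.symm hlm'), h1]
    by_cases hal : a = l
    · rw [if_pos hal, if_pos hal]
      ring
    · rw [if_neg hal, if_neg hal]
      ring

end Pool.Agent.Work.MP_77d073_nt.Root
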