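import Mathlib
import Pool.Agent.Work.MP_77d073_nt.RootDefs

set_option autoImplicit false

namespace Pool.Agent.Work.MP_77d073_nt.Root

open Filter Topology Pool.Agent.Work.MP_77d073_nt

theorem rec_bt_add {n : ℕ} (P : Finset (Fin n)) (r s : ℝ) : bt P r * bt P s = bt P (r + s) := by
  funext a
  simp only [Pi.mul_apply, bt]
  split_ifs
  · rw [← Real.exp_add]; congr 1; ring
  · rw [← Real.exp_add]; congr 1; ring

theorem rec_ac_eq {n : ℕ} (h : Matrix (Fin n) (Fin n) ℝ) (X : Fin n → Fin n → ℝ) :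
    Matrix.of (ac h X) = h * Matrix.of X := by
  ext a b
  rw [Matrix.mul_apply]
  rfl

theorem rec_u {n : ℕ} {Y : Set (Fin n → Fin n → ℝ)} (hY : CI Y) (P : Finset (Fin n))
    (u : Matrix (Fin n) (Fin n) ℝ) (hu : ∀ a b, u a b ≠ 0 → (a ∈ P ↔ b ∈ P))
    {x : Fin n → Fin n → ℝ} (hux : ac u x ∈ Y) (N : Matrix (Fin n) (Fin n) ℤ) (hN : Uni N)
    (r : ℝ) : ac u (tr x N (bt P r)) ∈ Y := by
  have h1 := hY.inv _ hux N (bt P r) hN (bt_prod P r)
  rw [tr_ac u x N (fun i => (bt_pos P r i).ne')] at h1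
  have h2 : (fun a c => bt P r a / bt P r c * u a c) = u := by
    funext a c
    by_cases h0 : u a c = 0
    · rw [h0, mul_zero]
    · have h3 : bt P r a = bt P r c := by
        unfold bt
        have := hu a c h0
        by_cases ha : a ∈ P
        · rw [if_pos ha, if_pos (this.1 ha)]
        · rw [if_neg ha, if_neg (fun hc => ha (this.2 hc))]
      rw [h3, div_self (bt_pos P r c).ne', one_mul]
  rw [h2] at h1
  exact h1

/-- REC. -/
theorem recur_pair {n : ℕ} {Y : Set (Fin n → Fin n → ℝ)} (hY : CI Y) {β : ℝ} (hbox : Red Y β)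
    {c D : ℝ} (hD : 0 < D) (hG : Good c D Y) (P : Finset (Fin n))
    (u : Matrix (Fin n) (Fin n) ℝ) (hu : ∀ a b, u a b ≠ 0 → (a ∈ P ↔ b ∈ P))
    {x : Fin n → Fin n → ℝ} (hx : x ∈ Y) (hux : ac u x ∈ Y) {ε : ℝ} (hε : 0 < ε) (K : ℕ) :
    ∃ z ∈ Y, ac u z ∈ Y ∧ ∃ (G : Matrix (Fin n) (Fin n) ℝ) (r : ℕ) (M : Matrix (Fin n) (Fin n) ℤ),
      (∀ a b, |G a b - (1 : Matrix (Fin n) (Fin n) ℝ) a b| < ε) ∧ K ≤ r ∧ Uni M ∧
      ac G z ∈ Y ∧ ac (u * G) z ∈ Y ∧ ac G z = tr z M (bt P r) := by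
  have h1 : ∀ k : ℕ, ∃ M : Matrix (Fin n) (Fin n) ℤ, Uni M ∧ tr x M (bt P k) ∈ Y ∩ box n β := by
    intro k
    obtain ⟨M, hM, hMY⟩ := hbox _ (hY.inv x hx 1 (bt P k) (Or.inl (by simp)) (bt_prod P k))
    rw [tr_tr, one_mul, one_mul] at hMY
    exact ⟨M, hM, hMY⟩
  choose N hN hNY using h1
  obtain ⟨z, -, φ, hφ, hlimz⟩ := (box_compact (n := n) β).tendsto_subseq (fun k => (hNY k).2)
  have hzY : z ∈ Y := hY.closed.mem_of_tendsto hlimz (Eventually.of_forall fun k => (hNY (φ k)).1)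
  set w : ℕ → Matrix (Fin n) (Fin n) ℝ := fun k => Matrix.of (tr x (N (φ k)) (bt P (φ k : ℕ)))
    with hw
  have hwlim : Tendsto w atTop (𝓝 (Matrix.of z)) := hlimz
  have hz0 : (Matrix.of z).det ≠ 0 := hG.ne hD hzY
  have hw0 : ∀ k, IsUnit (w k).det := fun k => isUnit_iff_ne_zero.2 (hG.ne hD (hNY (φ k)).1)
  have hinv : Tendsto (fun k => (w k)⁻¹) atTop (𝓝 (Matrix.of z)⁻¹) := by
    have e : ∀ A : Matrix (Fin n) (Fin n) ℝ, A⁻¹ = A.det⁻¹ • A.adjugate := by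
      intro A
      rw [Matrix.inv_def, Ring.inverse_eq_inv']
    simp_rw [e]
    apply Tendsto.smul
    · exact ((continuous_id.matrix_det.tendsto _).comp hwlim).inv₀ hz0
    · exact (continuous_id.matrix_adjugate.tendsto _).comp hwlim
  have hlimG : Tendsto (fun k => w (k + K) * (w k)⁻¹) atTop (𝓝 1) := by
    have h2 : Tendsto (fun k => w (k + K) * (w k)⁻¹) atTop (𝓝 (Matrix.of z * (Matrix.of z)⁻¹)) :=
      (hwlim.comp (tendsto_add_atTop_nat K)).mul hinv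
    rwa [Matrix.mul_nonsing_inv _ (isUnit_iff_ne_zero.2 hz0)] at h2
  have hev : ∀ᶠ k in atTop, ∀ a b, |(w (k + K) * (w k)⁻¹) a b -
      (1 : Matrix (Fin n) (Fin n) ℝ) a b| < ε := by
    rw [eventually_all]
    intro a
    rw [eventually_all]
    intro b
    have h2 : Tendsto (fun k => (w (k + K) * (w k)⁻¹) a b) atTop
        (𝓝 ((1 : Matrix (Fin n) (Fin n) ℝ) a b)) :=
      tendsto_pi_nhds.1 (tendsto_pi_nhds.1 hlimG a) b
    have h3 := (Metric.tendsto_nhds.1 h2) ε hε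
    filter_upwards [h3] with k hk
    rwa [Real.dist_eq] at hk
  obtain ⟨k, hk⟩ := hev.exists
  obtain ⟨N', hN', hNN', hN'N⟩ := (hN (φ k)).inv
  have hle : φ k + K ≤ φ (k + K) := by
    clear hk hev hlimG
    induction K with
    | zero => simp
    | succ K ih =>
      have := hφ (show k + K < k + (K + 1) by omega)
      omega
  set r : ℕ := φ (k + K) - φ k with hr
  have hrK : K ≤ r := by omega
  have hz' : ac (w (k + K) * (w k)⁻¹) (tr x (N (φ k)) (bt P (φ k : ℕ))) =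
      tr x (N (φ (k + K))) (bt P (φ (k + K) : ℕ)) := by
    have h2 : Matrix.of (ac (w (k + K) * (w k)⁻¹) (tr x (N (φ k)) (bt P (φ k : ℕ)))) =
        w (k + K) := by
      rw [rec_ac_eq, Matrix.mul_assoc]
      change w (k + K) * ((w k)⁻¹ * w k) = w (k + K)
      rw [Matrix.nonsing_inv_mul _ (hw0 k), Matrix.mul_one]
    exact Matrix.of.injective h2
  refine ⟨tr x (N (φ k)) (bt P (φ k : ℕ)), (hNY (φ k)).1, rec_u hY P u hu hux _ (hN _) _,
    w (k + K) * (w k)⁻¹, r, N' * N (φ (k + K)), hk, hrK, hN'.mul (hN _), ?_, ?_, ?_⟩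
  · rw [hz']
    exact (hNY (φ (k + K))).1
  · rw [ac_mul, hz']
    exact rec_u hY P u hu hux _ (hN _) _
  · rw [hz', tr_tr, rec_bt_add, ← Matrix.mul_assoc, hNN', Matrix.one_mul]
    congr 2
    rw [hr, Nat.cast_sub (by omega)]
    ring

end Pool.Agent.Work.MP_77d073_nt.Root
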