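import Mathlib
import Pool.Agent.Work.MP_77d073_nt.Rigid

set_option autoImplicit false

namespace Pool.Agent.Work.MP_77d073_nt

open NumberField NumberField.Units Module Filter Topology

section sub

variable {n : ℕ} {K : Type*} [Field K] [NumberField K]

/-- Dual relation: the trace-dual basis is a right eigenvector. -/
theorem dual_rel {b : Basis (Fin n) ℚ K} {θ : K} {B : Matrix (Fin n) (Fin n) ℚ}
    (hb : ∀ k, ∑ j, (B j k : K) * b j = θ * b k) (j : Fin n) :
    ∑ k, (B j k : K) * b.traceDual k = θ * b.traceDual j := by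
  apply b.traceDual.repr.injective
  ext l
  rw [Module.Basis.traceDual_repr_apply, Module.Basis.traceDual_repr_apply]
  simp only [Algebra.traceForm_apply]
  have h1 : (∑ k, (B j k : K) * b.traceDual k) * b l = ∑ k, (B j k) • (b.traceDual k * b l) := by
    rw [Finset.sum_mul]
    refine Finset.sum_congr rfl fun k _ => ?_
    rw [Rat.smul_def]; ring
  have h2 : θ * b.traceDual j * b l = ∑ m, (B m l) • (b.traceDual j * b m) := by
    have h3 : θ * b.traceDual j * b l = b.traceDual j * (θ * b l) := by ring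
    rw [h3, ← hb l, Finset.mul_sum]
    refine Finset.sum_congr rfl fun m _ => ?_
    rw [Rat.smul_def]; ring
  rw [h1, h2, map_sum, map_sum]
  simp_rw [map_smul, Module.Basis.trace_traceDual_mul]
  simp

/-- Complex row coefficients. -/
noncomputable def ccoef (b : Basis (Fin n) ℚ K) (y : Fin n → ℂ) (σ : K →+* ℂ) : ℂ :=
  ∑ j, y j * σ (b.traceDual j)

theorem ccoef_mul {b : Basis (Fin n) ℚ K} {θ : K} {B : Matrix (Fin n) (Fin n) ℚ}
    (hb : ∀ k, ∑ j, (B j k : K) * b j = θ * b k) (y : Fin n → ℂ) (σ : K →+* ℂ) :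
    ccoef b (Matrix.vecMul y (B.map (Rat.cast : ℚ → ℂ))) σ = σ θ * ccoef b y σ := by
  unfold ccoef
  rw [Finset.mul_sum]
  have h1 : ∀ j, σ θ * (y j * σ (b.traceDual j)) = ∑ k, y j * ((B j k : ℂ) * σ (b.traceDual k)) := by
    intro j
    have h2 := congrArg σ (dual_rel hb j)
    rw [map_mul, map_sum] at h2
    have h3 : σ θ * (y j * σ (b.traceDual j)) = y j * (σ θ * σ (b.traceDual j)) := by ring
    rw [h3, ← h2, Finset.mul_sum]
    refine Finset.sum_congr rfl fun k _ => ?_
    rw [map_mul, map_ratCast]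
  simp_rw [h1]
  rw [Finset.sum_comm]
  refine Finset.sum_congr rfl fun k _ => ?_
  simp only [Matrix.vecMul, dotProduct, Matrix.map_apply, Finset.sum_mul]
  refine Finset.sum_congr rfl fun j _ => ?_
  ring

theorem ccoef_eq_zero {b : Basis (Fin n) ℚ K} {y : Fin n → ℂ} (h : ∀ σ, ccoef b y σ = 0) : y = 0 := by
  funext k
  have h2 : ∑ σ : K →+* ℂ, ccoef b y σ * σ (b k) = 0 := by simp [h]
  unfold ccoef at h2
  simp_rw [Finset.sum_mul] at h2
  rw [Finset.sum_comm] at h2
  simp_rw [mul_assoc, ← Finset.mul_sum, ← map_mul] at h2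
  simp_rw [trace_sum, Module.Basis.trace_traceDual_mul] at h2
  have h3 : ∀ x : Fin n, (((if k = x then 1 else 0 : ℚ)) : ℂ) = if k = x then 1 else 0 := by
    intro x; split_ifs <;> simp
  simp_rw [h3] at h2
  simpa using h2

/-- Column coordinates. -/
noncomputable def col (b : Basis (Fin n) ℚ K) (x : Fin n → ℂ) (σ : K →+* ℂ) : ℂ :=
  ∑ k, x k * σ (b k)

theorem col_mul {b : Basis (Fin n) ℚ K} {θ : K} {B : Matrix (Fin n) (Fin n) ℚ}
    (hb : ∀ k, ∑ j, (B j k : K) * b j = θ * b k) (x : Fin n → ℂ) (σ : K →+* ℂ) :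
    col b ((B.map (Rat.cast : ℚ → ℂ)).mulVec x) σ = σ θ * col b x σ := by
  unfold col
  rw [Finset.mul_sum]
  have h1 : ∀ k, σ θ * (x k * σ (b k)) = ∑ j, x k * ((B j k : ℂ) * σ (b j)) := by
    intro k
    have h2 := congrArg σ (hb k)
    rw [map_mul, map_sum] at h2
    have h3 : σ θ * (x k * σ (b k)) = x k * (σ θ * σ (b k)) := by ring
    rw [h3, ← h2, Finset.mul_sum]
    refine Finset.sum_congr rfl fun j _ => ?_
    rw [map_mul, map_ratCast]
  simp_rw [h1]
  rw [Finset.sum_comm]
  refine Finset.sum_congr rfl fun k _ => ?_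
  simp only [Matrix.mulVec, dotProduct, Matrix.map_apply, Finset.sum_mul]
  refine Finset.sum_congr rfl fun j _ => ?_
  ring

theorem pair_sum (b : Basis (Fin n) ℚ K) (y x : Fin n → ℂ) :
    ∑ σ : K →+* ℂ, ccoef b y σ * col b x σ = ∑ j, y j * x j := by
  unfold ccoef col
  simp_rw [Finset.sum_mul_sum]
  rw [Finset.sum_comm]
  refine Finset.sum_congr rfl fun j _ => ?_
  rw [Finset.sum_comm]
  rw [Finset.sum_eq_single j]
  · have h1 : ∀ σ : K →+* ℂ, y j * σ (b.traceDual j) * (x j * σ (b j)) =
        (y j * x j) * σ (b.traceDual j * b j) := by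
      intro σ; rw [map_mul]; ring
    simp_rw [h1]
    rw [← Finset.mul_sum, trace_sum, Module.Basis.trace_traceDual_mul]
    simp
  · intro k _ hk
    have h1 : ∀ σ : K →+* ℂ, y j * σ (b.traceDual j) * (x k * σ (b k)) =
        (y j * x k) * σ (b.traceDual j * b k) := by
      intro σ; rw [map_mul]; ring
    simp_rw [h1]
    rw [← Finset.mul_sum, trace_sum, Module.Basis.trace_traceDual_mul]
    simp [hk]
  · simp

theorem col_eq_zero {b : Basis (Fin n) ℚ K} {x : Fin n → ℂ} (h : ∀ σ, col b x σ = 0) : x = 0 := by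
  funext k
  have h2 := pair_sum b (Pi.single k 1) x
  simp only [h, mul_zero, Finset.sum_const_zero] at h2
  rw [Finset.sum_eq_single k] at h2
  · simpa using h2.symm
  · intro j _ hj; simp [hj]
  · simp

theorem coef_eq_ccoef (b : Basis (Fin n) ℚ K) (L : Fin n → Fin n → ℝ) (i : Fin n) :
    coef b L i = ccoef b (fun j => (L i j : ℂ)) := rfl

/-- polynomial version of the eigenvector relation -/
theorem poly_rel {b : Basis (Fin n) ℚ K} {θ : K} {B : Matrix (Fin n) (Fin n) ℚ}
    (hb : ∀ k, ∑ j, (B j k : K) * b j = θ * b k) (f : Polynomial ℚ) :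
    ∀ k, ∑ j, ((Polynomial.aeval B f) j k : K) * b j = Polynomial.aeval θ f * b k := by
  induction f using Polynomial.induction_on' with
  | add p q hp hq =>
    intro k
    rw [map_add, map_add, add_mul, ← hp k, ← hq k, ← Finset.sum_add_distrib]
    refine Finset.sum_congr rfl fun j _ => ?_
    rw [Matrix.add_apply]; push_cast; ring
  | monomial m a =>
    have hpow : ∀ m : ℕ, ∀ k, ∑ j, ((B ^ m) j k : K) * b j = θ ^ m * b k := by
      intro m
      induction m with
      | zero =>
        intro k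
        rw [pow_zero, pow_zero, one_mul, Finset.sum_eq_single k]
        · simp
        · intro j _ hj; simp [hj]
        · simp
      | succ m ih =>
        intro k
        rw [pow_succ B m]
        simp_rw [Matrix.mul_apply]
        push_cast
        simp_rw [Finset.sum_mul]
        rw [Finset.sum_comm]
        have h1 : ∀ l, ∑ j, ((B ^ m) j l : K) * (B l k : K) * b j = (B l k : K) * (θ ^ m * b l) := by
          intro l
          rw [← ih l, Finset.mul_sum]
          refine Finset.sum_congr rfl fun j _ => ?_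
          ring
        simp_rw [h1]
        have h2 : ∀ l, (B l k : K) * (θ ^ m * b l) = θ ^ m * ((B l k : K) * b l) := by
          intro l; ring
        simp_rw [h2]
        rw [← Finset.mul_sum, hb, pow_succ]
        ring
    intro k
    rw [Polynomial.aeval_monomial, Polynomial.aeval_monomial, mul_assoc, ← hpow m k, Finset.mul_sum]
    refine Finset.sum_congr rfl fun j _ => ?_
    rw [← Algebra.smul_def, Matrix.smul_apply, smul_eq_mul]
    push_cast
    rw [eq_ratCast]
    ring


/-- Real span relation coming from invariance of a coordinate subspace. -/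
theorem span_of_invariant {L : Fin n → Fin n → ℝ} {I : Finset (Fin n)}
    {B : Matrix (Fin n) (Fin n) ℚ}
    (hinv : ∀ x : Fin n → ℝ, (∀ i ∈ I, ∑ j, L i j * x j = 0) →
      ∀ i ∈ I, ∑ j, L i j * ((B.map (Rat.cast : ℚ → ℝ)).mulVec x) j = 0)
    {i : Fin n} (hi : i ∈ I) :
    ∃ a : Fin n → ℝ, (∀ j ∉ I, a j = 0) ∧
      ∀ k, ∑ j, L i j * (B j k : ℝ) = ∑ i', a i' * L i' k := by
  classical
  let Lf : I → ((Fin n → ℝ) →ₗ[ℝ] ℝ) := fun i => 
    { toFun := fun x => ∑ j, L i.1 j * x j
      map_add' := by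
        intro x y
        rw [← Finset.sum_add_distrib]
        refine Finset.sum_congr rfl fun j _ => ?_
        simp [mul_add]
      map_smul' := by
        intro c x
        simp only [Pi.smul_apply, smul_eq_mul, RingHom.id_apply]
        rw [Finset.mul_sum]
        refine Finset.sum_congr rfl fun j _ => ?_
        ring }
  let Kf : (Fin n → ℝ) →ₗ[ℝ] ℝ := (Lf ⟨i, hi⟩) ∘ₗ (B.map (Rat.cast : ℚ → ℝ)).mulVecLin
  have hker : ⨅ i, LinearMap.ker (Lf i) ≤ LinearMap.ker Kf := by
    intro x hx
    rw [Submodule.mem_iInf] at hx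
    rw [LinearMap.mem_ker]
    exact hinv x (fun i' hi' => hx ⟨i', hi'⟩) i hi
  have hmem := mem_span_of_iInf_ker_le_ker hker
  rw [Submodule.mem_span_range_iff_exists_fun] at hmem
  obtain ⟨a, ha⟩ := hmem
  refine ⟨fun j => if h : j ∈ I then a ⟨j, h⟩ else 0, fun j hj => by simp [hj], fun k => ?_⟩
  have h1 := LinearMap.congr_fun ha (Pi.single k 1)
  have h2 : Kf (Pi.single k 1) = ∑ j, L i j * (B j k : ℝ) := by
    change ∑ j, L i j * ((B.map (Rat.cast : ℚ → ℝ)).mulVec (Pi.single k 1)) j = _
    refine Finset.sum_congr rfl fun j _ => ?_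
    simp
  have h3 : ∀ i' : I, Lf i' (Pi.single k 1) = L i'.1 k := by
    intro i'
    change ∑ j, L i'.1 j * (Pi.single k (1 : ℝ) : Fin n → ℝ) j = _
    simp [Pi.single_apply]
  rw [← h2, ← h1, LinearMap.sum_apply]
  simp only [LinearMap.smul_apply, h3, smul_eq_mul]
  rw [← Finset.sum_subset (Finset.subset_univ I)]
  · rw [← Finset.sum_attach I]
    refine Finset.sum_congr (by rfl) fun j _ => ?_
    simp
  · intro j _ hj
    simp [hj]

open scoped Classical in
theorem card_J {b : Basis (Fin n) ℚ K} {θ : K} {B : Matrix (Fin n) (Fin n) ℚ}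
    (hb : ∀ k, ∑ j, (B j k : K) * b j = θ * b k)
    (hgen : ∀ z : K, ∃ f : Polynomial ℚ, Polynomial.aeval θ f = z)
    {L : Fin n → Fin n → ℝ} (hL : LinearIndependent ℝ L) {I : Finset (Fin n)}
    (hinv : ∀ x : Fin n → ℝ, (∀ i ∈ I, ∑ j, L i j * x j = 0) →
      ∀ i ∈ I, ∑ j, L i j * ((B.map (Rat.cast : ℚ → ℝ)).mulVec x) j = 0)
    {J : Finset (K →+* ℂ)} (hJ : ∀ σ, σ ∈ J ↔ ∃ i ∈ I, coef b L i σ ≠ 0) :
    J.card = I.card ∧ ∀ σ ∈ J, (Pi.single σ 1 : (K →+* ℂ) → ℂ) ∈
      Submodule.span ℂ ((coef b L) '' (I : Set (Fin n))) := by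
  classical
  set S := Submodule.span ℂ ((coef b L) '' (I : Set (Fin n))) with hS
  have hli := coef_li b hL
  -- stability under multiplication by the eigenvalues
  have hstab : ∀ g ∈ S, (fun σ => σ θ * g σ) ∈ S := by
    intro g hg
    induction hg using Submodule.span_induction with
    | mem x hx =>
      obtain ⟨i, hi, rfl⟩ := hx
      obtain ⟨a, ha0, ha⟩ := span_of_invariant hinv hi
      have h1 : (fun σ : K →+* ℂ => σ θ * coef b L i σ) = ∑ i' ∈ I, (a i' : ℂ) • coef b L i' := by
        funext σ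
        rw [← coef_mul hb L i σ]
        unfold coef
        simp only [ha]
        rw [Finset.sum_apply]
        simp only [Pi.smul_apply, smul_eq_mul]
        rw [Finset.sum_subset (Finset.subset_univ I)]
        · push_cast
          simp_rw [Finset.sum_mul, Finset.mul_sum]
          rw [Finset.sum_comm]
          refine Finset.sum_congr rfl fun i' _ => Finset.sum_congr rfl fun j _ => ?_
          ring
        · intro i' _ hi'
          rw [ha0 i' hi']; simp
      rw [h1]
      exact S.sum_mem fun i' hi' => S.smul_mem _ (Submodule.subset_span ⟨i', hi', rfl⟩)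
    | zero =>
      have : (fun σ : K →+* ℂ => σ θ * (0 : (K →+* ℂ) → ℂ) σ) = 0 := by funext σ; simp
      rw [this]; exact S.zero_mem
    | add x y _ _ hx hy =>
      have : (fun σ : K →+* ℂ => σ θ * (x + y) σ) = (fun σ => σ θ * x σ) + (fun σ => σ θ * y σ) := by
        funext σ; simp [mul_add]
      rw [this]; exact S.add_mem hx hy
    | smul a x _ hx =>
      have : (fun σ : K →+* ℂ => σ θ * (a • x) σ) = a • (fun σ => σ θ * x σ) := by
        funext σ; simp; ring
      rw [this]; exact S.smul_mem _ hx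
  have hprod : ∀ (T : Finset (K →+* ℂ)), ∀ g ∈ S, (fun σ => (∏ τ ∈ T, (σ θ - τ θ)) * g σ) ∈ S := by
    intro T
    induction T using Finset.induction_on with
    | empty => intro g hg; simpa using hg
    | insert τ T hτ ih =>
      intro g hg
      have h1 := ih _ (S.sub_mem (hstab g hg) (S.smul_mem (τ θ) hg))
      convert! h1 using 2 with σ
      rw [Finset.prod_insert hτ]
      simp
      ring
  have hsingle : ∀ σ ∈ J, (Pi.single σ 1 : (K →+* ℂ) → ℂ) ∈ S := by
    intro σ0 hσ0
    obtain ⟨i, hi, hne⟩ := (hJ σ0).mp hσ0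
    have h1 := hprod (Finset.univ.erase σ0) (coef b L i) (Submodule.subset_span ⟨i, hi, rfl⟩)
    set q : ℂ := (∏ τ ∈ Finset.univ.erase σ0, (σ0 θ - τ θ)) * coef b L i σ0 with hq
    have hq0 : q ≠ 0 := by
      refine mul_ne_zero ?_ hne
      rw [Finset.prod_ne_zero_iff]
      intro τ hτ
      rw [sub_ne_zero]
      intro h
      exact (Finset.mem_erase.mp hτ).1 (embedding_ext hgen h).symm
    have h2 : (Pi.single σ0 1 : (K →+* ℂ) → ℂ) =
        q⁻¹ • (fun σ => (∏ τ ∈ Finset.univ.erase σ0, (σ θ - τ θ)) * coef b L i σ) := by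
      funext σ
      by_cases hσ : σ = σ0
      · subst hσ
        rw [Pi.single_eq_same]
        simp only [Pi.smul_apply, smul_eq_mul]
        rw [← hq, inv_mul_cancel₀ hq0]
      · rw [Pi.single_eq_of_ne hσ]
        simp only [Pi.smul_apply, smul_eq_mul]
        rw [Finset.prod_eq_zero (i := σ) (by simp [hσ]) (by simp)]
        simp
    rw [h2]
    exact S.smul_mem _ h1
  refine ⟨le_antisymm ?_ ?_, hsingle⟩
  · -- J.card ≤ I.card
    have h1 : finrank ℂ S ≤ I.card := by
      have h2 : (coef b L '' (I : Set (Fin n))) = ((I.image (coef b L) : Finset _) : Set ((K →+* ℂ) → ℂ)) := by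
        simp
      rw [hS, h2]
      exact (finrank_span_finset_le_card _).trans Finset.card_image_le
    have h3 : LinearIndependent ℂ (fun σ : J => (⟨Pi.single σ.1 1, hsingle σ.1 σ.2⟩ : S)) := by
      have h4 : LinearIndependent ℂ (fun σ : K →+* ℂ => (Pi.single σ 1 : (K →+* ℂ) → ℂ)) := by
        have := (Pi.basisFun ℂ (K →+* ℂ)).linearIndependent
        have h5 : (fun σ : K →+* ℂ => (Pi.single σ 1 : (K →+* ℂ) → ℂ)) = ⇑(Pi.basisFun ℂ (K →+* ℂ)) := by
          funext σ
          rw [Pi.basisFun_apply]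
        rw [h5]; exact this
      have h5 := h4.comp (fun σ : J => σ.1) Subtype.val_injective
      exact LinearIndependent.of_comp S.subtype h5
    have h6 := h3.fintype_card_le_finrank
    rw [Fintype.card_coe] at h6
    exact h6.trans h1
  · -- I.card ≤ J.card
    have h1 : LinearIndependent ℂ (fun i : I => (fun σ : J => coef b L i.1 σ.1)) := by
      rw [Fintype.linearIndependent_iff]
      intro g hg i
      have h2 := hli.comp (fun i : I => i.1) Subtype.val_injective
      rw [Fintype.linearIndependent_iff] at h2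
      apply h2 g
      funext σ
      simp only [Finset.sum_apply, Pi.smul_apply, smul_eq_mul, Function.comp, Pi.zero_apply]
      by_cases hσ : σ ∈ J
      · have h3 := congrFun hg ⟨σ, hσ⟩
        simpa using h3
      · apply Finset.sum_eq_zero
        intro i' _
        have : coef b L i'.1 σ = 0 := by
          by_contra h0
          exact hσ ((hJ σ).mpr ⟨i'.1, i'.2, h0⟩)
        rw [this, mul_zero]
    have h2 := h1.fintype_card_le_finrank
    rw [Fintype.card_coe, Module.finrank_fintype_fun_eq_card, Fintype.card_coe] at h2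
    exact h2

end sub

end Pool.Agent.Work.MP_77d073_nt
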