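import Mathlib
import Pool.Agent.Work.MP_77d073_nt.Sub

set_option autoImplicit false

namespace Pool.Agent.Work.MP_77d073_nt

open NumberField NumberField.Units Module Filter Topology

section fib

variable {n : ℕ} {K : Type*} [Field K] [NumberField K]

/-- The separation condition: an element of `ℚ[B]` that is neither scalar nor of irreducible
characteristic polynomial has a common eigenvalue on the coordinate subspace and the quotient. -/
def NonSep (L : Fin n → Fin n → ℝ) (I : Finset (Fin n)) (B : Matrix (Fin n) (Fin n) ℚ) : Prop :=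
  ∀ f : Polynomial ℚ,
    (∃ q : ℚ, Polynomial.aeval B f = Matrix.scalar (Fin n) q) ∨
    Irreducible (Polynomial.aeval B f).charpoly ∨
    ∃ μ : ℂ,
      (∃ x : Fin n → ℂ, x ≠ 0 ∧ (∀ i ∈ I, ∑ j, (L i j : ℂ) * x j = 0) ∧
        ((Polynomial.aeval B f).map (Rat.cast : ℚ → ℂ)).mulVec x = μ • x) ∧
      (∃ a : Fin n → ℂ, (∀ i ∉ I, a i = 0) ∧ (fun j => ∑ i, a i * (L i j : ℂ)) ≠ 0 ∧
        Matrix.vecMul (fun j => ∑ i, a i * (L i j : ℂ))
          ((Polynomial.aeval B f).map (Rat.cast : ℚ → ℂ)) = μ • (fun j => ∑ i, a i * (L i j : ℂ)))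

theorem finrank_locus {σ τ : K →+* ℂ} (hne : σ ≠ τ) :
    1 < finrank (σ.eqLocusField τ) K := by
  set F : Subfield K := σ.eqLocusField τ with hF
  have : FiniteDimensional F K := Module.Finite.of_restrictScalars_finite ℚ F K
  by_contra hle
  have h1 : finrank F K = 1 := by
    have : 0 < finrank F K := finrank_pos
    omega
  apply hne
  ext z
  have h2 : (⊤ : Subalgebra F K) = ⊥ := Subalgebra.bot_eq_top_of_finrank_eq_one h1 |>.symm
  have h3 : z ∈ (⊥ : Subalgebra F K) := h2 ▸ Algebra.mem_top
  obtain ⟨w, rfl⟩ := Algebra.mem_bot.mp h3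
  exact w.2

theorem fib_cases {b : Basis (Fin n) ℚ K} {θ : K} {B : Matrix (Fin n) (Fin n) ℚ}
    (hb : ∀ k, ∑ j, (B j k : K) * b j = θ * b k)
    (hgen : ∀ z : K, ∃ f : Polynomial ℚ, Polynomial.aeval θ f = z)
    {L : Fin n → Fin n → ℝ} (hL : LinearIndependent ℝ L) {I : Finset (Fin n)}
    (hI : I.Nonempty) (hI' : I ≠ Finset.univ)
    (hinv : ∀ x : Fin n → ℝ, (∀ i ∈ I, ∑ j, L i j * x j = 0) →
      ∀ i ∈ I, ∑ j, L i j * ((B.map (Rat.cast : ℚ → ℝ)).mulVec x) j = 0)
    {J : Finset (K →+* ℂ)} (hJ : ∀ σ, σ ∈ J ↔ ∃ i ∈ I, coef b L i σ ≠ 0)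
    (hC : I.card + 1 = n ∨ n.Prime ∨ NonSep L I B) :
    ∀ σ τ : K →+* ℂ, σ ≠ τ → ∃ ρ ∈ J, ∃ ρ' ∉ J, ∀ z : K, σ z = τ z → ρ z = ρ' z := by
  classical
  obtain ⟨hJI, hJspan⟩ := card_J hb hgen hL hinv hJ
  have hcardS : Fintype.card (K →+* ℂ) = n := by
    rw [NumberField.Embeddings.card, Module.finrank_eq_card_basis b, Fintype.card_fin]
  have hIn : I.card < n := by
    have := Finset.card_lt_card (lt_of_le_of_ne (Finset.subset_univ I) hI')
    rwa [Finset.card_univ, Fintype.card_fin] at this
  have hJne : J.Nonempty := by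
    rw [← Finset.card_pos, hJI]; exact Finset.card_pos.mpr hI
  obtain ⟨ρ1, hρ1⟩ := hJne
  obtain ⟨ρ2, hρ2⟩ : ∃ ρ, ρ ∉ J := by
    by_contra hcon
    push Not at hcon
    have h1 : J = Finset.univ := by ext σ; simp [hcon σ]
    rw [h1, Finset.card_univ, hcardS] at hJI
    omega
  rcases hC with hC | hC | hC
  · -- complement of a point
    intro σ τ hστ
    obtain ⟨ρ', hρ', hz⟩ := exists_partner hστ ρ2
    refine ⟨ρ', ?_, ρ2, hρ2, fun z hz' => (hz z hz').symm⟩
    by_contra hρJ
    have h1 : ({ρ2, ρ'} : Finset (K →+* ℂ)) ⊆ Jᶜ := by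
      intro ρ hρ
      rw [Finset.mem_compl]
      rcases Finset.mem_insert.mp hρ with rfl | h
      · exact hρ2
      · rw [Finset.mem_singleton.mp h]; exact hρJ
    have h2 := Finset.card_le_card h1
    rw [Finset.card_pair (Ne.symm hρ'), Finset.card_compl, hcardS, hJI] at h2
    omega
  · -- prime degree
    intro σ τ hστ
    refine ⟨ρ1, hρ1, ρ2, hρ2, fun z hz => ?_⟩
    set F : Subfield K := σ.eqLocusField τ with hF
    have h1 := finrank_locus hστ
    have h2 : finrank ℚ F * finrank F K = n := by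
      rw [Module.finrank_mul_finrank ℚ F K, Module.finrank_eq_card_basis b, Fintype.card_fin]
    have h3 : finrank ℚ F = 1 := by
      rcases (Nat.dvd_prime hC).mp ⟨_, h2.symm.trans (mul_comm _ _)⟩ with h4 | h4
      · rw [← hF] at h1; omega
      · rw [h4] at h2
        have hn0 : 0 < n := hC.pos
        have : finrank ℚ F * n = 1 * n := by rw [h2, one_mul]
        exact Nat.eq_of_mul_eq_mul_right hn0 this
    obtain ⟨q, hq⟩ := (finrank_eq_one_iff_of_nonzero' (1 : F) one_ne_zero).mp h3 ⟨z, hz⟩
    have h5 : z = (q : K) := by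
      have := congrArg (fun w : F => (w : K)) hq
      simp only [Rat.smul_def, mul_one] at this
      rw [← this]; simp
    rw [h5, map_ratCast, map_ratCast]
  · -- non-separation
    intro σ τ hστ
    set F : Subfield K := σ.eqLocusField τ with hF
    have h1 := finrank_locus hστ
    rw [← hF] at h1
    have h2 : finrank ℚ F * finrank F K = n := by
      rw [Module.finrank_mul_finrank ℚ F K, Module.finrank_eq_card_basis b, Fintype.card_fin]
    set pb := Field.powerBasisOfFiniteOfSeparable ℚ F with hpb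
    obtain ⟨f, hf⟩ := hgen (pb.gen : K)
    have hext : ∀ ρ ρ' : K →+* ℂ, ρ (pb.gen : K) = ρ' (pb.gen : K) → ∀ z ∈ F, ρ z = ρ' z := by
      intro ρ ρ' h z hz
      have h3 : (ρ.comp F.subtype).toRatAlgHom = (ρ'.comp F.subtype).toRatAlgHom := by
        apply pb.algHom_ext
        exact h
      exact DFunLike.congr_fun h3 ⟨z, hz⟩
    have hrel := poly_rel hb f
    rw [hf] at hrel
    rcases hC f with ⟨q, hq⟩ | hirr | ⟨μ, ⟨x, hx0, hxI, hxμ⟩, ⟨a, haI, hy0, hyμ⟩⟩
    · refine ⟨ρ1, hρ1, ρ2, hρ2, fun z hz => hext ρ1 ρ2 ?_ z hz⟩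
      have hn0 : 0 < n := by omega
      have h4 := hrel ⟨0, hn0⟩
      rw [hq] at h4
      have h5 : ∑ j, ((Matrix.scalar (Fin n) q) j ⟨0, hn0⟩ : K) * b j = (q : K) * b ⟨0, hn0⟩ := by
        rw [Finset.sum_eq_single ⟨0, hn0⟩]
        · simp
        · intro j _ hj
          simp [Matrix.scalar_apply, Matrix.diagonal_apply_ne _ hj]
        · simp
      rw [h5] at h4
      have h6 := mul_right_cancel₀ (b.ne_zero ⟨0, hn0⟩) h4
      rw [← h6, map_ratCast, map_ratCast]
    · exfalso
      set χ := (Polynomial.aeval B f).charpoly with hχ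
      have h4 : Polynomial.aeval (pb.gen : K) χ = 0 := by
        have h5 := poly_rel hb (χ.comp f)
        have hn0 : 0 < n := by omega
        have h6 := h5 ⟨0, hn0⟩
        rw [Polynomial.aeval_comp, Polynomial.aeval_comp, hf, hχ, Matrix.aeval_self_charpoly] at h6
        simp only [Matrix.zero_apply, Rat.cast_zero, zero_mul, Finset.sum_const_zero] at h6
        exact (mul_eq_zero.mp h6.symm).resolve_right (b.ne_zero _)
      have h5 : χ = minpoly ℚ (pb.gen : K) :=
        minpoly.eq_of_irreducible_of_monic hirr h4 (Matrix.charpoly_monic _)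
      have h6 : χ.natDegree = n := by
        rw [hχ, Matrix.charpoly_natDegree_eq_dim, Fintype.card_fin]
      have h7 : (minpoly ℚ (pb.gen : K)).natDegree ≤ finrank ℚ F := by
        have h8 : minpoly ℚ (pb.gen : K) = minpoly ℚ pb.gen := by
          exact minpoly.algebraMap_eq (B := F) (B' := K) Subtype.val_injective pb.gen
        rw [h8]
        exact minpoly.natDegree_le pb.gen
      rw [← h5, h6] at h7
      have h8 : 0 < finrank ℚ F := finrank_pos
      nlinarith
    · -- common eigenvalue
      have hg : ∀ z : K, True := fun _ => trivial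
      have hdz : ∀ ρ : K →+* ℂ, ccoef b (fun j => ∑ i, a i * (L i j : ℂ)) ρ =
          ∑ i, a i * coef b L i ρ := by
        intro ρ
        unfold ccoef coef
        simp_rw [Finset.sum_mul, Finset.mul_sum]
        rw [Finset.sum_comm]
        refine Finset.sum_congr rfl fun i _ => Finset.sum_congr rfl fun j _ => ?_
        ring
      obtain ⟨ρ, hρ⟩ : ∃ ρ, ccoef b (fun j => ∑ i, a i * (L i j : ℂ)) ρ ≠ 0 := by
        by_contra hcon
        push Not at hcon
        exact hy0 (ccoef_eq_zero hcon)
      have hρμ : ρ (pb.gen : K) = μ := by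
        have h4 := ccoef_mul hrel (fun j => ∑ i, a i * (L i j : ℂ)) ρ
        rw [hyμ] at h4
        have h5 : ccoef b (μ • fun j => ∑ i, a i * (L i j : ℂ)) ρ =
            μ * ccoef b (fun j => ∑ i, a i * (L i j : ℂ)) ρ := by
          unfold ccoef
          rw [Finset.mul_sum]
          refine Finset.sum_congr rfl fun j _ => ?_
          simp only [Pi.smul_apply, smul_eq_mul]; ring
        rw [h5] at h4
        exact (mul_right_cancel₀ hρ h4).symm
      have hρJ : ρ ∈ J := by
        rw [hJ]
        by_contra hcon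
        push Not at hcon
        apply hρ
        rw [hdz]
        apply Finset.sum_eq_zero
        intro i _
        by_cases hi : i ∈ I
        · rw [hcon i hi, mul_zero]
        · rw [haI i hi, zero_mul]
      obtain ⟨ρ', hρ'⟩ : ∃ ρ', col b x ρ' ≠ 0 := by
        by_contra hcon
        push Not at hcon
        exact hx0 (col_eq_zero hcon)
      have hρ'μ : ρ' (pb.gen : K) = μ := by
        have h4 := col_mul hrel x ρ'
        rw [hxμ] at h4
        have h5 : col b (μ • x) ρ' = μ * col b x ρ' := by
          unfold col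
          rw [Finset.mul_sum]
          refine Finset.sum_congr rfl fun j _ => ?_
          simp only [Pi.smul_apply, smul_eq_mul]; ring
        rw [h5] at h4
        exact (mul_right_cancel₀ hρ' h4).symm
      have hρ'J : ρ' ∉ J := by
        intro hmem
        have h4 := hJspan ρ' hmem
        have h5 : ∀ g ∈ Submodule.span ℂ ((coef b L) '' (I : Set (Fin n))), ∑ σ, g σ * col b x σ = 0 := by
          intro g hg
          induction hg using Submodule.span_induction with
          | mem y hy =>
            obtain ⟨i, hi, rfl⟩ := hy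
            rw [coef_eq_ccoef, pair_sum]
            exact hxI i hi
          | zero => simp
          | add u v _ _ hu hv =>
            simp only [Pi.add_apply, add_mul, Finset.sum_add_distrib, hu, hv, add_zero]
          | smul c u _ hu =>
            simp only [Pi.smul_apply, smul_eq_mul, mul_assoc]
            rw [← Finset.mul_sum, hu, mul_zero]
        have h6 := h5 _ h4
        rw [Finset.sum_eq_single ρ'] at h6
        · simp at h6; exact hρ' h6
        · intro σ _ hσ; simp [Pi.single_eq_of_ne hσ]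
        · simp
      exact ⟨ρ, hρJ, ρ', hρ'J, fun z hz => hext ρ ρ' (hρμ.trans hρ'μ.symm) z hz⟩

end fib

end Pool.Agent.Work.MP_77d073_nt
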