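import Mathlib
import Pool.Agent.Work.MP_77d073_nt.Fib

set_option autoImplicit false

namespace Pool.Agent.Work.MP_77d073_nt.SubspaceResult

open Filter Topology Pool.Agent.Work.MP_77d073_nt

/-- No element of `ℚ[B]` separates the coordinate subspace `W = ⋂_{i ∈ I} {L_i = 0}` from the
quotient: every `f(B)` is scalar, or has irreducible characteristic polynomial, or has a common
complex eigenvalue on `W` (with eigenvector `x`) and on the span of the `L_i`, `i ∈ I` (with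
eigenvector `∑ a_i L_i`). -/
def NoSeparation {n : ℕ} (L : Fin n → Fin n → ℝ) (I : Finset (Fin n))
    (B : Matrix (Fin n) (Fin n) ℚ) : Prop :=
  ∀ f : Polynomial ℚ,
    (∃ q : ℚ, Polynomial.aeval B f = Matrix.scalar (Fin n) q) ∨
    Irreducible (Polynomial.aeval B f).charpoly ∨
    ∃ μ : ℂ,
      (∃ x : Fin n → ℂ, x ≠ 0 ∧ (∀ i ∈ I, ∑ j, (L i j : ℂ) * x j = 0) ∧
        ((Polynomial.aeval B f).map (Rat.cast : ℚ → ℂ)).mulVec x = μ • x) ∧
      (∃ a : Fin n → ℂ, (∀ i ∉ I, a i = 0) ∧ (fun j => ∑ i, a i * (L i j : ℂ)) ≠ 0 ∧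
        Matrix.vecMul (fun j => ∑ i, a i * (L i j : ℂ))
          ((Polynomial.aeval B f).map (Rat.cast : ℚ → ℂ)) = μ • (fun j => ∑ i, a i * (L i j : ℂ)))

/-- If the product of `n ≥ 3` independent real linear forms is bounded away from zero on nonzero
integer points and, for some limit of the systems `t_i L_i ∘ M`, the common zero set of between
two and `n - 1` of the limit forms is invariant under an irreducible rational matrix (which does
not separate it), then all hyperplanes `L_i = 0` are invariant under one irreducible matrix in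
`SL(n, ℤ)` with real eigenvalues. -/
theorem result :
    ∀ n : ℕ, 3 ≤ n → ∀ L : Fin n → Fin n → ℝ, LinearIndependent ℝ L →
      (∃ c : ℝ, 0 < c ∧ ∀ p : Fin n → ℤ, p ≠ 0 →
          c ≤ |∏ i, ∑ j, L i j * (p j : ℝ)|) →
      ∀ (M : ℕ → Matrix (Fin n) (Fin n) ℤ) (t : ℕ → Fin n → ℝ) (L' : Fin n → Fin n → ℝ),
        (∀ k, (M k).det ≠ 0) → (∀ k, ∏ i, t k i = 1) →
        (∀ i j, Tendsto (fun k => t k i * ∑ l, L i l * (M k l j : ℝ)) atTop (𝓝 (L' i j))) →
      ∀ (I : Finset (Fin n)), 2 ≤ I.card → I ≠ Finset.univ →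
      ∀ (B : Matrix (Fin n) (Fin n) ℚ), Irreducible B.charpoly →
        (∀ x : Fin n → ℝ, (∀ i ∈ I, ∑ j, L' i j * x j = 0) →
          ∀ i ∈ I, ∑ j, L' i j * ((B.map (Rat.cast : ℚ → ℝ)).mulVec x) j = 0) →
        (I.card + 1 = n ∨ n.Prime ∨ NoSeparation L' I B) →
      ∃ A : Matrix (Fin n) (Fin n) ℤ,
        A.det = 1 ∧
        Irreducible (A.charpoly.map (Int.castRingHom ℚ)) ∧
        (∀ z : ℂ, Polynomial.aeval z A.charpoly = 0 → z.im = 0) ∧
        ∀ i : Fin n, ∀ x : Fin n → ℝ, ∑ j, L i j * x j = 0 →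
          ∑ j, L i j * ((A.map (Int.cast : ℤ → ℝ)).mulVec x) j = 0 := by
  classical
  intro n hn L hL hν M t L' hM ht hlim I hI2 hI' B hB hinv hC
  obtain ⟨c, hc0, hc⟩ := hν
  obtain ⟨K, _, _, b, θ, hb, hgen⟩ := field_of_matrix B hB
  have hL' := lim_li hL hM ht hlim
  have hI : I.Nonempty := by
    rw [← Finset.card_pos]; omega
  set J : Finset (K →+* ℂ) := Finset.univ.filter fun σ => ∃ i ∈ I, coef b L' i σ ≠ 0 with hJ
  have hJmem : ∀ σ, σ ∈ J ↔ ∃ i ∈ I, coef b L' i σ ≠ 0 := by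
    intro σ
    simp [hJ]
  have hC' : I.card + 1 = n ∨ n.Prime ∨ NonSep L' I B := hC
  obtain ⟨A, hA1, hA2, hA3, hA4⟩ := rigid_core hn b hL hc0 hc hM ht hlim I J
    (card_J hb hgen hL' hinv hJmem).1 hI hI' hJmem
    (fib_cases hb hgen hL' hI hI' hinv hJmem hC')
  refine ⟨A, hA1, hA2, hA3, fun i x hx => ?_⟩
  obtain ⟨μ', hμ'⟩ := hA4 i
  rw [hμ', hx, mul_zero]

end Pool.Agent.Work.MP_77d073_nt.SubspaceResult
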