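import Mathlib
import Pool.Agent.Work.MP_77d073_nt.RootBlow
import Pool.Agent.Work.MP_77d073_nt.RootRec
import Pool.Agent.Work.MP_77d073_nt.RootIrr
import Pool.Agent.Work.MP_77d073_nt.RootIso
import Pool.Agent.Work.MP_77d073_nt.SubspaceResult
import Pool.Agent.Work.MP_77d073_nt.HypResult

set_option autoImplicit false

namespace Pool.Agent.Work.MP_77d073_nt.Root

open Filter Topology Pool.Agent.Work.MP_77d073_nt

/-- The conclusion of Oppenheim's conjecture. -/
def Cn {n : ℕ} (L : Fin n → Fin n → ℝ) : Prop :=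
  ∃ A : Matrix (Fin n) (Fin n) ℤ,
    A.det = 1 ∧
    Irreducible (A.charpoly.map (Int.castRingHom ℚ)) ∧
    (∀ z : ℂ, Polynomial.aeval z A.charpoly = 0 → z.im = 0) ∧
    ∀ i : Fin n, ∀ x : Fin n → ℝ, ∑ j, L i j * x j = 0 →
      ∑ j, L i j * ((A.map (Int.cast : ℤ → ℝ)).mulVec x) j = 0

/-- The blocks outside the diagonal of a return matrix do not vanish. -/
theorem exact_block {n : ℕ} (hn : 3 ≤ n) {L : Fin n → Fin n → ℝ} (hL : LinearIndependent ℝ L)
    {c : ℝ} (hc : 0 < c) (hlow : ∀ p : Fin n → ℤ, p ≠ 0 → c ≤ |∏ i, ∑ j, L i j * (p j : ℝ)|)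
    (hnot : ¬ Cn L) (P : Finset (Fin n)) (hP : P.Nonempty) (hP' : Pᶜ.Nonempty)
    (hcase : P.card = 1 ∨ P.card + 1 = n ∨ n.Prime)
    {z : Fin n → Fin n → ℝ} (hz : z ∈ closure (orb L)) {M : Matrix (Fin n) (Fin n) ℤ}
    (hirr : Irreducible (M.map (Int.castRingHom ℚ)).charpoly)
    {G : Matrix (Fin n) (Fin n) ℝ} {t : Fin n → ℝ} (ht : ∀ i, t i ≠ 0)
    (hrel : ac G z = tr z M t) : ∃ a ∈ P, ∃ b ∉ P, G a b ≠ 0 := by
  classical
  by_contra hcon
  push Not at hcon
  obtain ⟨N, s, hN, hs, hlim⟩ := mem_closure_orb hz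
  have hkey : ∀ x : Fin n → ℝ, (∀ a ∈ P, ∑ j, z a j * x j = 0) → ∀ a ∈ P,
      ∑ j, z a j * (((M.map (Int.castRingHom ℚ)).map (Rat.cast : ℚ → ℝ)).mulVec x) j = 0 := by
    intro x hx a ha
    have h1 : ∀ l, (((M.map (Int.castRingHom ℚ)).map (Rat.cast : ℚ → ℝ)).mulVec x) l =
        ∑ j, (M l j : ℝ) * x j := by
      intro l
      simp [Matrix.mulVec, dotProduct]
    simp_rw [h1]
    have h2 := tr_sum z M t a x
    rw [← hrel] at h2
    have h3 : ∑ j, ac G z a j * x j = 0 := by
      have h4 : ∑ j, ac G z a j * x j = ∑ b, G a b * ∑ j, z b j * x j := by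
        simp only [ac, Finset.sum_mul, Finset.mul_sum]
        rw [Finset.sum_comm]
        refine Finset.sum_congr rfl fun b _ => Finset.sum_congr rfl fun j _ => ?_
        ring
      rw [h4]
      refine Finset.sum_eq_zero fun b _ => ?_
      by_cases hb : b ∈ P
      · rw [hx b hb, mul_zero]
      · rw [hcon a ha b hb, zero_mul]
    rw [h3] at h2
    exact (mul_eq_zero.mp h2.symm).resolve_left (ht a)
  apply hnot
  by_cases h1 : P.card = 1
  · obtain ⟨j, rfl⟩ := Finset.card_eq_one.mp h1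
    refine Pool.Agent.Work.MP_77d073_nt.HypResult.result n hn L hL ⟨c, hc, hlow⟩ N s z
      (fun k => (hN k).ne_zero) hs hlim j (M.map (Int.castRingHom ℚ)) hirr ?_
    intro x hx
    exact hkey x (by simpa using hx) j (by simp)
  · have h2 : 2 ≤ P.card := by
      have := hP.card_pos
      omega
    refine SubspaceResult.result n hn L hL ⟨c, hc, hlow⟩ N s z
      (fun k => (hN k).ne_zero) hs hlim P h2 ?_ (M.map (Int.castRingHom ℚ)) hirr hkey ?_
    · intro h
      rw [h, Finset.compl_univ] at hP'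
      exact Finset.not_nonempty_empty hP'
    · rcases hcase with h | h | h
      · exact absurd h h1
      · exact Or.inl h
      · exact Or.inr (Or.inl h)

theorem coprime_case {n : ℕ} (hn : 3 ≤ n) (P : Finset (Fin n)) (hP : P.Nonempty)
    (hP' : Pᶜ.Nonempty) (hcase : P.card = 1 ∨ P.card + 1 = n ∨ n.Prime) :
    Nat.Coprime P.card Pᶜ.card := by
  have h1 : P.card + Pᶜ.card = n := by
    rw [Finset.card_add_card_compl, Fintype.card_fin]
  have h2 := hP.card_pos
  have h3 := hP'.card_pos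
  rcases hcase with h | h | h
  · rw [h]; exact Nat.coprime_one_left _
  · have : Pᶜ.card = 1 := by omega
    rw [this]; exact Nat.coprime_one_right _
  · have h4 : Nat.Coprime P.card n := by
      apply Nat.Coprime.symm
      rw [Nat.Prime.coprime_iff_not_dvd h]
      intro h5
      have := Nat.le_of_dvd h2 h5
      omega
    have h5 : Nat.gcd P.card (P.card + Pᶜ.card) = 1 := by rw [h1]; exact h4
    exact Nat.coprime_self_add_right.mp h5

/-- The block of a matrix with rows in `P` and columns outside `P`. -/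
noncomputable def blk {n : ℕ} (P : Finset (Fin n)) (G : Matrix (Fin n) (Fin n) ℝ) :
    Fin n → Fin n → ℝ :=
  fun a b => by classical exact if a ∈ P ∧ b ∉ P then G a b else 0

/-- The main step: recurrence and blow-up. -/
theorem step_block {n : ℕ} (hn : 3 ≤ n) {L : Fin n → Fin n → ℝ} (hL : LinearIndependent ℝ L)
    {c : ℝ} (hc : 0 < c) (hlow : ∀ p : Fin n → ℤ, p ≠ 0 → c ≤ |∏ i, ∑ j, L i j * (p j : ℝ)|)
    (hnot : ¬ Cn L) (P : Finset (Fin n)) (hP : P.Nonempty) (hP' : Pᶜ.Nonempty)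
    (hcase : P.card = 1 ∨ P.card + 1 = n ∨ n.Prime)
    (u : Matrix (Fin n) (Fin n) ℝ) (hu : ∀ a b, u a b ≠ 0 → (a ∈ P ↔ b ∈ P))
    {x : Fin n → Fin n → ℝ} (hx : x ∈ closure (orb L)) (hux : ac u x ∈ closure (orb L)) :
    ∃ z ∈ closure (orb L), ∃ B : Matrix (Fin n) (Fin n) ℝ,
      (∀ a b, B a b ≠ 0 → a ∈ P ∧ b ∉ P) ∧ (∃ a b, B a b ≠ 0) ∧
      ac (1 + B) z ∈ closure (orb L) ∧ ac u z ∈ closure (orb L) ∧
      ac (u * (1 + B)) z ∈ closure (orb L) := by
  classical
  have hn1 : 1 ≤ n := by omega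
  have hLdet := (li_iff_det L).mp hL
  have hD : 0 < |(Matrix.of L).det| := abs_pos.mpr hLdet
  have hG : Good c |(Matrix.of L).det| (closure (orb L)) :=
    ⟨fun L' hL' => orb_det hL', fun L' hL' => orb_lower hL' hlow⟩
  obtain ⟨β, hβ, hbox0⟩ := meets_box (n := n) hn1 hc hD
  have hbox : Red (closure (orb L)) β := hbox0 _ (orb_CI L) hG
  obtain ⟨ε₀, hε₀, hirr⟩ := irr_block P hP hP' (coprime_case hn P hP hP' hcase)
  have hseq : ∀ N : ℕ, ∃ z ∈ closure (orb L), ac u z ∈ closure (orb L) ∧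
      ∃ (G : Matrix (Fin n) (Fin n) ℝ),
      (∀ a b, |G a b - (1 : Matrix (Fin n) (Fin n) ℝ) a b| < 1 / ((N : ℝ) + 1)) ∧
      ac G z ∈ closure (orb L) ∧ ac (u * G) z ∈ closure (orb L) ∧ ∃ a ∈ P, ∃ b ∉ P, G a b ≠ 0 := by
    intro N
    have hε : 0 < min ε₀ (1 / ((N : ℝ) + 1)) := lt_min hε₀ (by positivity)
    obtain ⟨z, hz, huz, G, r, M, hG1, hr, hM, hGz, huGz, hrel⟩ :=
      recur_pair (orb_CI L) hbox hD hG P u hu hx hux hε 1
    refine ⟨z, hz, huz, G, fun a b => (hG1 a b).trans_le (min_le_right _ _), hGz, huGz, ?_⟩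
    exact exact_block hn hL hc hlow hnot P hP hP' hcase hz
      (hirr z (hG.ne hD hz) G r M (fun a b => (hG1 a b).trans_le (min_le_left _ _)) hr hM hrel)
      (fun i => (bt_pos P r i).ne') hrel
  choose z hz huz G hG1 hGz huGz hne using hseq
  have hblk : ∀ N, blk P (G N) ≠ 0 := by
    intro N h0
    obtain ⟨a, ha, b, hb, hab⟩ := hne N
    have := congrFun (congrFun h0 a) b
    simp only [blk, Pi.zero_apply] at this
    rw [if_pos ⟨ha, hb⟩] at this
    exact hab this
  have hm0 : ∀ N, 0 < ‖blk P (G N)‖ := fun N => norm_pos_iff.mpr (hblk N)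
  have hmlt : ∀ N, ‖blk P (G N)‖ ≤ 1 / ((N : ℝ) + 1) := by
    intro N
    have h0 : (0 : ℝ) ≤ 1 / ((N : ℝ) + 1) := by positivity
    rw [pi_norm_le_iff_of_nonneg h0]
    intro a
    rw [pi_norm_le_iff_of_nonneg h0]
    intro b
    simp only [blk]
    split_ifs with h
    · have hab : a ≠ b := by
        rintro rfl; exact h.2 h.1
      have := hG1 N a b
      rw [Matrix.one_apply_ne hab, sub_zero] at this
      exact this.le
    · simpa using h0
  have hsphere : ∀ N, (‖blk P (G N)‖)⁻¹ • blk P (G N) ∈ Metric.sphere (0 : Fin n → Fin n → ℝ) 1 := by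
    intro N
    rw [mem_sphere_zero_iff_norm, norm_smul, norm_inv, norm_norm, inv_mul_cancel₀ (hm0 N).ne']
  obtain ⟨B, hBs, φ, hφ, hBlim⟩ := (isCompact_sphere (0 : Fin n → Fin n → ℝ) 1).tendsto_subseq hsphere
  have hBab : ∀ a b, Tendsto (fun N => (‖blk P (G (φ N))‖)⁻¹ * blk P (G (φ N)) a b) atTop
      (𝓝 (B a b)) := by
    intro a b
    exact (tendsto_pi_nhds.mp ((tendsto_pi_nhds.mp hBlim) a)) b
  have hBsupp : ∀ a b, ¬ (a ∈ P ∧ b ∉ P) → B a b = 0 := by
    intro a b hab
    have h1 := hBab a b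
    have h2 : (fun N => (‖blk P (G (φ N))‖)⁻¹ * blk P (G (φ N)) a b) = fun _ => 0 := by
      funext N
      simp only [blk]
      rw [if_neg hab, mul_zero]
    rw [h2] at h1
    exact tendsto_nhds_unique h1 tendsto_const_nhds
  have hBne : ∃ a b, B a b ≠ 0 := by
    by_contra hcon
    push Not at hcon
    have : B = 0 := by funext a b; exact hcon a b
    rw [this] at hBs
    simp at hBs
  -- the scaling
  set s : ℕ → ℝ := fun N => Real.log ((‖blk P (G (φ N))‖)⁻¹) / n with hs
  have hnR : (n : ℝ) ≠ 0 := by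
    have : 0 < n := by omega
    exact_mod_cast this.ne'
  have hcardR : (P.card : ℝ) + (Pᶜ.card : ℝ) = n := by
    have : P.card + Pᶜ.card = n := by rw [Finset.card_add_card_compl, Fintype.card_fin]
    exact_mod_cast this
  have hbt_in : ∀ N a b, a ∈ P → b ∉ P → bt P (s N) a / bt P (s N) b = (‖blk P (G (φ N))‖)⁻¹ := by
    intro N a b ha hb
    unfold bt
    rw [if_pos ha, if_neg hb, ← Real.exp_sub]
    have : (Pᶜ.card : ℝ) * s N - -((P.card : ℝ) * s N) = Real.log ((‖blk P (G (φ N))‖)⁻¹) := by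
      rw [sub_neg_eq_add, ← add_mul, add_comm (Pᶜ.card : ℝ), hcardR, hs]
      field_simp
    rw [this, Real.exp_log (inv_pos.mpr (hm0 _))]
  have hbt_out : ∀ N a b, a ∉ P → b ∈ P → bt P (s N) a / bt P (s N) b = ‖blk P (G (φ N))‖ := by
    intro N a b ha hb
    have h1 := hbt_in N b a hb ha
    have h2 := (bt_pos P (s N) a).ne'
    have h3 := (bt_pos P (s N) b).ne'
    rw [← inv_inv (‖blk P (G (φ N))‖), ← h1, inv_div]
  have hbt_same : ∀ N a b, (a ∈ P ↔ b ∈ P) → bt P (s N) a / bt P (s N) b = 1 := by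
    intro N a b hab
    have : bt P (s N) a = bt P (s N) b := by
      unfold bt
      simp only [hab]
    rw [this, div_self (bt_pos P (s N) b).ne']
  have hGlim0 : ∀ a b, Tendsto (fun N => G (φ N) a b) atTop
      (𝓝 ((1 : Matrix (Fin n) (Fin n) ℝ) a b)) := by
    intro a b
    rw [tendsto_iff_norm_sub_tendsto_zero]
    have h3 : Tendsto (fun k : ℕ => 1 / ((k : ℝ) + 1)) atTop (𝓝 0) := by
      apply Tendsto.div_atTop tendsto_const_nhds
      exact tendsto_atTop_add_const_right _ _ tendsto_natCast_atTop_atTop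
    exact squeeze_zero (fun k => norm_nonneg _) (fun k => (hG1 (φ k) a b).le) (h3.comp hφ.tendsto_atTop)
  have hmlim : Tendsto (fun N => ‖blk P (G (φ N))‖) atTop (𝓝 0) := by
    have h3 : Tendsto (fun k : ℕ => 1 / ((k : ℝ) + 1)) atTop (𝓝 0) := by
      apply Tendsto.div_atTop tendsto_const_nhds
      exact tendsto_atTop_add_const_right _ _ tendsto_natCast_atTop_atTop
    exact squeeze_zero (fun k => norm_nonneg _) (fun k => hmlt (φ k)) (h3.comp hφ.tendsto_atTop)
  have hGlim : ∀ a b, Tendsto (fun N => bt P (s N) a / bt P (s N) b * G (φ N) a b) atTop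
      (𝓝 (((1 : Matrix (Fin n) (Fin n) ℝ) + Matrix.of B) a b)) := by
    intro a b
    rw [Matrix.add_apply, Matrix.of_apply]
    by_cases ha : a ∈ P
    · by_cases hb : b ∈ P
      · rw [hBsupp a b (by tauto), add_zero]
        simp_rw [hbt_same _ a b (by tauto), one_mul]
        exact hGlim0 a b
      · have hab : a ≠ b := by rintro rfl; exact hb ha
        rw [Matrix.one_apply_ne hab, zero_add]
        refine (hBab a b).congr fun N => ?_
        rw [hbt_in N a b ha hb]
        simp only [blk]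
        rw [if_pos ⟨ha, hb⟩]
    · by_cases hb : b ∈ P
      · have hab : a ≠ b := by rintro rfl; exact ha hb
        rw [Matrix.one_apply_ne hab, hBsupp a b (by tauto), zero_add]
        simp_rw [hbt_out _ a b ha hb]
        have := hmlim.mul (hGlim0 a b)
        rw [zero_mul] at this
        exact this
      · rw [hBsupp a b (by tauto), add_zero]
        simp_rw [hbt_same _ a b (by tauto), one_mul]
        exact hGlim0 a b
  have huconj : ∀ N a b, bt P (s N) a / bt P (s N) b * u a b = u a b := by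
    intro N a b
    by_cases h : u a b = 0
    · rw [h, mul_zero]
    · rw [hbt_same N a b (hu a b h), one_mul]
  have huGlim : ∀ a b, Tendsto (fun N => bt P (s N) a / bt P (s N) b * (u * G (φ N)) a b) atTop
      (𝓝 ((u * ((1 : Matrix (Fin n) (Fin n) ℝ) + Matrix.of B)) a b)) := by
    intro a b
    have h1 : ∀ N, bt P (s N) a / bt P (s N) b * (u * G (φ N)) a b =
        ∑ d, u a d * (bt P (s N) d / bt P (s N) b * G (φ N) d b) := by
      intro N
      rw [Matrix.mul_apply, Finset.mul_sum]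
      refine Finset.sum_congr rfl fun d _ => ?_
      have h3 := (bt_pos P (s N) d).ne'
      have h4 : bt P (s N) a / bt P (s N) b * (u a d * G (φ N) d b) =
          (bt P (s N) a / bt P (s N) d * u a d) * (bt P (s N) d / bt P (s N) b * G (φ N) d b) := by
        field_simp
      rw [h4, huconj N a d]
    simp_rw [h1]
    rw [Matrix.mul_apply]
    exact tendsto_finsetSum _ fun d _ => (hGlim d b).const_mul _
  obtain ⟨w, hw, hall⟩ := blow (orb_CI L) hbox (ι := Fin 3) (fun N => z (φ N)) (fun N => hz _)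
    (![fun N => G (φ N), fun _ => u, fun N => u * G (φ N)] :
      Fin 3 → ℕ → Matrix (Fin n) (Fin n) ℝ)
    (fun q N => by
      fin_cases q
      · exact hGz _
      · exact huz _
      · exact huGz _)
    (fun N => bt P (s N)) (fun N i => bt_pos P _ i) (fun N => bt_prod P _)
    (![1 + Matrix.of B, u, u * (1 + Matrix.of B)] : Fin 3 → Matrix (Fin n) (Fin n) ℝ)
    (fun q a b => by
      fin_cases q
      · exact hGlim a b
      · have : (fun N => bt P (s N) a / bt P (s N) b * u a b) = fun _ => u a b := by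
          funext N; exact huconj N a b
        show Tendsto (fun N => bt P (s N) a / bt P (s N) b * u a b) atTop (𝓝 (u a b))
        rw [this]
        exact tendsto_const_nhds
      · exact huGlim a b)
  refine ⟨w, hw, Matrix.of B, fun a b hab => ?_, hBne, ?_, ?_, ?_⟩
  · by_contra hcon
    exact hab (hBsupp a b hcon)
  · exact hall 0
  · exact hall 1
  · exact hall 2

end Pool.Agent.Work.MP_77d073_nt.Root
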