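import Mathlib

set_option autoImplicit false

namespace Pool.Agent.Work.MP_77d073_nt.Vals

/-- Pairs at all small distances give many separated points. -/
theorem pack {V : Set ℝ} {A B θ s₀ : ℝ} (hA : 0 < A) (hθ : 0 < θ) (hs₀ : 0 < s₀)
    (hθ1 : θ ≤ 1) (hAB : 5 * B * θ ≤ A)
    (h : ∀ s, 0 < s → s ≤ s₀ → ∃ v ∈ V, ∃ v' ∈ V, A * s ≤ |v - v'| ∧ |v - v'| ≤ B * s) :
    ∀ k : ℕ, ∃ S : Finset ℝ, (∀ x ∈ S, x ∈ V) ∧ S.card = k + 1 ∧
      ∀ x ∈ S, ∀ y ∈ S, x ≠ y → A * s₀ * θ ^ k ≤ |x - y| := by
  classical
  intro k
  induction k with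
  | zero =>
    obtain ⟨v, hv, -, -, -⟩ := h s₀ hs₀ le_rfl
    refine ⟨{v}, by simpa using hv, by simp, ?_⟩
    intro x hx y hy hxy
    rw [Finset.mem_singleton] at hx hy
    exact absurd (hx.trans hy.symm) hxy
  | succ k ih =>
    obtain ⟨S, hSV, hcard, hsep⟩ := ih
    have hsk : 0 < s₀ * θ ^ (k + 1) := by positivity
    have hsk1 : s₀ * θ ^ (k + 1) ≤ s₀ := by
      have : θ ^ (k + 1) ≤ 1 := pow_le_one₀ hθ.le hθ1
      nlinarith
    obtain ⟨v, hv, v', hv', h1, h2⟩ := h _ hsk hsk1
    set d := |v - v'| with hd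
    have hdpos : 0 < d := lt_of_lt_of_le (by positivity) h1
    have h5 : 5 * d ≤ A * s₀ * θ ^ k := by
      calc 5 * d ≤ 5 * (B * (s₀ * θ ^ (k + 1))) := by linarith
        _ = (5 * B * θ) * (s₀ * θ ^ k) := by ring
        _ ≤ A * (s₀ * θ ^ k) := by
            apply mul_le_mul_of_nonneg_right hAB (by positivity)
        _ = _ := by ring
    have h6 : A * s₀ * θ ^ (k + 1) ≤ d := by
      calc A * s₀ * θ ^ (k + 1) = A * (s₀ * θ ^ (k + 1)) := by ring
        _ ≤ d := h1
    by_cases hw : ∃ w ∈ S, |w - v| < 2 * d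
    · obtain ⟨w, hwS, hwv⟩ := hw
      have h7 : ∀ x ∈ S.erase w, 3 * d ≤ |x - v| := by
        intro x hx
        rw [Finset.mem_erase] at hx
        have h8 := hsep x hx.2 w hwS hx.1
        have h9 : |x - w| ≤ |x - v| + |w - v| := by
          rw [abs_sub_comm w v]
          exact abs_sub_le x v w
        linarith
      have h8 : ∀ x ∈ S.erase w, 2 * d ≤ |x - v'| := by
        intro x hx
        have h9 := h7 x hx
        have h10 : |x - v| ≤ |x - v'| + |v' - v| := abs_sub_le x v' v
        rw [abs_sub_comm v' v] at h10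
        linarith
      have hv1 : v' ∉ S.erase w := by
        intro hmem
        have := h8 v' hmem
        rw [sub_self, abs_zero] at this
        linarith
      have hvv : v ≠ v' := by
        intro he
        rw [hd, he, sub_self, abs_zero] at hdpos
        exact lt_irrefl _ hdpos
      have hv2 : v ∉ insert v' (S.erase w) := by
        rw [Finset.mem_insert, not_or]
        refine ⟨hvv, fun hmem => ?_⟩
        have := h7 v hmem
        rw [sub_self, abs_zero] at this
        linarith
      refine ⟨insert v (insert v' (S.erase w)), ?_, ?_, ?_⟩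
      · intro x hx
        rw [Finset.mem_insert, Finset.mem_insert] at hx
        rcases hx with rfl | rfl | hx
        · exact hv
        · exact hv'
        · exact hSV x (Finset.mem_of_mem_erase hx)
      · rw [Finset.card_insert_of_notMem hv2, Finset.card_insert_of_notMem hv1,
          Finset.card_erase_of_mem hwS, hcard]
        omega
      · intro x hx y hy hxy
        rw [Finset.mem_insert, Finset.mem_insert] at hx hy
        refine h6.trans ?_
        rcases hx with rfl | rfl | hx
        · rcases hy with rfl | rfl | hy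
          · exact absurd rfl hxy
          · exact le_rfl
          · rw [abs_sub_comm]; linarith [h7 y hy]
        · rcases hy with rfl | rfl | hy
          · rw [abs_sub_comm]
          · exact absurd rfl hxy
          · rw [abs_sub_comm]; linarith [h8 y hy]
        · rcases hy with rfl | rfl | hy
          · linarith [h7 x hx]
          · linarith [h8 x hx]
          · rw [Finset.mem_erase] at hx hy
            linarith [hsep x hx.2 y hy.2 hxy]
    · push Not at hw
      have hvS : v ∉ S := by
        intro hmem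
        have := hw v hmem
        rw [sub_self, abs_zero] at this
        linarith
      refine ⟨insert v S, ?_, ?_, ?_⟩
      · intro x hx
        rw [Finset.mem_insert] at hx
        rcases hx with rfl | hx
        · exact hv
        · exact hSV x hx
      · rw [Finset.card_insert_of_notMem hvS, hcard]
      · intro x hx y hy hxy
        rw [Finset.mem_insert] at hx hy
        refine h6.trans ?_
        rcases hx with rfl | hx
        · rcases hy with rfl | hy
          · exact absurd rfl hxy
          · rw [abs_sub_comm]; linarith [hw y hy]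
        · rcases hy with rfl | hy
          · linarith [hw x hx]
          · linarith [hsep x hx y hy hxy]

/-- Separated points of the closure inside an open set are approximated by separated points. -/
theorem approx {V U : Set ℝ} (hU : IsOpen U) {S : Finset ℝ} (hS : ∀ x ∈ S, x ∈ closure V ∩ U)
    {r ε : ℝ} (hε : 0 < ε) (hr : ε < r) (hsep : ∀ x ∈ S, ∀ y ∈ S, x ≠ y → r ≤ |x - y|) :
    ∃ S' : Finset ℝ, (∀ x ∈ S', x ∈ V ∩ U) ∧ S'.card = S.card ∧
      ∀ x ∈ S', ∀ y ∈ S', x ≠ y → ε ≤ |x - y| := by
  classical
  have h1 : ∀ x ∈ S, ∃ y ∈ V ∩ U, |y - x| < (r - ε) / 2 := by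
    intro x hx
    obtain ⟨hx1, hx2⟩ := hS x hx
    have h2 : Metric.ball x ((r - ε) / 2) ∩ U ∈ nhds x :=
      Filter.inter_mem (Metric.ball_mem_nhds x (by linarith)) (hU.mem_nhds hx2)
    obtain ⟨y, hy1, hy2⟩ := mem_closure_iff_nhds.mp hx1 _ h2
    refine ⟨y, ⟨hy2, hy1.2⟩, ?_⟩
    have := hy1.1
    rwa [Metric.mem_ball, Real.dist_eq] at this
  choose! f hf hfd using h1
  have h3 : ∀ x ∈ S, ∀ y ∈ S, x ≠ y → ε ≤ |f x - f y| := by
    intro x hx y hy hxy
    have h4 := hsep x hx y hy hxy
    have h5 := hfd x hx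
    have h6 := hfd y hy
    have h7 : |x - y| ≤ |x - f x| + |f x - f y| + |f y - y| := by
      calc |x - y| ≤ |x - f x| + |f x - y| := abs_sub_le _ _ _
        _ ≤ |x - f x| + (|f x - f y| + |f y - y|) := by
            gcongr
            exact abs_sub_le _ _ _
        _ = _ := by ring
    rw [abs_sub_comm x (f x)] at h7
    linarith
  have hinj : Set.InjOn f ↑S := by
    intro x hx y hy hxy
    by_contra hne
    have := h3 x hx y hy hne
    rw [hxy, sub_self, abs_zero] at this
    linarith
  refine ⟨S.image f, ?_, Finset.card_image_of_injOn hinj, ?_⟩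
  · intro y hy
    obtain ⟨x, hx, rfl⟩ := Finset.mem_image.mp hy
    exact hf x hx
  · intro x hx y hy hxy
    obtain ⟨a, ha, rfl⟩ := Finset.mem_image.mp hx
    obtain ⟨b, hb, rfl⟩ := Finset.mem_image.mp hy
    exact h3 a ha b hb (fun h => hxy (by rw [h]))

end Pool.Agent.Work.MP_77d073_nt.Vals
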