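import Mathlib
import Pool.Agent.Work.MP_77d073_nt.RootDefs
import Pool.Agent.Work.MP_77d073_nt.Orbit
import Pool.Agent.Work.MP_77d073_nt.Pair

set_option autoImplicit false

namespace Pool.Agent.Work.MP_77d073_nt.Vals

open Filter Topology Pool.Agent.Work.MP_77d073_nt

/-- The value of the product of the forms at an integer point. -/
noncomputable def vf {n : ℕ} (L : Fin n → Fin n → ℝ) (p : Fin n → ℤ) : ℝ :=
  ∏ i, ∑ j, L i j * (p j : ℝ)

theorem vf_cont {n : ℕ} (p : Fin n → ℤ) : Continuous fun L : Fin n → Fin n → ℝ => vf L p := by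
  unfold vf
  fun_prop

theorem vf_tr {n : ℕ} (L : Fin n → Fin n → ℝ) (M : Matrix (Fin n) (Fin n) ℤ) {t : Fin n → ℝ}
    (ht : ∏ i, t i = 1) (p : Fin n → ℤ) : vf (tr L M t) p = vf L (M.mulVec p) := by
  unfold vf
  simp_rw [tr_sum]
  rw [Finset.prod_mul_distrib, ht, one_mul]
  refine Finset.prod_congr rfl fun i _ => Finset.sum_congr rfl fun j _ => ?_
  simp [Matrix.mulVec, dotProduct]

/-- Values of limits are limits of values. -/
theorem vf_closure {n : ℕ} {L L' : Fin n → Fin n → ℝ} (h : L' ∈ closure (orb L)) (p : Fin n → ℤ) :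
    vf L' p ∈ closure (Set.range (vf L)) := by
  obtain ⟨M, t, hM, ht, hlim⟩ := mem_closure_orb h
  have h1 : Tendsto (fun k => vf (tr L (M k) (t k)) p) atTop (𝓝 (vf L' p)) := by
    refine ((vf_cont p).tendsto L').comp ?_
    exact tendsto_pi_nhds.mpr fun i => tendsto_pi_nhds.mpr fun j => hlim i j
  refine mem_closure_of_tendsto h1 (Eventually.of_forall fun k => ?_)
  exact ⟨(M k).mulVec p, (vf_tr L (M k) (ht k) p).symm⟩

/-- Scaling a pair. -/
theorem scale_pair {n : ℕ} {Y : Set (Fin n → Fin n → ℝ)} (hY : CI Y) {i k : Fin n} (hik : i ≠ k)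
    (h : Root.Pr Y i k) {s : ℝ} (hs : 0 < s) :
    ∃ X ∈ Y, ∃ X' ∈ Y, ∀ a b, X' a b = X a b + if a = i then s * X k b else 0 := by
  classical
  obtain ⟨Z, hZ, Z', hZ', hrel⟩ := h
  have hr : 0 < (Real.sqrt s)⁻¹ := inv_pos.mpr (Real.sqrt_pos.mpr hs)
  have hprod := tv_prod hik hr
  refine ⟨_, hY.inv Z hZ 1 (tv i k (Real.sqrt s)⁻¹) (Or.inl (by simp)) hprod, _,
    hY.inv Z' hZ' 1 (tv i k (Real.sqrt s)⁻¹) (Or.inl (by simp)) hprod, fun a b => ?_⟩
  have h1 : ∀ (X : Fin n → Fin n → ℝ) (t : Fin n → ℝ) (a b : Fin n), tr X 1 t a b = t a * X a b := by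
    intro X t a b
    unfold tr
    congr 1
    simp [Matrix.one_apply]
  rw [h1, h1, h1, hrel]
  by_cases ha : a = i
  · subst ha
    have h2 : tv a k (Real.sqrt s)⁻¹ a = Real.sqrt s := by
      simp [tv]
    have h3 : tv a k (Real.sqrt s)⁻¹ k = (Real.sqrt s)⁻¹ := by
      simp [tv, hik.symm]
    rw [h2, h3]
    simp only [if_true]
    have h4 : Real.sqrt s * Real.sqrt s = s := Real.mul_self_sqrt hs.le
    have h5 : s * ((Real.sqrt s)⁻¹ * Z k b) = Real.sqrt s * Z k b := by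
      have h6 : Real.sqrt s ≠ 0 := (Real.sqrt_pos.mpr hs).ne'
      calc s * ((Real.sqrt s)⁻¹ * Z k b) = (Real.sqrt s * Real.sqrt s) * ((Real.sqrt s)⁻¹ * Z k b) := by
            rw [h4]
        _ = Real.sqrt s * Z k b * (Real.sqrt s * (Real.sqrt s)⁻¹) := by ring
        _ = Real.sqrt s * Z k b := by rw [mul_inv_cancel₀ h6, mul_one]
    rw [h5]
    ring
  · simp [ha]

/-- The difference of the values of a pair. -/
theorem vf_pair {n : ℕ} {X X' : Fin n → Fin n → ℝ} {i k : Fin n} {s : ℝ}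
    (h : ∀ a b, X' a b = X a b + if a = i then s * X k b else 0) (p : Fin n → ℤ) :
    vf X' p - vf X p = s * (∑ j, X k j * (p j : ℝ)) *
      ∏ a ∈ Finset.univ.erase i, ∑ j, X a j * (p j : ℝ) := by
  classical
  have h1 : ∀ a, ∑ j, X' a j * (p j : ℝ) = ∑ j, X a j * (p j : ℝ) +
      if a = i then s * ∑ j, X k j * (p j : ℝ) else 0 := by
    intro a
    by_cases ha : a = i
    · subst ha
      simp only [if_true]
      rw [Finset.mul_sum, ← Finset.sum_add_distrib]
      refine Finset.sum_congr rfl fun j _ => ?_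
      rw [h]
      simp only [if_true]
      ring
    · simp only [if_neg ha, add_zero]
      refine Finset.sum_congr rfl fun j _ => ?_
      rw [h, if_neg ha, add_zero]
  unfold vf
  rw [← Finset.mul_prod_erase _ _ (Finset.mem_univ i),
    ← Finset.mul_prod_erase _ (fun a => ∑ j, X a j * (p j : ℝ)) (Finset.mem_univ i)]
  have h2 : ∏ a ∈ Finset.univ.erase i, ∑ j, X' a j * (p j : ℝ) =
      ∏ a ∈ Finset.univ.erase i, ∑ j, X a j * (p j : ℝ) := by
    refine Finset.prod_congr rfl fun a ha => ?_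
    rw [h1, if_neg (Finset.ne_of_mem_erase ha), add_zero]
  rw [h2, h1 i, if_pos rfl]
  ring

/-- A minimal set containing a pair has no isolated values. -/
theorem no_isol {n : ℕ} {Y : Set (Fin n → Fin n → ℝ)} (hY : CI Y)
    (hmin : ∀ Z ⊆ Y, CI Z → Z.Nonempty → Z = Y) {c D β : ℝ} (hc : 0 < c) (hG : Good c D Y)
    (hbox : Root.Red Y β) {i k : Fin n} (hik : i ≠ k) (hpr : Root.Pr Y i k)
    {z : Fin n → Fin n → ℝ} (hz : z ∈ Y) {p : Fin n → ℤ} (hp : p ≠ 0) {η : ℝ} (hη : 0 < η) :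
    ∃ z' ∈ Y, ∃ q : Fin n → ℤ, q ≠ 0 ∧ vf z' q ≠ vf z p ∧ |vf z' q - vf z p| < η := by
  classical
  by_contra hcon
  push Not at hcon
  have hiso : ∀ z' ∈ Y, ∀ q : Fin n → ℤ, q ≠ 0 → |vf z' q - vf z p| < η → vf z' q = vf z p := by
    intro z' hz' q hq h1
    by_contra h2
    exact absurd (hcon z' hz' q hq h2) (not_le.mpr h1)
  have hlow : ∀ z' ∈ Y, ∀ q : Fin n → ℤ, q ≠ 0 → c ≤ |vf z' q| := hG.low
  have hMv : ∀ {M : Matrix (Fin n) (Fin n) ℤ}, Uni M → ∀ {q : Fin n → ℤ}, q ≠ 0 →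
      M.mulVec q ≠ 0 := by
    intro M hM q hq h
    exact hq (Matrix.eq_zero_of_mulVec_eq_zero hM.ne_zero h)
  -- every point of Y attains the value
  have hatt : ∀ z' ∈ Y, ∃ q : Fin n → ℤ, q ≠ 0 ∧ vf z' q = vf z p := by
    by_contra hne
    push Not at hne
    obtain ⟨z₁, hz₁, hz₁n⟩ := hne
    set Z : Set (Fin n → Fin n → ℝ) :=
      {z' | z' ∈ Y ∧ ∀ q : Fin n → ℤ, q ≠ 0 → η ≤ |vf z' q - vf z p|} with hZ
    have hmem : ∀ z' ∈ Y, (∀ q : Fin n → ℤ, q ≠ 0 → vf z' q ≠ vf z p) → z' ∈ Z := by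
      intro z' hz' h1
      refine ⟨hz', fun q hq => ?_⟩
      by_contra h2
      exact h1 q hq (hiso z' hz' q hq (not_le.mp h2))
    have hZCI : CI Z := by
      refine ⟨?_, ?_⟩
      · have h1 : Z = Y ∩ ⋂ q : {q : Fin n → ℤ // q ≠ 0}, {z' | η ≤ |vf z' q - vf z p|} := by
          ext z'
          simp only [hZ, Set.mem_ofPred_eq, Set.mem_inter_iff, Set.mem_iInter, Subtype.forall]
        rw [h1]
        refine hY.closed.inter (isClosed_iInter fun q => ?_)
        exact isClosed_le continuous_const (((vf_cont q.1).sub continuous_const).abs)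
      · intro z' hz' M t hM ht
        refine ⟨hY.inv z' hz'.1 M t hM ht, fun q hq => ?_⟩
        rw [vf_tr _ _ ht]
        exact hz'.2 _ (hMv hM hq)
    have h2 := hmin Z (fun z' h => h.1) hZCI ⟨z₁, hmem z₁ hz₁ hz₁n⟩
    have h3 : z ∈ Z := by rw [h2]; exact hz
    have h4 := h3.2 p hp
    rw [sub_self, abs_zero] at h4
    linarith
  -- uniform bound
  have hK : IsCompact (Y ∩ box n β) := (box_compact β).inter_left hY.closed
  have hbd : ∃ R : ℝ, ∀ z' ∈ Y ∩ box n β, ∃ q : Fin n → ℤ, q ≠ 0 ∧ vf z' q = vf z p ∧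
      ∀ a, |∑ j, z' a j * (q j : ℝ)| ≤ R := by
    choose! q hq0 hq using hatt
    obtain ⟨T, hT⟩ := hK.elim_finite_subcover
      (fun w : ↥Y => {z' : Fin n → Fin n → ℝ | |vf z' (q w) - vf z p| < η})
      (fun w => isOpen_lt (((vf_cont (q w)).sub continuous_const).abs) continuous_const) (by
        intro z' hz'
        refine Set.mem_iUnion.mpr ⟨⟨z', hz'.1⟩, ?_⟩
        show |vf z' (q z') - vf z p| < η
        rw [hq z' hz'.1, sub_self, abs_zero]
        exact hη)
    refine ⟨∑ w ∈ T, ∑ j, |β| * |(q w j : ℝ)|, fun z' hz' => ?_⟩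
    obtain ⟨w, hw⟩ := Set.mem_iUnion.mp (hT hz')
    obtain ⟨hwT, hw2⟩ := Set.mem_iUnion.mp hw
    refine ⟨q w, hq0 w w.2, hiso z' hz'.1 _ (hq0 w w.2) hw2, fun a => ?_⟩
    calc |∑ j, z' a j * (q w j : ℝ)| ≤ ∑ j, |z' a j * (q w j : ℝ)| := Finset.abs_sum_le_sum_abs _ _
      _ ≤ ∑ j, |β| * |(q w j : ℝ)| := by
          refine Finset.sum_le_sum fun j _ => ?_
          rw [abs_mul]
          exact mul_le_mul_of_nonneg_right ((hz'.2 a j).trans (le_abs_self β)) (abs_nonneg _)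
      _ ≤ ∑ w ∈ T, ∑ j, |β| * |(q w j : ℝ)| := by
          refine Finset.single_le_sum (f := fun w : ↥Y => ∑ j, |β| * |(q w j : ℝ)|) (fun w _ => ?_) hwT
          exact Finset.sum_nonneg fun j _ => by positivity
  obtain ⟨R, hR⟩ := hbd
  have hR' : ∀ X ∈ Y, ∃ q : Fin n → ℤ, q ≠ 0 ∧ vf X q = vf z p ∧
      ∀ a, |∑ j, X a j * (q j : ℝ)| ≤ R := by
    intro X hX
    obtain ⟨M, hM, hMY⟩ := hbox X hX
    obtain ⟨q, hq, hv, hb⟩ := hR _ hMY
    refine ⟨M.mulVec q, hMv hM hq, ?_, fun a => ?_⟩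
    · rw [← vf_tr X M (t := 1) (by simp)]
      exact hv
    · have h1 := hb a
      rw [tr_sum] at h1
      simp only [Pi.one_apply, one_mul] at h1
      have h2 : ∑ j, X a j * ((M.mulVec q j : ℤ) : ℝ) = ∑ l, X a l * ∑ j, (M l j : ℝ) * (q j : ℝ) := by
        refine Finset.sum_congr rfl fun j _ => ?_
        simp [Matrix.mulVec, dotProduct]
      rw [h2]
      exact h1
  -- the pair at a small scale
  have hRpos : 0 ≤ R := by
    obtain ⟨q, -, -, hb⟩ := hR' z hz
    exact (abs_nonneg _).trans (hb i)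
  set s : ℝ := η / (2 * (R ^ n + 1)) with hs
  have hs0 : 0 < s := by positivity
  obtain ⟨X, hX, X', hX', hrel⟩ := scale_pair hY hik hpr hs0
  obtain ⟨q, hq, hv, hb⟩ := hR' X hX
  have hdiff := vf_pair hrel q
  have hne : ∀ a, ∑ j, X a j * (q j : ℝ) ≠ 0 := by
    intro a h0
    have h1 := hlow X hX q hq
    unfold vf at h1
    rw [Finset.prod_eq_zero (Finset.mem_univ a) h0, abs_zero] at h1
    linarith
  have hdne : vf X' q - vf X q ≠ 0 := by
    rw [hdiff]
    refine mul_ne_zero (mul_ne_zero hs0.ne' (hne k)) (Finset.prod_ne_zero_iff.mpr fun a _ => hne a)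
  have hdsmall : |vf X' q - vf X q| < η := by
    rw [hdiff, abs_mul, abs_mul, Finset.abs_prod]
    have h1 : ∏ a ∈ Finset.univ.erase i, |∑ j, X a j * (q j : ℝ)| ≤
        ∏ _a ∈ Finset.univ.erase i, R :=
      Finset.prod_le_prod (fun a _ => abs_nonneg _) fun a _ => hb a
    rw [Finset.prod_const, Finset.card_erase_of_mem (Finset.mem_univ i), Finset.card_univ,
      Fintype.card_fin] at h1
    have hn : 0 < n := by
      have := i.2
      omega
    calc |s| * |∑ j, X k j * (q j : ℝ)| * ∏ a ∈ Finset.univ.erase i, |∑ j, X a j * (q j : ℝ)| ≤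
        s * R * R ^ (n - 1) := by
          rw [abs_of_pos hs0]
          gcongr
          exact hb k
      _ = s * R ^ n := by
          rw [mul_assoc, ← pow_succ', Nat.sub_add_cancel hn]
      _ ≤ s * (R ^ n + 1) := by nlinarith
      _ = η / 2 := by
          rw [hs]
          have : R ^ n + 1 ≠ 0 := by positivity
          field_simp
      _ < η := by linarith
  have h1 : |vf X' q - vf z p| < η := by rw [← hv]; exact hdsmall
  have h2 := hiso X' hX' q hq h1
  rw [← hv] at h2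
  exact hdne (by rw [h2, sub_self])

end Pool.Agent.Work.MP_77d073_nt.Vals
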