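import Mathlib
import Pool.Agent.Work.MP_77d073_nt.ValPack
import Pool.Agent.Work.MP_77d073_nt.ValPair
import Pool.Agent.Work.MP_77d073_nt.RootStep
import Pool.Agent.Work.MP_77d073_nt.PairResult

set_option autoImplicit false

namespace Pool.Agent.Work.MP_77d073_nt.Vals

open Filter Topology Pool.Agent.Work.MP_77d073_nt

/-- Two values at distance comparable to `s`. -/
theorem near_values {n : ℕ} {Y : Set (Fin n → Fin n → ℝ)} (hY : CI Y) {c D : ℝ} (hc : 0 < c)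
    (hD : 0 < D) (hG : Good c D Y) {i k : Fin n} (hik : i ≠ k) (hpr : Root.Pr Y i k)
    {s : ℝ} (hs : 0 < s) (hs1 : s ≤ 1 / 2) :
    ∃ X ∈ Y, ∃ X' ∈ Y, ∃ p : Fin n → ℤ, p ≠ 0 ∧ |vf X p| < 2 * D ∧ |vf X' p| < 2 * D ∧
      4 * c ^ 2 / (5 * D) * s ≤ |vf X p - vf X' p| ∧ |vf X p - vf X' p| ≤ 5 * D / 4 * s := by
  classical
  obtain ⟨X, hX, X', hX', hrel⟩ := scale_pair hY hik hpr hs
  have hn : 0 < n := by
    have := i.2
    omega
  set r : ℝ := (5 * D / 4) ^ ((n : ℝ)⁻¹) with hr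
  have hr0 : 0 < r := Real.rpow_pos_of_pos (by positivity) _
  have hrn : r ^ n = 5 * D / 4 := by
    rw [hr]
    exact Real.rpow_inv_natCast_pow (by positivity) hn.ne'
  obtain ⟨p, hp, hpr'⟩ := minkowski_forms (hG.ne hD hX) (a := fun _ => r) (fun _ => hr0) (by
    rw [Finset.prod_const, Finset.card_univ, Fintype.card_fin, hrn, hG.det X hX]
    linarith)
  have hlow := hG.low X hX p hp
  have hne : ∀ a, 0 < |∑ j, X a j * (p j : ℝ)| := by
    intro a
    rw [abs_pos]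
    intro h0
    rw [Finset.prod_eq_zero (Finset.mem_univ a) h0, abs_zero] at hlow
    linarith
  rw [Finset.abs_prod] at hlow
  have hle : ∀ a, ∏ b ∈ Finset.univ.erase a, |∑ j, X b j * (p j : ℝ)| ≤ r ^ (n - 1) := by
    intro a
    have h1 : ∏ b ∈ Finset.univ.erase a, |∑ j, X b j * (p j : ℝ)| ≤
        ∏ _b ∈ Finset.univ.erase a, r :=
      Finset.prod_le_prod (fun b _ => abs_nonneg _) fun b _ => (hpr' b).le
    rw [Finset.prod_const, Finset.card_erase_of_mem (Finset.mem_univ a), Finset.card_univ,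
      Fintype.card_fin] at h1
    exact h1
  have hsplit : ∀ a, ∏ b, |∑ j, X b j * (p j : ℝ)| = |∑ j, X a j * (p j : ℝ)| *
      ∏ b ∈ Finset.univ.erase a, |∑ j, X b j * (p j : ℝ)| := fun a =>
    (Finset.mul_prod_erase _ _ (Finset.mem_univ a)).symm
  have hrr : r * r ^ (n - 1) = 5 * D / 4 := by
    rw [← pow_succ', Nat.sub_add_cancel hn, hrn]
  have hrpow : 0 < r ^ (n - 1) := by positivity
  -- lower bounds
  have hk : c / r ^ (n - 1) ≤ |∑ j, X k j * (p j : ℝ)| := by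
    rw [div_le_iff₀ hrpow]
    calc c ≤ _ := hlow
      _ = _ := hsplit k
      _ ≤ _ := mul_le_mul_of_nonneg_left (hle k) (abs_nonneg _)
  have hi : c / r ≤ ∏ b ∈ Finset.univ.erase i, |∑ j, X b j * (p j : ℝ)| := by
    rw [div_le_iff₀ hr0]
    calc c ≤ _ := hlow
      _ = _ := hsplit i
      _ ≤ r * ∏ b ∈ Finset.univ.erase i, |∑ j, X b j * (p j : ℝ)| :=
          mul_le_mul_of_nonneg_right (hpr' i).le (Finset.prod_nonneg fun b _ => abs_nonneg _)
      _ = _ := mul_comm _ _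
  have hdiff : |vf X p - vf X' p| = s * |∑ j, X k j * (p j : ℝ)| *
      ∏ b ∈ Finset.univ.erase i, |∑ j, X b j * (p j : ℝ)| := by
    rw [abs_sub_comm, vf_pair hrel, abs_mul, abs_mul, Finset.abs_prod, abs_of_pos hs]
  have hval : |vf X p| ≤ 5 * D / 4 := by
    unfold vf
    rw [Finset.abs_prod, hsplit i, ← hrr]
    exact mul_le_mul (hpr' i).le (hle i) (Finset.prod_nonneg fun b _ => abs_nonneg _) hr0.le
  have hup : |vf X p - vf X' p| ≤ 5 * D / 4 * s := by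
    rw [hdiff]
    calc s * |∑ j, X k j * (p j : ℝ)| * ∏ b ∈ Finset.univ.erase i, |∑ j, X b j * (p j : ℝ)|
        ≤ s * r * r ^ (n - 1) := by
          refine mul_le_mul (mul_le_mul_of_nonneg_left (hpr' k).le hs.le) (hle i)
            (Finset.prod_nonneg fun b _ => abs_nonneg _) (by positivity)
      _ = 5 * D / 4 * s := by rw [mul_assoc, hrr]; ring
  refine ⟨X, hX, X', hX', p, hp, by linarith, ?_, ?_, hup⟩
  · have h1 : |vf X' p| ≤ |vf X p| + |vf X p - vf X' p| := by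
      have h2 := abs_sub_abs_le_abs_sub (vf X' p) (vf X p)
      rw [abs_sub_comm] at h2
      linarith
    have h3 : 5 * D / 4 * s ≤ 5 * D / 4 * (1 / 2) := by gcongr
    linarith
  · rw [hdiff]
    have h1 : c / r ^ (n - 1) * (c / r) = 4 * c ^ 2 / (5 * D) := by
      rw [div_mul_div_comm, mul_comm (r ^ (n - 1)) r, hrr]
      field_simp
    calc 4 * c ^ 2 / (5 * D) * s = s * (c / r ^ (n - 1)) * (c / r) := by rw [← h1]; ring
      _ ≤ _ := by
          refine mul_le_mul (mul_le_mul_of_nonneg_left hk hs.le) hi (by positivity) (by positivity)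

/-- A counterexample gives a minimal set with a pair. -/
theorem min_pair {n : ℕ} (hn : 3 ≤ n) {L : Fin n → Fin n → ℝ} (hL : LinearIndependent ℝ L)
    {c : ℝ} (hc : 0 < c) (hlow : ∀ p : Fin n → ℤ, p ≠ 0 → c ≤ |vf L p|)
    (hnot : ¬ Root.Cn L) : ∃ (Y : Set (Fin n → Fin n → ℝ)) (β : ℝ), Y ⊆ closure (orb L) ∧ CI Y ∧
      Y.Nonempty ∧ (∀ Z ⊆ Y, CI Z → Z.Nonempty → Z = Y) ∧ Good c |(Matrix.of L).det| Y ∧
      Root.Red Y β ∧ ∃ i k : Fin n, i ≠ k ∧ Root.Pr Y i k := by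
  classical
  have hLdet := (li_iff_det L).mp hL
  have hD : 0 < |(Matrix.of L).det| := abs_pos.mpr hLdet
  have hn1 : 1 ≤ n := by omega
  obtain ⟨β, hβ, hbox⟩ := meets_box (n := n) hn1 hc hD
  have hG : Good c |(Matrix.of L).det| (closure (orb L)) :=
    ⟨fun L' hL' => orb_det hL', fun L' hL' => orb_lower hL' hlow⟩
  obtain ⟨Y, hYS, hY, ⟨L₀, hL₀⟩, hmin⟩ := exists_minimal hn1 hc hD (orb_CI L) hG
    ⟨L, subset_closure (self_mem_orb L)⟩
  have hGY := hG.mono hYS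
  by_cases hiso : ∃ U : Set (Fin n → Fin n → ℝ), IsOpen U ∧ L₀ ∈ U ∧ ∀ L ∈ Y ∩ U,
      ∃ s : Fin n → ℝ, (∀ i, 3 / 4 < s i ∧ s i < 3 / 2) ∧ ∏ i, s i = 1 ∧
        ∀ i j, L i j = s i * L₀ i j
  · obtain ⟨U, hU, hL₀U, hiso⟩ := hiso
    exact absurd (concl_of_isolated hn hc hD rfl hlow hYS hY (hbox Y hY hGY) hmin hL₀ hU hL₀U hiso)
      hnot
  · obtain ⟨L', hL', L'', hL'', i, j, hij, hrel⟩ := pair_of_not_isolated hD hY hGY (hbox Y hY hGY)
      hL₀ (by
        intro U hU hL₀U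
        by_contra hcon
        push Not at hcon
        exact hiso ⟨U, hU, hL₀U, hcon⟩)
    exact ⟨Y, β, hYS, hY, ⟨L₀, hL₀⟩, hmin, hGY, hbox Y hY hGY, i, j, hij, L', hL', L'', hL'', hrel⟩

/-- If the conclusion fails, no limit in a minimal set has an isolated value. -/
theorem not_isol {n : ℕ} (hn : 3 ≤ n) {L : Fin n → Fin n → ℝ} (hL : LinearIndependent ℝ L)
    {c : ℝ} (hc : 0 < c) (hlow : ∀ p : Fin n → ℤ, p ≠ 0 → c ≤ |vf L p|)
    (hnot : ¬ Root.Cn L) : ∃ z ∈ closure (orb L), ∀ p : Fin n → ℤ, p ≠ 0 → ∀ η : ℝ, 0 < η →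
      ∃ q : Fin n → ℤ, |vf z q - vf z p| < η ∧ vf z q ≠ vf z p := by
  classical
  obtain ⟨Y, β, hYS, hY, ⟨z, hz⟩, hmin, hG, hbox, i, k, hik, hpr⟩ := min_pair hn hL hc hlow hnot
  refine ⟨z, hYS hz, fun p hp η hη => ?_⟩
  obtain ⟨z', hz', q, hq, hne, hlt⟩ := no_isol hY hmin hc hG hbox hik hpr hz hp hη
  have hcl : closure (orb z) = Y :=
    hmin _ (hY.orb_sub hz) (orb_CI z) ⟨z, subset_closure (self_mem_orb z)⟩
  rw [← hcl] at hz'
  obtain ⟨M, t, hM, ht, hlim⟩ := mem_closure_orb hz'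
  have h1 : Tendsto (fun m => vf (tr z (M m) (t m)) q) atTop (𝓝 (vf z' q)) := by
    refine ((vf_cont q).tendsto z').comp ?_
    exact tendsto_pi_nhds.mpr fun i => tendsto_pi_nhds.mpr fun j => hlim i j
  have h2 : ∀ᶠ m in atTop, |vf (tr z (M m) (t m)) q - vf z p| < η := by
    have h3 := (h1.sub_const (vf z p)).abs
    exact h3.eventually_lt_const hlt
  have h3 : ∀ᶠ m in atTop, vf (tr z (M m) (t m)) q ≠ vf z p := h1.eventually_ne hne
  obtain ⟨m, hm1, hm2⟩ := (h2.and h3).exists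
  rw [vf_tr z (M m) (ht m)] at hm1 hm2
  exact ⟨_, hm1, hm2⟩

/-- If the conclusion fails, the closure of the values is uncountable. -/
theorem uncount {n : ℕ} (hn : 3 ≤ n) {L : Fin n → Fin n → ℝ} (hL : LinearIndependent ℝ L)
    {c : ℝ} (hc : 0 < c) (hlow : ∀ p : Fin n → ℤ, p ≠ 0 → c ≤ |vf L p|)
    (hnot : ¬ Root.Cn L) : ¬ (closure (Set.range (vf L)) ∩
      Set.Icc (-(2 * |(Matrix.of L).det|)) (2 * |(Matrix.of L).det|)).Countable := by
  classical
  intro hcount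
  have hD : 0 < |(Matrix.of L).det| := abs_pos.mpr ((li_iff_det L).mp hL)
  set D := |(Matrix.of L).det| with hDdef
  obtain ⟨Y, β, hYS, hY, ⟨z, hz⟩, hmin, hG, hbox, i, k, hik, hpr⟩ := min_pair hn hL hc hlow hnot
  set W : Set ℝ := {v | (∃ z' ∈ Y, ∃ q : Fin n → ℤ, q ≠ 0 ∧ vf z' q = v) ∧ |v| < 2 * D} with hW
  have hne : W.Nonempty := by
    obtain ⟨X, hX, X', hX', p, hp, h1, h2, h3, h4⟩ := near_values hY hc hD hG hik hpr
      (s := 1 / 2) (by norm_num) le_rfl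
    exact ⟨vf X p, ⟨X, hX, p, hp, rfl⟩, h1⟩
  have hpre : Preperfect W := by
    rintro v ⟨⟨z', hz', q, hq, rfl⟩, hv⟩
    rw [accPt_iff_nhds]
    intro U hU
    obtain ⟨η, hη, hηU⟩ := Metric.mem_nhds_iff.mp hU
    obtain ⟨z'', hz'', q', hq', hne', hlt⟩ := no_isol hY hmin hc hG hbox hik hpr hz' hq
      (η := min η (2 * D - |vf z' q|)) (lt_min hη (by linarith))
    refine ⟨vf z'' q', ⟨hηU ?_, ⟨z'', hz'', q', hq', rfl⟩, ?_⟩, hne'⟩
    · rw [Metric.mem_ball, Real.dist_eq]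
      exact hlt.trans_le (min_le_left _ _)
    · have h1 := hlt.trans_le (min_le_right _ _)
      have h2 := abs_sub_abs_le_abs_sub (vf z'' q') (vf z' q)
      linarith
  have hperf := hpre.perfect_closure
  obtain ⟨f, hf, -, hinj⟩ := hperf.exists_nat_bool_injection (hne.mono subset_closure)
  have hsub : closure W ⊆ closure (Set.range (vf L)) ∩ Set.Icc (-(2 * D)) (2 * D) := by
    apply closure_minimal _ (isClosed_closure.inter isClosed_Icc)
    rintro v ⟨⟨z', hz', q, hq, rfl⟩, hv⟩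
    exact ⟨vf_closure (hYS hz') q, abs_le.mp hv.le⟩
  have h1 : (Set.range f).Countable := hcount.mono (hf.trans hsub)
  have h2 : Countable (ℕ → Bool) := by
    have := h1.to_subtype
    exact (Set.rangeFactorization_injective.mpr hinj).countable
  obtain ⟨e, he⟩ := exists_surjective_nat (ℕ → Bool)
  obtain ⟨m, hm⟩ := he (fun j => !(e j j))
  have h3 := congrFun hm m
  simp at h3

/-- If the conclusion fails, there are many separated values at each scale. -/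
theorem many {n : ℕ} (hn : 3 ≤ n) {L : Fin n → Fin n → ℝ} (hL : LinearIndependent ℝ L)
    {c : ℝ} (hc : 0 < c) (hlow : ∀ p : Fin n → ℤ, p ≠ 0 → c ≤ |vf L p|)
    (hnot : ¬ Root.Cn L) {ε : ℝ} (hε : 0 < ε) : ∃ S : Finset ℝ,
      (∀ x ∈ S, x ∈ Set.range (vf L) ∧ |x| ≤ 2 * |(Matrix.of L).det|) ∧
      (∀ x ∈ S, ∀ y ∈ S, x ≠ y → ε ≤ |x - y|) ∧
      Real.log (c ^ 2 / (3 * |(Matrix.of L).det| * ε)) ≤
        S.card * Real.log (8 * |(Matrix.of L).det| ^ 2 / c ^ 2) := by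
  classical
  by_contra hcon
  push Not at hcon
  have hD : 0 < |(Matrix.of L).det| := abs_pos.mpr ((li_iff_det L).mp hL)
  set D := |(Matrix.of L).det| with hDdef
  obtain ⟨Y, β, hYS, hY, ⟨z, hz⟩, hmin, hG, hbox, i, k, hik, hpr⟩ := min_pair hn hL hc hlow hnot
  have hcD : c ≤ 2 * D := by
    obtain ⟨X, hX, X', hX', p, hp, h1, h2, h3, h4⟩ := near_values hY hc hD hG hik hpr
      (s := 1 / 2) (by norm_num) le_rfl
    exact (hG.low X hX p hp).trans h1.le
  set Λ := Real.log (8 * D ^ 2 / c ^ 2) with hΛ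
  have hΛ0 : 0 < Λ := by
    apply Real.log_pos
    rw [one_lt_div (by positivity)]
    nlinarith
  have hexp : Real.exp (-Λ) = c ^ 2 / (8 * D ^ 2) := by
    rw [Real.exp_neg, hΛ, Real.exp_log (by positivity), inv_div]
  set θ : ℝ := c ^ 2 / (8 * D ^ 2) with hθ
  have hθ0 : 0 < θ := by positivity
  have hθ1 : θ ≤ 1 := by
    rw [← hexp]
    exact Real.exp_le_one_iff.mpr (by linarith)
  have hpack := pack (V := closure (Set.range (vf L)) ∩ Set.Ioo (-(2 * D)) (2 * D))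
    (A := 4 * c ^ 2 / (5 * D)) (B := 5 * D / 4) (θ := θ) (s₀ := 1 / 2) (by positivity) hθ0
    (by norm_num) hθ1 (by
      rw [hθ]
      have h1 : 5 * (5 * D / 4) * (c ^ 2 / (8 * D ^ 2)) = (25 / 32) * (c ^ 2 / D) := by
        field_simp
        ring
      have h2 : 4 * c ^ 2 / (5 * D) = (4 / 5) * (c ^ 2 / D) := by
        field_simp
      rw [h1, h2]
      have : 0 < c ^ 2 / D := by positivity
      nlinarith) (by
      intro s hs hs1
      obtain ⟨X, hX, X', hX', p, hp, h1, h2, h3, h4⟩ := near_values hY hc hD hG hik hpr hs hs1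
      exact ⟨vf X p, ⟨vf_closure (hYS hX) p, abs_lt.mp h1⟩, vf X' p,
        ⟨vf_closure (hYS hX') p, abs_lt.mp h2⟩, h3, h4⟩)
  have hstep : ∀ m : ℕ, (m : ℝ) * Λ < Real.log (c ^ 2 / (3 * D * ε)) → ∃ S : Finset ℝ,
      (∀ x ∈ S, x ∈ Set.range (vf L) ∧ |x| ≤ 2 * D) ∧
      (∀ x ∈ S, ∀ y ∈ S, x ≠ y → ε ≤ |x - y|) ∧ S.card = m + 1 := by
    intro m hm
    obtain ⟨S, hSV, hcard, hsep⟩ := hpack m
    have h1 : ε < 4 * c ^ 2 / (5 * D) * (1 / 2) * θ ^ m := by
      have h2 : Real.exp ((m : ℝ) * Λ) < c ^ 2 / (3 * D * ε) := by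
        rw [← Real.exp_log (show 0 < c ^ 2 / (3 * D * ε) by positivity)]
        exact Real.exp_lt_exp.mpr hm
      have h3 : θ ^ m * Real.exp ((m : ℝ) * Λ) = 1 := by
        rw [← hexp, ← Real.exp_nat_mul, ← Real.exp_add]
        have : (m : ℝ) * -Λ + m * Λ = 0 := by ring
        rw [this, Real.exp_zero]
      have h4 : ε < c ^ 2 / (3 * D) * θ ^ m := by
        rw [lt_div_iff₀ (by positivity)] at h2
        have h5 : 0 < θ ^ m := by positivity
        have h6 : θ ^ m * (Real.exp ((m : ℝ) * Λ) * (3 * D * ε)) < θ ^ m * c ^ 2 :=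
          mul_lt_mul_of_pos_left h2 h5
        rw [← mul_assoc, h3, one_mul] at h6
        rw [div_mul_eq_mul_div, lt_div_iff₀ (by positivity)]
        linarith
      have h5 : c ^ 2 / (3 * D) ≤ 4 * c ^ 2 / (5 * D) * (1 / 2) := by
        rw [show 4 * c ^ 2 / (5 * D) * (1 / 2) = (2 / 5) * (c ^ 2 / D) by field_simp; ring,
          show c ^ 2 / (3 * D) = (1 / 3) * (c ^ 2 / D) by field_simp]
        have : 0 < c ^ 2 / D := by positivity
        nlinarith
      exact h4.trans_le (mul_le_mul_of_nonneg_right h5 (by positivity))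
    obtain ⟨S', hS'V, hcard', hsep'⟩ := approx (V := Set.range (vf L)) isOpen_Ioo hSV hε h1 hsep
    exact ⟨S', fun x hx => ⟨(hS'V x hx).1, abs_le.mpr ⟨(hS'V x hx).2.1.le, (hS'V x hx).2.2.le⟩⟩,
      hsep', by rw [hcard', hcard]⟩
  have hall : ∀ m : ℕ, (m : ℝ) * Λ < Real.log (c ^ 2 / (3 * D * ε)) := by
    intro m
    induction m with
    | zero =>
      have := hcon ∅ (by simp) (by simp)
      simpa using this
    | succ m ih =>
      obtain ⟨S, hS1, hS2, hS3⟩ := hstep m ih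
      have := hcon S hS1 hS2
      rw [hS3] at this
      exact this
  obtain ⟨m, hm⟩ := exists_nat_gt (Real.log (c ^ 2 / (3 * D * ε)) / Λ)
  have h1 := hall m
  rw [div_lt_iff₀ hΛ0] at hm
  linarith

end Pool.Agent.Work.MP_77d073_nt.Vals
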