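import Mathlib
import Pool.Agent.Work.MP_77d073_nt.GapDefs
import Pool.Agent.Work.MP_77d073_nt.Space

set_option autoImplicit false

/-!
Approximate invariance of one hyperplane under an irreducible integer matrix of bounded height
already forces the conclusion (compactness and isolation).
-/

namespace Pool.Agent.Work.MP_77d073_nt.Gap

open Filter Topology Module Pool.Agent.Work.MP_77d073_nt

/-- The conclusion of Oppenheim's conjecture. -/
def Concl {n : ℕ} (L : Fin n → Fin n → ℝ) : Prop :=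
  ∃ A : Matrix (Fin n) (Fin n) ℤ,
    A.det = 1 ∧
    Irreducible (A.charpoly.map (Int.castRingHom ℚ)) ∧
    (∀ z : ℂ, Polynomial.aeval z A.charpoly = 0 → z.im = 0) ∧
    ∀ i : Fin n, ∀ x : Fin n → ℝ, ∑ j, L i j * x j = 0 →
      ∑ j, L i j * ((A.map (Int.cast : ℤ → ℝ)).mulVec x) j = 0

theorem rigid_var {n : ℕ} (hn : 3 ≤ n) {c D : ℝ} (hc0 : 0 < c) (hD : 0 < D)
    {F : ℕ → Fin n → Fin n → ℝ} {L' : Fin n → Fin n → ℝ} (hF : ∀ k, Sys c D (F k))
    (hlim : ∀ i j, Tendsto (fun k => F k i j) atTop (𝓝 (L' i j))) (i₀ : Fin n)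
    (B : Matrix (Fin n) (Fin n) ℚ) (hB : Irreducible B.charpoly) (μ : ℝ)
    (hμ : ∀ k, ∑ j, L' i₀ j * (B j k : ℝ) = μ * L' i₀ k) : ∃ k, Concl (F k) := by
  classical
  obtain ⟨K, _, _, b, θ, hb, hgen⟩ := field_of_matrix B hB
  -- properties of the limit
  have hdet : |(Matrix.of L').det| = D := by
    have h1 : Tendsto (fun k => |(Matrix.of (F k)).det|) atTop (𝓝 |(Matrix.of L').det|) := by
      have h2 : Tendsto (fun k => Matrix.of (F k)) atTop (𝓝 (Matrix.of L')) :=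
        tendsto_pi_nhds.mpr fun i => tendsto_pi_nhds.mpr fun j => hlim i j
      exact ((continuous_id.matrix_det.tendsto _).comp h2).abs
    have h2 : (fun k => |(Matrix.of (F k)).det|) = fun _ => D := by
      funext k; exact (hF k).1
    rw [h2] at h1
    exact (tendsto_nhds_unique h1 tendsto_const_nhds)
  have hL' : LinearIndependent ℝ L' := by
    have h1 : (Matrix.of L').det ≠ 0 := by
      intro h
      rw [h, abs_zero] at hdet
      linarith
    exact Matrix.linearIndependent_rows_of_det_ne_zero h1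
  have hlow' : ∀ p : Fin n → ℤ, p ≠ 0 → c ≤ |∏ i, ∑ j, L' i j * (p j : ℝ)| := by
    intro p hp
    have h1 : Tendsto (fun k => |∏ i, ∑ j, F k i j * (p j : ℝ)|) atTop
        (𝓝 |∏ i, ∑ j, L' i j * (p j : ℝ)|) := by
      refine Tendsto.abs ?_
      refine tendsto_finsetProd _ fun i _ => ?_
      refine tendsto_finsetSum _ fun j _ => ?_
      exact (hlim i j).mul_const _
    exact ge_of_tendsto' h1 fun k => (hF k).2 p hp
  have hcoef : ∀ σ : K →+* ℂ, coef b L' i₀ σ ≠ 0 → σ θ = μ := by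
    intro σ hσ
    have h1 := coef_mul hb L' i₀ σ
    have h2 : coef b (fun i k => ∑ j, L' i j * (B j k : ℝ)) i₀ σ = μ * coef b L' i₀ σ := by
      unfold coef
      simp only [hμ]
      rw [Finset.mul_sum]
      refine Finset.sum_congr rfl fun j _ => ?_
      push_cast
      ring
    rw [h2] at h1
    exact (mul_right_cancel₀ hσ h1).symm
  set J : Finset (K →+* ℂ) := Finset.univ.filter fun σ => coef b L' i₀ σ ≠ 0 with hJ
  have hJmem : ∀ σ, σ ∈ J ↔ ∃ i ∈ ({i₀} : Finset (Fin n)), coef b L' i σ ≠ 0 := by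
    intro σ
    simp [hJ]
  obtain ⟨σ0, hσ0⟩ : ∃ σ, coef b L' i₀ σ ≠ 0 := by
    by_contra hcon
    push Not at hcon
    exact (coef_li b hL').ne_zero i₀ (funext hcon)
  have hJeq : J = {σ0} := by
    ext σ
    simp only [hJ, Finset.mem_filter, Finset.mem_univ, true_and, Finset.mem_singleton]
    constructor
    · intro h
      exact embedding_ext hgen ((hcoef σ h).trans (hcoef σ0 hσ0).symm)
    · rintro rfl; exact hσ0
  obtain ⟨D', hD', hlow⟩ := lower_bound b
  have hDR : (0 : ℝ) < (D' : ℝ) ^ n := by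
    have : (0 : ℝ) < D' := by exact_mod_cast hD'
    positivity
  have hcard : Fintype.card (Fin n) = Fintype.card (K →+* ℂ) := by
    rw [NumberField.Embeddings.card, ← Module.finrank_eq_card_basis b]
  have hn' : 3 ≤ Fintype.card (Fin n) := by rwa [Fintype.card_fin]
  obtain ⟨s, hbij, hsreal, hs⟩ := core1 hcard hn' (coef b L') (coef_conj b L') (coef_li b hL')
    (div_pos hc0 hDR) (hlow L' c hlow') {i₀} J (by rw [hJeq]; simp) (by simp)
    (by
      intro h
      have := congrArg Finset.card h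
      rw [Finset.card_singleton, Finset.card_univ, Fintype.card_fin] at this
      omega)
    hJmem
    (by
      intro σ τ hστ
      obtain ⟨ρ', hρ', hz⟩ := exists_partner hστ σ0
      exact ⟨σ0, by rw [hJeq]; simp, ρ', by rw [hJeq]; simpa using hρ', hz⟩)
  have hs1 : ∀ i, coef b L' i (s i) ≠ 0 := by
    intro i h0
    have h1 : coef b L' i = 0 := by
      funext σ
      by_cases hσ : σ = s i
      · rw [hσ, h0]; rfl
      · rw [hs i σ hσ]; rfl
    exact (coef_li b hL').ne_zero i h1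
  obtain ⟨k, hk⟩ := isolation hcard hn' (fun k => coef b (F k)) (coef b L')
    (fun i σ => coef_tendsto b hlim i σ) (fun k i σ => coef_conj b _ i σ) (div_pos hc0 hDR)
    (fun k => hlow _ c (hF k).2) s hbij hsreal hs hs1
  obtain ⟨A, hA1, hA2, hA3, hA4⟩ := final_matrix b (F k) s hbij hsreal hk
  refine ⟨k, A, hA1, hA2, hA3, fun i x hx => ?_⟩
  obtain ⟨μ', hμ'⟩ := hA4 i
  rw [hμ', hx, mul_zero]

theorem apx (n : ℕ) (hn : 3 ≤ n) {c D : ℝ} (hc : 0 < c) (hD : 0 < D) (K H : ℝ) :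
    ∃ δ : ℝ, 0 < δ ∧ ∀ L : Fin n → Fin n → ℝ, Sys c D L → (∀ i j, |L i j| ≤ K) →
    ∀ (i₀ : Fin n) (Y : Matrix (Fin n) (Fin n) ℤ), (∀ i j, |(Y i j : ℝ)| ≤ H) →
    Irreducible (toQ Y).charpoly →
    (∃ lam : ℝ, ∀ j, |rowMul (L i₀) Y j - lam * L i₀ j| ≤ δ) → Concl L := by
  classical
  by_contra hcon
  push Not at hcon
  have hex : ∀ k : ℕ, ∃ L : Fin n → Fin n → ℝ, Sys c D L ∧ (∀ i j, |L i j| ≤ K) ∧
      ∃ p : Fin n × {Y : Matrix (Fin n) (Fin n) ℤ // ∀ i j, |(Y i j : ℝ)| ≤ H},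
      Irreducible (toQ p.2.1).charpoly ∧
      (∃ lam : ℝ, ∀ j, |rowMul (L p.1) p.2.1 j - lam * L p.1 j| ≤ 1 / ((k : ℝ) + 1)) ∧
      ¬ Concl L := by
    intro k
    obtain ⟨L, h1, h2, i₀, Y, h3, h4, h5, h6⟩ := hcon (1 / ((k : ℝ) + 1)) (by positivity)
    exact ⟨L, h1, h2, (i₀, ⟨Y, h3⟩), h4, h5, h6⟩
  choose F hF1 hF2 p hp1 hp2 hp3 using hex
  have hfinY : Finite {Y : Matrix (Fin n) (Fin n) ℤ // ∀ i j, |(Y i j : ℝ)| ≤ H} := by
    have h1 : Set.Finite {Y : Matrix (Fin n) (Fin n) ℤ | ∀ i j, |(Y i j : ℝ)| ≤ H} := by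
      have h2 : Set.Finite (Set.Icc (fun _ _ => -⌈|H|⌉ : Fin n → Fin n → ℤ) (fun _ _ => ⌈|H|⌉)) :=
        Set.finite_Icc _ _
      refine Set.Finite.subset h2 ?_
      intro Y hY
      refine ⟨fun i j => ?_, fun i j => ?_⟩
      · have h3 := abs_le.mp (hY i j)
        have h4 : -(⌈|H|⌉ : ℝ) ≤ (Y i j : ℝ) := by
          have := Int.le_ceil |H|
          have := le_abs_self H
          linarith
        exact_mod_cast h4
      · have h3 := abs_le.mp (hY i j)
        have h4 : (Y i j : ℝ) ≤ (⌈|H|⌉ : ℝ) := by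
          have := Int.le_ceil |H|
          have := le_abs_self H
          linarith
        exact_mod_cast h4
    exact h1.to_subtype
  obtain ⟨q, hq⟩ := Finite.exists_infinite_fiber p
  have hfreq : ∃ᶠ k in atTop, p k = q := by
    rw [Nat.frequently_atTop_iff_infinite]
    rw [Set.infinite_coe_iff] at hq
    exact hq
  obtain ⟨φ, hφ, hφp⟩ := extraction_of_frequently_atTop hfreq
  obtain ⟨L', -, ψ, hψ, hlim⟩ := (box_compact (n := n) K).tendsto_subseq
    (x := fun k => F (φ k)) (fun k => fun i j => hF2 (φ k) i j)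
  have hlim' : ∀ i j, Tendsto (fun k => F (φ (ψ k)) i j) atTop (𝓝 (L' i j)) := by
    intro i j
    exact tendsto_pi_nhds.mp (tendsto_pi_nhds.mp hlim i) j
  obtain ⟨i₀, Y, hY⟩ := q
  -- cross products vanish in the limit
  have hcross : ∀ j j', rowMul (L' i₀) Y j * L' i₀ j' = rowMul (L' i₀) Y j' * L' i₀ j := by
    intro j j'
    have hrow : ∀ j, Tendsto (fun k => rowMul (F (φ (ψ k)) i₀) Y j) atTop
        (𝓝 (rowMul (L' i₀) Y j)) := by
      intro j
      unfold rowMul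
      exact tendsto_finsetSum _ fun i _ => (hlim' i₀ i).mul_const _
    have h1 : Tendsto (fun k => rowMul (F (φ (ψ k)) i₀) Y j * F (φ (ψ k)) i₀ j' -
        rowMul (F (φ (ψ k)) i₀) Y j' * F (φ (ψ k)) i₀ j) atTop
        (𝓝 (rowMul (L' i₀) Y j * L' i₀ j' - rowMul (L' i₀) Y j' * L' i₀ j)) :=
      ((hrow j).mul (hlim' i₀ j')).sub ((hrow j').mul (hlim' i₀ j))
    have h2 : Tendsto (fun k => rowMul (F (φ (ψ k)) i₀) Y j * F (φ (ψ k)) i₀ j' -
        rowMul (F (φ (ψ k)) i₀) Y j' * F (φ (ψ k)) i₀ j) atTop (𝓝 0) := by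
      have h3 : Tendsto (fun k : ℕ => 1 / (((φ (ψ k) : ℕ) : ℝ) + 1) * (2 * K)) atTop (𝓝 0) := by
        have h4 : Tendsto (fun k : ℕ => 1 / (((φ (ψ k) : ℕ) : ℝ) + 1)) atTop (𝓝 0) :=
          tendsto_one_div_add_atTop_nhds_zero_nat.comp (hφ.comp hψ).tendsto_atTop
        simpa using h4.mul_const (2 * K)
      refine squeeze_zero_norm (fun k => ?_) h3
      obtain ⟨lam, hlam⟩ := hp2 (φ (ψ k))
      rw [hφp (ψ k)] at hlam
      simp only at hlam
      have e1 : rowMul (F (φ (ψ k)) i₀) Y j * F (φ (ψ k)) i₀ j' -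
          rowMul (F (φ (ψ k)) i₀) Y j' * F (φ (ψ k)) i₀ j =
          (rowMul (F (φ (ψ k)) i₀) Y j - lam * F (φ (ψ k)) i₀ j) * F (φ (ψ k)) i₀ j' -
          (rowMul (F (φ (ψ k)) i₀) Y j' - lam * F (φ (ψ k)) i₀ j') * F (φ (ψ k)) i₀ j := by ring
      rw [Real.norm_eq_abs, e1]
      have hpos : (0 : ℝ) ≤ 1 / (((φ (ψ k) : ℕ) : ℝ) + 1) := by positivity
      calc |(rowMul (F (φ (ψ k)) i₀) Y j - lam * F (φ (ψ k)) i₀ j) * F (φ (ψ k)) i₀ j' -
          (rowMul (F (φ (ψ k)) i₀) Y j' - lam * F (φ (ψ k)) i₀ j') * F (φ (ψ k)) i₀ j|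
          ≤ |(rowMul (F (φ (ψ k)) i₀) Y j - lam * F (φ (ψ k)) i₀ j) * F (φ (ψ k)) i₀ j'| +
            |(rowMul (F (φ (ψ k)) i₀) Y j' - lam * F (φ (ψ k)) i₀ j') * F (φ (ψ k)) i₀ j| :=
            abs_sub _ _
        _ ≤ 1 / (((φ (ψ k) : ℕ) : ℝ) + 1) * K + 1 / (((φ (ψ k) : ℕ) : ℝ) + 1) * K := by
            rw [abs_mul, abs_mul]
            exact add_le_add (mul_le_mul (hlam j) (hF2 _ _ _) (abs_nonneg _) hpos)
              (mul_le_mul (hlam j') (hF2 _ _ _) (abs_nonneg _) hpos)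
        _ = 1 / (((φ (ψ k) : ℕ) : ℝ) + 1) * (2 * K) := by ring
    have h5 := tendsto_nhds_unique h1 h2
    linarith
  -- the limit row is nonzero
  have hdet : |(Matrix.of L').det| = D := by
    have h1 : Tendsto (fun k => |(Matrix.of (F (φ (ψ k)))).det|) atTop
        (𝓝 |(Matrix.of L').det|) := by
      have h2 : Tendsto (fun k => Matrix.of (F (φ (ψ k)))) atTop (𝓝 (Matrix.of L')) :=
        tendsto_pi_nhds.mpr fun i => tendsto_pi_nhds.mpr fun j => hlim' i j
      exact ((continuous_id.matrix_det.tendsto _).comp h2).abs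
    have h2 : (fun k => |(Matrix.of (F (φ (ψ k)))).det|) = fun _ => D := by
      funext k; exact (hF1 _).1
    rw [h2] at h1
    exact (tendsto_nhds_unique h1 tendsto_const_nhds)
  obtain ⟨j0, hj0⟩ : ∃ j, L' i₀ j ≠ 0 := by
    by_contra hall
    push Not at hall
    have h1 : (Matrix.of L').det = 0 := Matrix.det_eq_zero_of_row_eq_zero i₀ (fun j => hall j)
    rw [h1, abs_zero] at hdet
    linarith
  obtain ⟨k, hk⟩ := rigid_var hn hc hD (F := fun k => F (φ (ψ k))) (fun k => hF1 _) hlim' i₀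
    (toQ Y) (by have := hp1 (φ 0); rwa [hφp 0] at this) (rowMul (L' i₀) Y j0 / L' i₀ j0) (by
      intro j
      have h1 := hcross j j0
      have h2 : ∑ i, L' i₀ i * ((toQ Y i j : ℚ) : ℝ) = rowMul (L' i₀) Y j := by
        unfold rowMul toQ
        simp
      rw [h2]
      field_simp
      linarith)
  exact hp3 _ hk

end Pool.Agent.Work.MP_77d073_nt.Gap
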