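import Mathlib
import Pool.Agent.Work.MP_77d073_nt.GapDefs
import Pool.Agent.Work.MP_77d073_nt.Reduce

set_option autoImplicit false

namespace Pool.Agent.Work.MP_77d073_nt.Gap

open Pool.Agent.Work.MP_77d073_nt Polynomial

/-- Krylov matrix of `Y` and the basis vector `z`. -/
private def Kry {k : Type*} [Field k] {n : ℕ} (Y : Matrix (Fin n) (Fin n) k) (z : Fin n) :
    Matrix (Fin n) (Fin n) k :=
  Matrix.of fun i j => (Y ^ (j : ℕ)) i z

private theorem eq_sum {k : Type*} [Field k] {n : ℕ} {Y A : Matrix (Fin n) (Fin n) k} {z : Fin n}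
    (hP : (Kry Y z).det ≠ 0) (hA : Y * A = A * Y) {c : Fin n → k}
    (hc : (Kry Y z).mulVec c = fun i => A i z) : A = ∑ j : Fin n, c j • Y ^ (j : ℕ) := by
  set N := A - ∑ j : Fin n, c j • Y ^ (j : ℕ) with hNdef
  have hcomm : Commute Y N := by
    have h1 : Commute Y A := hA
    have h2 : Commute Y (∑ j : Fin n, c j • Y ^ (j : ℕ)) :=
      Commute.sum_right _ _ _ fun j _ => ((Commute.refl Y).pow_right _).smul_right _
    exact h1.sub_right h2
  have hNz : ∀ l, N l z = 0 := by
    intro l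
    have h3 := congrFun hc l
    simp only [Matrix.mulVec, dotProduct, Kry, Matrix.of_apply] at h3
    rw [hNdef, Matrix.sub_apply, ← h3, Matrix.sum_apply, sub_eq_zero]
    refine Finset.sum_congr rfl fun j _ => ?_
    rw [Matrix.smul_apply, smul_eq_mul, mul_comm]
  have hN : N * Kry Y z = 0 := by
    ext i j
    have h4 : (N * Kry Y z) i j = (N * Y ^ (j : ℕ)) i z := by
      simp [Matrix.mul_apply, Kry]
    rw [h4, ← (hcomm.pow_left (j : ℕ)).eq, Matrix.mul_apply, Matrix.zero_apply]
    exact Finset.sum_eq_zero fun l _ => by rw [hNz l, mul_zero]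
  have hN0 : N = 0 := by
    have h5 : N * Kry Y z * (Kry Y z)⁻¹ = 0 := by rw [hN, zero_mul]
    rwa [Matrix.mul_assoc, Matrix.mul_nonsing_inv _ (isUnit_iff_ne_zero.2 hP), mul_one] at h5
  rw [hNdef, sub_eq_zero] at hN0
  exact hN0

private theorem kry_det_ne {n : ℕ} {Y : Matrix (Fin n) (Fin n) ℚ} (hY : Irreducible Y.charpoly)
    (z : Fin n) : (Kry Y z).det ≠ 0 := by
  intro h0
  obtain ⟨w, hw, hPw⟩ := Matrix.exists_mulVec_eq_zero_iff.2 h0
  set p : ℚ[X] := ∑ j : Fin n, C (w j) * X ^ (j : ℕ) with hp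
  have hcoef : ∀ j : Fin n, p.coeff (j : ℕ) = w j := by
    intro j
    rw [hp, finsetSum_coeff]
    simp only [coeff_C_mul, coeff_X_pow]
    rw [Finset.sum_eq_single j]
    · simp
    · intro b _ hb
      have : (j : ℕ) ≠ (b : ℕ) := fun h => hb (Fin.ext h.symm)
      simp [this]
    · simp
  have hp0 : p ≠ 0 := by
    intro h
    apply hw
    funext j
    rw [← hcoef j, h]; simp
  have hdeg : p.degree < n := by
    rw [hp]
    refine (degree_sum_le _ _).trans_lt ?_
    rw [Finset.sup_lt_iff (by exact WithBot.bot_lt_coe n)]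
    intro j _
    refine (degree_C_mul_X_pow_le _ _).trans_lt ?_
    exact_mod_cast j.2
  have hndvd : ¬ Y.charpoly ∣ p := by
    intro h
    have h1 := degree_le_of_dvd h hp0
    rw [Matrix.charpoly_degree_eq_dim, Fintype.card_fin] at h1
    exact absurd h1 (not_le.2 hdeg)
  have hcop : IsCoprime Y.charpoly p := (hY.coprime_iff_not_dvd).2 hndvd
  obtain ⟨u, v, huv⟩ := hcop
  have h2 : aeval Y v * aeval Y p = 1 := by
    have h3 := congrArg (aeval Y) huv
    rw [map_add, map_mul, map_mul, Matrix.aeval_self_charpoly, mul_zero, zero_add, map_one] at h3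
    exact h3
  have h4 : ∀ l, (aeval Y p) l z = 0 := by
    intro l
    have h5 := congrFun hPw l
    simp only [Matrix.mulVec, dotProduct, Kry, Matrix.of_apply, Pi.zero_apply] at h5
    rw [hp, map_sum, Matrix.sum_apply, ← h5]
    refine Finset.sum_congr rfl fun j _ => ?_
    rw [map_mul, aeval_C, map_pow, aeval_X, ← Algebra.smul_def, Matrix.smul_apply, smul_eq_mul,
      mul_comm]
  have h6 : (1 : Matrix (Fin n) (Fin n) ℚ) z z = 0 := by
    rw [← h2, Matrix.mul_apply]
    exact Finset.sum_eq_zero fun l _ => by rw [h4 l, mul_zero]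
  simp at h6

private theorem pos_of_irred {n : ℕ} {Y : Matrix (Fin n) (Fin n) ℚ}
    (hY : Irreducible Y.charpoly) : 0 < n := by
  rcases Nat.eq_zero_or_pos n with rfl | h
  · exact absurd (by simp [Matrix.charpoly, Matrix.det_isEmpty]) hY.not_isUnit
  · exact h

theorem comm_of_irred {n : ℕ} {Y A B : Matrix (Fin n) (Fin n) ℚ} (hY : Irreducible Y.charpoly)
    (hA : Y * A = A * Y) (hB : Y * B = B * Y) : A * B = B * A := by
  have hn := pos_of_irred hY
  set z : Fin n := ⟨0, hn⟩
  have hP := kry_det_ne hY z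
  have hsolve : ∀ A : Matrix (Fin n) (Fin n) ℚ, Y * A = A * Y →
      ∃ c : Fin n → ℚ, A = ∑ j : Fin n, c j • Y ^ (j : ℕ) := by
    intro A hA
    refine ⟨(Kry Y z)⁻¹.mulVec fun i => A i z, eq_sum hP hA ?_⟩
    rw [Matrix.mulVec_mulVec, Matrix.mul_nonsing_inv _ (isUnit_iff_ne_zero.2 hP),
      Matrix.one_mulVec]
  obtain ⟨c, hc⟩ := hsolve A hA
  have hBp : Commute B A := by
    rw [hc]
    have hYB : Commute B Y := (show Commute Y B from hB).symm
    exact Commute.sum_right _ _ _ fun j _ => (hYB.pow_right _).smul_right _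
  exact hBp.symm.eq

private theorem map_pow_int {R : Type*} [Ring R] {n : ℕ} (Y : Matrix (Fin n) (Fin n) ℤ)
    (k : ℕ) : (Y.map (Int.cast : ℤ → R)) ^ k = (Y ^ k).map (Int.cast : ℤ → R) := by
  have := map_pow ((Int.castRingHom R).mapMatrix) Y k
  simpa using this.symm

private theorem entry_pow {n : ℕ} (hn : 1 ≤ n) {Y : Matrix (Fin n) (Fin n) ℤ} {H : ℝ}
    (hH : 1 ≤ H) (hYH : ∀ i j, |(Y i j : ℝ)| ≤ H) (k : ℕ) :
    ∀ i j, |((Y ^ k) i j : ℝ)| ≤ (n * H) ^ k := by
  induction k with
  | zero =>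
    intro i j
    rw [pow_zero, pow_zero, Matrix.one_apply]
    split_ifs <;> simp
  | succ k ih =>
    intro i j
    rw [pow_succ, Matrix.mul_apply]
    push_cast
    refine (Finset.abs_sum_le_sum_abs _ _).trans ?_
    have h1 : ∀ l ∈ (Finset.univ : Finset (Fin n)),
        |((Y ^ k) i l : ℝ) * (Y l j : ℝ)| ≤ (n * H) ^ k * H := by
      intro l _
      rw [abs_mul]
      have := ih i l
      have h2 := hYH l j
      have h3 : (0 : ℝ) ≤ (n * H) ^ k := by positivity
      gcongr
    refine (Finset.sum_le_card_nsmul _ _ _ h1).trans ?_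
    rw [Finset.card_univ, Fintype.card_fin, nsmul_eq_mul, pow_succ]
    exact le_of_eq (by ring)

theorem coeff_bound {n : ℕ} (hn : 1 ≤ n) {Y M : Matrix (Fin n) (Fin n) ℤ}
    (hY : Irreducible (toQ Y).charpoly) (hc : Y * M = M * Y) {H X : ℝ} (hH : 1 ≤ H)
    (hYH : ∀ i j, |(Y i j : ℝ)| ≤ H) (hMX : ∀ i j, |(M i j : ℝ)| ≤ X) :
    ∃ c : Fin n → ℝ, (∀ k, |c k| ≤ n * n.factorial * (n * H) ^ (n * n) * X) ∧
      ∀ i j, (M i j : ℝ) = ∑ k : Fin n, c k * ((Y ^ (k : ℕ)) i j : ℝ) := by
  set z : Fin n := ⟨0, hn⟩ with hz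
  -- integer Krylov matrix
  set P : Matrix (Fin n) (Fin n) ℤ := Matrix.of fun i j : Fin n => (Y ^ (j : ℕ)) i z with hPdef
  have hKQ : Kry (toQ Y) z = P.map (Int.cast : ℤ → ℚ) := by
    ext i j
    simp only [Kry, toQ, Matrix.of_apply, hPdef, Matrix.map_apply]
    rw [map_pow_int, Matrix.map_apply]
  have hKR : Kry (Y.map (Int.cast : ℤ → ℝ)) z = P.map (Int.cast : ℤ → ℝ) := by
    ext i j
    simp only [Kry, Matrix.of_apply, hPdef, Matrix.map_apply]
    rw [map_pow_int, Matrix.map_apply]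
  have hdet : P.det ≠ 0 := by
    intro h0
    have h1 := kry_det_ne hY z
    apply h1
    rw [hKQ]
    have h2 := (Int.castRingHom ℚ).map_det P
    rw [h0] at h2
    simpa [RingHom.mapMatrix_apply] using h2.symm
  have hdetR : (P.map (Int.cast : ℤ → ℝ)).det = ((P.det : ℤ) : ℝ) := by
    have h2 := (Int.castRingHom ℝ).map_det P
    simpa [RingHom.mapMatrix_apply] using h2.symm
  have hdetR0 : (P.map (Int.cast : ℤ → ℝ)).det ≠ 0 := by
    rw [hdetR]; exact_mod_cast hdet
  have hdet1 : 1 ≤ |(P.map (Int.cast : ℤ → ℝ)).det| := by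
    rw [hdetR]
    have : 1 ≤ |P.det| := Int.one_le_abs hdet
    exact_mod_cast this
  set PR := P.map (Int.cast : ℤ → ℝ) with hPR
  set MR := M.map (Int.cast : ℤ → ℝ) with hMR
  set YR := Y.map (Int.cast : ℤ → ℝ) with hYR
  have hcR : YR * MR = MR * YR := by
    have h3 := congrArg ((Int.castRingHom ℝ).mapMatrix) hc
    rw [map_mul, map_mul] at h3
    simpa [RingHom.mapMatrix_apply] using h3
  set m : Fin n → ℝ := fun i => MR i z with hm
  set c : Fin n → ℝ := fun k => (PR.det)⁻¹ * (PR.adjugate.mulVec m) k with hcdef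
  have hPc : PR.mulVec c = m := by
    have h4 : c = (PR.det)⁻¹ • PR.adjugate.mulVec m := by
      funext k; simp [hcdef]
    rw [h4, Matrix.mulVec_smul, Matrix.mulVec_mulVec, Matrix.mul_adjugate, Matrix.smul_mulVec,
      Matrix.one_mulVec, smul_smul, inv_mul_cancel₀ hdetR0, one_smul]
  have hM : MR = ∑ j : Fin n, c j • YR ^ (j : ℕ) := by
    refine eq_sum (z := z) ?_ hcR ?_
    · rw [hKR]; exact hdetR0
    · rw [hKR]; exact hPc
  have hnH : (1 : ℝ) ≤ n * H := by
    have h5 : (1 : ℝ) ≤ n := by exact_mod_cast hn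
    nlinarith
  have hX : 0 ≤ X := le_trans (abs_nonneg _) (hMX z z)
  refine ⟨c, fun k => ?_, fun i j => ?_⟩
  · have hPe : ∀ i j, |PR i j| ≤ (n * H) ^ n := by
      intro i j
      have h6 := entry_pow hn hH hYH (j : ℕ) i z
      refine le_trans ?_ (h6.trans (pow_le_pow_right₀ hnH j.2.le))
      simp [hPR, hPdef]
    have hadj : ∀ i j, |PR.adjugate i j| ≤ n.factorial * (n * H) ^ (n * n) := by
      intro i j
      rw [Matrix.adjugate_apply]
      have h7 := Matrix.det_le (A := PR.updateRow j (Pi.single i 1))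
        (abv := (AbsoluteValue.abs : AbsoluteValue ℝ ℝ)) (x := (n * H) ^ n) (by
          intro i' j'
          rw [Matrix.updateRow_apply]
          split_ifs with hh
          · simp only [Pi.single_apply]
            split_ifs
            · simpa using one_le_pow₀ hnH
            · simp; positivity
          · exact hPe i' j')
      simp only [Fintype.card_fin, nsmul_eq_mul, ← pow_mul] at h7
      exact h7
    have hsum : |(PR.adjugate.mulVec m) k| ≤ n * (n.factorial * (n * H) ^ (n * n) * X) := by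
      simp only [Matrix.mulVec, dotProduct]
      refine (Finset.abs_sum_le_sum_abs _ _).trans ?_
      have h8 : ∀ l ∈ (Finset.univ : Finset (Fin n)),
          |PR.adjugate k l * m l| ≤ n.factorial * (n * H) ^ (n * n) * X := by
        intro l _
        rw [abs_mul]
        have h9 := hadj k l
        have h10 : |m l| ≤ X := by simpa [hm, hMR] using hMX l z
        have h11 : (0 : ℝ) ≤ n.factorial * (n * H) ^ (n * n) := by positivity
        gcongr
      refine (Finset.sum_le_card_nsmul _ _ _ h8).trans ?_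
      rw [Finset.card_univ, Fintype.card_fin, nsmul_eq_mul]
    simp only [hcdef]
    rw [abs_mul, abs_inv]
    have h12 : |PR.det|⁻¹ ≤ 1 := inv_le_one_of_one_le₀ hdet1
    calc |PR.det|⁻¹ * |(PR.adjugate.mulVec m) k|
        ≤ 1 * (n * (n.factorial * (n * H) ^ (n * n) * X)) := by
          gcongr
      _ = _ := by ring
  · have h13 := congrFun (congrFun hM i) j
    rw [hMR, Matrix.map_apply, Matrix.sum_apply] at h13
    rw [h13]
    refine Finset.sum_congr rfl fun l _ => ?_
    rw [Matrix.smul_apply, smul_eq_mul, hYR, map_pow_int, Matrix.map_apply]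

end Pool.Agent.Work.MP_77d073_nt.Gap
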