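import Mathlib
import Pool.Agent.Work.MP_77d073_nt.GapDefs
import Pool.Agent.Work.MP_77d073_nt.Reduce
import Pool.Agent.Work.MP_77d073_nt.GapNP
import Pool.Agent.Work.MP_77d073_nt.GapGA
import Pool.Agent.Work.MP_77d073_nt.GapGD

set_option autoImplicit false

namespace Pool.Agent.Work.MP_77d073_nt.Gap

open Pool.Agent.Work.MP_77d073_nt Polynomial

private noncomputable def gfC (n : ℕ) (D K : ℝ) : ℝ := (n.factorial : ℝ) * (max K 1) ^ n / D

private theorem gfC_pos (n : ℕ) {D K : ℝ} (hD : 0 < D) : 0 < gfC n D K := by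
  unfold gfC
  have : 0 < max K 1 := lt_of_lt_of_le one_pos (le_max_right _ _)
  positivity

private theorem gf_unit {n : ℕ} {D : ℝ} (hD : 0 < D) {B : Matrix (Fin n) (Fin n) ℝ}
    (hB : |B.det| = D) : IsUnit B.det := by
  rw [isUnit_iff_ne_zero]
  intro h
  rw [h, abs_zero] at hB
  exact hD.ne hB

private theorem gf_inv {n : ℕ} {D K : ℝ} (hD : 0 < D) {B : Matrix (Fin n) (Fin n) ℝ}
    (hB : |B.det| = D) (hK : ∀ i j, |B i j| ≤ K) (i j : Fin n) : |B⁻¹ i j| ≤ gfC n D K := by
  have h1 : |B.adjugate i j| ≤ (n.factorial : ℝ) * (max K 1) ^ n := by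
    rw [Matrix.adjugate_apply]
    have h2 := Matrix.det_le (A := B.updateRow j (Pi.single i 1)) (abv := AbsoluteValue.abs)
      (x := max K 1) (by
        intro a b
        by_cases ha : a = j
        · subst ha
          rw [Matrix.updateRow_self]
          by_cases hb : b = i
          · subst hb; simp
          · rw [Pi.single_eq_of_ne hb]; simp
        · rw [Matrix.updateRow_ne ha]
          exact (hK a b).trans (le_max_left _ _))
    simpa using h2
  rw [Matrix.inv_def, Matrix.smul_apply, smul_eq_mul, Ring.inverse_eq_inv', abs_mul, abs_inv, hB]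
  unfold gfC
  rw [div_eq_inv_mul]
  exact mul_le_mul_of_nonneg_left h1 (inv_nonneg.2 hD.le)

private theorem gf_det {n : ℕ} {D : ℝ} {L : Fin n → Fin n → ℝ} (hL : |(Matrix.of L).det| = D)
    {s : Fin n → ℝ} (hs : Pos s) {M : Matrix (Fin n) (Fin n) ℤ} (hM : IsUnit M.det) :
    |(Matrix.of (tr L M s)).det| = D := by
  rw [tr_det, hs.2, one_mul, abs_mul, hL]
  rcases Int.isUnit_iff.1 hM with h | h <;> rw [h] <;> simp

/-- Entries of a product of two matrices. -/
private theorem gf_mul_bound {n : ℕ} {A B : Matrix (Fin n) (Fin n) ℝ} {u v : ℝ} (hu : 0 ≤ u)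
    (hA : ∀ i j, |A i j| ≤ u) (hB : ∀ i j, |B i j| ≤ v) (i j : Fin n) :
    |(A * B) i j| ≤ n * (u * v) := by
  rw [Matrix.mul_apply]
  refine (Finset.abs_sum_le_sum_abs _ _).trans ?_
  have h1 : ∀ l ∈ (Finset.univ : Finset (Fin n)), |A i l * B l j| ≤ u * v := by
    intro l _
    rw [abs_mul]
    exact mul_le_mul (hA i l) (hB l j) (abs_nonneg _) hu
  refine (Finset.sum_le_card_nsmul _ _ _ h1).trans ?_
  rw [Finset.card_univ, Fintype.card_fin, nsmul_eq_mul]

/-- The conjugate has bounded entries. -/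
private theorem gf_conj {n : ℕ} {D K R : ℝ} (hD : 0 < D) (hR : 0 ≤ R)
    {B S P : Matrix (Fin n) (Fin n) ℝ}
    (hB : |B.det| = D) (hBK : ∀ i j, |B i j| ≤ K) (hS : ∀ i j, |S i j| ≤ R)
    (hc : B * P = S * B) (i j : Fin n) :
    |P i j| ≤ n * (gfC n D K * (n * (R * K))) := by
  have hu := gf_unit hD hB
  have hP : P = B⁻¹ * (S * B) := by rw [← hc, Matrix.nonsing_inv_mul_cancel_left _ _ hu]
  rw [hP]
  exact gf_mul_bound (gfC_pos n hD).le (gf_inv hD hB hBK) (gf_mul_bound hR hS hBK) i j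

/-- Off-diagonal entries of `S` in terms of the eigenvector defect. -/
private theorem gf_off {n : ℕ} {D K e μ : ℝ} (hD : 0 < D)
    {B S P : Matrix (Fin n) (Fin n) ℝ}
    (hB : |B.det| = D) (hBK : ∀ i j, |B i j| ≤ K) (hc : B * P = S * B) {i₀ : Fin n}
    (he : ∀ i, |(B * P) i₀ i - μ * B i₀ i| ≤ e) {j : Fin n} (hj : j ≠ i₀) :
    |S i₀ j| ≤ n * (e * gfC n D K) := by
  have hu := gf_unit hD hB
  have h1 : ((B * P - μ • B) * B⁻¹) i₀ j = S i₀ j := by
    rw [hc, Matrix.sub_mul, Matrix.mul_nonsing_inv_cancel_right _ _ hu, Matrix.smul_mul,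
      Matrix.mul_nonsing_inv _ hu, Matrix.sub_apply, Matrix.smul_apply,
      Matrix.one_apply_ne hj.symm, smul_zero, sub_zero]
  rw [← h1, Matrix.mul_apply]
  refine (Finset.abs_sum_le_sum_abs _ _).trans ?_
  have h2 : ∀ l ∈ (Finset.univ : Finset (Fin n)),
      |(B * P - μ • B) i₀ l * B⁻¹ l j| ≤ e * gfC n D K := by
    intro l _
    rw [abs_mul]
    have h3 : |(B * P - μ • B) i₀ l| ≤ e := by
      rw [Matrix.sub_apply, Matrix.smul_apply, smul_eq_mul]; exact he l
    exact mul_le_mul h3 (gf_inv hD hB hBK l j) (abs_nonneg _) (le_trans (abs_nonneg _) h3)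
  refine (Finset.sum_le_card_nsmul _ _ _ h2).trans ?_
  rw [Finset.card_univ, Fintype.card_fin, nsmul_eq_mul]

private theorem gf_map_mul {n : ℕ} (A B : Matrix (Fin n) (Fin n) ℤ) :
    (A * B).map (Int.cast : ℤ → ℝ) = A.map (Int.cast : ℤ → ℝ) * B.map (Int.cast : ℤ → ℝ) := by
  have := map_mul ((Int.castRingHom ℝ).mapMatrix) A B
  simpa [RingHom.mapMatrix_apply] using this

private theorem gf_comm {n : ℕ} (L : Fin n → Fin n → ℝ) {W : Matrix (Fin n) (Fin n) ℝ}
    {G M : Matrix (Fin n) (Fin n) ℤ}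
    (hWL : W * Matrix.of L = Matrix.of L * G.map (Int.cast : ℤ → ℝ)) {t : Fin n → ℝ} (ht : Pos t)
    (hM : IsUnit M.det) :
    Matrix.of (tr L M t) * (M⁻¹ * G * M).map (Int.cast : ℤ → ℝ) =
      Matrix.diagonal t * W * Matrix.diagonal (fun i => (t i)⁻¹) * Matrix.of (tr L M t) := by
  set Mr : Matrix (Fin n) (Fin n) ℝ := M.map (Int.cast : ℤ → ℝ) with hMr
  set Gr : Matrix (Fin n) (Fin n) ℝ := G.map (Int.cast : ℤ → ℝ) with hGr
  set Pr : Matrix (Fin n) (Fin n) ℝ := (M⁻¹ * G * M).map (Int.cast : ℤ → ℝ) with hPr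
  set Lm : Matrix (Fin n) (Fin n) ℝ := Matrix.of L with hLm
  have hBe : Matrix.of (tr L M t) = Matrix.diagonal t * (Lm * Mr) := by
    ext i j
    rw [Matrix.diagonal_mul, Matrix.mul_apply]
    simp [tr, hLm, hMr]
  have hdd : Matrix.diagonal (fun i => (t i)⁻¹) * Matrix.diagonal t = 1 := by
    rw [Matrix.diagonal_mul_diagonal, ← Matrix.diagonal_one]
    congr 1
    funext i
    exact inv_mul_cancel₀ (ht.1 i).ne'
  have hMP : Mr * Pr = Gr * Mr := by
    have h1 : M * (M⁻¹ * G * M) = G * M := by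
      rw [Matrix.mul_assoc, Matrix.mul_nonsing_inv_cancel_left _ _ hM]
    rw [hMr, hPr, hGr, ← gf_map_mul, ← gf_map_mul, h1]
  rw [hBe]
  calc Matrix.diagonal t * (Lm * Mr) * Pr = Matrix.diagonal t * (Lm * (Mr * Pr)) := by
        simp only [Matrix.mul_assoc]
    _ = Matrix.diagonal t * (Lm * Gr * Mr) := by rw [hMP]; simp only [Matrix.mul_assoc]
    _ = Matrix.diagonal t * (W * Lm * Mr) := by rw [hWL]
    _ = Matrix.diagonal t * W * (Matrix.diagonal (fun i => (t i)⁻¹) * Matrix.diagonal t) *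
        (Lm * Mr) := by rw [hdd, Matrix.mul_one]; simp only [Matrix.mul_assoc]
    _ = _ := by simp only [Matrix.mul_assoc]

private theorem gf_pos_ray {n : ℕ} (i₀ : Fin n) {T : ℝ} (hT : 0 < T) (k : ℕ) :
    Pos (ray i₀ T k) := by
  refine ⟨fun i => ?_, ?_⟩
  · unfold ray
    split_ifs <;> positivity
  · rw [← Finset.mul_prod_erase Finset.univ _ (Finset.mem_univ i₀)]
    have h1 : ∏ i ∈ Finset.univ.erase i₀, ray i₀ T k i = ((T ^ k)⁻¹) ^ (n - 1) := by
      rw [Finset.prod_congr rfl (g := fun _ => (T ^ k)⁻¹) fun i hi => by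
        unfold ray; rw [if_neg (Finset.ne_of_mem_erase hi)], Finset.prod_const,
        Finset.card_erase_of_mem (Finset.mem_univ _), Finset.card_univ, Fintype.card_fin]
    rw [h1]
    have h2 : ray i₀ T k i₀ = (T ^ k) ^ (n - 1) := by
      unfold ray
      rw [if_pos rfl, ← pow_mul, mul_comm]
    rw [h2, inv_pow, mul_inv_cancel₀ (by positivity)]

theorem final_row (n : ℕ) (hn : 2 ≤ n) {c D K : ℝ} (hc : 0 < c) (hD : 0 < D) (hK : 0 < K)
    (a b : ℕ) (hb : 100 * n ^ 2 * (a + 1) ≤ b) :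
    ∃ T0 : ℝ, 1 ≤ T0 ∧ ∀ T : ℝ, T0 ≤ T → ∀ L : Fin n → Fin n → ℝ, Sys c D L →
    ∀ (i₀ : Fin n) (G : Matrix (Fin n) (Fin n) ℤ) (M : ℕ → Matrix (Fin n) (Fin n) ℤ),
    (∀ k, Red L K (ray i₀ T k) (M k)) →
    (∀ k, ∃ Y : Matrix (Fin n) (Fin n) ℤ, NE T a b (tr L (M k) (ray i₀ T k) i₀) Y ∧
      Irreducible (toQ Y).charpoly ∧
      Y * ((M k)⁻¹ * G * M k) = ((M k)⁻¹ * G * M k) * Y) →
    ∃ lam : ℝ, ∀ j, rowMul (L i₀) G j = lam * L i₀ j := by
  have hn1 : 1 ≤ n := by omega
  obtain ⟨T1, hT1, hpow⟩ := ne_pow n hn1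
  obtain ⟨T2, hT2, hba⟩ := red_ba n hn1 hc hD hK
  set C := gfC n D K with hCdef
  have hC : 0 < C := gfC_pos n hD
  -- the constant in front of the powers of `T`
  set Q : ℝ := n * (n * (n * (n.factorial : ℝ) * (n : ℝ) ^ (n * n) *
    (n * (C * (n * K))))) * C with hQ
  have hQ0 : 0 ≤ Q := by positivity
  refine ⟨max (max T1 T2) (max 2 (2 * n * Q)), le_trans hT1 ((le_max_left _ _).trans
    (le_max_left _ _)), ?_⟩
  intro T hT L hL i₀ G M hM hY
  have hTT1 : T1 ≤ T := (le_max_left _ _).trans ((le_max_left _ _).trans hT)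
  have hTT2 : T2 ≤ T := (le_max_right _ _).trans ((le_max_left _ _).trans hT)
  have hTtwo : 2 ≤ T := (le_max_left _ _).trans ((le_max_right _ _).trans hT)
  have hTQ : 2 * n * Q ≤ T := (le_max_right _ _).trans ((le_max_right _ _).trans hT)
  have hT1' : 1 ≤ T := by linarith
  have hT0 : 0 < T := by linarith
  set Lm : Matrix (Fin n) (Fin n) ℝ := Matrix.of L with hLm
  have huL : IsUnit Lm.det := gf_unit hD hL.1
  set Gr : Matrix (Fin n) (Fin n) ℝ := G.map (Int.cast : ℤ → ℝ) with hGr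
  set W : Matrix (Fin n) (Fin n) ℝ := Lm * Gr * Lm⁻¹ with hW
  have hWL : W * Lm = Lm * Gr := by
    rw [hW, Matrix.nonsing_inv_mul_cancel_right _ _ huL]
  set w : ℝ := ∑ j ∈ Finset.univ.erase i₀, |W i₀ j| with hw
  set V : ℝ := ∑ i, ∑ j, |W i j| with hV
  have hw0 : 0 ≤ w := Finset.sum_nonneg fun _ _ => abs_nonneg _
  have hV0 : 0 ≤ V := Finset.sum_nonneg fun _ _ => Finset.sum_nonneg fun _ _ => abs_nonneg _
  have hWV : ∀ i j, |W i j| ≤ V := by
    intro i j
    refine le_trans ?_ (Finset.single_le_sum (f := fun i => ∑ j, |W i j|)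
      (fun i _ => Finset.sum_nonneg fun _ _ => abs_nonneg _) (Finset.mem_univ i))
    exact Finset.single_le_sum (f := fun j => |W i j|) (fun j _ => abs_nonneg _)
      (Finset.mem_univ j)
  have hWw : ∀ j, j ≠ i₀ → |W i₀ j| ≤ w := by
    intro j hj
    exact Finset.single_le_sum (f := fun j => |W i₀ j|) (fun j _ => abs_nonneg _)
      (Finset.mem_erase.2 ⟨hj, Finset.mem_univ j⟩)
  clear_value w V
  -- main estimate
  have key : ∀ k : ℕ, T ^ (n * k) * w ≤ V := by
    intro k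
    obtain ⟨Y, hNE, hirr, hcomm⟩ := hY k
    set t := ray i₀ T k with ht
    have hpos : Pos t := gf_pos_ray i₀ hT0 k
    have hred := hM k
    have hBA := hba T hTT2 L hL t (M k) hpos hred i₀
    set P : Matrix (Fin n) (Fin n) ℤ := (M k)⁻¹ * G * M k with hP
    set Pr : Matrix (Fin n) (Fin n) ℝ := P.map (Int.cast : ℤ → ℝ) with hPr
    set B : Matrix (Fin n) (Fin n) ℝ := Matrix.of (tr L (M k) t) with hB
    have hBdet : |B.det| = D := gf_det hL.1 hpos hred.1
    have hBK : ∀ i j, |B i j| ≤ K := fun i j => hred.2 i j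
    set S : Matrix (Fin n) (Fin n) ℝ := Matrix.diagonal t * W * Matrix.diagonal (fun i => (t i)⁻¹)
      with hS
    have hSe : ∀ i j, S i j = t i * W i j * (t j)⁻¹ := by
      intro i j
      rw [hS, Matrix.mul_diagonal, Matrix.diagonal_mul]
    have hcj : B * Pr = S * B := gf_comm L hWL hpos hred.1
    have hTw : 0 ≤ T ^ (n * k) * w := mul_nonneg (pow_nonneg hT0.le _) hw0
    obtain ⟨R, hR⟩ : ∃ R : ℝ, R = V + T ^ (n * k) * w := ⟨_, rfl⟩
    have hR0 : 0 ≤ R := by rw [hR]; exact add_nonneg hV0 hTw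
    clear_value S B Pr
    have hti : t i₀ = T ^ ((n - 1) * k) := by rw [ht]; unfold ray; rw [if_pos rfl]
    have htj : ∀ j, j ≠ i₀ → t j = (T ^ k)⁻¹ := by
      intro j hj; rw [ht]; unfold ray; rw [if_neg hj]
    have hrat : ∀ j, j ≠ i₀ → t i₀ * (t j)⁻¹ = T ^ (n * k) := by
      intro j hj
      rw [hti, htj j hj, inv_inv, ← pow_add]
      congr 1
      obtain ⟨m, rfl⟩ : ∃ m, n = m + 1 := ⟨n - 1, by omega⟩
      rw [Nat.add_sub_cancel]; ring
    have hSoff : ∀ j, j ≠ i₀ → S i₀ j = T ^ (n * k) * W i₀ j := by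
      intro j hj
      rw [hSe, ← hrat j hj]; ring
    have hSR : ∀ i j, |S i j| ≤ R := by
      intro i j
      by_cases hi : i = i₀
      · by_cases hj : j = i₀
        · rw [hSe, hi, hj]
          have : t i₀ * W i₀ i₀ * (t i₀)⁻¹ = W i₀ i₀ := by
            have := (hpos.1 i₀).ne'
            field_simp
          rw [this]
          have h3 := hWV i₀ i₀
          linarith
        · rw [hi, hSoff j hj, abs_mul, abs_of_pos (by positivity : 0 < T ^ (n * k))]
          have h3 := hWw j hj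
          have h4 : T ^ (n * k) * |W i₀ j| ≤ T ^ (n * k) * w := by gcongr
          linarith
      · have h3 : |S i j| ≤ |W i j| := by
          rw [hSe, abs_mul, abs_mul, abs_of_pos (hpos.1 i), abs_of_pos (inv_pos.2 (hpos.1 j))]
          have h5 : t i * (t j)⁻¹ ≤ 1 := by
            by_cases hj : j = i₀
            · rw [htj i hi, hj, hti]
              have h6 : (T ^ k)⁻¹ ≤ 1 := inv_le_one_of_one_le₀ (one_le_pow₀ hT1')
              have h7 : (T ^ ((n - 1) * k))⁻¹ ≤ 1 := inv_le_one_of_one_le₀ (one_le_pow₀ hT1')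
              exact mul_le_one₀ h6 (by positivity) h7
            · rw [htj i hi, htj j hj]
              rw [mul_inv_cancel₀ (by positivity)]
          calc t i * |W i j| * (t j)⁻¹ = (t i * (t j)⁻¹) * |W i j| := by ring
            _ ≤ 1 * |W i j| := by gcongr
            _ = |W i j| := one_mul _
        have h5 := hWV i j
        linarith
    have hPX : ∀ i j, |(P i j : ℝ)| ≤ n * (C * (n * (R * K))) := by
      intro i j
      have := gf_conj hD hR0 hBdet hBK hSR hcj i j
      rwa [hPr, Matrix.map_apply] at this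
    obtain ⟨co, hco, hPco⟩ := coeff_bound hn1 hirr hcomm (H := T ^ a)
      (X := n * (C * (n * (R * K)))) (one_le_pow₀ hT1') hNE.1 hPX
    obtain ⟨lam, -, -, hlk⟩ := hpow T hTT1 a b (tr L (M k) t i₀) hBA Y hNE
    set μ : ℝ := ∑ j : Fin n, co j * lam ^ (j : ℕ) with hμ
    set e1 : ℝ := T ^ (n * (a + 4)) / T ^ b with he1
    set cb : ℝ := n * (n.factorial : ℝ) * (n * T ^ a) ^ (n * n) * (n * (C * (n * (R * K))))
      with hcb
    have hcb0 : 0 ≤ cb := by positivity
    have he : ∀ i, |(B * Pr) i₀ i - μ * B i₀ i| ≤ n * (cb * e1) := by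
      intro i
      have h1 : (B * Pr) i₀ i = ∑ j : Fin n, co j * rowMul (tr L (M k) t i₀) (Y ^ (j : ℕ)) i := by
        rw [Matrix.mul_apply]
        simp only [rowMul, Finset.mul_sum]
        rw [Finset.sum_comm]
        refine Finset.sum_congr rfl fun l _ => ?_
        rw [hPr, Matrix.map_apply, hPco, Finset.mul_sum]
        refine Finset.sum_congr rfl fun j _ => ?_
        rw [hB, Matrix.of_apply]
        ring
      have h2 : (B * Pr) i₀ i - μ * B i₀ i = ∑ j : Fin n, co j *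
          (rowMul (tr L (M k) t i₀) (Y ^ (j : ℕ)) i - lam ^ (j : ℕ) * tr L (M k) t i₀ i) := by
        rw [h1, hμ, Finset.sum_mul, ← Finset.sum_sub_distrib]
        refine Finset.sum_congr rfl fun j _ => ?_
        rw [hB, Matrix.of_apply]
        ring
      rw [h2]
      refine (Finset.abs_sum_le_sum_abs _ _).trans ?_
      have h3 : ∀ j ∈ (Finset.univ : Finset (Fin n)), |co j *
          (rowMul (tr L (M k) t i₀) (Y ^ (j : ℕ)) i - lam ^ (j : ℕ) * tr L (M k) t i₀ i)| ≤
          cb * e1 := by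
        intro j _
        rw [abs_mul]
        have h4 := (hlk (j : ℕ) j.2.le).1 i
        have h5 : |rowMul (tr L (M k) t i₀) (Y ^ (j : ℕ)) i - lam ^ (j : ℕ) * tr L (M k) t i₀ i| ≤
            e1 := by
          rw [he1, le_div_iff₀ (by positivity)]; exact h4
        exact mul_le_mul (hco j) h5 (abs_nonneg _) hcb0
      refine (Finset.sum_le_card_nsmul _ _ _ h3).trans ?_
      rw [Finset.card_univ, Fintype.card_fin, nsmul_eq_mul]
    have hoff : ∀ j, j ≠ i₀ → T ^ (n * k) * |W i₀ j| ≤ n * (n * (cb * e1) * C) := by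
      intro j hj
      have h1 := gf_off hD hBdet hBK hcj he hj
      rwa [hSoff j hj, abs_mul, abs_of_pos (by positivity : 0 < T ^ (n * k))] at h1
    have hsum : T ^ (n * k) * w ≤ n * (n * (n * (cb * e1) * C)) := by
      rw [hw, Finset.mul_sum]
      refine (Finset.sum_le_card_nsmul _ _ _ fun j hj => hoff j (Finset.ne_of_mem_erase hj)).trans ?_
      rw [Finset.card_erase_of_mem (Finset.mem_univ _), Finset.card_univ, Fintype.card_fin,
        nsmul_eq_mul]
      have h1 : ((n - 1 : ℕ) : ℝ) ≤ n := by exact_mod_cast Nat.sub_le n 1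
      have h2 : 0 ≤ (n : ℝ) * (n * (cb * e1) * C) := by positivity
      exact mul_le_mul_of_nonneg_right h1 h2
    -- numerics
    have hnum : n * (n * (n * (cb * e1) * C)) ≤ R / 2 := by
      have h1 : n * (n * (n * (cb * e1) * C)) =
          (n * Q) * R * (T ^ (a * (n * n)) * T ^ (n * (a + 4)) / T ^ b) := by
        rw [hcb, he1, hQ, mul_pow, ← pow_mul]; ring
      rw [h1]
      have h2 : T ^ (a * (n * n)) * T ^ (n * (a + 4)) / T ^ b ≤ 1 / T := by
        rw [div_le_div_iff₀ (by positivity) hT0, one_mul, ← pow_add, ← pow_succ]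
        refine pow_le_pow_right₀ hT1' (le_trans ?_ hb)
        have h3 : n ≤ n ^ 2 := by nlinarith
        have h4 : 1 ≤ n ^ 2 := by nlinarith
        have h5 : n * a ≤ n ^ 2 * a := Nat.mul_le_mul_right a h3
        nlinarith
      calc (n * Q) * R * (T ^ (a * (n * n)) * T ^ (n * (a + 4)) / T ^ b)
          ≤ (n * Q) * R * (1 / T) := by gcongr
        _ = (2 * n * Q / T) * (R / 2) := by ring
        _ ≤ 1 * (R / 2) := by
            have h3 : 2 * n * Q / T ≤ 1 := by rw [div_le_one hT0]; exact hTQ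
            gcongr
        _ = R / 2 := one_mul _
    have h9 : T ^ (n * k) * w ≤ R / 2 := hsum.trans hnum
    rw [hR] at h9
    linarith
  -- `w = 0`
  have hwz : w = 0 := by
    by_contra hne
    have hwpos : 0 < w := lt_of_le_of_ne hw0 (Ne.symm hne)
    obtain ⟨k, hk⟩ := pow_unbounded_of_one_lt (V / w) (by linarith : 1 < T)
    have h1 := key k
    have h2 : T ^ k ≤ T ^ (n * k) := pow_le_pow_right₀ hT1' (Nat.le_mul_of_pos_left k (by omega))
    rw [div_lt_iff₀ hwpos] at hk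
    have h3 : T ^ k * w ≤ T ^ (n * k) * w := by gcongr
    linarith
  have hW0 : ∀ j, j ≠ i₀ → W i₀ j = 0 := by
    intro j hj
    have h1 := hWw j hj
    rw [hwz] at h1
    exact abs_nonpos_iff.1 h1
  refine ⟨W i₀ i₀, fun j => ?_⟩
  have h1 := congrFun (congrFun hWL i₀) j
  rw [Matrix.mul_apply, Matrix.mul_apply, Finset.sum_eq_single i₀
    (fun l _ hl => by rw [hW0 l hl, zero_mul]) (fun h => absurd (Finset.mem_univ _) h)] at h1
  unfold rowMul
  simp only [hLm, hGr, Matrix.of_apply, Matrix.map_apply] at h1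
  exact h1.symm

end Pool.Agent.Work.MP_77d073_nt.Gap
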