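import Mathlib
import Pool.Agent.Work.MP_77d073_nt.GapDefs
import Pool.Agent.Work.MP_77d073_nt.GapGL
import Pool.Agent.Work.MP_77d073_nt.GapGA
import Pool.Agent.Work.MP_77d073_nt.GapGF

set_option autoImplicit false

/-!
Low complexity near one ray at one scale gives an exactly invariant hyperplane.
-/

namespace Pool.Agent.Work.MP_77d073_nt.Gap

open Pool.Agent.Work.MP_77d073_nt Polynomial

theorem unconj {n : ℕ} {M : Matrix (Fin n) (Fin n) ℤ} (hM : IsUnit M.det)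
    (Y : Matrix (Fin n) (Fin n) ℤ) : M⁻¹ * (M * Y * M⁻¹) * M = Y := by
  have e1 : M⁻¹ * (M * Y * M⁻¹) * M = (M⁻¹ * M) * (Y * (M⁻¹ * M)) := by
    simp only [Matrix.mul_assoc]
  rw [e1, Matrix.nonsing_inv_mul _ hM, Matrix.one_mul, Matrix.mul_one]

theorem ray_pos {n : ℕ} (i₀ : Fin n) {T : ℝ} (hT : 0 < T) (k : ℕ) :
    Pos (ray i₀ T k) := by
  refine ⟨fun i => ?_, ?_⟩
  · unfold ray
    split_ifs <;> positivity
  · rw [← Finset.mul_prod_erase Finset.univ _ (Finset.mem_univ i₀)]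
    have h1 : ∀ i ∈ Finset.univ.erase i₀, ray i₀ T k i = (T ^ k)⁻¹ := by
      intro i hi
      unfold ray
      rw [if_neg (Finset.ne_of_mem_erase hi)]
    rw [Finset.prod_congr rfl h1, Finset.prod_const, Finset.card_erase_of_mem (Finset.mem_univ _),
      Finset.card_univ, Fintype.card_fin]
    unfold ray
    rw [if_pos rfl, inv_pow, ← pow_mul, mul_comm k (n - 1)]
    exact mul_inv_cancel₀ (by positivity)

theorem ray_near {n : ℕ} (hn : 1 ≤ n) (i₀ : Fin n) {T : ℝ} (hT : 1 ≤ T) (k : ℕ) :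
    Near (T ^ n) (ray i₀ T k) (ray i₀ T (k + 1)) := by
  have hT0 : 0 < T := by linarith
  have h1n : 1 ≤ T ^ n := one_le_pow₀ hT
  refine ⟨fun i => ?_, fun i => ?_⟩
  · unfold ray
    split_ifs
    · calc T ^ ((n - 1) * k) ≤ T ^ ((n - 1) * (k + 1)) :=
            pow_le_pow_right₀ hT (Nat.mul_le_mul_left _ (by omega))
        _ = 1 * T ^ ((n - 1) * (k + 1)) := by ring
        _ ≤ T ^ n * T ^ ((n - 1) * (k + 1)) := by gcongr
    · calc (T ^ k)⁻¹ = T * (T ^ (k + 1))⁻¹ := by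
            rw [pow_succ]; field_simp
        _ ≤ T ^ n * (T ^ (k + 1))⁻¹ := by
            gcongr
            exact le_self_pow₀ hT (by omega)
  · unfold ray
    split_ifs
    · rw [← pow_add]
      refine pow_le_pow_right₀ hT ?_
      rw [Nat.mul_succ]
      omega
    · calc (T ^ (k + 1))⁻¹ ≤ (T ^ k)⁻¹ := by
            have := pow_le_pow_right₀ hT (Nat.le_succ k)
            gcongr
        _ = 1 * (T ^ k)⁻¹ := by ring
        _ ≤ T ^ n * (T ^ k)⁻¹ := by gcongr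

theorem chain_eigen (n : ℕ) (hn : 3 ≤ n) {c D K : ℝ} (hc : 0 < c) (hD : 0 < D) (hK : 0 < K)
    (m : ℕ) (hm : 10000 * n ^ 3 ≤ m) :
    ∃ κ : ℝ, 0 < κ ∧ ∃ T0 : ℝ, 1 ≤ T0 ∧ ∀ T : ℝ, T0 ≤ T → ∀ L : Fin n → Fin n → ℝ, Sys c D L →
    ∀ (i₀ : Fin n), ∀ N : ℕ, (N : ℝ) ≤ κ * (Real.log T) ^ (n - n / n.minFac) →
    ∀ y : Fin N → Fin n → ℝ,
    (∀ t : Fin n → ℝ, Pos t → (∃ s : ℝ, 0 ≤ s ∧ ∀ i, i ≠ i₀ → |Real.log (t i) + s| ≤ Real.log T) →
      ∃ M : Matrix (Fin n) (Fin n) ℤ, Red L K t M ∧ ∃ (j : Fin N) (θ : ℝ),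
        ∀ k, |tr L M t i₀ k - θ * y j k| * T ^ m ≤ 1) →
    ∃ (G : Matrix (Fin n) (Fin n) ℤ) (lam : ℝ), Irreducible (toQ G).charpoly ∧
      ∀ j, rowMul (L i₀) G j = lam * L i₀ j := by
  classical
  have hn1 : 1 ≤ n := by omega
  obtain ⟨κ, hκ, T1, hT1, h1⟩ := local_eigen n hn hc hD hK m hm
  obtain ⟨T2, hT2, h2⟩ := final_row n (by omega) hc hD hK (6 * n + 6) (m - (10 * n + 10)) (by
    have hn3 : n ≤ n ^ 3 := Nat.le_self_pow (by norm_num) n
    have hn23 : n ^ 2 ≤ n ^ 3 := Nat.pow_le_pow_right hn1 (by norm_num)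
    have hn33 : 27 ≤ n ^ 3 := by
      calc 27 = 3 ^ 3 := by norm_num
        _ ≤ n ^ 3 := Nat.pow_le_pow_left hn 3
    have : 100 * n ^ 2 * (6 * n + 6 + 1) = 600 * n ^ 3 + 700 * n ^ 2 := by ring
    omega)
  obtain ⟨T3, hT3, h3⟩ := ne_transport n hn1
  obtain ⟨T4, hT4, h4⟩ := ne_comm n hn1
  obtain ⟨T5, hT5, h5⟩ := red_ba n hn1 hc hD hK
  obtain ⟨T6, hT6, h6⟩ := trans_bound n hn1 hD hK
  refine ⟨κ, hκ, max (max T1 T2) (max (max T3 T4) (max T5 T6)),
    hT1.trans ((le_max_left _ _).trans (le_max_left _ _)), ?_⟩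
  intro T hT L hL i₀ N hN y hy
  have hTT1 : T1 ≤ T := (le_max_left _ _).trans ((le_max_left _ _).trans hT)
  have hTT2 : T2 ≤ T := (le_max_right _ _).trans ((le_max_left _ _).trans hT)
  have hTT3 : T3 ≤ T := (le_max_left _ _).trans ((le_max_left _ _).trans ((le_max_right _ _).trans hT))
  have hTT4 : T4 ≤ T := (le_max_right _ _).trans ((le_max_left _ _).trans ((le_max_right _ _).trans hT))
  have hTT5 : T5 ≤ T := (le_max_left _ _).trans ((le_max_right _ _).trans ((le_max_right _ _).trans hT))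
  have hTT6 : T6 ≤ T := (le_max_right _ _).trans ((le_max_right _ _).trans ((le_max_right _ _).trans hT))
  have hT1' : (1 : ℝ) ≤ T := hT1.trans hTT1
  have hT0 : (0 : ℝ) < T := by linarith
  have hlog : 0 ≤ Real.log T := Real.log_nonneg hT1'
  have hrp : ∀ k, Pos (ray i₀ T k) := fun k => ray_pos i₀ hT0 k
  have hrlog : ∀ (k : ℕ) (i : Fin n), i ≠ i₀ → Real.log (ray i₀ T k i) = -(k * Real.log T) := by
    intro k i hi
    unfold ray
    rw [if_neg hi, Real.log_inv, Real.log_pow]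
  -- reduced matrices and near-eigen matrices on the ray
  have hex : ∀ k, ∃ M : Matrix (Fin n) (Fin n) ℤ, Red L K (ray i₀ T k) M := by
    intro k
    obtain ⟨M, hM, _⟩ := hy (ray i₀ T k) (hrp k) ⟨k * Real.log T, by positivity, fun i hi => by
      rw [hrlog k i hi]; simpa using hlog⟩
    exact ⟨M, hM⟩
  choose M hM using hex
  have hex2 : ∀ k, ∃ Y : Matrix (Fin n) (Fin n) ℤ,
      NE T (6 * n + 6) (m - (10 * n + 10)) (tr L (M k) (ray i₀ T k) i₀) Y ∧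
      Irreducible (toQ Y).charpoly := by
    intro k
    refine h1 T hTT1 L hL i₀ (ray i₀ T k) (M k) (hrp k) (hM k) N hN y ?_
    intro t ht hti
    refine hy t ht ⟨k * Real.log T, by positivity, fun i hi => ?_⟩
    have := hti i hi
    rw [hrlog k i hi] at this
    simpa using this
  choose Y hY hYirr using hex2
  have hMu : ∀ k, IsUnit (M k).det := fun k => (hM k).1
  set Gm : ℕ → Matrix (Fin n) (Fin n) ℤ := fun k => M k * Y k * (M k)⁻¹ with hGm
  have hn3 : n ≤ n ^ 3 := Nat.le_self_pow (by norm_num) n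
  have hn23 : n ^ 2 ≤ n ^ 3 := Nat.pow_le_pow_right hn1 (by norm_num)
  have hn33 : 27 ≤ n ^ 3 := by
    calc 27 = 3 ^ 3 := by norm_num
      _ ≤ n ^ 3 := Nat.pow_le_pow_left hn 3
  -- neighbours commute
  have hstep : ∀ k, Gm k * Gm (k + 1) = Gm (k + 1) * Gm k := by
    intro k
    have hnear := ray_near hn1 i₀ hT1' k
    obtain ⟨b1, b2⟩ := h6 T hTT6 L hL.1 n _ _ (M k) (M (k + 1)) (hrp k) (hrp (k + 1)) (hM k)
      (hM (k + 1)) hnear.1
    obtain ⟨b3, _⟩ := h6 T hTT6 L hL.1 n _ _ (M (k + 1)) (M k) (hrp (k + 1)) (hrp k) (hM (k + 1))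
      (hM k) hnear.2
    have hVV : ((M k)⁻¹ * M (k + 1)) * ((M (k + 1))⁻¹ * M k) = 1 := by
      rw [Matrix.mul_assoc, ← Matrix.mul_assoc (M (k + 1)), Matrix.mul_nonsing_inv _ (hMu (k + 1)),
        Matrix.one_mul, Matrix.nonsing_inv_mul _ (hMu k)]
    have hθ : |ray i₀ T (k + 1) i₀ / ray i₀ T k i₀| ≤ T ^ (n + 1) := by
      have hp := (hrp k).1 i₀
      rw [abs_of_pos (div_pos ((hrp (k + 1)).1 i₀) hp), div_le_iff₀ hp]
      calc ray i₀ T (k + 1) i₀ ≤ T ^ n * ray i₀ T k i₀ := hnear.2 i₀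
        _ ≤ T ^ (n + 1) * ray i₀ T k i₀ := by
            have := pow_le_pow_right₀ hT1' (Nat.le_succ n)
            gcongr
    have h7 := h3 T hTT3 (6 * n + 6) (m - (10 * n + 10)) (n + 1) (by omega)
      (tr L (M k) (ray i₀ T k) i₀) (tr L (M (k + 1)) (ray i₀ T (k + 1)) i₀)
      (ray i₀ T (k + 1) i₀ / ray i₀ T k i₀) ((M k)⁻¹ * M (k + 1)) ((M (k + 1))⁻¹ * M k) hθ b1 b3 hVV
      (fun j => b2 i₀ j) (Y k) (hY k)
    set a' := 6 * n + 6 + 2 * (n + 1) + 1 with ha'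
    set b' := m - (10 * n + 10) - (2 * (n + 1) + 1) with hb'
    have h8 : NE T a' b' (tr L (M (k + 1)) (ray i₀ T (k + 1)) i₀) (Y (k + 1)) :=
      ne_mono hT1' (by omega) (by omega) (hY (k + 1))
    have hnum : 100 * n ^ 2 * (a' + 1) ≤ b' := by
      have : 100 * n ^ 2 * (a' + 1) = 800 * n ^ 3 + 1000 * n ^ 2 := by
        rw [ha']; ring
      rw [this, hb']
      omega
    have h9 := h4 T hTT4 a' b' hnum _ (h5 T hTT5 L hL _ _ (hrp (k + 1)) (hM (k + 1)) i₀) _ _ h7 h8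
    have h10 : (M (k + 1))⁻¹ * M k * Y k * ((M k)⁻¹ * M (k + 1)) =
        (M (k + 1))⁻¹ * Gm k * M (k + 1) := by
      simp only [hGm, Matrix.mul_assoc]
    have h11 : Y (k + 1) = (M (k + 1))⁻¹ * Gm (k + 1) * M (k + 1) :=
      (unconj (hMu (k + 1)) _).symm
    rw [h10, h11] at h9
    have h12 : ∀ A B : Matrix (Fin n) (Fin n) ℤ,
        M (k + 1) * ((M (k + 1))⁻¹ * A * M (k + 1) * ((M (k + 1))⁻¹ * B * M (k + 1))) *
          (M (k + 1))⁻¹ = A * B := by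
      intro A B
      have e1 : M (k + 1) * ((M (k + 1))⁻¹ * A * M (k + 1) * ((M (k + 1))⁻¹ * B * M (k + 1))) *
          (M (k + 1))⁻¹ = (M (k + 1) * (M (k + 1))⁻¹) * A * ((M (k + 1) * (M (k + 1))⁻¹) *
            (B * (M (k + 1) * (M (k + 1))⁻¹))) := by
        simp only [Matrix.mul_assoc]
      rw [e1, Matrix.mul_nonsing_inv _ (hMu (k + 1)), Matrix.one_mul, Matrix.one_mul,
        Matrix.mul_one]
    have h13 := congrArg (fun Z => M (k + 1) * Z * (M (k + 1))⁻¹) h9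
    rwa [h12, h12] at h13
  have hQ : ∀ k, toQ (Gm k) = toQ (M k) * toQ (Y k) * toQ ((M k)⁻¹) := by
    intro k
    simp only [hGm, toQ_mul]
  have hQ1 : toQ (1 : Matrix (Fin n) (Fin n) ℤ) = 1 := by
    unfold toQ
    exact Matrix.map_one _ (by simp) (by simp)
  have hirrG : ∀ k, Irreducible (toQ (Gm k)).charpoly := by
    intro k
    have h8 : toQ ((M k)⁻¹) * toQ (M k) = 1 := by
      rw [← toQ_mul, Matrix.nonsing_inv_mul _ (hMu k), hQ1]
    rw [hQ k]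
    rw [Matrix.charpoly_mul_comm, ← Matrix.mul_assoc, h8, Matrix.one_mul]
    exact hYirr k
  -- transitivity
  have hall : ∀ k, Gm k * Gm 0 = Gm 0 * Gm k := by
    intro k
    induction k with
    | zero => rfl
    | succ k ih =>
      have h7 := comm_of_irred (hirrG k) (A := toQ (Gm (k + 1))) (B := toQ (Gm 0))
        (by rw [← toQ_mul, ← toQ_mul, hstep k]) (by rw [← toQ_mul, ← toQ_mul, ih])
      rw [← toQ_mul, ← toQ_mul] at h7
      ext i j
      have h8 := congrFun (congrFun h7 i) j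
      simp only [toQ, Matrix.map_apply] at h8
      exact_mod_cast h8
  obtain ⟨lam, hlam⟩ := h2 T hTT2 L hL i₀ (Gm 0) M hM (fun k => ⟨Y k, hY k, hYirr k, by
    have h11 : Y k = (M k)⁻¹ * Gm k * M k := (unconj (hMu k) _).symm
    have h12 : ∀ A B : Matrix (Fin n) (Fin n) ℤ,
        (M k)⁻¹ * A * M k * ((M k)⁻¹ * B * M k) = (M k)⁻¹ * (A * B) * M k := by
      intro A B
      have e1 : (M k)⁻¹ * A * M k * ((M k)⁻¹ * B * M k) =
          (M k)⁻¹ * A * ((M k * (M k)⁻¹) * (B * M k)) := by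
        simp only [Matrix.mul_assoc]
      rw [e1, Matrix.mul_nonsing_inv _ (hMu k), Matrix.one_mul]
      simp only [Matrix.mul_assoc]
    rw [h11, h12, h12, hall k]⟩)
  exact ⟨Gm 0, lam, hirrG 0, hlam⟩

end Pool.Agent.Work.MP_77d073_nt.Gap
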