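import Mathlib
import Pool.Agent.Work.MP_77d073_nt.RootStep
import Pool.Agent.Work.MP_77d073_nt.Pairb

set_option autoImplicit false

namespace Pool.Agent.Work.MP_77d073_nt.Root

open Filter Topology Pool.Agent.Work.MP_77d073_nt

theorem base_edge {n : ℕ} (hn : 3 ≤ n) {L : Fin n → Fin n → ℝ} (hL : LinearIndependent ℝ L)
    {c : ℝ} (hc : 0 < c) (hlow : ∀ p : Fin n → ℤ, p ≠ 0 → c ≤ |∏ i, ∑ j, L i j * (p j : ℝ)|)
    (hnot : ¬ Cn L) : ∃ i k : Fin n, i ≠ k ∧ Pr (closure (orb L)) i k := by
  classical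
  have hLdet := (li_iff_det L).mp hL
  have hD : 0 < |(Matrix.of L).det| := abs_pos.mpr hLdet
  have hn1 : 1 ≤ n := by omega
  obtain ⟨β, hβ, hbox⟩ := meets_box (n := n) hn1 hc hD
  have hG : Good c |(Matrix.of L).det| (closure (orb L)) :=
    ⟨fun L' hL' => orb_det hL', fun L' hL' => orb_lower hL' hlow⟩
  obtain ⟨Y, hYS, hY, ⟨L₀, hL₀⟩, hmin⟩ := exists_minimal hn1 hc hD (orb_CI L) hG
    ⟨L, subset_closure (self_mem_orb L)⟩
  have hGY := hG.mono hYS
  by_cases hiso : ∃ U : Set (Fin n → Fin n → ℝ), IsOpen U ∧ L₀ ∈ U ∧ ∀ L ∈ Y ∩ U,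
      ∃ s : Fin n → ℝ, (∀ i, 3 / 4 < s i ∧ s i < 3 / 2) ∧ ∏ i, s i = 1 ∧
        ∀ i j, L i j = s i * L₀ i j
  · obtain ⟨U, hU, hL₀U, hiso⟩ := hiso
    exact absurd (concl_of_isolated hn hc hD rfl hlow hYS hY (hbox Y hY hGY) hmin hL₀ hU hL₀U hiso)
      hnot
  · obtain ⟨L', hL', L'', hL'', i, j, hij, hrel⟩ := pair_of_not_isolated hD hY hGY (hbox Y hY hGY)
      hL₀ (by
        intro U hU hL₀U
        by_contra hcon
        push Not at hcon
        exact hiso ⟨U, hU, hL₀U, hcon⟩)
    exact ⟨i, j, hij, L', hYS hL', L'', hYS hL'', hrel⟩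

theorem ac_transvection {n : ℕ} (i k : Fin n) (X : Fin n → Fin n → ℝ) (a b : Fin n) :
    ac (Matrix.transvection i k 1) X a b = X a b + if a = i then X k b else 0 := by
  classical
  have h1 : Matrix.of (ac (Matrix.transvection i k (1 : ℝ)) X) =
      Matrix.transvection i k (1 : ℝ) * Matrix.of X := by
    ext a b
    rw [Matrix.mul_apply]
    rfl
  have h2 : ac (Matrix.transvection i k (1 : ℝ)) X a b =
      (Matrix.transvection i k (1 : ℝ) * Matrix.of X) a b := by
    rw [← h1]; rfl
  rw [h2]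
  by_cases h : a = i
  · subst h
    rw [Matrix.transvection_mul_apply_same]
    simp
  · rw [Matrix.transvection_mul_apply_of_ne _ _ _ _ h]
    simp [h]

theorem transvection_supp {n : ℕ} {P : Finset (Fin n)} {i k : Fin n} (h : i ∈ P ↔ k ∈ P)
    (a b : Fin n) (hab : (Matrix.transvection i k (1 : ℝ)) a b ≠ 0) : a ∈ P ↔ b ∈ P := by
  classical
  by_cases h1 : a = b
  · rw [h1]
  · rw [Matrix.transvection, Matrix.add_apply, Matrix.one_apply_ne h1, zero_add] at hab
    by_cases h2 : i = a ∧ k = b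
    · rw [← h2.1, ← h2.2]; exact h
    · rw [Matrix.single_apply, if_neg h2] at hab
      exact absurd rfl hab

/-- The conjugate of a block matrix by a transvection. -/
theorem conj_apply {n : ℕ} {i k : Fin n} (B : Matrix (Fin n) (Fin n) ℝ) (a b : Fin n) :
    (Matrix.transvection i k (1 : ℝ) * B * Matrix.transvection i k (-1 : ℝ) :
        Matrix (Fin n) (Fin n) ℝ) a b =
      (B a b + if a = i then B k b else 0) -
        if b = k then (B a i + if a = i then B k i else 0) else 0 := by
  classical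
  have h1 : ∀ b, (Matrix.transvection i k (1 : ℝ) * B : Matrix (Fin n) (Fin n) ℝ) a b =
      B a b + if a = i then B k b else 0 := by
    intro b
    by_cases h : a = i
    · subst h
      rw [Matrix.transvection_mul_apply_same]
      simp
    · rw [Matrix.transvection_mul_apply_of_ne _ _ _ _ h]
      simp [h]
  by_cases h : b = k
  · subst h
    rw [Matrix.mul_transvection_apply_same, h1, h1]
    simp only [if_true]
    ring
  · rw [Matrix.mul_transvection_apply_of_ne _ _ _ _ h, h1]
    simp [h]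

/-- The step for a pair: a nonzero block at two places. -/
theorem step_pair {n : ℕ} (hn : 3 ≤ n) {L : Fin n → Fin n → ℝ} (hL : LinearIndependent ℝ L)
    {c : ℝ} (hc : 0 < c) (hlow : ∀ p : Fin n → ℤ, p ≠ 0 → c ≤ |∏ i, ∑ j, L i j * (p j : ℝ)|)
    (hnot : ¬ Cn L) (P : Finset (Fin n)) (hP : P.Nonempty) (hP' : Pᶜ.Nonempty)
    (hcase : P.card = 1 ∨ P.card + 1 = n ∨ n.Prime) {i k : Fin n} (hik : i ≠ k)
    (hside : i ∈ P ↔ k ∈ P) (hpr : Pr (closure (orb L)) i k) :
    ∃ B : Matrix (Fin n) (Fin n) ℝ, (∀ a b, B a b ≠ 0 → a ∈ P ∧ b ∉ P) ∧ (∃ a b, B a b ≠ 0) ∧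
      (∀ a b, B a b ≠ 0 → Pr (closure (orb L)) a b) ∧
      (∀ a b, (B a b + (if a = i then B k b else 0)) -
        (if b = k then (B a i + if a = i then B k i else 0) else 0) ≠ 0 →
        Pr (closure (orb L)) a b) := by
  classical
  have hn1 : 1 ≤ n := by omega
  have hLdet := (li_iff_det L).mp hL
  have hD : 0 < |(Matrix.of L).det| := abs_pos.mpr hLdet
  have hG : Good c |(Matrix.of L).det| (closure (orb L)) :=
    ⟨fun L' hL' => orb_det hL', fun L' hL' => orb_lower hL' hlow⟩
  obtain ⟨β, hβ, hbox0⟩ := meets_box (n := n) hn1 hc hD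
  have hbox : Red (closure (orb L)) β := hbox0 _ (orb_CI L) hG
  obtain ⟨Z, hZ, Z', hZ', hrel⟩ := hpr
  have hZZ' : ac (Matrix.transvection i k 1) Z = Z' := by
    funext a b
    rw [ac_transvection, hrel]
  obtain ⟨z, hz, B, hB, hB0, hBz, huz, huBz⟩ := step_block hn hL hc hlow hnot P hP hP' hcase
    (Matrix.transvection i k 1) (transvection_supp hside) hZ (by rw [hZZ']; exact hZ')
  refine ⟨B, hB, hB0, fun a b hab => isolate (orb_CI L) hbox P B hB hz hBz hab, fun a b hab => ?_⟩
  set B' : Matrix (Fin n) (Fin n) ℝ :=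
    Matrix.transvection i k 1 * B * Matrix.transvection i k (-1) with hB'
  have hinv : Matrix.transvection i k (-1 : ℝ) * Matrix.transvection i k 1 = 1 := by
    rw [Matrix.transvection_mul_transvection_same _ _ hik]
    simp
  refine isolate (orb_CI L) hbox P B' ?_ huz ?_ (by rw [hB', conj_apply]; exact hab)
  · intro a b hab
    rw [hB', conj_apply] at hab
    by_contra hcon
    apply hab
    have e1 : B a b = 0 := by
      by_contra h; exact hcon (hB a b h)
    have e2 : (if a = i then B k b else 0) = 0 := by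
      split_ifs with h
      · by_contra h2
        have := hB k b h2
        apply hcon
        rw [h]
        exact ⟨hside.mpr this.1, this.2⟩
      · rfl
    have e3 : (if b = k then (B a i + if a = i then B k i else 0) else 0) = 0 := by
      split_ifs with h h'
      · have f1 : B a i = 0 := by
          by_contra h2
          have := hB a i h2
          apply hcon
          rw [h]
          exact ⟨this.1, fun h3 => this.2 (hside.mpr h3)⟩
        have f2 : B k i = 0 := by
          by_contra h2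
          have := hB k i h2
          exact this.2 (hside.mpr this.1)
        rw [f1, f2, add_zero]
      · rw [add_zero]
        by_contra h2
        have := hB a i h2
        apply hcon
        rw [h]
        exact ⟨this.1, fun h3 => this.2 (hside.mpr h3)⟩
      · rfl
    rw [e1, e2, e3]
    simp
  · rw [← ac_mul]
    have : (1 + B') * Matrix.transvection i k 1 = Matrix.transvection i k 1 * (1 + B) := by
      rw [hB', add_mul, one_mul, mul_add, mul_one, mul_assoc, hinv, mul_one]
    rw [this]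
    exact huBz

/-- Crossing edges. -/
theorem cross {n : ℕ} (hn : 3 ≤ n) {L : Fin n → Fin n → ℝ} (hL : LinearIndependent ℝ L)
    {c : ℝ} (hc : 0 < c) (hlow : ∀ p : Fin n → ℤ, p ≠ 0 → c ≤ |∏ i, ∑ j, L i j * (p j : ℝ)|)
    (hnot : ¬ Cn L) (P : Finset (Fin n)) (hP : P.Nonempty) (hP' : Pᶜ.Nonempty)
    (hcase : P.card = 1 ∨ P.card + 1 = n ∨ n.Prime) {i k : Fin n} (hik : i ≠ k)
    (hside : i ∈ P ↔ k ∈ P) (hpr : Pr (closure (orb L)) i k) :
    ∃ l ∈ P, ∃ m ∉ P, Pr (closure (orb L)) l m := by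
  obtain ⟨B, hB, ⟨a, b, hab⟩, h1, -⟩ := step_pair hn hL hc hlow hnot P hP hP' hcase hik hside hpr
  exact ⟨a, (hB a b hab).1, b, (hB a b hab).2, h1 a b hab⟩

/-- Edges leave every admissible set. -/
theorem leave {n : ℕ} (hn : 3 ≤ n) {L : Fin n → Fin n → ℝ} (hL : LinearIndependent ℝ L)
    {c : ℝ} (hc : 0 < c) (hlow : ∀ p : Fin n → ℤ, p ≠ 0 → c ≤ |∏ i, ∑ j, L i j * (p j : ℝ)|)
    (hnot : ¬ Cn L) (I : Finset (Fin n)) (hI : I.Nonempty) (hI' : Iᶜ.Nonempty)
    (hcase : I.card = 1 ∨ I.card + 1 = n ∨ n.Prime) :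
    ∃ l ∈ I, ∃ m ∉ I, Pr (closure (orb L)) l m := by
  classical
  by_contra hcon
  push Not at hcon
  have hcardn : I.card + Iᶜ.card = n := by
    rw [Finset.card_add_card_compl, Fintype.card_fin]
  obtain ⟨i, k, hik, hpr⟩ := base_edge hn hL hc hlow hnot
  have hcr := fun (P : Finset (Fin n)) hP hP' hcase (a b : Fin n) (hab : a ≠ b) hside hpr =>
    cross hn hL hc hlow hnot P hP hP' hcase (i := a) (k := b) hab hside hpr
  -- every edge goes from outside into I
  have hdir : ∀ a b : Fin n, a ≠ b → Pr (closure (orb L)) a b → a ∉ I ∧ b ∈ I := by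
    intro a b hab hab'
    by_cases hs : a ∈ I ↔ b ∈ I
    · obtain ⟨l, hl, m, hm, hlm⟩ := hcr I hI hI' hcase a b hab hs hab'
      exact absurd hlm (hcon l hl m hm)
    · by_cases ha : a ∈ I
      · have hb : b ∉ I := fun hb => hs ⟨fun _ => hb, fun _ => ha⟩
        exact absurd hab' (hcon a ha b hb)
      · refine ⟨ha, ?_⟩
        by_contra hb
        exact hs ⟨fun h => absurd h ha, fun h => absurd h hb⟩
  obtain ⟨hiI, hkI⟩ := hdir i k hik hpr
  -- a third index
  obtain ⟨m, hm⟩ : ∃ m : Fin n, m ∉ ({i, k} : Finset (Fin n)) := by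
    by_contra hcon2
    push Not at hcon2
    have h1 : Fintype.card (Fin n) ≤ 2 := by
      rw [← Finset.card_univ]
      calc _ ≤ ({i, k} : Finset (Fin n)).card := Finset.card_le_card fun σ _ => hcon2 σ
        _ ≤ 2 := Finset.card_le_two
    rw [Fintype.card_fin] at h1
    omega
  simp only [Finset.mem_insert, Finset.mem_singleton, not_or] at hm
  have hsingle : ({m} : Finset (Fin n))ᶜ.Nonempty := ⟨i, by simpa using (Ne.symm hm.1)⟩
  have hcm : ({m} : Finset (Fin n))ᶜ.card + 1 = n := by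
    have h1 := Finset.card_add_card_compl ({m} : Finset (Fin n))
    rw [Finset.card_singleton, Fintype.card_fin] at h1
    omega
  -- an edge out of m and an edge into m
  obtain ⟨l1, hl1, m1, hm1, he1⟩ := hcr {m} (Finset.singleton_nonempty m) hsingle
    (Or.inl (Finset.card_singleton m)) i k hik
    (by simp [Ne.symm hm.1, Ne.symm hm.2]) hpr
  rw [Finset.mem_singleton] at hl1 hm1
  subst hl1
  obtain ⟨l2, hl2, m2, hm2, he2⟩ := hcr ({l1}ᶜ) hsingle (by rw [compl_compl]; exact ⟨l1, by simp⟩)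
    (Or.inr (Or.inl hcm)) i k hik
    (by simp [Ne.symm hm.1, Ne.symm hm.2]) hpr
  rw [Finset.mem_compl, Finset.mem_singleton] at hl2
  rw [Finset.mem_compl, Finset.mem_singleton, not_not] at hm2
  subst hm2
  have h1 := hdir m2 m1 (Ne.symm hm1) he1
  have h2 := hdir l2 m2 hl2 he2
  exact h1.1 h2.2

/-- Three forms: one edge gives the two edges through the third index. -/
theorem third {n : ℕ} (hn3 : n = 3) {L : Fin n → Fin n → ℝ} (hL : LinearIndependent ℝ L)
    {c : ℝ} (hc : 0 < c) (hlow : ∀ p : Fin n → ℤ, p ≠ 0 → c ≤ |∏ i, ∑ j, L i j * (p j : ℝ)|)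
    (hnot : ¬ Cn L) {i k j : Fin n} (hik : i ≠ k) (hji : j ≠ i) (hjk : j ≠ k)
    (hpr : Pr (closure (orb L)) i k) :
    Pr (closure (orb L)) i j ∧ Pr (closure (orb L)) j k := by
  classical
  have hn : 3 ≤ n := hn3.ge
  have hall : ∀ a : Fin n, a = i ∨ a = k ∨ a = j := by
    have h1 : ({i, k, j} : Finset (Fin n)) = Finset.univ := by
      apply Finset.eq_univ_of_card
      rw [Finset.card_eq_three.mpr ⟨i, k, j, hik, hji.symm, hjk.symm, rfl⟩, Fintype.card_fin, hn3]
    intro a
    have h2 : a ∈ ({i, k, j} : Finset (Fin n)) := by rw [h1]; exact Finset.mem_univ a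
    simpa using h2
  constructor
  · -- the rows outside j, the column j
    have hPc : (({j} : Finset (Fin n))ᶜ).card + 1 = n := by
      have h1 := Finset.card_add_card_compl ({j} : Finset (Fin n))
      rw [Finset.card_singleton, Fintype.card_fin] at h1
      omega
    obtain ⟨B, hB, ⟨a, b, hab⟩, h1, h2⟩ := step_pair hn hL hc hlow hnot ({j}ᶜ)
      ⟨i, by simpa using hji.symm⟩ (by rw [compl_compl]; exact ⟨j, by simp⟩) (Or.inr (Or.inl hPc))
      hik (by simp [hji.symm, hjk.symm]) hpr
    by_cases hij : B i j = 0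
    · have hab' := hB a b hab
      simp only [Finset.mem_compl, Finset.mem_singleton, not_not] at hab'
      obtain ⟨haj, rfl⟩ := hab'
      have hak : a = k := by
        rcases hall a with h | h | h
        · subst h; exact absurd hij hab
        · exact h
        · exact absurd h haj
      subst hak
      refine h2 i b ?_
      rw [if_pos rfl, if_neg hjk, hij, zero_add, sub_zero]
      exact hab
    · exact h1 i j hij
  · obtain ⟨B, hB, ⟨a, b, hab⟩, h1, h2⟩ := step_pair hn hL hc hlow hnot {j}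
      (Finset.singleton_nonempty j) ⟨i, by simpa using hji.symm⟩
      (Or.inl (Finset.card_singleton j)) hik (by simp [hji.symm, hjk.symm]) hpr
    by_cases hjk0 : B j k = 0
    · have hab' := hB a b hab
      simp only [Finset.mem_singleton] at hab'
      obtain ⟨rfl, hbj⟩ := hab'
      have hbi : b = i := by
        rcases hall b with h | h | h
        · exact h
        · subst h; exact absurd hjk0 hab
        · exact absurd h hbj
      subst hbi
      refine h2 a k ?_
      rw [if_neg hji, if_pos rfl, if_neg hji, hjk0, add_zero, add_zero, zero_sub]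
      exact neg_ne_zero.mpr hab
    · exact h1 j k hjk0

/-- Three forms: all six directions occur. -/
theorem all_pairs {n : ℕ} (hn3 : n = 3) {L : Fin n → Fin n → ℝ} (hL : LinearIndependent ℝ L)
    {c : ℝ} (hc : 0 < c) (hlow : ∀ p : Fin n → ℤ, p ≠ 0 → c ≤ |∏ i, ∑ j, L i j * (p j : ℝ)|)
    (hnot : ¬ Cn L) (a b : Fin n) (hab : a ≠ b) : Pr (closure (orb L)) a b := by
  classical
  have hn : 3 ≤ n := hn3.ge
  obtain ⟨i, k, hik, hpr⟩ := base_edge hn hL hc hlow hnot
  obtain ⟨j, hj⟩ : ∃ j : Fin n, j ∉ ({i, k} : Finset (Fin n)) := by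
    by_contra hcon2
    push Not at hcon2
    have h1 : Fintype.card (Fin n) ≤ 2 := by
      rw [← Finset.card_univ]
      calc _ ≤ ({i, k} : Finset (Fin n)).card := Finset.card_le_card fun σ _ => hcon2 σ
        _ ≤ 2 := Finset.card_le_two
    rw [Fintype.card_fin] at h1
    omega
  simp only [Finset.mem_insert, Finset.mem_singleton, not_or] at hj
  have hall : ∀ a : Fin n, a = i ∨ a = k ∨ a = j := by
    have h1 : ({i, k, j} : Finset (Fin n)) = Finset.univ := by
      apply Finset.eq_univ_of_card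
      rw [Finset.card_eq_three.mpr ⟨i, k, j, hik, Ne.symm hj.1, Ne.symm hj.2, rfl⟩,
        Fintype.card_fin, hn3]
    intro a
    have h2 : a ∈ ({i, k, j} : Finset (Fin n)) := by rw [h1]; exact Finset.mem_univ a
    simpa using h2
  have ht := fun {i k j : Fin n} (h1 : i ≠ k) (h2 : j ≠ i) (h3 : j ≠ k) h4 =>
    third (i := i) (k := k) (j := j) hn3 hL hc hlow hnot h1 h2 h3 h4
  obtain ⟨hij, hjk⟩ := ht hik hj.1 hj.2 hpr
  obtain ⟨-, hkj⟩ := ht (Ne.symm hj.1) (Ne.symm hik) (Ne.symm hj.2) hij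
  obtain ⟨hji, -⟩ := ht hj.2 (Ne.symm hj.1) hik hjk
  obtain ⟨hki, -⟩ := ht (Ne.symm hj.2) hik (Ne.symm hj.1) hkj
  rcases hall a with rfl | rfl | rfl <;> rcases hall b with rfl | rfl | rfl
  · exact absurd rfl hab
  · exact hpr
  · exact hij
  · exact hki
  · exact absurd rfl hab
  · exact hkj
  · exact hji
  · exact hjk
  · exact absurd rfl hab

end Pool.Agent.Work.MP_77d073_nt.Root
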