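import Mathlib
import Pool.Agent.Work.MP_77d073_nt.Disc
import Pool.Agent.Work.MP_77d073_nt.HypResult

set_option autoImplicit false

namespace Pool.Agent.Work.MP_77d073_nt.ValueSetResult

open Filter Topology Pool.Agent.Work.MP_77d073_nt

/-- For `n ≥ 3` and each `c, D > 0` there is `T` such that for every system `L` with determinant
`± D` whose product is at least `c` in absolute value on nonzero integer points, the conclusion of
Oppenheim's conjecture holds for `L` exactly when the closure of the set of values of the product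
at integer points has only countably many elements in `[-T, T]`. -/
theorem result :
    ∀ n : ℕ, 3 ≤ n → ∀ c D : ℝ, 0 < c → 0 < D → ∃ T : ℝ, ∀ L : Fin n → Fin n → ℝ,
      |(Matrix.of L).det| = D →
      (∀ p : Fin n → ℤ, p ≠ 0 → c ≤ |∏ i, ∑ j, L i j * (p j : ℝ)|) →
      ((∃ A : Matrix (Fin n) (Fin n) ℤ,
        A.det = 1 ∧
        Irreducible (A.charpoly.map (Int.castRingHom ℚ)) ∧
        (∀ z : ℂ, Polynomial.aeval z A.charpoly = 0 → z.im = 0) ∧
        ∀ i : Fin n, ∀ x : Fin n → ℝ, ∑ j, L i j * x j = 0 →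
          ∑ j, L i j * ((A.map (Int.cast : ℤ → ℝ)).mulVec x) j = 0) ↔
      (closure (Set.range fun p : Fin n → ℤ => ∏ i, ∑ j, L i j * (p j : ℝ)) ∩
        Set.Icc (-T) T).Countable) := by
  classical
  intro n hn c D hc hD
  have hn1 : 1 ≤ n := by omega
  obtain ⟨β, hβ, hbox⟩ := meets_box (n := n) hn1 hc hD
  refine ⟨(n * (β * n)) ^ n, fun L hdet hlow => ⟨?_, ?_⟩⟩
  · rintro ⟨A, -, hirr, -, hinv⟩
    have hLdet : (Matrix.of L).det ≠ 0 := by
      intro h0; rw [h0, abs_zero] at hdet; exact hD.ne hdet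
    have hrow : ∀ i, L i ≠ 0 := fun i => ((li_iff_det L).mpr hLdet).ne_zero i
    choose μ hμ using fun i => eigen_of_hyper (hrow i) (hinv i)
    have hμ' : ∀ i k, ∑ j, L i j * (A j k : ℝ) = μ i * L i k := fun i k => hμ i k
    obtain ⟨C, hC⟩ := values_of_matrix (eigen_injective hLdet hirr hμ') hμ'
    have hclosed : IsClosed (Set.range fun z : ℤ => C * (z : ℝ)) := by
      by_cases hC0 : C = 0
      · have : (Set.range fun z : ℤ => C * (z : ℝ)) = {0} := by
          ext y; simp [hC0]
        rw [this]; exact isClosed_singleton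
      · have h1 : (Set.range fun z : ℤ => C * (z : ℝ)) =
            (Homeomorph.mulLeft₀ C hC0) '' (Set.range (Int.cast : ℤ → ℝ)) := by
          rw [← Set.range_comp]; rfl
        rw [h1]
        exact (Homeomorph.mulLeft₀ C hC0).isClosedMap _ Int.isClosedEmbedding_coe_real.isClosed_range
    have hsub : closure (Set.range fun p : Fin n → ℤ => ∏ i, ∑ j, L i j * (p j : ℝ)) ⊆
        Set.range fun z : ℤ => C * (z : ℝ) := by
      apply closure_minimal _ hclosed
      rintro y ⟨p, rfl⟩
      obtain ⟨z, hz⟩ := hC p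
      exact ⟨z, hz.symm⟩
    exact ((Set.countable_range _).mono hsub).mono Set.inter_subset_left
  · intro hcount
    have hG : Good c D (closure (orb L)) :=
      ⟨fun L' hL' => (orb_det hL').trans hdet, fun L' hL' => orb_lower hL' hlow⟩
    obtain ⟨Y, hYS, hY, hYne, hmin⟩ := exists_minimal hn1 hc hD (orb_CI L) hG
      ⟨L, subset_closure (self_mem_orb L)⟩
    have hGY := hG.mono hYS
    obtain ⟨L₀, hL₀, U, hU, hL₀U, hiso⟩ := exists_isolated hD hβ.le hY hGY hYne (hbox Y hY hGY)
      (V := closure (Set.range fun p : Fin n → ℤ => ∏ i, ∑ j, L i j * (p j : ℝ))) (by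
        intro L' hL' p
        obtain ⟨M, t, hM, ht, hlim⟩ := mem_closure_orb (hYS hL')
        have h1 : Tendsto (fun k => val (tr L (M k) (t k)) (fun j => (p j : ℝ))) atTop
            (𝓝 (val L' (fun j => (p j : ℝ)))) := by
          refine ((val_cont (fun j => (p j : ℝ))).tendsto L').comp ?_
          exact tendsto_pi_nhds.mpr fun i => tendsto_pi_nhds.mpr fun j => hlim i j
        refine mem_closure_of_tendsto h1 (Eventually.of_forall fun k => ?_)
        refine ⟨(M k).mulVec p, ?_⟩
        rw [val_tr L (M k) (ht k)]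
        unfold val
        refine Finset.prod_congr rfl fun i _ => Finset.sum_congr rfl fun j _ => ?_
        simp [Matrix.mulVec, dotProduct]) hcount
    obtain ⟨A, hA, μ, hμinj, hμ⟩ := exists_eigen hn1 hY (hbox Y hY hGY) hmin hL₀ hU hL₀U hiso
    have hLdet : (Matrix.of L).det ≠ 0 := by
      intro h0; rw [h0, abs_zero] at hdet; exact hD.ne hdet
    obtain ⟨M, t, hM, ht, hlim⟩ := mem_closure_orb (hYS hL₀)
    have hirr : Irreducible (A.map (Int.castRingHom ℚ)).charpoly := by
      refine irr_of_eigen (hGY.ne hD hL₀) hn1 ?_ hμinj (fun i k => ?_)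
      · intro p hp i h0
        have h1 := hGY.low L₀ hL₀ p hp
        rw [Finset.prod_eq_zero (Finset.mem_univ i) h0, abs_zero] at h1
        linarith
      · rw [← hμ i k]
        refine Finset.sum_congr rfl fun j _ => ?_
        simp
    refine Pool.Agent.Work.MP_77d073_nt.HypResult.result n hn L ((li_iff_det L).mpr hLdet) ⟨c, hc, hlow⟩ M t L₀
      (fun k => (hM k).ne_zero) ht hlim ⟨0, by omega⟩ (A.map (Int.castRingHom ℚ)) hirr ?_
    intro x hx
    have h1 : ∀ j, (((A.map (Int.castRingHom ℚ)).map (Rat.cast : ℚ → ℝ)).mulVec x) j =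
        ∑ k, (A j k : ℝ) * x k := by
      intro j
      simp [Matrix.mulVec, dotProduct]
    simp_rw [h1, Finset.mul_sum]
    rw [Finset.sum_comm]
    simp_rw [← mul_assoc, ← Finset.sum_mul, hμ, mul_assoc]
    rw [← Finset.mul_sum, hx, mul_zero]

end Pool.Agent.Work.MP_77d073_nt.ValueSetResult
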